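import Mathlib
import Pool.Agent.Lib.P4a7640Y.SqId
import Pool.Agent.Lib.P4a7640K.Par
import Pool.Agent.Lib.P4a7640D.Base

/-!
# The slow class of a metric family: definitions

The primes are sorted in blocks `be p = j`, that is `2 ^ 2 ^ j ≤ p < 2 ^ 2 ^ (j + 1)`. At the scale
`N` the primes with `be p < b`, `b = be N - j`, are arbitrary, those with `b ≤ be p < c`,
`c = be N - i`, form the window, and those with `c ≤ be p` are the rest.
-/

open Filter MeasureTheory Finset

namespace Pool.Agent.Lib.P4a7640X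

open Pool.Agent.Lib.P4a7640 Pool.Agent.Lib.P4a7640D

/-- the part of `k` composed of the primes of the blocks below `b` -/
def sm (b k : ℕ) : ℕ := k.factorization.prod fun p e => if be p < b then p ^ e else 1

/-- the tuple of these parts for the shifts of `n`, with the value `1` outside `H` -/
def cls (b : ℕ) (H : Finset ℕ) (n : ℕ) : ℕ → ℕ := fun h => if h ∈ H then sm b (n + h) else 1

/-- the primes of the blocks from `c` on that divide one of the shifts of `n` -/
def rest (c : ℕ) (H : Finset ℕ) (n : ℕ) : Finset ℕ := (MM H n).primeFactors.filter fun p => c ≤ be p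

/-- the window of primes -/
def win (b c : ℕ) : Finset ℕ := (Finset.Icc 1 (2 ^ 2 ^ c)).filter fun p => p.Prime ∧ b ≤ be p ∧ be p < c

/-- the good integers -/
def Good (b c t K : ℕ) (H : Finset ℕ) (n : ℕ) : Prop :=
  (∀ h ∈ H, ∀ p : ℕ, p.Prime → b ≤ be p → ¬ p ^ 2 ∣ n + h) ∧ (rest c H n).card ≤ t ∧
    ∀ h ∈ H, sm b (n + h) ≤ K

/-- the lower bound for the primes in the sieve -/
def w0 (H : Finset ℕ) : ℕ := H.sup id + 1 + (2 * (H.card + 1)) ^ 2

/-- the truncation of `∑ (-1)^r C(K, r)` at the even index `2 e` -/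
def EV (e K : ℕ) : ℝ := ∑ r ∈ range (2 * e + 1), (-1:ℝ) ^ r * (K.choose r : ℝ)

/-- the upper bound sieve for the primes of `D`, all in the blocks below `b` -/
def LV (R b : ℕ) (H D : Finset ℕ) (n : ℕ) : ℝ :=
  ∏ j ∈ range b, EV ((R + (b - 1 - j)) / 2) (P4a7640D.KK H (D.filter fun p => be p = j) n)

/-- the primes that are sieved in the class `a` -/
def Da (b : ℕ) (H : Finset ℕ) (a : ℕ → ℕ) : Finset ℕ :=
  (Finset.Icc 1 (2 ^ 2 ^ b)).filter fun p => p.Prime ∧ be p < b ∧ w0 H ≤ p ∧ ∀ h ∈ H, ¬ p ∣ a h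

/-- the majorant of the class `a` -/
noncomputable def VA (R b : ℕ) (H : Finset ℕ) (a : ℕ → ℕ) (n : ℕ) : ℝ :=
  (if ∀ h ∈ H, a h ∣ n + h then 1 else 0) * LV R b H (Da b H a) n

/-- the sieve product -/
noncomputable def VD (b : ℕ) (H : Finset ℕ) : ℝ :=
  ∏ p ∈ (Finset.Icc 1 (2 ^ 2 ^ b)).filter (fun p => p.Prime ∧ be p < b ∧ w0 H ≤ p),
    (1 - (H.card:ℝ) / p)

/-- the factor for the primes that are not sieved -/
noncomputable def bt (H : Finset ℕ) (s : ℕ) : ℝ :=
  ∏ p ∈ s.primeFactors.filter (fun p => w0 H ≤ p), (1 - (H.card:ℝ) / p)⁻¹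

/-- the model for the density of the class `a` -/
noncomputable def qt (b : ℕ) (H : Finset ℕ) (a : ℕ → ℕ) : ℝ :=
  VD b H * ∏ h ∈ H, bt H (a h) / (a h : ℝ)

/-- an admissible tuple: positive, composed of the primes of the blocks below `b`, at most `K`, and
`1` outside `H` -/
def Adm (b K : ℕ) (H : Finset ℕ) (a : ℕ → ℕ) : Prop :=
  (∀ h ∈ H, 1 ≤ a h ∧ a h ≤ K ∧ ∀ p ∈ (a h).primeFactors, be p < b) ∧ ∀ h, h ∉ H → a h = 1

end Pool.Agent.Lib.P4a7640X
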