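import Mathlib
import Pool.Agent.Lib.P4a7640X.Par

/-!
# Smooth parts and the splitting of the sign of a good integer

`sm b k` is the product of the prime powers `p ^ e ∥ k` with `be p < b`.

`prod_split`: for `h ∈ H` put `m = n + h`. `rnd y` is completely multiplicative, so
`rnd y m = rnd y (sm b m) * ∏ p ∈ m.primeFactors.filter (b ≤ be p), y p ^ (m.factorization p)`, and the
exponents are `1` since `p ^ 2 ∤ m`. The primes with `b ≤ be p < c` form
`(win b c).filter (p ∣ n + h)`, which gives `WW`. The primes with `c ≤ be p`: `rest c H n` is the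
disjoint union over `h ∈ H` of the primes `p ∣ n + h` with `c ≤ be p`: a prime `p > H.sup id` divides
at most one of the `n + h`.
-/

open Filter MeasureTheory Finset

namespace Pool.Agent.Lib.P4a7640X

open Pool.Agent.Lib.P4a7640 Pool.Agent.Lib.P4a7640D

lemma sm_eq (b k : ℕ) : sm b k = ∏ p ∈ k.primeFactors,
    if be p < b then p ^ k.factorization p else 1 := by
  unfold sm
  rw [Finsupp.prod, Nat.support_factorization]

lemma sm_pos (b k : ℕ) : 0 < sm b k := by
  rw [sm_eq]
  refine Finset.prod_pos fun p hp => ?_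
  have hp0 : 0 < p := (Nat.prime_of_mem_primeFactors hp).pos
  split_ifs
  · exact pow_pos hp0 _
  · exact one_pos

lemma sm_dvd {k : ℕ} (hk : 0 < k) (b : ℕ) : sm b k ∣ k := by
  conv_rhs => rw [← Nat.prod_factorization_pow_eq_self hk.ne']
  unfold sm
  refine Finset.prod_dvd_prod_of_dvd _ _ fun p _ => ?_
  dsimp only
  split_ifs
  · exact dvd_rfl
  · exact one_dvd _

lemma prime_dvd_sm {p k : ℕ} (hp : p.Prime) (hk : 0 < k) (b : ℕ) : p ∣ sm b k ↔ p ∣ k ∧ be p < b := by
  constructor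
  · intro h
    refine ⟨h.trans (sm_dvd hk b), ?_⟩
    rw [sm_eq] at h
    obtain ⟨q, hq, h1⟩ := (hp.prime.dvd_finset_prod_iff _).1 h
    have hq' := Nat.prime_of_mem_primeFactors hq
    split_ifs at h1 with h2
    · rwa [(Nat.prime_dvd_prime_iff_eq hp hq').1 (hp.dvd_of_dvd_pow h1)]
    · exact absurd (Nat.dvd_one.1 h1) hp.one_lt.ne'
  · rintro ⟨h1, h2⟩
    rw [sm_eq]
    have hmem : p ∈ k.primeFactors := Nat.mem_primeFactors.2 ⟨hp, h1, hk.ne'⟩
    refine dvd_trans ?_ (Finset.dvd_prod_of_mem _ hmem)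
    rw [if_pos h2]
    have h3 : k.factorization p ≠ 0 := by
      have := (hp.dvd_iff_one_le_factorization hk.ne').1 h1
      omega
    exact dvd_pow_self p h3

lemma cls_adm {b c t K : ℕ} {H : Finset ℕ} {n : ℕ} (hn : 0 < n) (h : Good b c t K H n) :
    Adm b K H (cls b H n) := by
  refine ⟨fun h' hh => ?_, fun h' hh => ?_⟩
  · unfold cls
    rw [if_pos hh]
    refine ⟨sm_pos _ _, h.2.2 h' hh, fun p hp => ?_⟩
    have hp' := Nat.mem_primeFactors.1 hp
    exact ((prime_dvd_sm hp'.1 (by omega) b).1 hp'.2.1).2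
  · unfold cls
    rw [if_neg hh]

lemma rnd_eq_prod (y : SS) (k : ℕ) : rnd y k = ∏ p ∈ k.primeFactors, y p ^ k.factorization p := by
  unfold rnd
  rw [Finsupp.prod, Nat.support_factorization]

lemma rnd_pp (y : SS) {p : ℕ} (hp : p.Prime) (e : ℕ) : rnd y (p ^ e) = y p ^ e := by
  unfold rnd
  rw [hp.factorization_pow]
  rcases Nat.eq_zero_or_pos e with rfl | he
  · simp
  · rw [Finsupp.prod, Finsupp.support_single_ne_zero _ he.ne', Finset.prod_singleton,
      Finsupp.single_eq_same]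

lemma rnd_sm (y : SS) (b k : ℕ) : rnd y (sm b k) = ∏ p ∈ k.primeFactors,
    if be p < b then y p ^ k.factorization p else 1 := by
  rw [sm_eq, rnd_prod]
  · refine Finset.prod_congr rfl fun p hp => ?_
    split_ifs
    · exact rnd_pp y (Nat.prime_of_mem_primeFactors hp) _
    · exact rnd_one y
  · intro p hp
    have hp0 : 0 < p := (Nat.prime_of_mem_primeFactors hp).pos
    split_ifs
    · exact (pow_pos hp0 _).ne'
    · exact one_ne_zero

/-- the splitting of `rnd y k` -/
lemma sg_rnd_split (y : SS) {b k : ℕ} (hk : 0 < k)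
    (hsq : ∀ p : ℕ, p.Prime → b ≤ be p → ¬ p ^ 2 ∣ k) :
    sg (rnd y k) = sg (rnd y (sm b k)) *
      ∏ p ∈ k.primeFactors.filter (fun p => b ≤ be p), sg (y p) := by
  rw [← sg_prod, ← sg_mul, rnd_eq_prod, rnd_sm, Finset.prod_filter, ← Finset.prod_mul_distrib]
  congr 1
  refine Finset.prod_congr rfl fun p hp => ?_
  have hp' := Nat.mem_primeFactors.1 hp
  rcases Nat.lt_or_ge (be p) b with h | h
  · rw [if_pos h, if_neg (by omega), mul_one]
  · rw [if_neg (by omega), if_pos h, one_mul]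
    have h1 : 1 ≤ k.factorization p := (hp'.1.dvd_iff_one_le_factorization hk.ne').1 hp'.2.1
    have h2 : ¬ 2 ≤ k.factorization p := fun h2 =>
      hsq p hp'.1 h ((hp'.1.pow_dvd_iff_le_factorization hk.ne').2 h2)
    rw [show k.factorization p = 1 by omega, pow_one]

theorem lt_be' (p : ℕ) : p < 2 ^ (2 ^ (be p + 1)) := by
  have h1 : p < 2 ^ (Nat.log 2 p + 1) := Nat.lt_pow_succ_log_self (by norm_num) p
  have h2 : Nat.log 2 p < 2 ^ (Nat.log 2 (Nat.log 2 p) + 1) :=
    Nat.lt_pow_succ_log_self (by norm_num) _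
  exact lt_of_lt_of_le h1 (Nat.pow_le_pow_right (by norm_num) h2)

/-- the primes of a factor in the window -/
lemma win_filter {b c k : ℕ} (hk : 0 < k) :
    (k.primeFactors.filter fun p => b ≤ be p).filter (fun p => be p < c) =
      (win b c).filter (fun p => p ∣ k) := by
  ext p
  unfold win
  simp only [Finset.mem_filter, Nat.mem_primeFactors, Finset.mem_Icc]
  constructor
  · rintro ⟨⟨⟨h1, h2, h3⟩, h4⟩, h5⟩
    refine ⟨⟨⟨h1.pos, ?_⟩, h1, h4, h5⟩, h2⟩
    refine (lt_be' p).le.trans ?_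
    exact Nat.pow_le_pow_right (by norm_num) (Nat.pow_le_pow_right (by norm_num) (by omega))
  · rintro ⟨⟨⟨_, _⟩, h1, h4, h5⟩, h2⟩
    exact ⟨⟨⟨h1, h2, hk.ne'⟩, h4⟩, h5⟩

/-- the primes of the shifts of `n` -/
lemma rest_eq {c : ℕ} {H : Finset ℕ} {n : ℕ} (hn : 0 < n) :
    rest c H n = H.biUnion fun h => (n + h).primeFactors.filter fun p => c ≤ be p := by
  ext p
  unfold rest MM
  simp only [Finset.mem_filter, Nat.mem_primeFactors, Finset.mem_biUnion]
  constructor
  · rintro ⟨⟨h1, h2, h3⟩, h4⟩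
    obtain ⟨h, hh, h5⟩ := (h1.prime.dvd_finset_prod_iff _).1 h2
    exact ⟨h, hh, ⟨h1, h5, by omega⟩, h4⟩
  · rintro ⟨h, hh, ⟨h1, h2, _⟩, h4⟩
    refine ⟨⟨h1, h2.trans (Finset.dvd_prod_of_mem _ hh), ?_⟩, h4⟩
    exact Finset.prod_ne_zero_iff.2 fun h' _ => by omega

theorem prod_split {b c t K : ℕ} {H : Finset ℕ} {n : ℕ} (hn : 0 < n) (hbc : b ≤ c)
    (hg : Good b c t K H n) (hb : ∀ p : ℕ, p.Prime → b ≤ be p → H.sup id < p) {y : SS}
    {φ : ℕ → UnitAddCircle → ℝ} {a : ℕ → ℕ} {x : UnitAddCircle}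
    (hy : ∀ p : ℕ, p.Prime → b ≤ be p → sg (y p) = φ p (a p • x)) :
    ∏ h ∈ H, sg (rnd y (n + h)) = (∏ h ∈ H, sg (rnd y (cls b H n h))) *
      (P4a7640Y.WW φ a H (win b c) n x * ∏ p ∈ rest c H n, φ p (a p • x)) := by
  classical
  have hdisj : ∀ h ∈ H, ∀ h' ∈ H, h ≠ h' →
      Disjoint ((n + h).primeFactors.filter fun p => c ≤ be p)
        ((n + h').primeFactors.filter fun p => c ≤ be p) := by
    have key : ∀ h ∈ H, ∀ h' ∈ H, h < h' → ∀ p : ℕ, p.Prime → c ≤ be p → p ∣ n + h →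
        p ∣ n + h' → False := by
      intro h _ h' hh' hlt p hp hc h1 h2
      have h3 : p ∣ h' - h := by
        have h4 := Nat.dvd_sub h2 h1
        rwa [show n + h' - (n + h) = h' - h by omega] at h4
      have h5 : p ≤ h' - h := Nat.le_of_dvd (by omega) h3
      have h6 : h' ≤ H.sup id := Finset.le_sup (f := id) hh'
      have h7 := hb p hp (hbc.trans hc)
      omega
    intro h hh h' hh' hne
    rw [Finset.disjoint_left]
    intro p hp hp'
    have q1 := Finset.mem_filter.1 hp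
    have q2 := Finset.mem_filter.1 hp'
    have q3 := Nat.mem_primeFactors.1 q1.1
    have q4 := Nat.mem_primeFactors.1 q2.1
    rcases Nat.lt_or_gt_of_ne hne with hlt | hlt
    · exact key h hh h' hh' hlt p q3.1 q1.2 q3.2.1 q4.2.1
    · exact key h' hh' h hh hlt p q3.1 q1.2 q4.2.1 q3.2.1
  rw [rest_eq hn, Finset.prod_biUnion hdisj]
  unfold P4a7640Y.WW
  rw [← Finset.prod_mul_distrib, ← Finset.prod_mul_distrib]
  refine Finset.prod_congr rfl fun h hh => ?_
  have hk : 0 < n + h := by omega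
  rw [sg_rnd_split y hk (hg.1 h hh)]
  unfold cls
  rw [if_pos hh]
  congr 1
  rw [← Finset.prod_filter_mul_prod_filter_not ((n + h).primeFactors.filter fun p => b ≤ be p)
    (fun p => be p < c), win_filter hk]
  congr 1
  · refine Finset.prod_congr rfl fun p hp => ?_
    have hp' := (Finset.mem_filter.1 (Finset.mem_filter.1 hp).1).2
    exact hy p hp'.1 hp'.2.1
  · have hset : ((n + h).primeFactors.filter fun p => b ≤ be p).filter (fun p => ¬ be p < c) =
        (n + h).primeFactors.filter fun p => c ≤ be p := by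
      ext p
      simp only [Finset.mem_filter]
      constructor
      · rintro ⟨⟨h1, _⟩, h3⟩
        exact ⟨h1, by omega⟩
      · rintro ⟨h1, h2⟩
        exact ⟨⟨h1, by omega⟩, by omega⟩
    rw [hset]
    refine Finset.prod_congr rfl fun p hp => ?_
    have hp' := Finset.mem_filter.1 hp
    exact hy p (Nat.prime_of_mem_primeFactors hp'.1) (hbc.trans hp'.2)

end Pool.Agent.Lib.P4a7640X
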