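import Mathlib
import Pool.Agent.Lib.P4a7640X.Par

/-!
# The residue class of a tuple of divisors

Module P4a7640X.LcmH (0.6 h).

`q = H.lcm a`. If `n₀` is in the set then `n` is in the set iff `a h ∣ n - n₀` for all `h`, iff
`n ≡ n₀ [MOD q]`. The inequality `∏ a h ≤ C q` with `C = ∏_{h, h' ∈ H, h ≠ h'} |h - h'|`: induction on
`H`; `gcd (lcm_{h' ∈ H'} a h') (a h) ∣ ∏_{h' ∈ H'} gcd (a h') (a h)` and `gcd (a h') (a h) ∣ |h - h'|`
because both numbers divide the difference of `n₀ + h'` and `n₀ + h`.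
-/

open Filter MeasureTheory Finset

namespace Pool.Agent.Lib.P4a7640X

open Pool.Agent.Lib.P4a7640 Pool.Agent.Lib.P4a7640D

private theorem gcd_prod_dvd_aux (H : Finset ℕ) (a : ℕ → ℕ) (b : ℕ) :
    Nat.gcd (∏ h ∈ H, a h) b ∣ ∏ h ∈ H, Nat.gcd (a h) b := by
  classical
  induction H using Finset.induction_on with
  | empty => simp
  | insert x s hx ih =>
    rw [Finset.prod_insert hx, Finset.prod_insert hx]
    exact (Nat.gcd_mul_left_dvd_mul_gcd b (a x) (∏ h ∈ s, a h)).trans (Nat.mul_dvd_mul_left _ ih)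

theorem lcm_class (H : Finset ℕ) : ∃ C : ℝ, 0 < C ∧ ∀ a : ℕ → ℕ, (∀ h ∈ H, 1 ≤ a h) →
    (∃ n₀ : ℕ, ∀ h ∈ H, a h ∣ n₀ + h) →
    ∃ q r : ℕ, 0 < q ∧ q ∣ ∏ h ∈ H, a h ∧ (∏ h ∈ H, (a h : ℝ)) ≤ C * q ∧
      ∀ n : ℕ, (∀ h ∈ H, a h ∣ n + h) ↔ n ≡ r [MOD q] := by
  classical
  induction H using Finset.induction_on with
  | empty =>
    refine ⟨1, one_pos, fun a _ _ => ⟨1, 0, one_pos, by simp, by simp, fun n => ?_⟩⟩
    simp [Nat.modEq_one]
  | insert h s hh ih =>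
    obtain ⟨C, hC, ih⟩ := ih
    set D : ℕ := ∏ h' ∈ s, Int.natAbs ((h:ℤ) - h') with hD
    have hDpos : 0 < D := by
      apply Finset.prod_pos
      intro h' hh'
      have : (h:ℤ) ≠ h' := by
        intro e
        exact hh (by have : h = h' := by exact_mod_cast e
                     rw [this]; exact hh')
      omega
    refine ⟨C * D, by positivity, fun a ha1 hn => ?_⟩
    obtain ⟨n₀, hn₀⟩ := hn
    have hs1 : ∀ h' ∈ s, 1 ≤ a h' := fun h' hh' => ha1 h' (Finset.mem_insert_of_mem hh')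
    have hs2 : ∀ h' ∈ s, a h' ∣ n₀ + h' := fun h' hh' => hn₀ h' (Finset.mem_insert_of_mem hh')
    have hh1 : 1 ≤ a h := ha1 h (Finset.mem_insert_self _ _)
    have hh2 : a h ∣ n₀ + h := hn₀ h (Finset.mem_insert_self _ _)
    obtain ⟨q, r, hq, hqd, hqC, hqr⟩ := ih a hs1 ⟨n₀, hs2⟩
    have hn0r : n₀ ≡ r [MOD q] := (hqr n₀).1 hs2
    refine ⟨Nat.lcm q (a h), n₀, Nat.lcm_pos hq hh1, ?_, ?_, ?_⟩
    · rw [Finset.prod_insert hh, mul_comm (a h)]
      exact (Nat.lcm_dvd_mul _ _).trans (Nat.mul_dvd_mul_right hqd _)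
    · have hg : Nat.gcd q (a h) ≤ D := by
        apply Nat.le_of_dvd hDpos
        refine (Nat.gcd_dvd_gcd_of_dvd_left (a h) hqd).trans ((gcd_prod_dvd_aux s a (a h)).trans ?_)
        apply Finset.prod_dvd_prod_of_dvd
        intro h' hh'
        have e1 : (Nat.gcd (a h') (a h) : ℤ) ∣ ((n₀ + h' : ℕ) : ℤ) :=
          Int.natCast_dvd_natCast.2 ((Nat.gcd_dvd_left _ _).trans (hs2 h' hh'))
        have e2 : (Nat.gcd (a h') (a h) : ℤ) ∣ ((n₀ + h : ℕ) : ℤ) :=
          Int.natCast_dvd_natCast.2 ((Nat.gcd_dvd_right _ _).trans hh2)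
        have e3 : (Nat.gcd (a h') (a h) : ℤ) ∣ (h:ℤ) - h' := by
          have := dvd_sub e2 e1
          have e : ((n₀ + h : ℕ) : ℤ) - ((n₀ + h' : ℕ) : ℤ) = (h:ℤ) - h' := by push_cast; ring
          rwa [e] at this
        exact Int.natCast_dvd.1 e3
      have hgl : (Nat.gcd q (a h) : ℝ) * (Nat.lcm q (a h) : ℝ) = q * a h := by
        exact_mod_cast Nat.gcd_mul_lcm q (a h)
      have hgR : (Nat.gcd q (a h) : ℝ) ≤ D := by exact_mod_cast hg
      have hlR : (0:ℝ) ≤ (Nat.lcm q (a h) : ℝ) := Nat.cast_nonneg _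
      rw [Finset.prod_insert hh]
      calc (a h : ℝ) * ∏ h' ∈ s, (a h' : ℝ) ≤ (a h : ℝ) * (C * q) :=
            mul_le_mul_of_nonneg_left hqC (Nat.cast_nonneg _)
        _ = C * (q * a h) := by ring
        _ = C * ((Nat.gcd q (a h) : ℝ) * (Nat.lcm q (a h) : ℝ)) := by rw [hgl]
        _ ≤ C * (D * (Nat.lcm q (a h) : ℝ)) :=
            mul_le_mul_of_nonneg_left (mul_le_mul_of_nonneg_right hgR hlR) hC.le
        _ = C * D * (Nat.lcm q (a h) : ℝ) := by ring
    · intro n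
      have key : (a h ∣ n + h) ↔ n ≡ n₀ [MOD a h] := by
        constructor
        · intro hd
          have : n + h ≡ n₀ + h [MOD a h] :=
            ((Nat.modEq_zero_iff_dvd.2 hd).trans (Nat.modEq_zero_iff_dvd.2 hh2).symm)
          exact Nat.ModEq.add_right_cancel' h this
        · intro hd
          exact Nat.modEq_zero_iff_dvd.1
            ((Nat.ModEq.add_right h hd).trans (Nat.modEq_zero_iff_dvd.2 hh2))
      have key2 : (∀ h' ∈ s, a h' ∣ n + h') ↔ n ≡ n₀ [MOD q] := by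
        rw [hqr n]
        exact ⟨fun e => e.trans hn0r.symm, fun e => e.trans hn0r⟩
      rw [Finset.forall_mem_insert, key, key2]
      constructor
      · rintro ⟨e1, e2⟩
        have d1 := (Nat.modEq_iff_dvd.1 e1)
        have d2 := (Nat.modEq_iff_dvd.1 e2)
        refine Nat.modEq_iff_dvd.2 ?_
        rw [Int.natCast_dvd] at d1 d2 ⊢
        exact Nat.lcm_dvd d2 d1
      · intro e
        exact ⟨e.of_dvd (Nat.dvd_lcm_right _ _), e.of_dvd (Nat.dvd_lcm_left _ _)⟩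

end Pool.Agent.Lib.P4a7640X
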