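import Mathlib
import Pool.Agent.Lib.P4a7640X.Par
import Pool.Agent.Lib.P4a7640X.SmA
import Pool.Agent.Lib.P4a7640D.MainTerm
import Pool.Agent.Lib.P4a7640D.BlockMass

/-!
# The upper bound sieve: the truncation at even indices

Module P4a7640X.SieveU.

`EV e 0 = 1` and `EV e (K + 1) = C(K, 2 e)`. `main_even`: with `w p = m / p` the alternating sum of
the elementary symmetric functions up to an even index lies between `∏ (1 - w p)` and
`∏ (1 - w p)` plus the next term, by induction on the set; the next term is at most `X ^ n / n !`, and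
the product of the relative errors over the blocks is bounded by a convergent series.
-/

open Filter MeasureTheory Finset

namespace Pool.Agent.Lib.P4a7640X

open Pool.Agent.Lib.P4a7640 Pool.Agent.Lib.P4a7640D

namespace SieveUAux

/-- the alternating sum of binomial coefficients -/
lemma alt_choose (K m : ℕ) :
    ∑ r ∈ range (m + 1), (-1:ℝ) ^ r * ((K + 1).choose r : ℝ) = (-1) ^ m * (K.choose m : ℝ) := by
  induction m with
  | zero => simp
  | succ m ih =>
    rw [Finset.sum_range_succ, ih, Nat.choose_succ_succ]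
    push_cast
    ring

/-- the alternating sum of the elementary symmetric functions -/
noncomputable def alt (w : ℕ → ℝ) (D : Finset ℕ) (R : ℕ) : ℝ :=
  ∑ r ∈ range (R + 1), (-1:ℝ) ^ r * esy w D r

lemma alt_zero (w : ℕ → ℝ) (D : Finset ℕ) : alt w D 0 = 1 := by
  simp [alt, MainTermAux.esy_zero]

lemma alt_succ (w : ℕ → ℝ) (D : Finset ℕ) (R : ℕ) :
    alt w D (R + 1) = alt w D R + (-1:ℝ) ^ (R + 1) * esy w D (R + 1) := by
  unfold alt
  rw [Finset.sum_range_succ]

lemma alt_empty (w : ℕ → ℝ) (R : ℕ) : alt w ∅ R = 1 := by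
  induction R with
  | zero => exact alt_zero w ∅
  | succ R ih => rw [alt_succ, ih, MainTermAux.esy_empty_succ]; simp

lemma alt_insert (w : ℕ → ℝ) {D : Finset ℕ} {p : ℕ} (hp : p ∉ D) (R : ℕ) :
    alt w (insert p D) (R + 1) = alt w D (R + 1) - w p * alt w D R := by
  induction R with
  | zero =>
    rw [alt_succ, alt_succ, alt_zero, alt_zero, MainTermAux.esy_insert w hp,
      MainTermAux.esy_zero]
    ring
  | succ R ih =>
    rw [alt_succ, ih, alt_succ w D (R + 1), alt_succ w D R, MainTermAux.esy_insert w hp]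
    ring

/-- the Bonferroni inequalities -/
lemma bonf (w : ℕ → ℝ) (D : Finset ℕ) (h0 : ∀ p ∈ D, 0 ≤ w p) (h1 : ∀ p ∈ D, w p ≤ 1) (R : ℕ) :
    0 ≤ (-1:ℝ) ^ R * (alt w D R - ∏ p ∈ D, (1 - w p)) := by
  induction D using Finset.induction_on generalizing R with
  | empty => simp [alt_empty]
  | insert p D hp ih =>
    have h0' : ∀ q ∈ D, 0 ≤ w q := fun q hq => h0 q (Finset.mem_insert_of_mem hq)
    have h1' : ∀ q ∈ D, w q ≤ 1 := fun q hq => h1 q (Finset.mem_insert_of_mem hq)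
    have hp0 := h0 p (Finset.mem_insert_self _ _)
    have hp1 := h1 p (Finset.mem_insert_self _ _)
    cases R with
    | zero =>
      rw [alt_zero]
      have : ∏ q ∈ insert p D, (1 - w q) ≤ 1 := by
        refine Finset.prod_le_one (fun q hq => ?_) (fun q hq => ?_)
        · have := h1 q hq; linarith
        · have := h0 q hq; linarith
      simpa using this
    | succ R =>
      have a1 := ih h0' h1' (R + 1)
      have a2 := mul_nonneg hp0 (ih h0' h1' R)
      rw [alt_insert w hp, Finset.prod_insert hp]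
      have e : (-1:ℝ) ^ (R + 1) * (alt w D (R + 1) - w p * alt w D R -
          (1 - w p) * ∏ q ∈ D, (1 - w q)) =
          (-1:ℝ) ^ (R + 1) * (alt w D (R + 1) - ∏ q ∈ D, (1 - w q)) +
            w p * ((-1:ℝ) ^ R * (alt w D R - ∏ q ∈ D, (1 - w q))) := by
        rw [pow_succ]
        ring
      rw [e]
      exact add_nonneg a1 a2

lemma alt_even (w : ℕ → ℝ) (D : Finset ℕ) (h0 : ∀ p ∈ D, 0 ≤ w p) (h1 : ∀ p ∈ D, w p ≤ 1)
    (e : ℕ) : ∏ p ∈ D, (1 - w p) ≤ alt w D (2 * e) ∧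
      alt w D (2 * e) ≤ ∏ p ∈ D, (1 - w p) + esy w D (2 * e + 1) := by
  have a1 := bonf w D h0 h1 (2 * e)
  have a2 := bonf w D h0 h1 (2 * e + 1)
  rw [alt_succ] at a2
  have e1 : (-1:ℝ) ^ (2 * e) = 1 := by rw [pow_mul]; simp
  rw [pow_succ, e1] at a2
  rw [e1] at a1
  constructor
  · linarith
  · linarith

/-- `exp (-2 x) ≤ 1 - x` on `[0, 1/2]` -/
lemma exp_le {x : ℝ} (h0 : 0 ≤ x) (h1 : 2 * x ≤ 1) : Real.exp (-(2 * x)) ≤ 1 - x := by
  have h2 : 0 < 1 - x := by linarith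
  have h3 : 2 * x + 1 ≤ Real.exp (2 * x) := Real.add_one_le_exp _
  rw [Real.exp_neg]
  have h4 : (Real.exp (2 * x))⁻¹ ≤ (2 * x + 1)⁻¹ := inv_anti₀ (by linarith) h3
  refine h4.trans ?_
  rw [inv_le_iff_one_le_mul₀ (by linarith)]
  nlinarith

lemma exp_le_prod {w : ℕ → ℝ} {D : Finset ℕ} (h0 : ∀ p ∈ D, 0 ≤ w p) (h1 : ∀ p ∈ D, 2 * w p ≤ 1)
    {X : ℝ} (hX : ∑ p ∈ D, w p ≤ X) : Real.exp (-(2 * X)) ≤ ∏ p ∈ D, (1 - w p) := by
  calc Real.exp (-(2 * X)) ≤ Real.exp (-(2 * ∑ p ∈ D, w p)) := by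
        apply Real.exp_le_exp.2; linarith
    _ = ∏ p ∈ D, Real.exp (-(2 * w p)) := by
        rw [Finset.mul_sum, ← Finset.sum_neg_distrib, Real.exp_sum]
    _ ≤ ∏ p ∈ D, (1 - w p) :=
        Finset.prod_le_prod (fun _ _ => (Real.exp_pos _).le) fun p hp => exp_le (h0 p hp) (h1 p hp)

lemma factor {w : ℕ → ℝ} {D : Finset ℕ} (h0 : ∀ p ∈ D, 0 ≤ w p) (h1 : ∀ p ∈ D, 2 * w p ≤ 1)
    {X : ℝ} (hX : ∑ p ∈ D, w p ≤ X) (e : ℕ) :
    0 ≤ alt w D (2 * e) ∧ alt w D (2 * e) ≤ (∏ p ∈ D, (1 - w p)) *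
      (1 + Real.exp (2 * X) * (X ^ (2 * e + 1) / ((2 * e + 1).factorial : ℝ))) := by
  have h1' : ∀ p ∈ D, w p ≤ 1 := fun p hp => by
    have := h1 p hp
    have := h0 p hp
    linarith
  obtain ⟨a1, a2⟩ := alt_even w D h0 h1' e
  have hpi := exp_le_prod h0 h1 hX
  have hpi0 : 0 < ∏ p ∈ D, (1 - w p) := (Real.exp_pos _).trans_le hpi
  refine ⟨hpi0.le.trans a1, a2.trans ?_⟩
  have hs0 : 0 ≤ ∑ p ∈ D, w p := Finset.sum_nonneg h0
  have b1 : esy w D (2 * e + 1) ≤ X ^ (2 * e + 1) / ((2 * e + 1).factorial : ℝ) := by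
    refine (MainTermAux.esy_le w D h0 _).trans ?_
    exact div_le_div_of_nonneg_right (pow_le_pow_left₀ hs0 hX _) (by positivity)
  have b2 : 1 ≤ (∏ p ∈ D, (1 - w p)) * Real.exp (2 * X) := by
    calc (1:ℝ) = Real.exp (-(2 * X)) * Real.exp (2 * X) := by rw [← Real.exp_add]; simp
      _ ≤ _ := mul_le_mul_of_nonneg_right hpi (Real.exp_pos _).le
  have hX0 : 0 ≤ X := hs0.trans hX
  have b3 : 0 ≤ X ^ (2 * e + 1) / ((2 * e + 1).factorial : ℝ) := by positivity
  have b4 := mul_le_mul_of_nonneg_right b2 b3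
  rw [one_mul] at b4
  calc ∏ p ∈ D, (1 - w p) + esy w D (2 * e + 1)
      ≤ ∏ p ∈ D, (1 - w p) + (∏ p ∈ D, (1 - w p)) * Real.exp (2 * X) *
          (X ^ (2 * e + 1) / ((2 * e + 1).factorial : ℝ)) := by linarith
    _ = _ := by ring

lemma sum_shift {X : ℝ} (hX : 0 ≤ X) (R b : ℕ) :
    ∑ i ∈ range b, X ^ (R + i) / ((R + i).factorial : ℝ) ≤ Real.exp X := by
  have h := Real.sum_le_exp_of_nonneg hX (R + b)
  rw [Finset.sum_range_add] at h
  have h0 : 0 ≤ ∑ i ∈ range R, X ^ i / (i.factorial : ℝ) :=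
    Finset.sum_nonneg fun i _ => by positivity
  linarith

lemma sum_odd {X : ℝ} (hX : 0 ≤ X) (R b : ℕ) :
    ∑ i ∈ range b, X ^ (2 * ((R + i) / 2) + 1) / ((2 * ((R + i) / 2) + 1).factorial : ℝ) ≤
      2 * Real.exp X := by
  have h1 := sum_shift hX R b
  have h2 := sum_shift hX (R + 1) b
  have h3 : ∑ i ∈ range b, X ^ (2 * ((R + i) / 2) + 1) / ((2 * ((R + i) / 2) + 1).factorial : ℝ) ≤
      ∑ i ∈ range b, (X ^ (R + i) / ((R + i).factorial : ℝ) +
        X ^ (R + 1 + i) / ((R + 1 + i).factorial : ℝ)) := by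
    refine Finset.sum_le_sum fun i _ => ?_
    have c1 : 0 ≤ X ^ (R + i) / ((R + i).factorial : ℝ) := by positivity
    have c2 : 0 ≤ X ^ (R + 1 + i) / ((R + 1 + i).factorial : ℝ) := by positivity
    rcases Nat.even_or_odd' (R + i) with ⟨k, hk | hk⟩
    · have : 2 * ((R + i) / 2) + 1 = R + 1 + i := by omega
      rw [this]
      linarith
    · have : 2 * ((R + i) / 2) + 1 = R + i := by omega
      rw [this]
      linarith
  rw [Finset.sum_add_distrib] at h3
  linarith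

end SieveUAux

open SieveUAux

lemma EV_zero (e : ℕ) : EV e 0 = 1 := by
  unfold EV
  rw [Finset.sum_eq_single 0]
  · simp
  · intro r _ hr
    rw [Nat.choose_eq_zero_of_lt (Nat.pos_of_ne_zero hr)]
    simp
  · intro h
    exact absurd (Finset.mem_range.2 (by omega)) h

lemma EV_nonneg (e K : ℕ) : 0 ≤ EV e K := by
  cases K with
  | zero => rw [EV_zero]; exact zero_le_one
  | succ K =>
    unfold EV
    rw [alt_choose, pow_mul, neg_one_sq, one_pow, one_mul]
    exact Nat.cast_nonneg _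

lemma LV_nonneg (R b : ℕ) (H D : Finset ℕ) (n : ℕ) : 0 ≤ LV R b H D n :=
  Finset.prod_nonneg fun _ _ => EV_nonneg _ _

lemma VA_nonneg (R b : ℕ) (H : Finset ℕ) (a : ℕ → ℕ) (n : ℕ) : 0 ≤ VA R b H a n := by
  unfold VA
  refine mul_nonneg ?_ (LV_nonneg _ _ _ _ _)
  split_ifs <;> norm_num

lemma VA_cls (R b : ℕ) (H : Finset ℕ) {n : ℕ} (hn : 0 < n) : VA R b H (cls b H n) n = 1 := by
  unfold VA
  have h1 : ∀ h ∈ H, cls b H n h ∣ n + h := by
    intro h hh
    unfold cls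
    rw [if_pos hh]
    exact sm_dvd (by omega) b
  rw [if_pos h1, one_mul]
  unfold LV
  refine Finset.prod_eq_one fun j _ => ?_
  have h2 : KK H ((Da b H (cls b H n)).filter fun p => be p = j) n = 0 := by
    unfold KK
    rw [Finset.card_eq_zero, Finset.filter_eq_empty_iff]
    intro p hp
    have hp' := (Finset.mem_filter.1 hp).1
    unfold Da at hp'
    obtain ⟨_, hpp, hbe, _, hna⟩ := Finset.mem_filter.1 hp'
    rintro ⟨h, hh, hdvd⟩
    apply hna h hh
    unfold cls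
    rw [if_pos hh]
    exact (prime_dvd_sm hpp (by omega) b).2 ⟨hdvd, hbe⟩
  rw [h2, EV_zero]

theorem main_even (H : Finset ℕ) : ∃ C : ℝ, 0 < C ∧ ∀ (R b : ℕ) (D : Finset ℕ),
    (∀ p ∈ D, p.Prime ∧ w0 H ≤ p ∧ be p < b) →
    0 ≤ ∏ j ∈ range b, (∑ r ∈ range (2 * ((R + (b - 1 - j)) / 2) + 1),
      (-1:ℝ) ^ r * esy (fun p => (H.card:ℝ) / p) (D.filter fun p => be p = j) r) ∧
    ∏ j ∈ range b, (∑ r ∈ range (2 * ((R + (b - 1 - j)) / 2) + 1),
      (-1:ℝ) ^ r * esy (fun p => (H.card:ℝ) / p) (D.filter fun p => be p = j) r) ≤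
      C * ∏ p ∈ D, (1 - (H.card:ℝ) / p) := by
  obtain ⟨C₁, hC₁, hbm⟩ := block_mass
  set m : ℕ := H.card with hm
  set X : ℝ := m * C₁ with hX
  have hX0 : 0 ≤ X := by positivity
  refine ⟨Real.exp (Real.exp (2 * X) * (2 * Real.exp X)), Real.exp_pos _, ?_⟩
  intro R b D hD
  set w : ℕ → ℝ := fun p => (m:ℝ) / p with hw
  have hw0 : ∀ p, 0 ≤ w p := fun p => by positivity
  have hw2 : ∀ p ∈ D, 2 * w p ≤ 1 := by
    intro p hp
    obtain ⟨hpp, hwp, _⟩ := hD p hp
    have hp0 : (0:ℝ) < p := by exact_mod_cast hpp.pos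
    have h2 : 2 * m ≤ p := by
      refine le_trans ?_ hwp
      unfold w0
      rw [← hm]
      nlinarith [Nat.zero_le (H.sup id)]
    have h2' : 2 * (m:ℝ) ≤ p := by exact_mod_cast h2
    show 2 * ((m:ℝ) / p) ≤ 1
    rw [← mul_div_assoc, div_le_one hp0]
    exact h2'
  have hsub : ∀ j, ∀ p ∈ D.filter (fun p => be p = j), p ∈ D := fun j p hp =>
    (Finset.mem_filter.1 hp).1
  have hmass : ∀ j, ∑ p ∈ D.filter (fun p => be p = j), w p ≤ X := by
    intro j
    have h := hbm j (D.filter fun p => be p = j) fun p hp =>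
      ⟨(hD p (hsub j p hp)).1, (Finset.mem_filter.1 hp).2⟩
    calc ∑ p ∈ D.filter (fun p => be p = j), w p
        = (m:ℝ) * ∑ p ∈ D.filter (fun p => be p = j), (1:ℝ) / p := by
          rw [Finset.mul_sum]
          refine Finset.sum_congr rfl fun p _ => ?_
          show (m:ℝ) / p = m * (1 / p)
          ring
      _ ≤ m * C₁ := mul_le_mul_of_nonneg_left h (Nat.cast_nonneg _)
  have hfac : ∀ j, 0 ≤ alt w (D.filter fun p => be p = j) (2 * ((R + (b - 1 - j)) / 2)) ∧ _ :=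
    fun j => factor (fun p _ => hw0 p) (fun p hp => hw2 p (hsub j p hp)) (hmass j)
      ((R + (b - 1 - j)) / 2)
  refine ⟨Finset.prod_nonneg fun j _ => (hfac j).1, ?_⟩
  calc ∏ j ∈ range b, alt w (D.filter fun p => be p = j) (2 * ((R + (b - 1 - j)) / 2))
      ≤ ∏ j ∈ range b, ((∏ p ∈ D.filter (fun p => be p = j), (1 - w p)) *
          Real.exp (Real.exp (2 * X) * (X ^ (2 * ((R + (b - 1 - j)) / 2) + 1) /
            ((2 * ((R + (b - 1 - j)) / 2) + 1).factorial : ℝ)))) := by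
        refine Finset.prod_le_prod (fun j _ => (hfac j).1) fun j _ => ?_
        refine (hfac j).2.trans ?_
        refine mul_le_mul_of_nonneg_left ?_ ?_
        · have := Real.add_one_le_exp (Real.exp (2 * X) *
            (X ^ (2 * ((R + (b - 1 - j)) / 2) + 1) /
              ((2 * ((R + (b - 1 - j)) / 2) + 1).factorial : ℝ)))
          linarith
        · refine Finset.prod_nonneg fun p hp => ?_
          have := hw2 p (hsub j p hp)
          have := hw0 p
          linarith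
    _ = (∏ p ∈ D, (1 - w p)) * Real.exp (Real.exp (2 * X) * ∑ i ∈ range b,
          (X ^ (2 * ((R + i) / 2) + 1) / ((2 * ((R + i) / 2) + 1).factorial : ℝ))) := by
        rw [Finset.prod_mul_distrib, ← Real.exp_sum, ← Finset.mul_sum,
          Finset.sum_range_reflect (fun i => X ^ (2 * ((R + i) / 2) + 1) /
            ((2 * ((R + i) / 2) + 1).factorial : ℝ)) b,
          Finset.prod_fiberwise_of_maps_to (fun p hp => Finset.mem_range.2 (hD p hp).2.2)]
    _ ≤ (∏ p ∈ D, (1 - w p)) * Real.exp (Real.exp (2 * X) * (2 * Real.exp X)) := by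
        refine mul_le_mul_of_nonneg_left ?_ ?_
        · apply Real.exp_le_exp.2
          exact mul_le_mul_of_nonneg_left (sum_odd hX0 R b) (Real.exp_pos _).le
        · refine Finset.prod_nonneg fun p hp => ?_
          have := hw2 p hp
          have := hw0 p
          linarith
    _ = _ := by rw [mul_comm]

end Pool.Agent.Lib.P4a7640X
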