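import Mathlib
import Pool.Agent.Lib.P4a7640X.SieveU
import Pool.Agent.Lib.P4a7640G.SieveR

/-!
# The sieve: an upper bound sieve below the window and signs in the window

`mean_blocksP` is applied three times, to the set `D ∪ Q`, with the even truncation in the blocks
below `b` and, in the blocks from `b` on, the coefficients of the truncation of the sign, of its
error, and of the constant `1`.
-/

open Filter MeasureTheory Finset

namespace Pool.Agent.Lib.P4a7640X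

open Pool.Agent.Lib.P4a7640 Pool.Agent.Lib.P4a7640D

namespace SieveXAux

open Pool.Agent.Lib.P4a7640E Pool.Agent.Lib.P4a7640G Pool.Agent.Lib.P4a7640T

/-- the coefficients: the even truncation below `b`, general above -/
noncomputable def fi (R b : ℕ) (ψ : ℕ → ℕ → ℝ) (j r : ℕ) : ℝ :=
  if j < b then (if r ≤ 2 * ((R + (b - 1 - j)) / 2) then (-1:ℝ) ^ r else 0) else ψ j r

lemma abs_fi {R b : ℕ} {ψ : ℕ → ℕ → ℝ} (hψ : ∀ j r, |ψ j r| ≤ 2 ^ r) (j r : ℕ) :
    |fi R b ψ j r| ≤ 2 ^ r := by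
  unfold fi
  split_ifs
  · rw [abs_pow, abs_neg, abs_one, one_pow]
    exact one_le_pow₀ (by norm_num)
  · rw [abs_zero]; positivity
  · exact hψ j r

lemma sum_fi_lt {R b J j : ℕ} (hbJ : b ≤ J) (hj : j < b) (ψ : ℕ → ℕ → ℝ) (f : ℕ → ℝ) :
    ∑ r ∈ range (R + (J - 1 - j) + 2), fi R b ψ j r * f r =
      ∑ r ∈ range (2 * ((R + (b - 1 - j)) / 2) + 1), (-1:ℝ) ^ r * f r := by
  have hle : 2 * ((R + (b - 1 - j)) / 2) + 1 ≤ R + (J - 1 - j) + 2 := by omega
  rw [← sum_subset (range_subset_range.2 hle)]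
  · refine sum_congr rfl fun r hr => ?_
    have : r ≤ 2 * ((R + (b - 1 - j)) / 2) := by
      have := mem_range.1 hr
      omega
    unfold fi
    rw [if_pos hj, if_pos this]
  · intro r _ hr
    have : ¬ r ≤ 2 * ((R + (b - 1 - j)) / 2) := by
      intro h
      exact hr (mem_range.2 (by omega))
    unfold fi
    rw [if_pos hj, if_neg this, zero_mul]

lemma mean_split (H : Finset ℕ) (b J R x q a : ℕ) (D Q : Finset ℕ) (hbJ : b ≤ J)
    (hq : 0 < q) (hD : ∀ p ∈ D, p.Prime ∧ w0 H ≤ p ∧ be p < b ∧ Nat.Coprime q p)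
    (hQ : ∀ p ∈ Q, p.Prime ∧ w0 H ≤ p ∧ b ≤ be p ∧ be p < J ∧ Nat.Coprime q p)
    (hx : 2 ^ (2 ^ (J + 2) * (R + 2)) ≤ x) (ψ : ℕ → ℕ → ℝ) (hψ : ∀ j r, |ψ j r| ≤ 2 ^ r) :
    |∑ n ∈ Icc 1 x, (if n ≡ a [MOD q] then (1:ℝ) else 0) * (LV R b H D n *
        ∏ j ∈ Ico b J, (∑ r ∈ range (R + (J - 1 - j) + 2),
        ψ j r * ((P4a7640D.KK H (Q.filter fun p => be p = j) n).choose r : ℝ))) -
      x / q * ((∏ j ∈ range b, (∑ r ∈ range (2 * ((R + (b - 1 - j)) / 2) + 1),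
        (-1:ℝ) ^ r * esy (fun p => (H.card:ℝ) / p) (D.filter fun p => be p = j) r)) *
        ∏ j ∈ Ico b J, (∑ r ∈ range (R + (J - 1 - j) + 2),
        ψ j r * esy (fun p => (H.card : ℝ) / p) (Q.filter fun p => be p = j) r))| ≤
      (x : ℝ) ^ ((3:ℝ) / 4) := by
  classical
  have hw : ∀ p, w0 H ≤ p → (∀ h ∈ H, h < p) ∧ (2 * (H.card + 1)) ^ 2 ≤ p := by
    intro p hp
    unfold w0 at hp
    refine ⟨fun h hh => ?_, by omega⟩
    have h1 : h ≤ H.sup id := Finset.le_sup (f := id) hh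
    omega
  have h := mean_blocksP (fun _ => H) (H.card + 1) (D ∪ Q) J R x q a hq (by
    intro p hp
    rcases mem_union.1 hp with hp | hp
    · obtain ⟨h1, h2, h3, h4⟩ := hD p hp
      exact ⟨h1, (hw p h2).1, by omega, (hw p h2).2, by omega⟩
    · obtain ⟨h1, h2, h3, h4, h5⟩ := hQ p hp
      exact ⟨h1, (hw p h2).1, by omega, (hw p h2).2, by omega⟩) (by
    intro p hp
    rcases mem_union.1 hp with hp | hp
    · exact (hD p hp).2.2.2
    · exact (hQ p hp).2.2.2.2) hx (fi R b ψ) (abs_fi hψ)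
  have hfD : ∀ j < b, (D ∪ Q).filter (fun p => be p = j) = D.filter (fun p => be p = j) := by
    intro j hj
    ext p
    simp only [mem_filter, mem_union]
    constructor
    · rintro ⟨h1 | h1, h2⟩
      · exact ⟨h1, h2⟩
      · have := (hQ p h1).2.2.1
        omega
    · rintro ⟨h1, h2⟩
      exact ⟨Or.inl h1, h2⟩
  have hfQ : ∀ j, b ≤ j → (D ∪ Q).filter (fun p => be p = j) = Q.filter (fun p => be p = j) := by
    intro j hj
    ext p
    simp only [mem_filter, mem_union]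
    constructor
    · rintro ⟨h1 | h1, h2⟩
      · have := (hD p h1).2.2.1
        omega
      · exact ⟨h1, h2⟩
    · rintro ⟨h1, h2⟩
      exact ⟨Or.inr h1, h2⟩
  have e0 : ∀ F : ℕ → Finset ℕ → ℝ, (∏ j ∈ range J, (∑ r ∈ range (R + (J - 1 - j) + 2),
        fi R b ψ j r * F r ((D ∪ Q).filter fun p => be p = j))) =
      (∏ j ∈ range b, (∑ r ∈ range (2 * ((R + (b - 1 - j)) / 2) + 1),
        (-1:ℝ) ^ r * F r (D.filter fun p => be p = j))) *
      ∏ j ∈ Ico b J, (∑ r ∈ range (R + (J - 1 - j) + 2),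
        ψ j r * F r (Q.filter fun p => be p = j)) := by
    intro F
    rw [← prod_range_mul_prod_Ico _ hbJ]
    congr 1
    · refine prod_congr rfl fun j hj => ?_
      have hj' := mem_range.1 hj
      rw [hfD j hj', sum_fi_lt hbJ hj' ψ]
    · refine prod_congr rfl fun j hj => ?_
      have hj' := (mem_Ico.1 hj).1
      rw [hfQ j hj']
      refine sum_congr rfl fun r _ => ?_
      unfold fi
      rw [if_neg (by omega)]
  have e1 : ∀ n, ∏ j ∈ range J, (∑ r ∈ range (R + (J - 1 - j) + 2),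
        fi R b ψ j r * ((KP (fun _ => H) ((D ∪ Q).filter fun p => be p = j) n).choose r : ℝ)) =
      LV R b H D n * ∏ j ∈ Ico b J, (∑ r ∈ range (R + (J - 1 - j) + 2),
        ψ j r * ((P4a7640D.KK H (Q.filter fun p => be p = j) n).choose r : ℝ)) := fun n =>
    e0 fun r S => ((KP (fun _ => H) S n).choose r : ℝ)
  have e2 := e0 fun r S => esy (fun p => (H.card:ℝ) / p) S r
  simp only [e1] at h
  rw [e2] at h
  exact h

/-- `exp (c J) ≤ ε x^(1/8)` for large `x ≥ 2 ^ 2 ^ J` -/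
lemma exp_small (c ε : ℝ) (hc : 0 < c) (hε : 0 < ε) : ∃ x₀ : ℕ, ∀ x J : ℕ, x₀ ≤ x →
    2 ^ 2 ^ J ≤ x → Real.exp (c * J) ≤ ε * (x:ℝ) ^ ((1:ℝ) / 8) := by
  have hlo := isLittleO_log_rpow_rpow_atTop (2 * c) (show (0:ℝ) < 1 / 8 by norm_num)
  have hev := hlo.bound (show 0 < ε / 2 ^ (2 * c) by positivity)
  obtain ⟨X, hX⟩ := Filter.eventually_atTop.1 (hev.and (eventually_ge_atTop 2))
  refine ⟨⌈X⌉₊, fun x J hx hJ => ?_⟩
  have hxX : X ≤ x := (Nat.le_ceil _).trans (by exact_mod_cast hx)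
  obtain ⟨h1, h2⟩ := hX x hxX
  have hlog0 : 0 < Real.log (x:ℝ) := Real.log_pos (by linarith)
  have hx0 : (0:ℝ) < x := by linarith
  rw [Real.norm_of_nonneg (by positivity), Real.norm_of_nonneg (by positivity)] at h1
  have h3 : (2:ℝ) ^ J ≤ 2 * Real.log x := by
    have h4 : Real.log ((2:ℝ) ^ 2 ^ J) ≤ Real.log x :=
      Real.log_le_log (by positivity) (by exact_mod_cast hJ)
    rw [Real.log_pow] at h4
    push_cast at h4
    have h5 := Real.log_two_gt_d9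
    have h6 : (0:ℝ) < 2 ^ J := by positivity
    nlinarith
  have h4 : Real.exp (c * J) ≤ ((2:ℝ) ^ J) ^ (2 * c) := by
    have h5 : ((2:ℝ) ^ J) ^ (2 * c) = Real.exp (J * Real.log 2 * (2 * c)) := by
      rw [Real.rpow_def_of_pos (by positivity), Real.log_pow]
    rw [h5]
    apply Real.exp_le_exp.2
    have h6 := Real.log_two_gt_d9
    have h7 : (0:ℝ) ≤ c * J := by positivity
    nlinarith
  calc Real.exp (c * J) ≤ ((2:ℝ) ^ J) ^ (2 * c) := h4
    _ ≤ (2 * Real.log x) ^ (2 * c) := Real.rpow_le_rpow (by positivity) h3 (by positivity)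
    _ = 2 ^ (2 * c) * Real.log x ^ (2 * c) := Real.mul_rpow (by norm_num) hlog0.le
    _ ≤ 2 ^ (2 * c) * (ε / 2 ^ (2 * c) * (x:ℝ) ^ ((1:ℝ) / 8)) := by gcongr
    _ = ε * (x:ℝ) ^ ((1:ℝ) / 8) := by
      field_simp

/-- the sieve product is not too small -/
lemma prod_ge {C₁ : ℝ} (hmass : ∀ (j : ℕ) (D : Finset ℕ),
    (∀ p ∈ D, p.Prime ∧ be p = j) → ∑ p ∈ D, (1:ℝ) / p ≤ C₁) (H D : Finset ℕ) (b : ℕ)
    (hD : ∀ p ∈ D, p.Prime ∧ w0 H ≤ p ∧ be p < b) :
    Real.exp (-(2 * H.card * C₁ * b)) ≤ ∏ p ∈ D, (1 - (H.card:ℝ) / p) := by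
  have h1 : ∑ p ∈ D, (1:ℝ) / p ≤ C₁ * b := by
    rw [← sum_fiberwise_of_maps_to (s := D) (t := range b) (g := be)
      (fun p hp => mem_range.2 (hD p hp).2.2)]
    calc ∑ j ∈ range b, ∑ p ∈ D.filter (fun p => be p = j), (1:ℝ) / p
        ≤ ∑ _j ∈ range b, C₁ := sum_le_sum fun j _ => hmass j _ fun p hp =>
          ⟨(hD p (mem_filter.1 hp).1).1, (mem_filter.1 hp).2⟩
      _ = C₁ * b := by rw [sum_const, card_range, nsmul_eq_mul, mul_comm]
  have h2 : Real.exp (-(2 * H.card * ∑ p ∈ D, (1:ℝ) / p)) ≤ ∏ p ∈ D, (1 - (H.card:ℝ) / p) := by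
    have h3 : -(2 * H.card * ∑ p ∈ D, (1:ℝ) / p) = ∑ p ∈ D, -(2 * ((H.card:ℝ) / p)) := by
      rw [sum_neg_distrib, mul_sum]
      congr 1
      refine sum_congr rfl fun p _ => ?_
      ring
    rw [h3, Real.exp_sum]
    refine prod_le_prod (fun p _ => (Real.exp_pos _).le) fun p hp => ?_
    obtain ⟨hp1, hp2, _⟩ := hD p hp
    have hp0 : (0:ℝ) < p := by exact_mod_cast hp1.pos
    have h4 : 4 * H.card ≤ p := by
      unfold w0 at hp2
      nlinarith
    have h5 : (4:ℝ) * H.card ≤ p := by exact_mod_cast h4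
    set y : ℝ := (H.card:ℝ) / p with hy
    have hy0 : 0 ≤ y := by positivity
    have hy1 : y ≤ 1 / 4 := by
      rw [hy, div_le_iff₀ hp0]
      linarith
    have h6 : Real.exp (-(2 * y)) * (1 + 2 * y) ≤ 1 := by
      have h7 := Real.add_one_le_exp (2 * y)
      calc Real.exp (-(2 * y)) * (1 + 2 * y) ≤ Real.exp (-(2 * y)) * Real.exp (2 * y) := by
            gcongr
            linarith
        _ = 1 := by rw [← Real.exp_add]; simp
    have h8 : 1 ≤ (1 - y) * (1 + 2 * y) := by nlinarith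
    have h9 : 0 < 1 + 2 * y := by linarith
    exact le_of_mul_le_mul_right (h6.trans h8) h9
  refine le_trans (Real.exp_le_exp.2 ?_) h2
  have h3 : (0:ℝ) ≤ 2 * H.card := by positivity
  have h4 := mul_le_mul_of_nonneg_left h1 h3
  linarith

end SieveXAux

open SieveXAux SieveAux Pool.Agent.Lib.P4a7640G in
theorem sieveX : ∃ C₁ : ℝ, 0 < C₁ ∧ ∀ H : Finset ℕ, ∃ C₂ : ℝ, 0 < C₂ ∧
    ∀ (η : ℝ) (R : ℕ), 0 < η → 2 * (2 * (H.card + 1 : ℕ) * C₁) ≤ R + 1 →
    (2 * (H.card + 1 : ℕ) * C₁) ^ (R + 1) / ((R + 1).factorial : ℝ) < Real.log (1 + η / 4) / 4 →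
    ∃ x₀ : ℕ, ∀ (b J q a x : ℕ) (D Q : Finset ℕ), b ≤ J → 0 < q →
      (∀ p ∈ D, p.Prime ∧ w0 H ≤ p ∧ be p < b ∧ Nat.Coprime q p) →
      (∀ p ∈ Q, p.Prime ∧ w0 H ≤ p ∧ b ≤ be p ∧ be p < J ∧ Nat.Coprime q p) →
      2 ^ (2 ^ (J + 2) * (R + 2)) ≤ x → x₀ ≤ x → q ^ 8 ≤ x →
      |∑ n ∈ Icc 1 x, (if n ≡ a [MOD q] then (1:ℝ) else 0) * (LV R b H D n * uu H Q n)| ≤
        C₂ * (x / q) * (∏ p ∈ D, (1 - (H.card:ℝ) / p)) *
          (Real.exp (-(2 * H.card * ∑ p ∈ Q, (1:ℝ) / p)) + η) := by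
  classical
  obtain ⟨C₁, hC₁, hmass⟩ := block_mass
  refine ⟨C₁, hC₁, fun H => ?_⟩
  obtain ⟨C, hC, hev⟩ := main_even H
  refine ⟨C + 1, by positivity, fun η R hη hR2 hRa => ?_⟩
  obtain ⟨x₀, hx₀⟩ := exp_small (2 * (H.card + 1 : ℕ) * C₁) (η / 6) (by positivity) (by positivity)
  refine ⟨x₀, fun b J q a x D Q hbJ hq hD hQ hx hxx hq8 => ?_⟩
  set m := H.card + 1 with hm
  have hq0 : (0:ℝ) < q := by exact_mod_cast hq
  have hDp : ∀ p ∈ D, p.Prime ∧ w0 H ≤ p ∧ be p < b := fun p hp =>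
    ⟨(hD p hp).1, (hD p hp).2.1, (hD p hp).2.2.1⟩
  obtain ⟨t0, t1⟩ := hev R b D hDp
  set w : ℕ → ℝ := fun p => (H.card:ℝ) / p with hw
  set T0 := ∏ j ∈ range b, (∑ r ∈ range (2 * ((R + (b - 1 - j)) / 2) + 1),
      (-1:ℝ) ^ r * esy w (D.filter fun p => be p = j) r) with hT0
  set PD := ∏ p ∈ D, (1 - w p) with hPD
  have hmain := main_termR (C := 2 * m * C₁) (η := η / 4) (by positivity) (by positivity) hR2 hRa
    w Q be J (fun p hp => by
      obtain ⟨hp1, hp2, _⟩ := hQ p hp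
      refine ⟨by positivity, ?_⟩
      have hp0 : (0:ℝ) < p := by exact_mod_cast hp1.pos
      have h4 : 2 * H.card ≤ p := by
        unfold w0 at hp2
        nlinarith
      have h5 : (2:ℝ) * H.card ≤ p := by exact_mod_cast h4
      rw [hw]
      simp only
      rw [← mul_div_assoc, div_le_one hp0]
      exact h5) (fun p hp => (hQ p hp).2.2.2.1) (fun j _ => by
      have h1 := hmass j (Q.filter fun p => be p = j) (fun p hp => by
        rw [mem_filter] at hp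
        exact ⟨(hQ p hp.1).1, hp.2⟩)
      have h2 : ∑ p ∈ Q.filter (fun p => be p = j), w p =
          H.card * ∑ p ∈ Q.filter (fun p => be p = j), (1:ℝ) / p := by
        rw [mul_sum]
        refine sum_congr rfl fun p hp => ?_
        rw [hw, mul_one_div]
      have h3 : (H.card:ℝ) ≤ m := by
        rw [hm]
        push_cast
        linarith
      rw [h2]
      calc 2 * ((H.card:ℝ) * ∑ p ∈ Q.filter (fun p => be p = j), (1:ℝ) / p)
          ≤ 2 * (m * C₁) := by gcongr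
        _ = 2 * m * C₁ := by ring)
  obtain ⟨hm1', hm2'⟩ := hmain
  have hQe : ∀ j < b, Q.filter (fun p => be p = j) = ∅ := by
    intro j hj
    rw [filter_eq_empty_iff]
    intro p hp h
    have := (hQ p hp).2.2.1
    omega
  -- the blocks below `b` do not contribute to the products over `Q`
  have r1 : ∏ j ∈ range J, (∑ r ∈ range (R + (J - 1 - j) + 1),
        (-2:ℝ) ^ r * esy w (Q.filter fun p => be p = j) r) =
      ∏ j ∈ Ico b J, (∑ r ∈ range (R + (J - 1 - j) + 1),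
        (-2:ℝ) ^ r * esy w (Q.filter fun p => be p = j) r) := by
    rw [← prod_range_mul_prod_Ico _ hbJ]
    rw [prod_eq_one, one_mul]
    intro j hj
    rw [hQe j (mem_range.1 hj), sum_eq_single 0]
    · rw [pow_zero, one_mul, SieveAux.esy_zero]
    · intro r _ hr
      obtain ⟨r', rfl⟩ := Nat.exists_eq_succ_of_ne_zero hr
      rw [Nat.succ_eq_add_one, MainTermAux.esy_empty_succ, mul_zero]
    · intro h
      exact absurd (mem_range.2 (Nat.succ_pos _)) h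
  have r2 : ∏ j ∈ range J, (1 + 2 ^ (R + (J - 1 - j) + 1) *
        esy w (Q.filter fun p => be p = j) (R + (J - 1 - j) + 1)) =
      ∏ j ∈ Ico b J, (1 + 2 ^ (R + (J - 1 - j) + 1) *
        esy w (Q.filter fun p => be p = j) (R + (J - 1 - j) + 1)) := by
    rw [← prod_range_mul_prod_Ico _ hbJ]
    rw [prod_eq_one, one_mul]
    intro j hj
    rw [hQe j (mem_range.1 hj), MainTermAux.esy_empty_succ, mul_zero, add_zero]
  rw [r1] at hm1'
  rw [r2] at hm2'
  -- the three applications of `mean_split`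
  have hA := mean_split H b J R x q a D Q hbJ hq hD hQ hx (fun j r => ph (R + (J - 1 - j)) r)
    (fun j r => abs_ph _ r)
  have hB := mean_split H b J R x q a D Q hbJ hq hD hQ hx (fun j r => ps (R + (J - 1 - j)) r)
    (fun j r => abs_ps _ r)
  have hE := mean_split H b J R x q a D Q hbJ hq hD hQ hx (fun _ r => if r = 0 then 1 else 0)
    (fun _ r => by
      split_ifs
      · rw [abs_one]; exact one_le_pow₀ (by norm_num)
      · rw [abs_zero]; positivity)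
  have hone : ∀ (N : ℕ) (f : ℕ → ℝ), ∑ r ∈ range (N + 2), (if r = 0 then (1:ℝ) else 0) * f r = f 0 := by
    intro N f
    rw [sum_eq_single 0]
    · simp
    · intro r _ hr
      rw [if_neg hr, zero_mul]
    · intro h
      exact absurd (mem_range.2 (Nat.succ_pos _)) h
  simp only [sum_ph, sum_ps, hone, Nat.choose_zero_right, Nat.cast_one, SieveAux.esy_zero,
    prod_const_one, mul_one] at hA hB hE
  set K : ℕ → ℕ → ℕ := fun j n => P4a7640D.KK H (Q.filter fun p => be p = j) n with hK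
  set V : ℕ → ℝ := fun n => LV R b H D n with hV
  set I : ℕ → ℝ := fun n => if n ≡ a [MOD q] then (1:ℝ) else 0 with hI
  set T1 := ∏ j ∈ Ico b J, (∑ r ∈ range (R + (J - 1 - j) + 1),
        (-2:ℝ) ^ r * esy w (Q.filter fun p => be p = j) r) with hT1
  set T2 := ∏ j ∈ Ico b J, (1 + 2 ^ (R + (J - 1 - j) + 1) *
        esy w (Q.filter fun p => be p = j) (R + (J - 1 - j) + 1)) with hT2
  have hA' : |∑ n ∈ Icc 1 x, I n * (V n * ∏ j ∈ Ico b J, tr (R + (J - 1 - j)) (K j n)) -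
      x / q * (T0 * T1)| ≤ (x:ℝ) ^ ((3:ℝ) / 4) := hA
  have hB' : |∑ n ∈ Icc 1 x, I n * (V n * ∏ j ∈ Ico b J, (1 + er (R + (J - 1 - j)) (K j n))) -
      x / q * (T0 * T2)| ≤ (x:ℝ) ^ ((3:ℝ) / 4) := hB
  have hE' : |∑ n ∈ Icc 1 x, I n * V n - x / q * T0| ≤ (x:ℝ) ^ ((3:ℝ) / 4) := hE
  have hI0 : ∀ n, 0 ≤ I n := fun n => by simp only [hI]; split_ifs <;> norm_num
  have hV0 : ∀ n, 0 ≤ V n := fun n => LV_nonneg R b H D n
  have hsplit : ∀ n, uu H Q n = ∏ j ∈ Ico b J, (-1:ℝ) ^ K j n := by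
    intro n
    rw [uu_split H Q J n (fun p hp => (hQ p hp).2.2.2.1), ← prod_range_mul_prod_Ico _ hbJ,
      prod_eq_one, one_mul]
    intro j hj
    rw [hQe j (mem_range.1 hj)]
    simp [P4a7640D.KK]
  have htel : |∑ n ∈ Icc 1 x, I n * (V n * uu H Q n) -
      ∑ n ∈ Icc 1 x, I n * (V n * ∏ j ∈ Ico b J, tr (R + (J - 1 - j)) (K j n))| ≤
      ∑ n ∈ Icc 1 x, I n * (V n * ∏ j ∈ Ico b J, (1 + er (R + (J - 1 - j)) (K j n))) -
        ∑ n ∈ Icc 1 x, I n * V n := by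
    rw [← sum_sub_distrib, ← sum_sub_distrib]
    refine (abs_sum_le_sum_abs _ _).trans ?_
    refine sum_le_sum fun n _ => ?_
    rw [← mul_sub, ← mul_sub, abs_mul, abs_mul, abs_of_nonneg (hI0 n), abs_of_nonneg (hV0 n),
      hsplit n]
    have h1 := prod_telescope (Ico b J) (fun j => (-1:ℝ) ^ K j n)
      (fun j => tr (R + (J - 1 - j)) (K j n)) (fun j => er (R + (J - 1 - j)) (K j n))
      (fun j _ => by rw [abs_pow, abs_neg, abs_one, one_pow])
      (fun j _ => trunc _ _)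
    have h2 := mul_le_mul_of_nonneg_left (mul_le_mul_of_nonneg_left h1 (hV0 n)) (hI0 n)
    refine h2.trans (le_of_eq ?_)
    ring
  have hx1 : (1:ℝ) ≤ x := by
    have h1 : 1 ≤ x := le_trans Nat.one_le_two_pow hx
    exact_mod_cast h1
  have hx0 : (0:ℝ) < x := by linarith
  have hxR : (0:ℝ) ≤ x / q := by positivity
  have k1 : |∑ n ∈ Icc 1 x, I n * (V n * ∏ j ∈ Ico b J, tr (R + (J - 1 - j)) (K j n))| ≤
      x / q * T0 * |T1| + (x:ℝ) ^ ((3:ℝ) / 4) := by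
    have h1 := abs_sub_abs_le_abs_sub (∑ n ∈ Icc 1 x, I n * (V n * ∏ j ∈ Ico b J,
      tr (R + (J - 1 - j)) (K j n))) (x / q * (T0 * T1))
    rw [abs_mul, abs_of_nonneg hxR, abs_mul, abs_of_nonneg t0] at h1
    linarith
  have k2 : ∑ n ∈ Icc 1 x, I n * (V n * ∏ j ∈ Ico b J, (1 + er (R + (J - 1 - j)) (K j n))) ≤
      x / q * (T0 * T2) + (x:ℝ) ^ ((3:ℝ) / 4) := by
    have h1 := (abs_le.1 hB').2
    linarith
  have k3 : x / q * T0 - (x:ℝ) ^ ((3:ℝ) / 4) ≤ ∑ n ∈ Icc 1 x, I n * V n := by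
    have h1 := (abs_le.1 hE').1
    linarith
  have k5 := abs_sub_abs_le_abs_sub (∑ n ∈ Icc 1 x, I n * (V n * uu H Q n))
    (∑ n ∈ Icc 1 x, I n * (V n * ∏ j ∈ Ico b J, tr (R + (J - 1 - j)) (K j n)))
  -- the main term
  set E := Real.exp (-(2 * H.card * ∑ p ∈ Q, (1:ℝ) / p)) with hEdef
  have hEeq : Real.exp (-(2 * ∑ p ∈ Q, w p)) = E := by
    have h1 : ∑ p ∈ Q, w p = (H.card:ℝ) * ∑ p ∈ Q, (1:ℝ) / p := by
      rw [mul_sum]
      refine sum_congr rfl fun p _ => ?_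
      rw [mul_one_div]
    rw [hEdef, h1, mul_assoc]
  rw [hEeq] at hm1'
  have hE0 : 0 < E := Real.exp_pos _
  have hPDge := prod_ge hmass H D b hDp
  have hPD0 : 0 < PD := lt_of_lt_of_le (Real.exp_pos _) hPDge
  have k6 : x / q * T0 * |T1| + x / q * (T0 * T2) - x / q * T0 ≤
      C * (x / q) * PD * (E + η / 2) := by
    have h1 : x / q * T0 * |T1| + x / q * (T0 * T2) - x / q * T0 =
        x / q * (T0 * (|T1| + (T2 - 1))) := by ring
    rw [h1]
    calc x / q * (T0 * (|T1| + (T2 - 1))) ≤ x / q * (T0 * (E + η / 2)) := by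
          refine mul_le_mul_of_nonneg_left (mul_le_mul_of_nonneg_left ?_ t0) hxR
          linarith
      _ ≤ x / q * ((C * PD) * (E + η / 2)) := by
          refine mul_le_mul_of_nonneg_left (mul_le_mul_of_nonneg_right t1 ?_) hxR
          positivity
      _ = C * (x / q) * PD * (E + η / 2) := by ring
  -- the remainder
  have k7 : 3 * (x:ℝ) ^ ((3:ℝ) / 4) ≤ x / q * PD * (η / 2) := by
    have h2J : 2 ^ 2 ^ J ≤ x := by
      refine le_trans (Nat.pow_le_pow_right (by norm_num) ?_) hx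
      have h1 : 2 ^ J ≤ 2 ^ (J + 2) := Nat.pow_le_pow_right (by norm_num) (by omega)
      calc 2 ^ J ≤ 2 ^ (J + 2) * 1 := by omega
        _ ≤ 2 ^ (J + 2) * (R + 2) := Nat.mul_le_mul_left _ (by omega)
    have h1 := hx₀ x J hxx h2J
    have h2 : Real.exp (2 * H.card * C₁ * b) ≤ Real.exp (2 * (m:ℕ) * C₁ * J) := by
      apply Real.exp_le_exp.2
      have h3 : (H.card:ℝ) ≤ m := by
        rw [hm]
        push_cast
        linarith
      have h4 : (b:ℝ) ≤ J := by exact_mod_cast hbJ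
      gcongr
    have h3 : 1 ≤ PD * (η / 6 * (x:ℝ) ^ ((1:ℝ) / 8)) := by
      calc (1:ℝ) = Real.exp (-(2 * H.card * C₁ * b)) * Real.exp (2 * H.card * C₁ * b) := by
            rw [← Real.exp_add]
            simp
        _ ≤ PD * (η / 6 * (x:ℝ) ^ ((1:ℝ) / 8)) :=
            mul_le_mul hPDge (h2.trans h1) (Real.exp_pos _).le hPD0.le
    have h4 : (q:ℝ) ≤ (x:ℝ) ^ ((1:ℝ) / 8) := by
      have h5 : ((q:ℝ) ^ 8) ^ ((1:ℝ) / 8) = q := by
        rw [← Real.rpow_natCast, ← Real.rpow_mul hq0.le]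
        norm_num
      rw [← h5]
      exact Real.rpow_le_rpow (by positivity) (by exact_mod_cast hq8) (by norm_num)
    have h6 : (x:ℝ) ^ ((3:ℝ) / 4) * ((x:ℝ) ^ ((1:ℝ) / 8) * (x:ℝ) ^ ((1:ℝ) / 8)) = x := by
      rw [← Real.rpow_add hx0, ← Real.rpow_add hx0]
      norm_num
    have hX34 : 0 < (x:ℝ) ^ ((3:ℝ) / 4) := by positivity
    have hX18 : 0 < (x:ℝ) ^ ((1:ℝ) / 8) := by positivity
    have h7 : (x:ℝ) ^ ((3:ℝ) / 4) * (x:ℝ) ^ ((1:ℝ) / 8) ≤ x / q := by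
      rw [le_div_iff₀ hq0]
      calc (x:ℝ) ^ ((3:ℝ) / 4) * (x:ℝ) ^ ((1:ℝ) / 8) * q
          ≤ (x:ℝ) ^ ((3:ℝ) / 4) * (x:ℝ) ^ ((1:ℝ) / 8) * (x:ℝ) ^ ((1:ℝ) / 8) := by gcongr
        _ = x := by rw [mul_assoc]; exact h6
    calc 3 * (x:ℝ) ^ ((3:ℝ) / 4) = 3 * (x:ℝ) ^ ((3:ℝ) / 4) * 1 := by ring
      _ ≤ 3 * (x:ℝ) ^ ((3:ℝ) / 4) * (PD * (η / 6 * (x:ℝ) ^ ((1:ℝ) / 8))) := by gcongr
      _ = (x:ℝ) ^ ((3:ℝ) / 4) * (x:ℝ) ^ ((1:ℝ) / 8) * PD * (η / 2) := by ring
      _ ≤ x / q * PD * (η / 2) := by gcongr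
  have k8 : C * (x / q) * PD * (E + η / 2) + x / q * PD * (η / 2) ≤
      (C + 1) * (x / q) * PD * (E + η) := by
    have h1 : 0 ≤ C * (x / q) * PD * (η / 2) := by positivity
    have h2 : 0 ≤ x / q * PD * (η / 2) := by positivity
    have h3 : 0 ≤ x / q * PD * E := by positivity
    nlinarith
  linarith

end Pool.Agent.Lib.P4a7640X
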