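import Mathlib
import Pool.Agent.Lib.P4a7640Y.Triple

/-!
# The moment inequality
-/

open MeasureTheory Filter Finset

namespace Pool.Agent.Lib.P4a7640X

open Pool.Agent.Lib.P4a7640 Pool.Agent.Lib.P4a7640M Pool.Agent.Lib.P4a7640Y

/-- the product of the four values of a function on the triple product -/
def KW (W : UnitAddCircle → ℝ) (τ : T3) : ℝ :=
  (W τ.2.1 * W (τ.2.1 + τ.1)) * (W τ.2.2 * W (τ.2.2 + τ.1))

namespace MomAux

lemma int_bddC {f : UnitAddCircle → ℂ} (hf : Measurable f) {C : ℝ} (h : ∀ x, ‖f x‖ ≤ C) :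
    Integrable f volume :=
  Integrable.of_bound hf.aestronglyMeasurable C (Eventually.of_forall h)

lemma measurable_fourier (n : ℤ) : Measurable fun x : UnitAddCircle => fourier n x :=
  (fourier n).continuous.measurable

/-- a Fourier coefficient is bounded by the autocorrelations -/
lemma coeff_le {G : UnitAddCircle → ℝ} (hG : Measurable G) (hb : ∀ x, |G x| ≤ 1) (n : ℤ) :
    ‖∫ x : UnitAddCircle, fourier n x * (G x : ℂ)‖ ^ 2 ≤ ∫ h, |AC G h| := by
  set f : UnitAddCircle → ℂ := fun x => fourier n x * (G x : ℂ) with hf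
  have hfm : Measurable f := (measurable_fourier n).mul (Complex.measurable_ofReal.comp hG)
  have hfb : ∀ x, ‖f x‖ ≤ 1 := by
    intro x
    rw [hf]
    show ‖fourier n x * (G x : ℂ)‖ ≤ 1
    rw [norm_mul, Complex.norm_real, Real.norm_eq_abs]
    have : ‖fourier n x‖ = 1 := Circle.norm_coe _
    rw [this, one_mul]
    exact hb x
  have hfi : Integrable f volume := int_bddC hfm hfb
  set z : ℂ := ∫ x, f x with hz
  -- `|z|^2 = z conj z`
  have h1 : ((‖z‖ ^ 2 : ℝ) : ℂ) = z * (starRingEnd ℂ) z := by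
    rw [Complex.mul_conj, Complex.normSq_eq_norm_sq]
  have h2 : (starRingEnd ℂ) z = ∫ y, (starRingEnd ℂ) (f y) := by
    rw [hz, ← integral_conj]
  -- the double integral
  have h3 : z * (starRingEnd ℂ) z = ∫ x, ∫ h, f x * (starRingEnd ℂ) (f (x + h)) := by
    rw [h2, hz, ← integral_mul_const]
    congr 1
    funext x
    rw [← integral_add_left_eq_self (fun y => (starRingEnd ℂ) (f y)) x, ← integral_const_mul]
  have hcomb : ∀ x h : UnitAddCircle, f x * (starRingEnd ℂ) (f (x + h)) =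
      (starRingEnd ℂ) (fourier n h) * ((G x * G (x + h) : ℝ) : ℂ) := by
    intro x h
    rw [hf]
    show fourier n x * (G x : ℂ) * (starRingEnd ℂ) (fourier n (x + h) * (G (x + h) : ℂ)) = _
    have e1 : (fourier n (x + h) : ℂ) = fourier n x * fourier n h := by
      rw [fourier_apply, fourier_apply, fourier_apply, smul_add, AddCircle.toCircle_add, Circle.coe_mul]
    have e2 : (fourier n x : ℂ) * (starRingEnd ℂ) (fourier n x) = 1 := by
      rw [Complex.mul_conj, Complex.normSq_eq_norm_sq]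
      have : ‖fourier n x‖ = 1 := Circle.norm_coe _
      rw [this]
      norm_num
    rw [map_mul, e1, map_mul, Complex.conj_ofReal]
    calc fourier n x * (G x : ℂ) * ((starRingEnd ℂ) (fourier n x) * (starRingEnd ℂ) (fourier n h) *
          (G (x + h) : ℂ))
        = (fourier n x * (starRingEnd ℂ) (fourier n x)) * ((starRingEnd ℂ) (fourier n h) *
          ((G x : ℂ) * (G (x + h) : ℂ))) := by ring
      _ = _ := by
          rw [e2, one_mul]
          push_cast
          ring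
  have h4 : ∫ x : UnitAddCircle, ∫ h : UnitAddCircle, f x * (starRingEnd ℂ) (f (x + h)) =
      ∫ h : UnitAddCircle, (starRingEnd ℂ) (fourier n h) * ((AC G h : ℝ) : ℂ) := by
    have hint : Integrable (Function.uncurry fun x h : UnitAddCircle =>
        f x * (starRingEnd ℂ) (f (x + h)))
        ((volume : Measure UnitAddCircle).prod (volume : Measure UnitAddCircle)) := by
      refine Integrable.of_bound (C := 1) ?_ (Eventually.of_forall fun z => ?_)
      · have m1 : Measurable fun z : UnitAddCircle × UnitAddCircle => f z.1 := hfm.comp measurable_fst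
        have m2 : Measurable fun z : UnitAddCircle × UnitAddCircle => f (z.1 + z.2) :=
          hfm.comp (measurable_fst.add measurable_snd)
        exact (m1.mul (Complex.continuous_conj.measurable.comp m2)).aestronglyMeasurable
      · show ‖f z.1 * (starRingEnd ℂ) (f (z.1 + z.2))‖ ≤ 1
        rw [norm_mul, RCLike.norm_conj]
        exact mul_le_one₀ (hfb _) (norm_nonneg _) (hfb _)
    rw [integral_integral_swap hint]
    congr 1
    funext h
    simp_rw [hcomb]
    rw [integral_const_mul]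
    congr 1
    unfold AC
    exact integral_ofReal
  have h5 : (‖z‖ ^ 2 : ℝ) = ‖((‖z‖ ^ 2 : ℝ) : ℂ)‖ := by
    rw [Complex.norm_real, Real.norm_eq_abs, abs_of_nonneg (sq_nonneg _)]
  rw [h5, h1, h3, h4]
  refine (norm_integral_le_integral_norm _).trans (le_of_eq ?_)
  congr 1
  funext h
  rw [norm_mul, RCLike.norm_conj, Complex.norm_real, Real.norm_eq_abs]
  have : ‖fourier n h‖ = 1 := Circle.norm_coe _
  rw [this, one_mul]

lemma coeff_pow_four {G : UnitAddCircle → ℝ} (hG : Measurable G) (hb : ∀ x, |G x| ≤ 1) (n : ℤ) :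
    ‖∫ x : UnitAddCircle, fourier n x * (G x : ℂ)‖ ^ 4 ≤ ∫ τ, KW G τ ∂P3 := by
  have h1 := coeff_le hG hb n
  have hAC : ∀ h, |AC G h| ≤ 1 := abs_AC_le hb
  have hACm := measurable_AC hG
  have h2 : (∫ h, |AC G h|) ^ 2 ≤ ∫ h, AC G h ^ 2 := by
    have h3 := sq_int_le (μ := (volume : Measure UnitAddCircle)) hACm.abs (C := 1)
      fun x => by rw [abs_abs]; exact hAC x
    simp_rw [sq_abs] at h3
    exact h3
  have h3 : ∫ τ, KW G τ ∂P3 = ∫ h, AC G h ^ 2 := by
    have h4 := triple_sq (k := fun h x => G x * G (x + h))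
      ((hG.comp measurable_snd).mul (hG.comp (measurable_snd.add measurable_fst)))
      (fun h x => mul_bd (hb _) (hb _))
    exact h4
  rw [h3]
  calc ‖∫ x : UnitAddCircle, fourier n x * (G x : ℂ)‖ ^ 4
      = (‖∫ x : UnitAddCircle, fourier n x * (G x : ℂ)‖ ^ 2) ^ 2 := by ring
    _ ≤ (∫ h, |AC G h|) ^ 2 := pow_le_pow_left₀ (sq_nonneg _) h1 2
    _ ≤ _ := h2

/-- the inequality between means, for the fourth power -/
lemma jensen_four {ι : Type*} (s : Finset ι) {v g : ι → ℝ} (hv : ∀ i ∈ s, 0 ≤ v i)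
    (hg : ∀ i ∈ s, 0 ≤ g i) :
    (∑ i ∈ s, v i * g i) ^ 4 ≤ (∑ i ∈ s, v i) ^ 3 * ∑ i ∈ s, v i * g i ^ 4 := by
  have h1 : ∀ q : ι → ℝ, (∀ i ∈ s, 0 ≤ q i) →
      (∑ i ∈ s, v i * q i) ^ 2 ≤ (∑ i ∈ s, v i) * ∑ i ∈ s, v i * q i ^ 2 := by
    intro q _
    exact Finset.sum_sq_le_sum_mul_sum_of_sq_eq_mul s hv
      (fun i hi => mul_nonneg (hv i hi) (sq_nonneg _)) (fun i _ => by ring)
  have hV : 0 ≤ ∑ i ∈ s, v i := Finset.sum_nonneg hv
  have h2 := h1 g hg
  have h3 := h1 (fun i => g i ^ 2) (fun i _ => sq_nonneg _)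
  have h4 : 0 ≤ ∑ i ∈ s, v i * g i ^ 2 :=
    Finset.sum_nonneg fun i hi => mul_nonneg (hv i hi) (sq_nonneg _)
  calc (∑ i ∈ s, v i * g i) ^ 4 = ((∑ i ∈ s, v i * g i) ^ 2) ^ 2 := by ring
    _ ≤ ((∑ i ∈ s, v i) * ∑ i ∈ s, v i * g i ^ 2) ^ 2 := pow_le_pow_left₀ (sq_nonneg _) h2 2
    _ = (∑ i ∈ s, v i) ^ 2 * (∑ i ∈ s, v i * g i ^ 2) ^ 2 := by ring
    _ ≤ (∑ i ∈ s, v i) ^ 2 * ((∑ i ∈ s, v i) * ∑ i ∈ s, v i * (g i ^ 2) ^ 2) :=
        mul_le_mul_of_nonneg_left h3 (sq_nonneg _)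
    _ = _ := by
        rw [← mul_assoc, ← pow_succ]
        congr 1
        exact Finset.sum_congr rfl fun i _ => by ring

end MomAux

open MomAux

/-- one factor: a sum with frequencies `θ n` and coefficients `u n` -/
noncomputable def TS (S : Finset ℕ) (v : ℕ → ℝ) (u : ℕ → ℂ) (θ : ℕ → ℤ) (W : ℕ → UnitAddCircle → ℝ)
    (x : UnitAddCircle) : ℂ := ∑ n ∈ S, (v n : ℂ) * (u n * (fourier (θ n) x * (W n x : ℂ)))

/-- the moment inequality for a product of sums -/
theorem mom_ineq {S : Finset ℕ} {v : ℕ → ℝ} (hv : ∀ n ∈ S, 0 ≤ v n) {W : ℕ → UnitAddCircle → ℝ}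
    (hW : ∀ n, Measurable (W n)) (hb : ∀ n x, |W n x| ≤ 1) {m : ℕ} {u : Fin m → ℕ → ℂ}
    (hu : ∀ i n, ‖u i n‖ ≤ 1) (θ : Fin m → ℕ → ℤ) :
    ‖∫ x, ∏ i, TS S v (u i) (θ i) W x‖ ^ 4 ≤
      (∑ n ∈ S, v n) ^ (3 * m) * ∫ τ, (∑ n ∈ S, v n * KW (W n) τ) ^ m ∂P3 := by
  classical
  set I : Finset (Fin m → ℕ) := Fintype.piFinset fun _ => S with hI
  set G : (Fin m → ℕ) → UnitAddCircle → ℝ := fun z x => ∏ i, W (z i) x with hG
  set V : (Fin m → ℕ) → ℝ := fun z => ∏ i, v (z i) with hV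
  set U : (Fin m → ℕ) → ℂ := fun z => ∏ i, u i (z i) with hU
  set Θ : (Fin m → ℕ) → ℤ := fun z => ∑ i, θ i (z i) with hΘ
  have hV0 : ∀ z ∈ I, 0 ≤ V z := fun z hz => Finset.prod_nonneg fun i _ =>
    hv _ (Fintype.mem_piFinset.mp hz i)
  have hU1 : ∀ z, ‖U z‖ ≤ 1 := fun z => by
    rw [hU]
    show ‖∏ i, u i (z i)‖ ≤ 1
    rw [norm_prod]
    exact Finset.prod_le_one (fun i _ => norm_nonneg _) fun i _ => hu i _
  have hGm : ∀ z, Measurable (G z) := fun z => Finset.measurable_fun_prod _ fun i _ => hW _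
  have hGb : ∀ z x, |G z x| ≤ 1 := fun z x => by
    rw [hG]
    show |∏ i, W (z i) x| ≤ 1
    rw [Finset.abs_prod]
    exact Finset.prod_le_one (fun i _ => abs_nonneg _) fun i _ => hb _ _
  have hexp : ∀ x, ∏ i, TS S v (u i) (θ i) W x =
      ∑ z ∈ I, ((V z : ℂ) * U z) * (fourier (Θ z) x * (G z x : ℂ)) := by
    intro x
    unfold TS
    rw [Finset.prod_univ_sum]
    refine Finset.sum_congr rfl fun z _ => ?_
    rw [Finset.prod_mul_distrib, Finset.prod_mul_distrib, Finset.prod_mul_distrib]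
    have e1 : (∏ i, (fourier (θ i (z i)) x : ℂ)) = fourier (Θ z) x := by
      rw [hΘ]
      show _ = fourier (∑ i, θ i (z i)) x
      have h0 : ∀ s : Finset (Fin m), (∏ i ∈ s, (fourier (θ i (z i)) x : ℂ)) =
          fourier (∑ i ∈ s, θ i (z i)) x := by
        intro s
        induction s using Finset.induction_on with
        | empty => simp
        | insert i s hi ih =>
          rw [Finset.prod_insert hi, Finset.sum_insert hi, ih, fourier_add]
      exact h0 _
    rw [e1, hV, hU, hG]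
    push_cast
    ring
  have hGi : ∀ z, Integrable (fun x : UnitAddCircle => fourier (Θ z) x * (G z x : ℂ)) volume := by
    intro z
    refine int_bddC ((measurable_fourier _).mul (Complex.measurable_ofReal.comp (hGm z))) (C := 1)
      fun x => ?_
    rw [norm_mul, Complex.norm_real, Real.norm_eq_abs]
    have : ‖fourier (Θ z) x‖ = 1 := Circle.norm_coe _
    rw [this, one_mul]
    exact hGb z x
  set g : (Fin m → ℕ) → ℝ := fun z => ‖∫ x : UnitAddCircle, fourier (Θ z) x * (G z x : ℂ)‖ with hg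
  have h1 : ‖∫ x, ∏ i, TS S v (u i) (θ i) W x‖ ≤ ∑ z ∈ I, V z * g z := by
    simp_rw [hexp]
    rw [integral_finsetSum I fun z _ => (hGi z).const_mul _]
    refine (norm_sum_le _ _).trans (Finset.sum_le_sum fun z hz => ?_)
    rw [integral_const_mul, norm_mul, norm_mul, Complex.norm_real, Real.norm_eq_abs,
      abs_of_nonneg (hV0 z hz)]
    refine mul_le_mul_of_nonneg_right ?_ (norm_nonneg _)
    exact mul_le_of_le_one_right (hV0 z hz) (hU1 z)
  have h2 := jensen_four I (v := V) (g := g) hV0 (fun z _ => norm_nonneg _)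
  have hVs : ∑ z ∈ I, V z = (∑ n ∈ S, v n) ^ m := by
    rw [hI, hV, ← Finset.prod_univ_sum, Finset.prod_const, Finset.card_univ, Fintype.card_fin]
  have hKm : ∀ n, Measurable (KW (W n)) := by
    intro n
    have m1 : Measurable fun τ : T3 => W n τ.2.1 := (hW n).comp (measurable_fst.comp measurable_snd)
    have m2 : Measurable fun τ : T3 => W n (τ.2.1 + τ.1) :=
      (hW n).comp ((measurable_fst.comp measurable_snd).add measurable_fst)
    have m3 : Measurable fun τ : T3 => W n τ.2.2 := (hW n).comp (measurable_snd.comp measurable_snd)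
    have m4 : Measurable fun τ : T3 => W n (τ.2.2 + τ.1) :=
      (hW n).comp ((measurable_snd.comp measurable_snd).add measurable_fst)
    exact (m1.mul m2).mul (m3.mul m4)
  have hKb : ∀ n τ, |KW (W n) τ| ≤ 1 := fun n τ =>
    mul_bd (mul_bd (hb _ _) (hb _ _)) (mul_bd (hb _ _) (hb _ _))
  have h3 : ∑ z ∈ I, V z * g z ^ 4 ≤ ∫ τ, (∑ n ∈ S, v n * KW (W n) τ) ^ m ∂P3 := by
    have e1 : ∀ τ, (∑ n ∈ S, v n * KW (W n) τ) ^ m = ∑ z ∈ I, V z * KW (G z) τ := by
      intro τ
      have e2 : (∑ n ∈ S, v n * KW (W n) τ) ^ m = ∏ _i : Fin m, ∑ n ∈ S, v n * KW (W n) τ := by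
        rw [Finset.prod_const, Finset.card_univ, Fintype.card_fin]
      rw [e2, Finset.prod_univ_sum]
      refine Finset.sum_congr rfl fun z _ => ?_
      rw [Finset.prod_mul_distrib]
      congr 1
      unfold KW
      rw [Finset.prod_mul_distrib, Finset.prod_mul_distrib, Finset.prod_mul_distrib]
    have hKGm : ∀ z, Measurable (KW (G z)) := by
      intro z
      have m1 : Measurable fun τ : T3 => G z τ.2.1 := (hGm z).comp (measurable_fst.comp measurable_snd)
      have m2 : Measurable fun τ : T3 => G z (τ.2.1 + τ.1) :=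
        (hGm z).comp ((measurable_fst.comp measurable_snd).add measurable_fst)
      have m3 : Measurable fun τ : T3 => G z τ.2.2 := (hGm z).comp (measurable_snd.comp measurable_snd)
      have m4 : Measurable fun τ : T3 => G z (τ.2.2 + τ.1) :=
        (hGm z).comp ((measurable_snd.comp measurable_snd).add measurable_fst)
      exact (m1.mul m2).mul (m3.mul m4)
    have hKGi : ∀ z, Integrable (KW (G z)) P3 := fun z =>
      int_bdd (hKGm z) (C := 1) fun τ => mul_bd (mul_bd (hGb _ _) (hGb _ _)) (mul_bd (hGb _ _) (hGb _ _))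
    simp_rw [e1]
    rw [integral_finsetSum I fun z _ => (hKGi z).const_mul _]
    refine Finset.sum_le_sum fun z hz => ?_
    rw [integral_const_mul]
    exact mul_le_mul_of_nonneg_left (coeff_pow_four (hGm z) (hGb z) _) (hV0 z hz)
  calc ‖∫ x, ∏ i, TS S v (u i) (θ i) W x‖ ^ 4 ≤ (∑ z ∈ I, V z * g z) ^ 4 :=
        pow_le_pow_left₀ (norm_nonneg _) h1 4
    _ ≤ (∑ z ∈ I, V z) ^ 3 * ∑ z ∈ I, V z * g z ^ 4 := h2
    _ ≤ (∑ z ∈ I, V z) ^ 3 * ∫ τ, (∑ n ∈ S, v n * KW (W n) τ) ^ m ∂P3 := by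
        refine mul_le_mul_of_nonneg_left h3 (pow_nonneg ?_ 3)
        exact Finset.sum_nonneg hV0
    _ = _ := by rw [hVs, ← pow_mul, mul_comm m 3]

end Pool.Agent.Lib.P4a7640X
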