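import Mathlib
import Pool.Agent.Lib.P4a7640Y.Pair
import Pool.Agent.Lib.P4a7640X.MomIneq

/-!
# The arithmetic means of the Fourier series
-/

open MeasureTheory Filter Finset

namespace Pool.Agent.Lib.P4a7640X

open Pool.Agent.Lib.P4a7640 Pool.Agent.Lib.P4a7640M Pool.Agent.Lib.P4a7640Y

/-- the kernel -/
noncomputable def FK (J : ℕ) (x : UnitAddCircle) : ℝ := ‖∑ j ∈ Finset.range J, (fourier (j:ℤ) x : ℂ)‖ ^ 2 / J

/-- the arithmetic mean of the Fourier sums -/
noncomputable def FM (J : ℕ) (φ : UnitAddCircle → ℝ) (x : UnitAddCircle) : ℝ := ∫ t, φ (x + t) * FK J t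

/-- the coefficients -/
noncomputable def fc (J : ℕ) (φ : UnitAddCircle → ℝ) (z : ℕ × ℕ) : ℂ :=
  (∫ s : UnitAddCircle, (fourier ((z.1:ℤ) - z.2) s : ℂ) * (φ s : ℂ)) / J

namespace FejAux

open MomAux

lemma norm_fourier (n : ℤ) (x : UnitAddCircle) : ‖(fourier n x : ℂ)‖ = 1 := Circle.norm_coe _

lemma fourier_add_pt (n : ℤ) (x y : UnitAddCircle) :
    (fourier n (x + y) : ℂ) = fourier n x * fourier n y := by
  rw [fourier_apply, fourier_apply, fourier_apply, smul_add, AddCircle.toCircle_add, Circle.coe_mul]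

lemma integral_fourier_ne {n : ℤ} (hn : n ≠ 0) : ∫ x : UnitAddCircle, (fourier n x : ℂ) = 0 := by
  have h1 := integral_add_right_eq_self (μ := (volume : Measure UnitAddCircle))
    (fun x : UnitAddCircle => (fourier n x : ℂ)) (((1:ℝ) / 2 / n : ℝ) : UnitAddCircle)
  simp_rw [fourier_add_half_inv_index hn one_pos] at h1
  rw [integral_neg] at h1
  have h2 : (2:ℂ) * ∫ x : UnitAddCircle, (fourier n x : ℂ) = 0 := by
    linear_combination -h1
  rcases mul_eq_zero.mp h2 with h3 | h3
  · norm_num at h3
  · exact h3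

lemma FK_nonneg (J : ℕ) (x : UnitAddCircle) : 0 ≤ FK J x := by
  unfold FK
  positivity

lemma FK_eq (J : ℕ) (x : UnitAddCircle) : ((FK J x : ℝ) : ℂ) =
    (∑ z ∈ Finset.range J ×ˢ Finset.range J, (fourier ((z.1:ℤ) - z.2) x : ℂ)) / J := by
  unfold FK
  rw [Complex.ofReal_div, Complex.ofReal_natCast]
  congr 1
  rw [← Complex.normSq_eq_norm_sq, ← Complex.mul_conj, map_sum, Finset.sum_mul_sum,
    Finset.sum_product]
  refine Finset.sum_congr rfl fun i _ => Finset.sum_congr rfl fun j _ => ?_
  rw [← fourier_neg, ← fourier_add, sub_eq_add_neg]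

lemma continuous_FK (J : ℕ) : Continuous (FK J) := by
  unfold FK
  refine Continuous.div_const (Continuous.pow (Continuous.norm ?_) 2) _
  exact continuous_finset_sum _ fun j _ => (fourier (j:ℤ)).continuous

lemma measurable_FK (J : ℕ) : Measurable (FK J) := (continuous_FK J).measurable

lemma FK_le (J : ℕ) (x : UnitAddCircle) : FK J x ≤ J := by
  unfold FK
  rcases Nat.eq_zero_or_pos J with h | h
  · subst h
    simp
  · have hJ : (0:ℝ) < J := by exact_mod_cast h
    rw [div_le_iff₀ hJ, ← pow_two]
    refine pow_le_pow_left₀ (norm_nonneg _) ?_ 2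
    refine (norm_sum_le _ _).trans (le_of_eq ?_)
    simp_rw [norm_fourier]
    rw [Finset.sum_const, Finset.card_range, nsmul_eq_mul, mul_one]

lemma abs_FK_le (J : ℕ) (x : UnitAddCircle) : |FK J x| ≤ J := by
  rw [abs_of_nonneg (FK_nonneg J x)]
  exact FK_le J x

lemma int_FK {J : ℕ} (hJ : 0 < J) : ∫ x, FK J x = 1 := by
  have hJ0 : (J:ℂ) ≠ 0 := by exact_mod_cast hJ.ne'
  have h1 : ((∫ x, FK J x : ℝ) : ℂ) = 1 := by
    have e0 : ((∫ x, FK J x : ℝ) : ℂ) = ∫ x, ((FK J x : ℝ) : ℂ) := integral_ofReal.symm
    rw [e0]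
    simp_rw [FK_eq]
    rw [integral_div, integral_finsetSum]
    · have h2 : ∀ z ∈ Finset.range J ×ˢ Finset.range J,
          (∫ x : UnitAddCircle, (fourier ((z.1:ℤ) - z.2) x : ℂ)) = if z.1 = z.2 then 1 else 0 := by
        intro z _
        split_ifs with h
        · rw [h, sub_self]
          simp_rw [fourier_zero]
          simp
        · exact integral_fourier_ne (by omega)
      rw [Finset.sum_congr rfl h2, Finset.sum_product]
      have h3 : ∀ i ∈ Finset.range J, (∑ j ∈ Finset.range J, if ((i, j) : ℕ × ℕ).1 = (i, j).2 then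
          (1:ℂ) else 0) = 1 := by
        intro i hi
        show (∑ j ∈ Finset.range J, if i = j then (1:ℂ) else 0) = 1
        rw [Finset.sum_ite_eq, if_pos hi]
      rw [Finset.sum_congr rfl h3, Finset.sum_const, Finset.card_range, nsmul_eq_mul, mul_one,
        div_self hJ0]
    · intro z _
      exact int_bddC (measurable_fourier _) fun x => (norm_fourier _ x).le
  exact_mod_cast h1

/-- the telescoping identity -/
lemma FK_tel {J : ℕ} (hJ : 0 < J) (x : UnitAddCircle) :
    FK J x * ‖1 - (fourier 1 x : ℂ)‖ ^ 2 ≤ 4 / J := by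
  have hJ0 : (0:ℝ) < J := by exact_mod_cast hJ
  unfold FK
  rw [div_mul_eq_mul_div, ← mul_pow, ← norm_mul]
  refine div_le_div_of_nonneg_right ?_ hJ0.le
  have h1 : (∑ j ∈ Finset.range J, (fourier (j:ℤ) x : ℂ)) * (1 - fourier 1 x) =
      1 - fourier (J:ℤ) x := by
    have h2 : ∀ j : ℕ, (fourier (j:ℤ) x : ℂ) * fourier 1 x = fourier ((j + 1 : ℕ):ℤ) x := by
      intro j
      rw [← fourier_add]
      push_cast
      rfl
    rw [Finset.sum_mul]
    have h3 : ∀ j ∈ Finset.range J, (fourier (j:ℤ) x : ℂ) * (1 - fourier 1 x) =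
        fourier (j:ℤ) x - fourier ((j + 1 : ℕ):ℤ) x := by
      intro j _
      rw [mul_sub, mul_one, h2]
    rw [Finset.sum_congr rfl h3, Finset.sum_range_sub' (fun j : ℕ => (fourier (j:ℤ) x : ℂ))]
    rw [Nat.cast_zero, fourier_zero]
  rw [h1]
  have h4 : ‖1 - (fourier (J:ℤ) x : ℂ)‖ ≤ 2 := by
    refine (norm_sub_le _ _).trans ?_
    rw [norm_one, norm_fourier]
    norm_num
  calc ‖1 - (fourier (J:ℤ) x : ℂ)‖ ^ 2 ≤ 2 ^ 2 := pow_le_pow_left₀ (norm_nonneg _) h4 2
    _ = 4 := by norm_num

/-- small shifts of `φ`, in terms of the first character -/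
lemma shift_le {φ : UnitAddCircle → ℝ} (hφ : Measurable φ) {C : ℝ} (hC : LL1 C φ) (t : UnitAddCircle) :
    ∫ x, |φ (x + t) - φ x| ≤ C / 4 * ‖1 - (fourier 1 t : ℂ)‖ := by
  induction t using QuotientAddGroup.induction_on with
  | H t =>
    have hC0 := hC.nonneg
    set r : ℝ := t - round t with hr
    have hrt : ((r : ℝ) : UnitAddCircle) = ((t : ℝ) : UnitAddCircle) := by
      rw [hr, AddCircle.coe_sub, coe_int, sub_zero]
    have hr2 : |r| ≤ 1 / 2 := abs_sub_round t
    have h1 := one_shift hφ hC (a := 1) one_ne_zero (s := ((t:ℝ) : UnitAddCircle)) (r := r)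
      (by rw [one_smul]; exact hrt.symm)
    simp_rw [one_smul] at h1
    have h2 : 4 * |r| ≤ ‖1 - (fourier 1 ((t : ℝ) : UnitAddCircle) : ℂ)‖ := by
      rw [← hrt, fourier_coe_apply]
      have e1 : Complex.exp (2 * Real.pi * Complex.I * (1:ℤ) * (r:ℝ) / (1:ℝ)) =
          Complex.exp (Complex.I * ((2 * Real.pi * r : ℝ) : ℂ)) := by
        congr 1
        push_cast
        ring
      rw [e1, norm_sub_rev, Complex.norm_exp_I_mul_ofReal_sub_one, Real.norm_eq_abs, abs_mul, abs_two]
      have e2 : 2 * Real.pi * r / 2 = Real.pi * r := by ring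
      rw [e2]
      have h3 : |Real.pi * r| ≤ Real.pi / 2 := by
        rw [abs_mul, abs_of_pos Real.pi_pos]
        nlinarith [Real.pi_pos]
      have h4 := Real.mul_abs_le_abs_sin h3
      rw [abs_mul, abs_of_pos Real.pi_pos] at h4
      have h5 : 2 / Real.pi * (Real.pi * |r|) = 2 * |r| := by
        field_simp
      rw [h5] at h4
      linarith
    calc ∫ x, |φ (x + ((t:ℝ) : UnitAddCircle)) - φ x| ≤ C * |r| := h1
      _ = C / 4 * (4 * |r|) := by ring
      _ ≤ _ := mul_le_mul_of_nonneg_left h2 (by positivity)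

end FejAux

open FejAux MomAux

variable {φ : UnitAddCircle → ℝ}

lemma measurable_FM (hφ : Measurable φ) (J : ℕ) : Measurable (FM J φ) := by
  unfold FM
  refine measurable_int (f := fun x t => φ (x + t) * FK J t) ?_
  exact (hφ.comp (measurable_fst.add measurable_snd)).mul ((measurable_FK J).comp measurable_snd)

lemma abs_FM_le (hφ : Measurable φ) (hb : ∀ x, |φ x| ≤ 1) {J : ℕ} (hJ : 0 < J) (x : UnitAddCircle) :
    |FM J φ x| ≤ 1 := by
  unfold FM
  refine abs_int_le_int_abs.trans (le_trans ?_ (int_FK hJ).le)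
  refine integral_mono ?_ (int_bdd (measurable_FK J) (abs_FK_le J)) fun t => ?_
  · refine (int_bdd (f := fun t => φ (x + t) * FK J t) ((hφ.comp (measurable_const_add x)).mul
      (measurable_FK J)) (C := J) fun t => ?_).abs
    rw [abs_mul]
    calc |φ (x + t)| * |FK J t| ≤ 1 * J := mul_le_mul (hb _) (abs_FK_le J t) (abs_nonneg _) zero_le_one
      _ = J := one_mul _
  · show |φ (x + t) * FK J t| ≤ FK J t
    rw [abs_mul, abs_of_nonneg (FK_nonneg J t)]
    exact mul_le_of_le_one_left (FK_nonneg J t) (hb _)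

/-- the mean is close to the function -/
theorem fejer_close (hφ : Measurable φ) (hb : ∀ x, |φ x| ≤ 1) {C : ℝ} (hC : LL1 C φ) {J : ℕ}
    (hJ : 0 < J) : ∫ x, |φ x - FM J φ x| ≤ C / Real.sqrt J := by
  have hJ0 : (0:ℝ) < J := by exact_mod_cast hJ
  have hC0 := hC.nonneg
  have hsq : 0 < Real.sqrt J := Real.sqrt_pos.mpr hJ0
  have m1 : Measurable fun z : UnitAddCircle × UnitAddCircle => |φ (z.1 + z.2) - φ z.1| * FK J z.2 :=
    ((hφ.comp (measurable_fst.add measurable_snd)).sub (hφ.comp measurable_fst)).abs.mul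
      ((measurable_FK J).comp measurable_snd)
  have b1 : ∀ z : UnitAddCircle × UnitAddCircle, |(|φ (z.1 + z.2) - φ z.1| * FK J z.2)| ≤ 2 * J := by
    intro z
    rw [abs_mul, abs_abs]
    refine mul_le_mul ?_ (abs_FK_le J _) (abs_nonneg _) zero_le_two
    have e1 := abs_sub (φ (z.1 + z.2)) (φ z.1)
    have e2 := hb (z.1 + z.2)
    have e3 := hb z.1
    linarith
  -- pointwise
  have h1 : ∀ x, |φ x - FM J φ x| ≤ ∫ t, |φ (x + t) - φ x| * FK J t := by
    intro x
    have e1 : φ x - FM J φ x = ∫ t, (φ x - φ (x + t)) * FK J t := by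
      have i1 : Integrable (fun t => φ x * FK J t) volume :=
        (int_bdd (measurable_FK J) (abs_FK_le J)).const_mul _
      have i2 : Integrable (fun t => φ (x + t) * FK J t) volume := by
        refine int_bdd ((hφ.comp (measurable_const_add x)).mul (measurable_FK J)) (C := J) fun t => ?_
        rw [abs_mul]
        calc |φ (x + t)| * |FK J t| ≤ 1 * J :=
              mul_le_mul (hb _) (abs_FK_le J t) (abs_nonneg _) zero_le_one
          _ = J := one_mul _
      have e2 : ∀ t, (φ x - φ (x + t)) * FK J t = φ x * FK J t - φ (x + t) * FK J t := fun t => by ring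
      simp_rw [e2]
      rw [integral_sub i1 i2, integral_const_mul, int_FK hJ, mul_one]
      rfl
    rw [e1]
    refine abs_int_le_int_abs.trans (le_of_eq ?_)
    congr 1
    funext t
    rw [abs_mul, abs_of_nonneg (FK_nonneg J t), abs_sub_comm]
  have hFMm := measurable_FM hφ J
  calc ∫ x, |φ x - FM J φ x| ≤ ∫ x, ∫ t, |φ (x + t) - φ x| * FK J t := by
        refine integral_mono ?_ ?_ h1
        · refine (int_bdd (f := fun x => φ x - FM J φ x) (hφ.sub hFMm) (C := 2) fun x => ?_).abs
          have e1 := abs_sub (φ x) (FM J φ x)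
          have e2 := hb x
          have e3 := abs_FM_le hφ hb hJ x
          linarith
        · exact int_bdd (measurable_int (f := fun x t => |φ (x + t) - φ x| * FK J t) m1)
            (C := 2 * J) fun x => abs_int_le fun t => b1 (x, t)
    _ = ∫ t, ∫ x, |φ (x + t) - φ x| * FK J t :=
        swap_bdd (f := fun x t => |φ (x + t) - φ x| * FK J t) m1 fun x t => b1 (x, t)
    _ = ∫ t, (∫ x, |φ (x + t) - φ x|) * FK J t := by
        congr 1
        funext t
        exact integral_mul_const _ _
    _ ≤ ∫ t, (C / Real.sqrt J * FK J t / 2 + C / (2 * Real.sqrt J)) := by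
        have mD : Measurable fun t : UnitAddCircle => ∫ x, |φ (x + t) - φ x| := by
          refine measurable_int (f := fun t x => |φ (x + t) - φ x|) ?_
          exact ((hφ.comp (measurable_snd.add measurable_fst)).sub (hφ.comp measurable_snd)).abs
        have bD : ∀ t : UnitAddCircle, |(∫ x, |φ (x + t) - φ x|)| ≤ 2 := fun t => abs_int_le fun x => by
          rw [abs_abs]
          have e1 := abs_sub (φ (x + t)) (φ x)
          have e2 := hb (x + t)
          have e3 := hb x
          linarith
        refine integral_mono ?_ ?_ fun t => ?_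
        · refine int_bdd (f := fun t => (∫ x, |φ (x + t) - φ x|) * FK J t) (mD.mul (measurable_FK J))
            (C := 2 * J) fun t => ?_
          rw [abs_mul]
          exact mul_le_mul (bD t) (abs_FK_le J t) (abs_nonneg _) zero_le_two
        · exact (((int_bdd (measurable_FK J) (abs_FK_le J)).const_mul _).div_const _).add
            (integrable_const _)
        · show (∫ x, |φ (x + t) - φ x|) * FK J t ≤ C / Real.sqrt J * FK J t / 2 + C / (2 * Real.sqrt J)
          set g := ‖1 - (fourier 1 t : ℂ)‖ with hg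
          have hg0 : 0 ≤ g := norm_nonneg _
          have e1 := mul_le_mul_of_nonneg_right (shift_le hφ hC t) (FK_nonneg J t)
          have e2 := FK_tel hJ t
          rw [← hg] at e1 e2
          refine e1.trans ?_
          -- `g ≤ 1 / √J · 2 / 2 + √J g² / 4 ...`
          have e3 : g ≤ 2 / Real.sqrt J + g ^ 2 * Real.sqrt J / 2 := by
            have e4 : 0 ≤ (g * Real.sqrt J - 2) ^ 2 := sq_nonneg _
            have e5 : g * Real.sqrt J * Real.sqrt J ≤ (2 / Real.sqrt J + g ^ 2 * Real.sqrt J / 2) *
                Real.sqrt J * Real.sqrt J := by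
              have e6 : (2 / Real.sqrt J + g ^ 2 * Real.sqrt J / 2) * Real.sqrt J * Real.sqrt J =
                  2 * Real.sqrt J + (g * Real.sqrt J) ^ 2 * Real.sqrt J / 2 := by
                field_simp
              rw [e6]
              nlinarith
            have e7 : 0 < Real.sqrt J * Real.sqrt J := mul_pos hsq hsq
            rw [mul_assoc, mul_assoc] at e5
            exact le_of_mul_le_mul_right e5 e7
          have e8 : Real.sqrt J * Real.sqrt J = J := Real.mul_self_sqrt hJ0.le
          have hF := FK_nonneg J t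
          have e9 : g * FK J t ≤ 2 / Real.sqrt J * FK J t + (FK J t * g ^ 2) * Real.sqrt J / 2 := by
            have := mul_le_mul_of_nonneg_right e3 hF
            calc g * FK J t ≤ (2 / Real.sqrt J + g ^ 2 * Real.sqrt J / 2) * FK J t := this
              _ = _ := by ring
          have e10 : (FK J t * g ^ 2) * Real.sqrt J / 2 ≤ 2 / Real.sqrt J := by
            calc (FK J t * g ^ 2) * Real.sqrt J / 2 ≤ 4 / J * Real.sqrt J / 2 := by
                  refine div_le_div_of_nonneg_right (mul_le_mul_of_nonneg_right e2 hsq.le) zero_le_two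
              _ = 4 / (Real.sqrt J * Real.sqrt J) * Real.sqrt J / 2 := by rw [e8]
              _ = 2 / Real.sqrt J := by
                  field_simp
                  ring
          calc C / 4 * g * FK J t = C / 4 * (g * FK J t) := by ring
            _ ≤ C / 4 * (2 / Real.sqrt J * FK J t + 2 / Real.sqrt J) :=
                mul_le_mul_of_nonneg_left (by linarith) (by positivity)
            _ = C / Real.sqrt J * FK J t / 2 + C / (2 * Real.sqrt J) := by
                field_simp
                ring
    _ = C / Real.sqrt J := by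
        rw [integral_add (((int_bdd (measurable_FK J) (abs_FK_le J)).const_mul _).div_const _)
          (integrable_const _), integral_div, integral_const_mul, int_FK hJ, integral_const]
        simp only [probReal_univ, smul_eq_mul, one_mul, mul_one]
        field_simp
        ring

lemma LL1_FM (hφ : Measurable φ) (hb : ∀ x, |φ x| ≤ 1) {C : ℝ} (hC : LL1 C φ) {J : ℕ} (hJ : 0 < J) :
    LL1 C (FM J φ) := by
  intro s hs
  have b0 : ∀ y : UnitAddCircle, ∀ z : UnitAddCircle, |φ y - φ z| ≤ 2 := by
    intro y z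
    have e1 := abs_sub (φ y) (φ z)
    have e2 := hb y
    have e3 := hb z
    linarith
  have m1 : Measurable fun z : UnitAddCircle × UnitAddCircle =>
      |φ (z.1 + (s : UnitAddCircle) + z.2) - φ (z.1 + z.2)| * FK J z.2 := by
    have e1 : Measurable fun z : UnitAddCircle × UnitAddCircle => z.1 + (s : UnitAddCircle) + z.2 :=
      (measurable_fst.add_const _).add measurable_snd
    exact ((hφ.comp e1).sub (hφ.comp (measurable_fst.add measurable_snd))).abs.mul
      ((measurable_FK J).comp measurable_snd)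
  have b1 : ∀ z : UnitAddCircle × UnitAddCircle,
      |(|φ (z.1 + (s : UnitAddCircle) + z.2) - φ (z.1 + z.2)| * FK J z.2)| ≤ 2 * J := by
    intro z
    rw [abs_mul, abs_abs]
    exact mul_le_mul (b0 _ _) (abs_FK_le J _) (abs_nonneg _) zero_le_two
  have iF : ∀ y : UnitAddCircle, Integrable (fun t => φ (y + t) * FK J t) volume := by
    intro y
    refine int_bdd ((hφ.comp (measurable_const_add y)).mul (measurable_FK J)) (C := J) fun t => ?_
    rw [abs_mul]
    calc |φ (y + t)| * |FK J t| ≤ 1 * J :=
          mul_le_mul (hb _) (abs_FK_le J t) (abs_nonneg _) zero_le_one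
      _ = J := one_mul _
  have hFMm := measurable_FM hφ J
  calc ∫ x, |FM J φ (x + (s : UnitAddCircle)) - FM J φ x|
      ≤ ∫ x, ∫ t, |φ (x + (s : UnitAddCircle) + t) - φ (x + t)| * FK J t := by
        refine integral_mono ?_ ?_ fun x => ?_
        · refine (int_bdd (f := fun x => FM J φ (x + (s : UnitAddCircle)) - FM J φ x)
            ((hFMm.comp (measurable_add_const _)).sub hFMm) (C := 2) fun x => ?_).abs
          have e1 := abs_sub (FM J φ (x + (s : UnitAddCircle))) (FM J φ x)
          have e2 := abs_FM_le hφ hb hJ x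
          have e3 := abs_FM_le hφ hb hJ (x + (s : UnitAddCircle))
          linarith
        · exact int_bdd (measurable_int
            (f := fun x t => |φ (x + (s : UnitAddCircle) + t) - φ (x + t)| * FK J t) m1)
            (C := 2 * J) fun x => abs_int_le fun t => b1 (x, t)
        · show |FM J φ (x + (s : UnitAddCircle)) - FM J φ x| ≤ _
          have e1 : FM J φ (x + (s : UnitAddCircle)) - FM J φ x =
              ∫ t, (φ (x + (s : UnitAddCircle) + t) - φ (x + t)) * FK J t := by
            unfold FM
            rw [← integral_sub (iF _) (iF _)]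
            congr 1
            funext t
            ring
          rw [e1]
          refine abs_int_le_int_abs.trans (le_of_eq ?_)
          congr 1
          funext t
          rw [abs_mul, abs_of_nonneg (FK_nonneg J t)]
    _ = ∫ t, ∫ x, |φ (x + (s : UnitAddCircle) + t) - φ (x + t)| * FK J t :=
        swap_bdd (f := fun x t => |φ (x + (s : UnitAddCircle) + t) - φ (x + t)| * FK J t) m1
          fun x t => b1 (x, t)
    _ ≤ ∫ t, C * s * FK J t := by
        have hm : Measurable fun t : UnitAddCircle =>
            ∫ x, |φ (x + (s : UnitAddCircle) + t) - φ (x + t)| * FK J t := by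
          refine measurable_int (f := fun t x =>
            |φ (x + (s : UnitAddCircle) + t) - φ (x + t)| * FK J t) ?_
          have e1 : Measurable fun z : UnitAddCircle × UnitAddCircle => z.2 + (s : UnitAddCircle) + z.1 :=
            (measurable_snd.add_const _).add measurable_fst
          exact ((hφ.comp e1).sub (hφ.comp (measurable_snd.add measurable_fst))).abs.mul
            ((measurable_FK J).comp measurable_fst)
        refine integral_mono ?_ ((int_bdd (measurable_FK J) (abs_FK_le J)).const_mul _) fun t => ?_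
        · exact int_bdd hm (C := 2 * J) fun t => abs_int_le fun x => b1 (x, t)
        · show (∫ x, |φ (x + (s : UnitAddCircle) + t) - φ (x + t)| * FK J t) ≤ C * s * FK J t
          rw [integral_mul_const]
          refine mul_le_mul_of_nonneg_right ?_ (FK_nonneg J t)
          have e1 := integral_add_right_eq_self (μ := (volume : Measure UnitAddCircle))
            (fun x : UnitAddCircle => |φ (x + (s : UnitAddCircle)) - φ x|) t
          have e2 : ∀ x : UnitAddCircle, x + (s : UnitAddCircle) + t = x + t + (s : UnitAddCircle) :=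
            fun x => by abel
          simp_rw [e2]
          rw [e1]
          exact hC s hs
    _ = C * s := by rw [integral_const_mul, int_FK hJ, mul_one]

/-- the Fourier expansion of the mean -/
theorem FM_eq (hφ : Measurable φ) (hb : ∀ x, |φ x| ≤ 1) (J : ℕ) (x : UnitAddCircle) :
    ((FM J φ x : ℝ) : ℂ) =
      ∑ z ∈ Finset.range J ×ˢ Finset.range J, fc J φ z * fourier ((z.2:ℤ) - z.1) x := by
  have h1 : FM J φ x = ∫ s, φ s * FK J (s - x) := by
    unfold FM
    rw [← integral_add_left_eq_self (fun s => φ s * FK J (s - x)) x]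
    congr 1
    funext t
    rw [add_sub_cancel_left]
  have h2 : ((FM J φ x : ℝ) : ℂ) = ∫ s : UnitAddCircle, (φ s : ℂ) * ((FK J (s - x) : ℝ) : ℂ) := by
    have e0 : ((∫ s, φ s * FK J (s - x) : ℝ) : ℂ) = ∫ s, ((φ s * FK J (s - x) : ℝ) : ℂ) :=
      integral_ofReal.symm
    rw [h1, e0]
    congr 1
    funext s
    push_cast
    rfl
  have h3 : ∀ s : UnitAddCircle, (φ s : ℂ) * ((FK J (s - x) : ℝ) : ℂ) =
      ∑ z ∈ Finset.range J ×ˢ Finset.range J,
        (fourier ((z.1:ℤ) - z.2) s * (φ s : ℂ)) * (fourier ((z.2:ℤ) - z.1) x / J) := by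
    intro s
    rw [FK_eq, mul_div_assoc', Finset.mul_sum, Finset.sum_div]
    refine Finset.sum_congr rfl fun z _ => ?_
    have e1 : (fourier ((z.1:ℤ) - z.2) (s - x) : ℂ) =
        fourier ((z.1:ℤ) - z.2) s * fourier ((z.2:ℤ) - z.1) x := by
      rw [sub_eq_add_neg s x, fourier_add_pt]
      congr 1
      rw [fourier_apply, fourier_apply, smul_neg, ← neg_smul, neg_sub]
    rw [e1]
    ring
  rw [h2]
  simp_rw [h3]
  rw [integral_finsetSum]
  · refine Finset.sum_congr rfl fun z _ => ?_
    rw [integral_mul_const]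
    unfold fc
    ring
  · intro z _
    refine Integrable.mul_const ?_ _
    refine int_bddC ((measurable_fourier _).mul (Complex.measurable_ofReal.comp hφ)) (C := 1)
      fun s => ?_
    rw [norm_mul, norm_fourier, one_mul, Complex.norm_real, Real.norm_eq_abs]
    exact hb s

lemma norm_fc_le (hφ : Measurable φ) (hb : ∀ x, |φ x| ≤ 1) {J : ℕ} (hJ : 0 < J) (z : ℕ × ℕ) :
    ‖fc J φ z‖ ≤ 1 := by
  have hJ1 : (1:ℝ) ≤ J := by exact_mod_cast hJ
  unfold fc
  rw [norm_div, Complex.norm_natCast]
  rw [div_le_one (by linarith)]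
  refine le_trans ?_ hJ1
  have h1 := norm_integral_le_of_norm_le_const (μ := (volume : Measure UnitAddCircle))
    (f := fun s : UnitAddCircle => (fourier ((z.1:ℤ) - z.2) s : ℂ) * (φ s : ℂ)) (C := 1)
    (Eventually.of_forall fun s => by
      rw [norm_mul, norm_fourier, one_mul, Complex.norm_real, Real.norm_eq_abs]
      exact hb s)
  simpa using h1

end Pool.Agent.Lib.P4a7640X
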