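import Mathlib
import Pool.Agent.Lib.P4a7640X.Par
import Pool.Agent.Lib.P4a7640X.Fejer

/-!
# Trigonometric polynomials close to a sign function in mean
-/

open Filter MeasureTheory Finset Topology

namespace Pool.Agent.Lib.P4a7640X

open Pool.Agent.Lib.P4a7640 Pool.Agent.Lib.P4a7640D

/-- a trigonometric polynomial with `J ^ 2` terms -/
noncomputable def tp {J : ℕ} (c : Fin J × Fin J → ℂ) (x : UnitAddCircle) : ℂ :=
  ∑ ι : Fin J × Fin J, c ι * fourier (((ι.1 : ℕ) : ℤ) - ((ι.2 : ℕ) : ℤ)) x

lemma continuous_tp {J : ℕ} (c : Fin J × Fin J → ℂ) : Continuous (tp c) := by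
  unfold tp
  exact continuous_finset_sum _ fun ι _ => continuous_const.mul (fourier _).continuous

lemma tp_fc {φ : UnitAddCircle → ℝ} (hφ : Measurable φ) (hb : ∀ x, |φ x| ≤ 1) (J : ℕ)
    (x : UnitAddCircle) : tp (J := J) (fun ι => fc J φ (((ι.2 : ℕ)), ((ι.1 : ℕ)))) x = ((FM J φ x : ℝ) : ℂ) := by
  rw [FM_eq hφ hb, Finset.sum_product, Finset.sum_comm]
  unfold tp
  rw [Fintype.sum_prod_type, Finset.sum_range]
  refine Finset.sum_congr rfl fun i _ => ?_
  rw [Finset.sum_range]

theorem trig {φ : UnitAddCircle → ℝ} (hφ : Measurable φ) (hb : ∀ x, |φ x| ≤ 1) {C : ℝ}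
    (hC : P4a7640Y.LL1 C φ) {J : ℕ} (hJ : 0 < J) :
    ∃ c : Fin J × Fin J → ℂ, (∀ ι, ‖c ι‖ ≤ 1) ∧ (∀ x, ‖tp c x‖ ≤ 1) ∧
      ∫ x, ‖(φ x : ℂ) - tp c x‖ ≤ C / Real.sqrt J ∧
      P4a7640Y.LL1 (2 * C) (fun x => ‖(φ x : ℂ) - tp c x‖) := by
  have hn : ∀ x, ‖(φ x : ℂ) - tp (J := J) (fun ι => fc J φ (((ι.2 : ℕ)), ((ι.1 : ℕ)))) x‖ =
      |φ x - FM J φ x| := by
    intro x
    rw [tp_fc hφ hb, ← Complex.ofReal_sub, Complex.norm_real, Real.norm_eq_abs]
  refine ⟨fun ι => fc J φ (((ι.2 : ℕ)), ((ι.1 : ℕ))), fun ι => norm_fc_le hφ hb hJ _, fun x => ?_,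
    ?_, ?_⟩
  · rw [tp_fc hφ hb, Complex.norm_real, Real.norm_eq_abs]
    exact abs_FM_le hφ hb hJ x
  · simp_rw [hn]
    exact fejer_close hφ hb hC hJ
  · intro s hs
    simp_rw [hn]
    have hF := measurable_FM hφ J
    have hFb := abs_FM_le hφ hb hJ
    have hFL := LL1_FM hφ hb hC hJ
    have m1 : ∀ g : UnitAddCircle → ℝ, Measurable g → (∀ x, |g x| ≤ 1) →
        Integrable (fun x => |g (x + (s : UnitAddCircle)) - g x|) volume := by
      intro g hg hgb
      refine (P4a7640Y.int_bdd (f := fun x => g (x + (s : UnitAddCircle)) - g x)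
        ((hg.comp (measurable_add_const _)).sub hg) (C := 2) fun x => ?_).abs
      have e1 := abs_sub (g (x + (s : UnitAddCircle))) (g x)
      have e2 := hgb x
      have e3 := hgb (x + (s : UnitAddCircle))
      linarith
    calc ∫ x, |(|φ (x + (s : UnitAddCircle)) - FM J φ (x + (s : UnitAddCircle))|) -
          (|φ x - FM J φ x|)|
        ≤ ∫ x, (|φ (x + (s : UnitAddCircle)) - φ x| +
            |FM J φ (x + (s : UnitAddCircle)) - FM J φ x|) := by
          refine integral_mono ?_ ((m1 φ hφ hb).add (m1 _ hF hFb)) fun x => ?_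
          · refine (P4a7640Y.int_bdd (f := fun x => |φ (x + (s : UnitAddCircle)) -
              FM J φ (x + (s : UnitAddCircle))| - |φ x - FM J φ x|)
              (((hφ.comp (measurable_add_const _)).sub (hF.comp (measurable_add_const _))).abs.sub
                (hφ.sub hF).abs) (C := 2) fun x => ?_).abs
            have e1 := abs_sub (φ (x + (s : UnitAddCircle))) (FM J φ (x + (s : UnitAddCircle)))
            have e2 := hb (x + (s : UnitAddCircle))
            have e3 := hFb (x + (s : UnitAddCircle))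
            have e4 := abs_sub (φ x) (FM J φ x)
            have e5 := hb x
            have e6 := hFb x
            have e7 := abs_nonneg (φ (x + (s : UnitAddCircle)) - FM J φ (x + (s : UnitAddCircle)))
            have e8 := abs_nonneg (φ x - FM J φ x)
            rw [abs_le]
            constructor <;> linarith
          · show |(|φ (x + (s : UnitAddCircle)) - FM J φ (x + (s : UnitAddCircle))|) -
              (|φ x - FM J φ x|)| ≤ |φ (x + (s : UnitAddCircle)) - φ x| +
                |FM J φ (x + (s : UnitAddCircle)) - FM J φ x|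
            refine (abs_abs_sub_abs_le _ _).trans ?_
            have e1 : φ (x + (s : UnitAddCircle)) - FM J φ (x + (s : UnitAddCircle)) -
                (φ x - FM J φ x) = (φ (x + (s : UnitAddCircle)) - φ x) -
                  (FM J φ (x + (s : UnitAddCircle)) - FM J φ x) := by ring
            rw [e1]
            exact abs_sub _ _
      _ = (∫ x, |φ (x + (s : UnitAddCircle)) - φ x|) +
            ∫ x, |FM J φ (x + (s : UnitAddCircle)) - FM J φ x| :=
          integral_add (m1 φ hφ hb) (m1 _ hF hFb)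
      _ ≤ C * s + C * s := add_le_add (hC s hs) (hFL s hs)
      _ = 2 * C * s := by ring

end Pool.Agent.Lib.P4a7640X
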