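import Mathlib
import Pool.Agent.Lib.P4a7640X.Par
import Pool.Agent.Lib.P4a7640K.PSumK

/-!
# Variance bounds for sums over large primes

`var_YY`: `var_le` (P4a7640Y/Triple.lean) and `pair_sum_k` (P4a7640K/PSumK.lean) with
`R = ⌈y ^ (κ / 3)⌉₊`: `R² / y^κ ≤ 4 y^(-κ/3)` and `1 / R ≤ y^(-κ/3)`.
`var_sum`: expand the square; for `p, q ∈ D` the covariance of `e_p (a_p x)` and `e_q (a_q x)` is at most
`2 L / mx (a p) (a q)` by `two_dil` applied to `e_p / 2`, `e_q / 2` in both orders.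
-/

open Filter MeasureTheory Finset Topology

namespace Pool.Agent.Lib.P4a7640X

open Pool.Agent.Lib.P4a7640 Pool.Agent.Lib.P4a7640D

private lemma inner_le {C1 κ y S : ℝ} (hC1 : 0 < C1) (hκ : 0 < κ) (hy : 1 ≤ y) (hS : 0 ≤ S) :
    C1 * ((⌈y ^ (κ / 3)⌉₊ : ℕ) : ℝ) ^ 2 / y ^ κ + S / ((⌈y ^ (κ / 3)⌉₊ : ℕ) : ℝ) ≤
      (4 * C1 + S) / y ^ (κ / 3) := by
  have hy0 : 0 < y := by linarith
  have h1 : 1 ≤ y ^ (κ / 3) := Real.one_le_rpow hy (by positivity)
  have h0 : 0 < y ^ (κ / 3) := by linarith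
  set R : ℝ := ((⌈y ^ (κ / 3)⌉₊ : ℕ) : ℝ) with hR
  have hR1 : y ^ (κ / 3) ≤ R := Nat.le_ceil _
  have hR2 : R ≤ 2 * y ^ (κ / 3) := by
    have := (Nat.ceil_lt_add_one h0.le).le
    rw [hR]
    linarith
  have hR0 : 0 < R := by linarith
  have hyk : y ^ κ = y ^ (κ / 3) * y ^ (κ / 3) * y ^ (κ / 3) := by
    rw [← Real.rpow_add hy0, ← Real.rpow_add hy0]
    congr 1
    ring
  have e1 : C1 * R ^ 2 / y ^ κ ≤ 4 * C1 / y ^ (κ / 3) := by
    rw [hyk, div_le_div_iff₀ (by positivity) h0]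
    have h2 : R ^ 2 ≤ 4 * (y ^ (κ / 3) * y ^ (κ / 3)) := by nlinarith
    calc C1 * R ^ 2 * y ^ (κ / 3) ≤ C1 * (4 * (y ^ (κ / 3) * y ^ (κ / 3))) * y ^ (κ / 3) := by
          gcongr
      _ = _ := by ring
  have e2 : S / R ≤ S / y ^ (κ / 3) := div_le_div_of_nonneg_left hS h0 hR1
  rw [add_div]
  linarith

private lemma fin_le {K κ : ℝ} (hK : 0 < K) (hκ : 0 < κ) (hκ1 : κ ≤ 1) : ∃ C : ℝ, 0 < C ∧
    ∀ a : ℕ → ℕ, P4a7640K.CntN K κ a → ∀ y : ℝ, 1 ≤ y → ∀ D : Finset ℕ,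
      (∀ p ∈ D, p.Prime ∧ y ≤ p ∧ a p ≠ 0) → ∀ c : ℝ, 0 ≤ c →
      ∑ p ∈ D, (1:ℝ) / p * (c * ∑ q ∈ D, (1:ℝ) / q * (1 / P4a7640Y.mx (a p) (a q))) ≤
        C * c * (1 + ∑ p ∈ D, (1:ℝ) / p) ^ 2 / y ^ (κ / 3) := by
  obtain ⟨C1, hC1, h⟩ := P4a7640K.pair_sum_k hK hκ hκ1
  refine ⟨4 * C1 + 1, by positivity, fun a ha y hy D hD c hc => ?_⟩
  have hy0 : 0 < y := by linarith
  have h0 : 0 < y ^ (κ / 3) := Real.rpow_pos_of_pos hy0 _
  set S : ℝ := ∑ p ∈ D, (1:ℝ) / p with hS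
  have hS0 : 0 ≤ S := Finset.sum_nonneg fun p _ => by positivity
  have hR : 0 < ⌈y ^ (κ / 3)⌉₊ := Nat.ceil_pos.2 h0
  have hin : ∀ p ∈ D, (1:ℝ) / p * (c * ∑ q ∈ D, (1:ℝ) / q * (1 / P4a7640Y.mx (a p) (a q))) ≤
      (1:ℝ) / p * (c * ((4 * C1 + S) / y ^ (κ / 3))) := fun p hp =>
    mul_le_mul_of_nonneg_left (mul_le_mul_of_nonneg_left
      ((h a ha y hy D hD _ hR p hp).trans (inner_le hC1 hκ hy hS0)) hc) (by positivity)
  refine (Finset.sum_le_sum hin).trans ?_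
  rw [← Finset.sum_mul, ← hS]
  rw [show S * (c * ((4 * C1 + S) / y ^ (κ / 3))) = c * (S * (4 * C1 + S)) / y ^ (κ / 3) by ring]
  refine div_le_div_of_nonneg_right ?_ h0.le
  rw [show (4 * C1 + 1) * c * (1 + S) ^ 2 = c * ((4 * C1 + 1) * (1 + S) ^ 2) by ring]
  refine mul_le_mul_of_nonneg_left ?_ hc
  nlinarith [mul_nonneg hC1.le hS0, mul_nonneg hC1.le (mul_nonneg hS0 hS0)]

theorem var_YY {K κ : ℝ} (hK : 0 < K) (hκ : 0 < κ) (hκ1 : κ ≤ 1) : ∃ C : ℝ, 0 < C ∧
    ∀ a : ℕ → ℕ, P4a7640K.CntN K κ a → ∀ y : ℝ, 1 ≤ y → ∀ D : Finset ℕ,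
      (∀ p ∈ D, p.Prime ∧ y ≤ p ∧ a p ≠ 0) → ∀ (φ : ℕ → UnitAddCircle → ℝ) (L : ℝ),
      (∀ p, Measurable (φ p)) → (∀ p x, |φ p x| ≤ 1) → (∀ p, P4a7640Y.LL1 L (φ p)) →
      ∫ τ, (P4a7640Y.YY φ a D τ - P4a7640Y.YM φ D) ^ 2 ∂P4a7640Y.P3 ≤
        C * L * (1 + ∑ p ∈ D, (1:ℝ) / p) ^ 2 / y ^ (κ / 3) := by
  obtain ⟨C1, hC1, h⟩ := fin_le hK hκ hκ1
  refine ⟨6 * C1, by positivity, fun a ha y hy D hD φ L hm hb hL => ?_⟩
  have hL0 : 0 ≤ L := (hL 0).nonneg
  refine (P4a7640Y.var_le hm hb hL fun p hp => (hD p hp).2.2).trans ?_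
  refine (h a ha y hy D hD (6 * L) (by positivity)).trans (le_of_eq ?_)
  ring

private lemma LL1_half {L : ℝ} {u : UnitAddCircle → ℝ} (h : P4a7640Y.LL1 L u) :
    P4a7640Y.LL1 (L / 2) (fun x => u x / 2) := by
  intro s hs
  have h1 := h s hs
  have h2 : ∀ x : UnitAddCircle, |u (x + (s : UnitAddCircle)) / 2 - u x / 2| =
      |u (x + (s : UnitAddCircle)) - u x| / 2 := by
    intro x
    rw [← sub_div, abs_div, abs_two]
  simp_rw [h2]
  rw [integral_div]
  linarith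

private lemma cov_half {u v : UnitAddCircle → ℝ} (hu : Measurable u) (hv : Measurable v) {L : ℝ}
    (hL : P4a7640Y.LL1 L u) (hbu : ∀ x, |u x| ≤ 2) (hbv : ∀ x, |v x| ≤ 2) {a b : ℕ}
    (ha : a ≠ 0) (hb : b ≠ 0) :
    |(∫ x : UnitAddCircle, u (a • x) * v (b • x)) - (∫ x, u x) * ∫ x, v x| ≤
      2 * L / P4a7640Y.red a b := by
  have h1 := P4a7640Y.two_dil (u := fun x => u x / 2) (v := fun x => v x / 2)
    (hu.div_const 2) (hv.div_const 2) (LL1_half hL)
    (fun x => by rw [abs_div, abs_two]; linarith [hbu x])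
    (fun x => by rw [abs_div, abs_two]; linarith [hbv x]) ha hb
  have h2 : ∫ x : UnitAddCircle, u (a • x) / 2 * (v (b • x) / 2) =
      (∫ x : UnitAddCircle, u (a • x) * v (b • x)) / 4 := by
    rw [← integral_div]
    congr 1
    funext x
    ring
  have h3 : (∫ x : UnitAddCircle, u x / 2) * (∫ x : UnitAddCircle, v x / 2) =
      ((∫ x : UnitAddCircle, u x) * ∫ x : UnitAddCircle, v x) / 4 := by
    rw [integral_div, integral_div]
    ring
  rw [h2, h3, ← sub_div, abs_div, abs_of_pos (by norm_num : (0:ℝ) < 4)] at h1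
  have h4 : L / 2 / (P4a7640Y.red a b : ℝ) * 4 = 2 * L / P4a7640Y.red a b := by ring
  rw [← h4]
  linarith

theorem var_sum {K κ : ℝ} (hK : 0 < K) (hκ : 0 < κ) (hκ1 : κ ≤ 1) : ∃ C : ℝ, 0 < C ∧
    ∀ a : ℕ → ℕ, P4a7640K.CntN K κ a → ∀ y : ℝ, 1 ≤ y → ∀ D : Finset ℕ,
      (∀ p ∈ D, p.Prime ∧ y ≤ p ∧ a p ≠ 0) → ∀ (e : ℕ → UnitAddCircle → ℝ) (L : ℝ),
      (∀ p, Measurable (e p)) → (∀ p x, |e p x| ≤ 2) → (∀ p, P4a7640Y.LL1 L (e p)) →
      ∫ x : UnitAddCircle, (∑ p ∈ D, (1:ℝ) / p * (e p (a p • x) - ∫ z, e p z)) ^ 2 ≤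
        C * L * (1 + ∑ p ∈ D, (1:ℝ) / p) ^ 2 / y ^ (κ / 3) := by
  obtain ⟨C1, hC1, h⟩ := fin_le hK hκ hκ1
  refine ⟨2 * C1, by positivity, fun a ha y hy D hD e L hm hb hL => ?_⟩
  have hL0 : 0 ≤ L := (hL 0).nonneg
  set m : ℕ → ℝ := fun p => ∫ z, e p z with hmdef
  set X : ℕ → UnitAddCircle → ℝ := fun p x => e p (a p • x) - m p with hX
  have hm' : ∀ p, Measurable fun x : UnitAddCircle => e p (a p • x) := fun p =>
    (hm p).comp (P4a7640Y.measurable_dil _)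
  have hXm : ∀ p, Measurable (X p) := fun p => (hm' p).sub_const _
  have hmb : ∀ p, |m p| ≤ 2 := fun p => P4a7640Y.abs_int_le (hb p)
  have hXb : ∀ p x, |X p x| ≤ 4 := fun p x => by
    have e1 := abs_sub (e p (a p • x)) (m p)
    have e2 := hb p (a p • x)
    have e3 := hmb p
    show |e p (a p • x) - m p| ≤ 4
    linarith
  have hsq : ∀ x, (∑ p ∈ D, (1:ℝ) / p * (e p (a p • x) - ∫ z, e p z)) ^ 2 =
      ∑ p ∈ D, ∑ q ∈ D, ((1:ℝ) / p * (1 / q)) * (X p x * X q x) := by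
    intro x
    rw [sq, Finset.sum_mul_sum]
    refine Finset.sum_congr rfl fun p _ => Finset.sum_congr rfl fun q _ => ?_
    show (1:ℝ) / p * (e p (a p • x) - m p) * ((1:ℝ) / q * (e q (a q • x) - m q)) =
      ((1:ℝ) / p * (1 / q)) * ((e p (a p • x) - m p) * (e q (a q • x) - m q))
    ring
  have hXi : ∀ p q, Integrable (fun x => X p x * X q x)
      (volume : Measure UnitAddCircle) := fun p q =>
    P4a7640Y.int_bdd (f := fun x => X p x * X q x) ((hXm p).mul (hXm q)) (C := 16) fun x => by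
      rw [abs_mul]
      have e1 := mul_le_mul (hXb p x) (hXb q x) (abs_nonneg _) (by norm_num : (0:ℝ) ≤ 4)
      linarith
  simp_rw [hsq]
  rw [integral_finsetSum D fun p _ => integrable_finsetSum D fun q _ => (hXi p q).const_mul _]
  refine le_trans ?_ (((h a ha y hy D hD (2 * L) (by positivity))).trans (le_of_eq ?_))
  · refine Finset.sum_le_sum fun p hp => ?_
    rw [integral_finsetSum D fun q _ => (hXi p q).const_mul _, Finset.mul_sum, Finset.mul_sum]
    refine Finset.sum_le_sum fun q hq => ?_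
    rw [integral_const_mul]
    have hap := (hD p hp).2.2
    have haq := (hD q hq).2.2
    have i1 : Integrable (fun x : UnitAddCircle => e p (a p • x) * e q (a q • x)) :=
      P4a7640Y.int_bdd (f := fun x : UnitAddCircle => e p (a p • x) * e q (a q • x))
        ((hm' p).mul (hm' q)) (C := 4) fun x => by
        rw [abs_mul]
        have e1 := mul_le_mul (hb p (a p • x)) (hb q (a q • x)) (abs_nonneg _) zero_le_two
        linarith
    have i2 : Integrable (fun x : UnitAddCircle => m q * e p (a p • x)) :=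
      (P4a7640Y.int_bdd (hm' p) fun x => hb p _).const_mul _
    have i3 : Integrable (fun x : UnitAddCircle => m p * e q (a q • x)) :=
      (P4a7640Y.int_bdd (hm' q) fun x => hb q _).const_mul _
    have hcov : ∫ x, X p x * X q x = (∫ x : UnitAddCircle, e p (a p • x) * e q (a q • x)) -
        m p * m q := by
      have h2 : ∀ x, X p x * X q x = e p (a p • x) * e q (a q • x) -
          m q * e p (a p • x) - m p * e q (a q • x) + m p * m q := by
        intro x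
        show (e p (a p • x) - m p) * (e q (a q • x) - m q) = _
        ring
      simp_rw [h2]
      have i4 : Integrable (fun x : UnitAddCircle => e p (a p • x) * e q (a q • x) -
          m q * e p (a p • x)) := i1.sub i2
      have i5 : Integrable (fun x : UnitAddCircle => e p (a p • x) * e q (a q • x) -
          m q * e p (a p • x) - m p * e q (a q • x)) := i4.sub i3
      rw [integral_add i5 (integrable_const _), integral_sub i4 i3, integral_sub i1 i2,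
        integral_const_mul, integral_const_mul, P4a7640Y.integral_dil (hm p) hap,
        P4a7640Y.integral_dil (hm q) haq, integral_const]
      simp
      ring
    rw [hcov]
    have h3 := cov_half (hm p) (hm q) (hL p) (hb p) (hb q) hap haq
    have h3' := cov_half (hm q) (hm p) (hL q) (hb q) (hb p) haq hap
    have h4 : |(∫ x : UnitAddCircle, e p (a p • x) * e q (a q • x)) - m p * m q| ≤
        2 * L / P4a7640Y.mx (a p) (a q) := by
      have h5 : (∫ x : UnitAddCircle, e q (a q • x) * e p (a p • x)) - m q * m p =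
          (∫ x : UnitAddCircle, e p (a p • x) * e q (a q • x)) - m p * m q := by
        rw [mul_comm (m q)]
        congr 2
        funext x
        ring
      change |(∫ x : UnitAddCircle, e q (a q • x) * e p (a p • x)) - m q * m p| ≤ _ at h3'
      rw [h5] at h3'
      unfold P4a7640Y.mx
      rcases le_total (P4a7640Y.red (a p) (a q)) (P4a7640Y.red (a q) (a p)) with hle | hle
      · rw [max_eq_right hle]
        exact h3'
      · rw [max_eq_left hle]
        exact h3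
    have h6 : (1:ℝ) / p * (2 * L * ((1:ℝ) / q * (1 / P4a7640Y.mx (a p) (a q)))) =
        (1:ℝ) / p * (1 / q) * (2 * L / P4a7640Y.mx (a p) (a q)) := by ring
    rw [h6]
    exact mul_le_mul_of_nonneg_left ((le_abs_self _).trans h4) (by positivity)
  · ring

end Pool.Agent.Lib.P4a7640X
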