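import Mathlib
import Pool.Agent.Lib.P4a7640X.Trig

/-!
# The expansion of a product of few trigonometric polynomials

Module P4a7640X.ExpX (0.6 h).

`expand`: enumerate `F` by `Fin F.card` (`F.orderEmbOfFin`, or `F.equivFin`), extend by constants `1` to `Fin t`:
the factor of the slot `s` is `∑ ι : Option (Fin J × Fin J)` of a coefficient times a character; for
`s < F.card` the coefficient of `none` is `0`, for the other slots it is `1` at `none` and `0` elsewhere.
`∏ ∑ = ∑ ∏` (`Finset.prod_univ_sum`), `∏ fourier (k_s) x = fourier (∑ k_s) x` (`fourier_add`), and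
`fourier k (a • x) = fourier (k * a) x`.
`prod_close`: `|∏ z - ∏ w| ≤ ∑ |z - w|` for complex numbers in the unit disc.
-/

open Filter MeasureTheory Finset Topology

namespace Pool.Agent.Lib.P4a7640X

open Pool.Agent.Lib.P4a7640 Pool.Agent.Lib.P4a7640D

private theorem fourier_sum' {κ : Type*} (S : Finset κ) (k : κ → ℤ) (x : UnitAddCircle) :
    ∏ s ∈ S, (fourier (k s) x : ℂ) = fourier (∑ s ∈ S, k s) x := by
  classical
  induction S using Finset.induction_on with
  | empty => simp
  | insert b S hb ih => rw [Finset.prod_insert hb, Finset.sum_insert hb, fourier_add, ih]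

private theorem fourier_nsmul' (k : ℤ) (a : ℕ) (x : UnitAddCircle) :
    (fourier k (a • x) : ℂ) = fourier (k * a) x := by
  rw [fourier_apply, fourier_apply, mul_smul, natCast_zsmul]

private theorem norm_prod_le_one' (F : Finset ℕ) {w : ℕ → ℂ} (hw : ∀ p ∈ F, ‖w p‖ ≤ 1) :
    ‖∏ p ∈ F, w p‖ ≤ 1 := by
  rw [norm_prod]
  exact Finset.prod_le_one (fun _ _ => norm_nonneg _) hw

theorem expand {J t : ℕ} (F : Finset ℕ) (hF : F.card ≤ t) (c : ℕ → Fin J × Fin J → ℂ)
    (hc : ∀ p ι, ‖c p ι‖ ≤ 1) (a : ℕ → ℕ) :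
    ∃ (C : (Fin t → Option (Fin J × Fin J)) → ℂ) (θ : (Fin t → Option (Fin J × Fin J)) → ℤ),
      (∀ ω, ‖C ω‖ ≤ 1) ∧ ∀ x : UnitAddCircle,
        ∏ p ∈ F, tp (c p) (a p • x) = ∑ ω, C ω * fourier (θ ω) x := by
  classical
  obtain ⟨g⟩ : Nonempty (F ↪ Fin t) := Function.Embedding.nonempty_of_card_le (by simpa using hF)
  let pt : Fin t → Option F := fun s => if h : ∃ p, g p = s then some h.choose else none
  have hpt : ∀ p, pt (g p) = some p := by
    intro p
    have h : ∃ q, g q = g p := ⟨p, rfl⟩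
    have h1 : pt (g p) = some h.choose := dif_pos h
    rw [h1, g.injective h.choose_spec]
  have hpt' : ∀ s, (∀ p, g p ≠ s) → pt s = none := by
    intro s hs
    exact dif_neg fun ⟨p, hp⟩ => hs p hp
  let K : Option F → Option (Fin J × Fin J) → ℂ := fun o ι =>
    match o, ι with
    | some p, some i => c p i
    | some _, none => 0
    | none, some _ => 0
    | none, none => 1
  let k : Option F → Option (Fin J × Fin J) → ℤ := fun o ι =>
    match o, ι with
    | some p, some i => (((i.1 : ℕ) : ℤ) - ((i.2 : ℕ) : ℤ)) * (a p : ℤ)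
    | _, _ => 0
  have hK : ∀ o ι, ‖K o ι‖ ≤ 1 := by
    rintro (_ | p) (_ | i)
    · simp [K]
    · simp [K]
    · simp [K]
    · exact hc p i
  have hslot : ∀ (o : Option F) (x : UnitAddCircle), ∑ ι, K o ι * (fourier (k o ι) x : ℂ) =
      match o with
      | some p => tp (c p) (a p • x)
      | none => 1 := by
    intro o x
    rw [Fintype.sum_option]
    rcases o with _ | p
    · simp [K, k]
    · simp only [K, k, zero_mul, zero_add, tp]
      refine Finset.sum_congr rfl fun i _ => ?_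
      rw [fourier_nsmul']
  refine ⟨fun ω => ∏ s, K (pt s) (ω s), fun ω => ∑ s, k (pt s) (ω s), fun ω => ?_, fun x => ?_⟩
  · rw [norm_prod]
    exact Finset.prod_le_one (fun _ _ => norm_nonneg _) fun s _ => hK _ _
  · have h1 : ∏ s : Fin t, ∑ ι, K (pt s) ι * (fourier (k (pt s) ι) x : ℂ) =
        ∑ ω : Fin t → Option (Fin J × Fin J), (∏ s, K (pt s) (ω s)) *
          fourier (∑ s, k (pt s) (ω s)) x := by
      rw [Finset.prod_univ_sum, Fintype.piFinset_univ]
      refine Finset.sum_congr rfl fun ω _ => ?_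
      rw [Finset.prod_mul_distrib, fourier_sum']
    rw [← h1, ← Finset.prod_coe_sort F, ← Finset.prod_subset (Finset.subset_univ (univ.map g)),
      Finset.prod_map]
    · refine Finset.prod_congr rfl fun p _ => ?_
      rw [hslot, hpt]
    · intro s _ hs
      rw [hslot, hpt' s fun p hp => hs (Finset.mem_map.2 ⟨p, Finset.mem_univ _, hp⟩)]

theorem prod_close (F : Finset ℕ) {z w : ℕ → ℂ} (hz : ∀ p ∈ F, ‖z p‖ ≤ 1) (hw : ∀ p ∈ F, ‖w p‖ ≤ 1) :
    ‖∏ p ∈ F, z p - ∏ p ∈ F, w p‖ ≤ ∑ p ∈ F, ‖z p - w p‖ := by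
  classical
  induction F using Finset.induction_on with
  | empty => simp
  | insert b F hb ih =>
    have hz' : ∀ p ∈ F, ‖z p‖ ≤ 1 := fun p hp => hz p (Finset.mem_insert_of_mem hp)
    have hw' : ∀ p ∈ F, ‖w p‖ ≤ 1 := fun p hp => hw p (Finset.mem_insert_of_mem hp)
    rw [Finset.prod_insert hb, Finset.prod_insert hb, Finset.sum_insert hb]
    have h1 : z b * ∏ p ∈ F, z p - w b * ∏ p ∈ F, w p =
        z b * (∏ p ∈ F, z p - ∏ p ∈ F, w p) + (z b - w b) * ∏ p ∈ F, w p := by ring
    rw [h1]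
    refine (norm_add_le _ _).trans ?_
    rw [norm_mul, norm_mul, add_comm ‖z b - w b‖]
    refine add_le_add ?_ ?_
    · refine (mul_le_of_le_one_left (norm_nonneg _) (hz b (Finset.mem_insert_self b F))).trans ?_
      exact ih hz' hw'
    · exact mul_le_of_le_one_right (norm_nonneg _) (norm_prod_le_one' F hw')

end Pool.Agent.Lib.P4a7640X
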