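import Mathlib
import Pool.Agent.Lib.P4a7640X.Par

/-!
# The sum of the model densities

Module P4a7640X.ClsSum.
-/

set_option linter.unusedVariables false

open Filter MeasureTheory Finset

namespace Pool.Agent.Lib.P4a7640X

open Pool.Agent.Lib.P4a7640 Pool.Agent.Lib.P4a7640D

/-- the primes of the blocks below `b` -/
def PB (b : ℕ) : Finset ℕ := (Finset.Icc 1 (2 ^ 2 ^ b)).filter fun p => p.Prime ∧ be p < b

lemma mem_PB {b p : ℕ} : p ∈ PB b ↔ p.Prime ∧ be p < b := by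
  unfold PB
  rw [Finset.mem_filter, Finset.mem_Icc]
  refine ⟨fun h => h.2, fun h => ⟨⟨h.1.one_lt.le, ?_⟩, h⟩⟩
  have h1 : p < 2 ^ (Nat.log 2 p + 1) := Nat.lt_pow_succ_log_self (by norm_num) p
  have h2 : Nat.log 2 p < 2 ^ (be p + 1) := Nat.lt_pow_succ_log_self (by norm_num) _
  refine (h1.trans_le (Nat.pow_le_pow_right (by norm_num) ?_)).le
  exact (Nat.succ_le_of_lt h2).trans (Nat.pow_le_pow_right (by norm_num) h.2)

/-- the large primes of the blocks below `b` -/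
lemma VD_eq (b : ℕ) (H : Finset ℕ) :
    VD b H = ∏ p ∈ (PB b).filter (fun p => w0 H ≤ p), (1 - (H.card:ℝ) / p) := by
  unfold VD PB
  rw [Finset.filter_filter]
  refine Finset.prod_congr ?_ fun _ _ => rfl
  ext p
  simp only [Finset.mem_filter, Finset.mem_Icc]
  tauto

lemma two_card_le {H : Finset ℕ} {p : ℕ} (hp : w0 H ≤ p) : 2 * (H.card + 1) ≤ p := by
  unfold w0 at hp
  nlinarith [Nat.zero_le (H.sup id), Nat.zero_le H.card]

lemma frac_lt {H : Finset ℕ} {p : ℕ} (hp : w0 H ≤ p) : (H.card : ℝ) / p ≤ 1 / 2 := by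
  have h := two_card_le hp
  have hp0 : (0:ℝ) < p := by
    have : 0 < p := by omega
    exact_mod_cast this
  rw [div_le_div_iff₀ hp0 (by norm_num)]
  have : 2 * ((H.card : ℝ) + 1) ≤ p := by exact_mod_cast h
  linarith

lemma one_sub_pos {H : Finset ℕ} {p : ℕ} (hp : w0 H ≤ p) : 0 < 1 - (H.card : ℝ) / p := by
  have := frac_lt hp
  linarith

lemma VD_pos (b : ℕ) (H : Finset ℕ) : 0 < VD b H := by
  rw [VD_eq]
  refine Finset.prod_pos fun p hp => ?_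
  exact one_sub_pos (Finset.mem_filter.1 hp).2

lemma bt_pos (H : Finset ℕ) (s : ℕ) : 0 < bt H s := by
  unfold bt
  refine Finset.prod_pos fun p hp => ?_
  exact inv_pos.2 (one_sub_pos (Finset.mem_filter.1 hp).2)

lemma qt_pos {b K : ℕ} {H : Finset ℕ} {a : ℕ → ℕ} (ha : Adm b K H a) : 0 < qt b H a := by
  unfold qt
  refine mul_pos (VD_pos b H) (Finset.prod_pos fun h hh => ?_)
  refine div_pos (bt_pos H _) ?_
  have := (ha.1 h hh).1
  exact_mod_cast this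

/-- the factor of a prime -/
noncomputable def bp (H : Finset ℕ) (p : ℕ) : ℝ :=
  if w0 H ≤ p then (1 - (H.card:ℝ) / p)⁻¹ else 1

lemma bp_pos (H : Finset ℕ) (p : ℕ) : 0 < bp H p := by
  unfold bp
  split_ifs with h
  · exact inv_pos.2 (one_sub_pos h)
  · exact one_pos

/-- the local factor -/
noncomputable def gp (H : Finset ℕ) (p v : ℕ) : ℝ := if v = 0 then 1 else bp H p * ((p:ℝ) ^ v)⁻¹

lemma gp_nonneg (H : Finset ℕ) (p v : ℕ) : 0 ≤ gp H p v := by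
  unfold gp
  split_ifs
  · exact zero_le_one
  · exact mul_nonneg (bp_pos H p).le (by positivity)

lemma bt_eq (H : Finset ℕ) (s : ℕ) : bt H s = ∏ p ∈ s.primeFactors, bp H p := by
  unfold bt bp
  rw [Finset.prod_filter]

/-- the summand as a product over the primes of `PB b` -/
lemma F_eq {b : ℕ} {H : Finset ℕ} {s : ℕ} (hs : 1 ≤ s) (hp : ∀ p ∈ s.primeFactors, be p < b) :
    bt H s / (s : ℝ) = ∏ p ∈ PB b, gp H p (s.factorization p) := by
  have hsub : s.primeFactors ⊆ PB b := fun p h => mem_PB.2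
    ⟨Nat.prime_of_mem_primeFactors h, hp p h⟩
  rw [bt_eq, div_eq_mul_inv]
  have h1 : (s : ℝ) = ∏ p ∈ s.primeFactors, (p:ℝ) ^ (s.factorization p) := by
    have h2 := Nat.factorization_prod_pow_eq_self (n := s) (by omega)
    conv_lhs => rw [← h2]
    rw [Finsupp.prod, Nat.support_factorization]
    push_cast
    rfl
  have h3 : (s : ℝ)⁻¹ = ∏ p ∈ s.primeFactors, ((p:ℝ) ^ (s.factorization p))⁻¹ := by
    rw [Finset.prod_inv_distrib, ← h1]
  rw [h3, ← Finset.prod_mul_distrib]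
  rw [← Finset.prod_subset hsub (f := fun p => gp H p (s.factorization p))]
  · refine Finset.prod_congr rfl fun p hp' => ?_
    unfold gp
    have : s.factorization p ≠ 0 := by
      have := Nat.support_factorization s ▸ hp'
      exact Finsupp.mem_support_iff.1 this
    rw [if_neg this]
  · intro p _ hp'
    unfold gp
    rw [if_pos]
    exact Finsupp.notMem_support_iff.1 (by rwa [Nat.support_factorization])

/-- the sum over the integers composed of the primes of `PB b` -/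
lemma sum_F_le {b : ℕ} (H : Finset ℕ) (K : ℕ) (S : Finset ℕ)
    (hS : ∀ s ∈ S, 1 ≤ s ∧ s ≤ K ∧ ∀ p ∈ s.primeFactors, be p < b) :
    ∑ s ∈ S, bt H s / (s : ℝ) ≤ ∏ p ∈ PB b, ∑ v ∈ range (K + 1), gp H p v := by
  rw [Finset.prod_sum]
  set ι : ℕ → ((p : ℕ) → p ∈ PB b → ℕ) := fun s p _ => s.factorization p with hι
  have hinj : ∀ s ∈ S, ∀ s' ∈ S, ι s = ι s' → s = s' := by
    intro s hs s' hs' h
    obtain ⟨h1, -, h3⟩ := hS s hs
    obtain ⟨h1', -, h3'⟩ := hS s' hs'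
    refine Nat.eq_of_factorization_eq (by omega) (by omega) fun p => ?_
    by_cases hp : p ∈ PB b
    · exact congrFun (congrFun h p) hp
    · have e1 : s.factorization p = 0 := by
        by_contra hne
        have hm : p ∈ s.primeFactors := by
          rw [← Nat.support_factorization]; exact Finsupp.mem_support_iff.2 hne
        exact hp (mem_PB.2 ⟨Nat.prime_of_mem_primeFactors hm, h3 p hm⟩)
      have e2 : s'.factorization p = 0 := by
        by_contra hne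
        have hm : p ∈ s'.primeFactors := by
          rw [← Nat.support_factorization]; exact Finsupp.mem_support_iff.2 hne
        exact hp (mem_PB.2 ⟨Nat.prime_of_mem_primeFactors hm, h3' p hm⟩)
      rw [e1, e2]
  have hsum : ∑ s ∈ S, bt H s / (s : ℝ) =
      ∑ v ∈ S.image ι, ∏ x ∈ (PB b).attach, gp H x.1 (v x.1 x.2) := by
    rw [Finset.sum_image (fun s hs s' hs' h => hinj s hs s' hs' h)]
    refine Finset.sum_congr rfl fun s hs => ?_
    obtain ⟨h1, h2, h3⟩ := hS s hs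
    rw [F_eq h1 h3, ← Finset.prod_attach]
  rw [hsum]
  refine Finset.sum_le_sum_of_subset_of_nonneg ?_ fun v _ _ => ?_
  · intro v hv
    obtain ⟨s, hs, rfl⟩ := Finset.mem_image.1 hv
    obtain ⟨h1, h2, h3⟩ := hS s hs
    rw [Finset.mem_pi]
    intro p hp
    rw [Finset.mem_range]
    have : s.factorization p < s := Nat.factorization_lt p (by omega)
    show s.factorization p < K + 1
    omega
  · exact Finset.prod_nonneg fun x _ => gp_nonneg H _ _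

lemma sum_gp_le (H : Finset ℕ) (K : ℕ) {p : ℕ} (hp : p.Prime) :
    ∑ v ∈ range (K + 1), gp H p v ≤ 1 + bp H p / ((p:ℝ) - 1) := by
  rw [Finset.sum_range_succ']
  have h0 : gp H p 0 = 1 := by unfold gp; simp
  rw [h0, add_comm]
  gcongr
  have hp1 : (1:ℝ) < p := by exact_mod_cast hp.one_lt
  have h1 : ∀ v ∈ range K, gp H p (v + 1) = bp H p * ((p:ℝ)⁻¹ * (p:ℝ)⁻¹ ^ v) := by
    intro v _
    unfold gp
    rw [if_neg (Nat.succ_ne_zero v), ← inv_pow, pow_succ']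
  rw [Finset.sum_congr rfl h1, ← Finset.mul_sum, ← Finset.mul_sum, div_eq_mul_inv]
  refine mul_le_mul_of_nonneg_left ?_ (bp_pos H p).le
  have hi0 : (0:ℝ) ≤ (p:ℝ)⁻¹ := by positivity
  have hi1 : (p:ℝ)⁻¹ < 1 := inv_lt_one_of_one_lt₀ hp1
  have hgeo : ∑ v ∈ range K, (p:ℝ)⁻¹ ^ v ≤ (1 - (p:ℝ)⁻¹)⁻¹ := by
    have hsumm := summable_geometric_of_lt_one hi0 hi1
    rw [← tsum_geometric_of_lt_one hi0 hi1]
    exact hsumm.sum_le_tsum _ fun v _ => by positivity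
  calc (p:ℝ)⁻¹ * ∑ v ∈ range K, (p:ℝ)⁻¹ ^ v ≤ (p:ℝ)⁻¹ * (1 - (p:ℝ)⁻¹)⁻¹ :=
        mul_le_mul_of_nonneg_left hgeo hi0
    _ = ((p:ℝ) - 1)⁻¹ := by
        rw [← mul_inv]
        congr 1
        field_simp

lemma bp_div_le (H : Finset ℕ) {p : ℕ} (hp : p.Prime) :
    bp H p / ((p:ℝ) - 1) ≤ 1 / p + 4 * ((H.card:ℝ) + 1) * ((p:ℝ) ^ 2)⁻¹ := by
  have hp2 : (2:ℝ) ≤ p := by exact_mod_cast hp.two_le
  have hm0 : (0:ℝ) ≤ H.card := Nat.cast_nonneg _
  unfold bp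
  split_ifs with h
  · have h2 : 2 * ((H.card:ℝ) + 1) ≤ p := by exact_mod_cast two_card_le h
    have hpm : (p:ℝ) / 2 ≤ (p:ℝ) - H.card := by linarith
    have hp1 : (p:ℝ) / 2 ≤ (p:ℝ) - 1 := by linarith
    have hpm0 : (0:ℝ) < (p:ℝ) - H.card := by linarith
    have hp10 : (0:ℝ) < (p:ℝ) - 1 := by linarith
    have hp0 : (0:ℝ) < p := by linarith
    have e1 : (1 - (H.card:ℝ) / p)⁻¹ = p / ((p:ℝ) - H.card) := by
      rw [inv_eq_one_div, div_eq_div_iff (by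
        have := one_sub_pos h
        exact this.ne') hpm0.ne']
      field_simp
    rw [e1, div_div]
    have e2 : (p:ℝ) / (((p:ℝ) - H.card) * ((p:ℝ) - 1)) - 1 / p ≤
        ((H.card:ℝ) + 1) / (((p:ℝ) - H.card) * ((p:ℝ) - 1)) := by
      rw [div_sub_div _ _ (mul_pos hpm0 hp10).ne' hp0.ne',
        div_le_div_iff₀ (mul_pos (mul_pos hpm0 hp10) hp0) (mul_pos hpm0 hp10)]
      have : (p:ℝ) * p - ((p:ℝ) - H.card) * ((p:ℝ) - 1) * 1 ≤ ((H.card:ℝ) + 1) * p := by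
        nlinarith
      calc ((p:ℝ) * p - ((p:ℝ) - H.card) * ((p:ℝ) - 1) * 1) * (((p:ℝ) - H.card) * ((p:ℝ) - 1))
          ≤ (((H.card:ℝ) + 1) * p) * (((p:ℝ) - H.card) * ((p:ℝ) - 1)) :=
            mul_le_mul_of_nonneg_right this (mul_pos hpm0 hp10).le
        _ = ((H.card:ℝ) + 1) * (((p:ℝ) - H.card) * ((p:ℝ) - 1) * p) := by ring
    have e3 : ((H.card:ℝ) + 1) / (((p:ℝ) - H.card) * ((p:ℝ) - 1)) ≤
        4 * ((H.card:ℝ) + 1) * ((p:ℝ) ^ 2)⁻¹ := by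
      rw [← div_eq_mul_inv, div_le_div_iff₀ (mul_pos hpm0 hp10) (by positivity)]
      have : (p:ℝ) ^ 2 ≤ 4 * (((p:ℝ) - H.card) * ((p:ℝ) - 1)) := by nlinarith
      calc ((H.card:ℝ) + 1) * (p:ℝ) ^ 2 ≤
          ((H.card:ℝ) + 1) * (4 * (((p:ℝ) - H.card) * ((p:ℝ) - 1))) :=
            mul_le_mul_of_nonneg_left this (by linarith)
        _ = 4 * ((H.card:ℝ) + 1) * (((p:ℝ) - H.card) * ((p:ℝ) - 1)) := by ring
    linarith
  · have hp10 : (0:ℝ) < (p:ℝ) - 1 := by linarith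
    have hp0 : (0:ℝ) < p := by linarith
    have e1 : 1 / ((p:ℝ) - 1) - 1 / p ≤ 4 * ((p:ℝ) ^ 2)⁻¹ := by
      rw [div_sub_div _ _ hp10.ne' hp0.ne', ← div_eq_mul_inv,
        div_le_div_iff₀ (mul_pos hp10 hp0) (by positivity)]
      nlinarith
    have e2 : (0:ℝ) ≤ (H.card:ℝ) * ((p:ℝ) ^ 2)⁻¹ := mul_nonneg hm0 (by positivity)
    linarith

lemma sum_inv_sq_PB (b : ℕ) : ∑ p ∈ PB b, ((p:ℝ) ^ 2)⁻¹ ≤ 1 := by
  have h1 : PB b ⊆ Finset.Ioc 1 (2 ^ 2 ^ b) := by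
    intro p hp
    have h2 := (mem_PB.1 hp).1.one_lt
    have h3 : p ≤ 2 ^ 2 ^ b := (Finset.mem_Icc.1 (Finset.mem_filter.1 hp).1).2
    exact Finset.mem_Ioc.2 ⟨h2, h3⟩
  refine (Finset.sum_le_sum_of_subset_of_nonneg h1 fun p _ _ => by positivity).trans ?_
  have h4 := sum_Ioc_inv_sq_le_sub (α := ℝ) (k := 1) (n := 2 ^ 2 ^ b) one_ne_zero
    Nat.one_le_two_pow
  refine h4.trans ?_
  have : (0:ℝ) ≤ ((2 ^ 2 ^ b : ℕ) : ℝ)⁻¹ := by positivity
  simp only [Nat.cast_one, inv_one]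
  linarith

/-- the product over the primes -/
lemma prod_le (H : Finset ℕ) (K b : ℕ) :
    ∏ p ∈ PB b, ∑ v ∈ range (K + 1), gp H p v ≤
      Real.exp (∑ p ∈ PB b, 1 / (p:ℝ) + 4 * ((H.card:ℝ) + 1)) := by
  have h1 : ∏ p ∈ PB b, ∑ v ∈ range (K + 1), gp H p v ≤
      ∏ p ∈ PB b, Real.exp (1 / (p:ℝ) + 4 * ((H.card:ℝ) + 1) * ((p:ℝ) ^ 2)⁻¹) := by
    refine Finset.prod_le_prod (fun p _ => Finset.sum_nonneg fun v _ => gp_nonneg H _ _)
      fun p hp => ?_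
    have hpp := (mem_PB.1 hp).1
    refine (sum_gp_le H K hpp).trans ?_
    refine (add_le_add_right (bp_div_le H hpp) 1).trans ?_
    rw [add_comm]
    exact Real.add_one_le_exp _
  refine h1.trans ?_
  rw [← Real.exp_sum]
  refine Real.exp_le_exp.2 ?_
  rw [Finset.sum_add_distrib, ← Finset.mul_sum]
  have h2 := sum_inv_sq_PB b
  have h3 : (0:ℝ) ≤ 4 * ((H.card:ℝ) + 1) := by positivity
  nlinarith

/-- the sieve product -/
lemma VD_le (b : ℕ) (H : Finset ℕ) :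
    VD b H ≤ Real.exp (-(H.card:ℝ) * (∑ p ∈ PB b, 1 / (p:ℝ)) + (H.card:ℝ) * w0 H) := by
  rw [VD_eq]
  have h1 : ∏ p ∈ (PB b).filter (fun p => w0 H ≤ p), (1 - (H.card:ℝ) / p) ≤
      ∏ p ∈ (PB b).filter (fun p => w0 H ≤ p), Real.exp (-((H.card:ℝ) / p)) := by
    refine Finset.prod_le_prod (fun p hp => (one_sub_pos (Finset.mem_filter.1 hp).2).le)
      fun p _ => ?_
    have := Real.add_one_le_exp (-((H.card:ℝ) / p))
    linarith
  refine h1.trans ?_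
  rw [← Real.exp_sum]
  refine Real.exp_le_exp.2 ?_
  have h2 : ∑ p ∈ PB b, 1 / (p:ℝ) = ∑ p ∈ (PB b).filter (fun p => w0 H ≤ p), 1 / (p:ℝ) +
      ∑ p ∈ (PB b).filter (fun p => ¬ w0 H ≤ p), 1 / (p:ℝ) :=
    (Finset.sum_filter_add_sum_filter_not _ _ _).symm
  have h3 : ∑ p ∈ (PB b).filter (fun p => ¬ w0 H ≤ p), 1 / (p:ℝ) ≤ w0 H := by
    have h4 : (PB b).filter (fun p => ¬ w0 H ≤ p) ⊆ Finset.range (w0 H) := by
      intro p hp
      exact Finset.mem_range.2 (not_le.1 (Finset.mem_filter.1 hp).2)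
    calc ∑ p ∈ (PB b).filter (fun p => ¬ w0 H ≤ p), 1 / (p:ℝ)
        ≤ ∑ p ∈ (PB b).filter (fun p => ¬ w0 H ≤ p), (1:ℝ) := by
          refine Finset.sum_le_sum fun p hp => ?_
          have hp1 : (1:ℝ) ≤ p := by
            exact_mod_cast (mem_PB.1 (Finset.mem_filter.1 hp).1).1.one_lt.le
          exact div_le_one_of_le₀ hp1 (by linarith)
      _ = (((PB b).filter (fun p => ¬ w0 H ≤ p)).card : ℝ) := by simp
      _ ≤ w0 H := by
          have := Finset.card_le_card h4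
          rw [Finset.card_range] at this
          exact_mod_cast this
  have h5 : ∑ p ∈ (PB b).filter (fun p => w0 H ≤ p), -((H.card:ℝ) / p) =
      -(H.card:ℝ) * ∑ p ∈ (PB b).filter (fun p => w0 H ≤ p), 1 / (p:ℝ) := by
    rw [Finset.mul_sum]
    refine Finset.sum_congr rfl fun p _ => ?_
    ring
  rw [h5, h2]
  have hm0 : (0:ℝ) ≤ H.card := Nat.cast_nonneg _
  nlinarith [mul_le_mul_of_nonneg_left h3 hm0]

theorem class_sum (H : Finset ℕ) : ∃ C : ℝ, 0 < C ∧ ∀ (b K : ℕ) (𝒜 : Finset (ℕ → ℕ)),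
    (∀ a ∈ 𝒜, Adm b K H a) → ∑ a ∈ 𝒜, qt b H a ≤ C := by
  refine ⟨Real.exp ((H.card:ℝ) * w0 H + H.card * (4 * ((H.card:ℝ) + 1))), Real.exp_pos _,
    fun b K 𝒜 h𝒜 => ?_⟩
  set S : Finset ℕ := (Finset.Icc 1 K).filter fun s => ∀ p ∈ s.primeFactors, be p < b with hS
  set F : ℕ → ℝ := fun s => bt H s / (s : ℝ) with hF
  have hF0 : ∀ s, 0 ≤ F s := fun s => div_nonneg (bt_pos H s).le (Nat.cast_nonneg s)
  -- the sum over the tuples
  have h1 : ∑ a ∈ 𝒜, ∏ h ∈ H, F (a h) ≤ (∑ s ∈ S, F s) ^ H.card := by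
    have e0 : (∑ s ∈ S, F s) ^ H.card = ∏ h ∈ H, ∑ s ∈ S, F s := by
      rw [Finset.prod_const]
    rw [e0, Finset.prod_sum]
    set ι : (ℕ → ℕ) → ((h : ℕ) → h ∈ H → ℕ) := fun a h _ => a h with hι
    have hinj : ∀ a ∈ 𝒜, ∀ a' ∈ 𝒜, ι a = ι a' → a = a' := by
      intro a ha a' ha' h
      funext x
      by_cases hx : x ∈ H
      · exact congrFun (congrFun h x) hx
      · rw [(h𝒜 a ha).2 x hx, (h𝒜 a' ha').2 x hx]
    have hsum : ∑ a ∈ 𝒜, ∏ h ∈ H, F (a h) =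
        ∑ v ∈ 𝒜.image ι, ∏ x ∈ H.attach, F (v x.1 x.2) := by
      rw [Finset.sum_image (fun s hs s' hs' h => hinj s hs s' hs' h)]
      refine Finset.sum_congr rfl fun a ha => ?_
      rw [← Finset.prod_attach]
    rw [hsum]
    refine Finset.sum_le_sum_of_subset_of_nonneg ?_ fun v _ _ => ?_
    · intro v hv
      obtain ⟨a, ha, rfl⟩ := Finset.mem_image.1 hv
      rw [Finset.mem_pi]
      intro h hh
      obtain ⟨h2, h3, h4⟩ := (h𝒜 a ha).1 h hh
      exact Finset.mem_filter.2 ⟨Finset.mem_Icc.2 ⟨h2, h3⟩, h4⟩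
    · exact Finset.prod_nonneg fun x _ => hF0 _
  have h2 : ∑ s ∈ S, F s ≤ Real.exp (∑ p ∈ PB b, 1 / (p:ℝ) + 4 * ((H.card:ℝ) + 1)) := by
    refine (sum_F_le (b := b) H K S fun s hs => ?_).trans (prod_le H K b)
    rw [hS, Finset.mem_filter, Finset.mem_Icc] at hs
    exact ⟨hs.1.1, hs.1.2, hs.2⟩
  have h3 : (∑ s ∈ S, F s) ^ H.card ≤
      Real.exp (H.card * (∑ p ∈ PB b, 1 / (p:ℝ) + 4 * ((H.card:ℝ) + 1))) := by
    rw [Real.exp_nat_mul]
    exact pow_le_pow_left₀ (Finset.sum_nonneg fun s _ => hF0 s) h2 _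
  have h4 : ∑ a ∈ 𝒜, qt b H a = VD b H * ∑ a ∈ 𝒜, ∏ h ∈ H, F (a h) := by
    rw [Finset.mul_sum]
    rfl
  rw [h4]
  calc VD b H * ∑ a ∈ 𝒜, ∏ h ∈ H, F (a h)
      ≤ Real.exp (-(H.card:ℝ) * (∑ p ∈ PB b, 1 / (p:ℝ)) + (H.card:ℝ) * w0 H) *
        Real.exp (H.card * (∑ p ∈ PB b, 1 / (p:ℝ) + 4 * ((H.card:ℝ) + 1))) := by
        refine mul_le_mul (VD_le b H) (h1.trans h3) ?_ (Real.exp_pos _).le
        exact Finset.sum_nonneg fun a _ => Finset.prod_nonneg fun h _ => hF0 _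
    _ = Real.exp ((H.card:ℝ) * w0 H + H.card * (4 * ((H.card:ℝ) + 1))) := by
        rw [← Real.exp_add]
        congr 1
        ring

end Pool.Agent.Lib.P4a7640X
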