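import Mathlib
import Pool.Agent.Lib.P4a7640X.Par

/-!
# The high moment on the triple product

Module P4a7640X.CubeX (0.7 h).

As `v_bound` and `int_sq_le` (P4a7640Y/SqId.lean, Triple.lean) with the exponent `2 k`:
`KK φ a H D n τ = ∏ h ∈ H, sQ (Qt τ) (n + h)` (`KK_sQ`) `= uu H (Qt τ) n` (a prime `p > H.sup id`
divides at most one `n + h`), `2 ∑_{p ∈ Qt τ} 1 / p = YY τ` (`sum_Qt`). If `YM / 2 ≤ YY τ` then
`|∑ v KK| ≤ G (exp (-YM / 2) + ε)` (`H.card ≥ 1`), otherwise `|∑ v KK| ≤ ∑ v ≤ 2 G` and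
`1 ≤ 4 (YY - YM)² / YM²`. Use `G ^ (2 k) ≤ (2 G) ^ (2 k)`.
-/

open Filter MeasureTheory Finset Topology

namespace Pool.Agent.Lib.P4a7640X

open Pool.Agent.Lib.P4a7640 Pool.Agent.Lib.P4a7640D

namespace CubeXAux

lemma prod_sQ {H Q : Finset ℕ} (hQ : ∀ p ∈ Q, H.sup id < p) (n : ℕ) :
    ∏ h ∈ H, P4a7640L.sQ Q (n + h) = uu H Q n := by
  unfold P4a7640L.sQ uu KK
  rw [Finset.prod_comm, ← Finset.prod_const, Finset.prod_filter]
  refine Finset.prod_congr rfl fun p hp => ?_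
  by_cases h : ∃ h ∈ H, p ∣ n + h
  · rw [if_pos h]
    obtain ⟨h0, hh0, hd⟩ := h
    rw [Finset.prod_eq_single h0]
    · rw [if_pos hd]
    · intro h1 hh1 hne
      rw [if_neg]
      intro hd1
      have h2 : h0 ≤ H.sup id := Finset.le_sup (f := id) hh0
      have h3 : h1 ≤ H.sup id := Finset.le_sup (f := id) hh1
      have h4 := hQ p hp
      rcases lt_or_gt_of_ne hne with h5 | h5
      · have h6 : p ∣ h0 - h1 := by
          have := Nat.dvd_sub hd hd1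
          rwa [show n + h0 - (n + h1) = h0 - h1 by omega] at this
        have := Nat.le_of_dvd (by omega) h6
        omega
      · have h6 : p ∣ h1 - h0 := by
          have := Nat.dvd_sub hd1 hd
          rwa [show n + h1 - (n + h0) = h1 - h0 by omega] at this
        have := Nat.le_of_dvd (by omega) h6
        omega
    · intro hn
      exact absurd hh0 hn
  · rw [if_neg h]
    push Not at h
    exact Finset.prod_eq_one fun h1 hh1 => if_neg (h h1 hh1)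

end CubeXAux

theorem cube_bound {φ : ℕ → UnitAddCircle → ℝ} {a : ℕ → ℕ} {H D : Finset ℕ}
    (hφ : ∀ p, Measurable (φ p)) (hs : ∀ p x, |φ p x| = 1) (hne : H.Nonempty)
    (hD : ∀ p ∈ D, p.Prime ∧ H.sup id < p) (S : Finset ℕ) {v : ℕ → ℝ} (hv : ∀ n ∈ S, 0 ≤ v n)
    {G ε : ℝ} (hG : 0 < G) (hε : 0 ≤ ε) (hsum : ∑ n ∈ S, v n ≤ 2 * G)
    (hQ : ∀ Q ⊆ D, |∑ n ∈ S, v n * uu H Q n| ≤
      G * (Real.exp (-(2 * H.card * ∑ p ∈ Q, (1:ℝ) / p)) + ε))
    (hY : 0 < P4a7640Y.YM φ D) (k : ℕ) :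
    ∫ τ, (∑ n ∈ S, v n * P4a7640Y.KK φ a H D n τ) ^ (2 * k) ∂P4a7640Y.P3 ≤
      (2 * G) ^ (2 * k) * ((Real.exp (-P4a7640Y.YM φ D / 2) + ε) ^ (2 * k) +
        4 * (∫ τ, (P4a7640Y.YY φ a D τ - P4a7640Y.YM φ D) ^ 2 ∂P4a7640Y.P3) / P4a7640Y.YM φ D ^ 2) := by
  have hb : ∀ p x, |φ p x| ≤ 1 := fun p x => (hs p x).le
  set V : P4a7640Y.T3 → ℝ := fun τ => ∑ n ∈ S, v n * P4a7640Y.KK φ a H D n τ with hVdef
  set Y0 : ℝ := P4a7640Y.YM φ D with hY0
  have hVm : Measurable V :=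
    Finset.measurable_fun_sum _ fun n _ => (P4a7640Y.measurable_KK hφ n).const_mul _
  have hV1 : ∀ τ, |V τ| ≤ 2 * G := by
    intro τ
    refine le_trans ?_ hsum
    refine (Finset.abs_sum_le_sum_abs _ _).trans (Finset.sum_le_sum fun n hn => ?_)
    rw [abs_mul, abs_of_nonneg (hv n hn)]
    exact mul_le_of_le_one_right (hv n hn) (P4a7640Y.abs_KK_le hb n τ)
  have hV2 : ∀ τ, Y0 / 2 ≤ P4a7640Y.YY φ a D τ → |V τ| ≤ 2 * G * (Real.exp (-Y0 / 2) + ε) := by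
    intro τ hτ
    have hsub : P4a7640Y.Qt φ a D τ ⊆ D := Finset.filter_subset _ _
    have e1 : V τ = ∑ n ∈ S, v n * uu H (P4a7640Y.Qt φ a D τ) n := by
      refine Finset.sum_congr rfl fun n _ => ?_
      rw [P4a7640Y.KK_sQ hs, CubeXAux.prod_sQ fun p hp => (hD p (hsub hp)).2]
    rw [e1]
    have h1 := P4a7640Y.sum_Qt (a := a) (D := D) hs τ
    have h2 : (1:ℝ) ≤ H.card := by exact_mod_cast hne.card_pos
    have h3 : -(2 * H.card * ∑ p ∈ P4a7640Y.Qt φ a D τ, (1:ℝ) / p) =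
        -(H.card * P4a7640Y.YY φ a D τ) := by
      rw [← h1]
      ring
    have h4 : 0 ≤ P4a7640Y.YY φ a D τ := by linarith
    have h5 : Real.exp (-(2 * H.card * ∑ p ∈ P4a7640Y.Qt φ a D τ, (1:ℝ) / p)) ≤
        Real.exp (-Y0 / 2) := by
      rw [h3]
      apply Real.exp_le_exp.mpr
      nlinarith
    have h6 : 0 ≤ Real.exp (-Y0 / 2) + ε := by positivity
    calc |∑ n ∈ S, v n * uu H (P4a7640Y.Qt φ a D τ) n|
        ≤ G * (Real.exp (-(2 * H.card * ∑ p ∈ P4a7640Y.Qt φ a D τ, (1:ℝ) / p)) + ε) := hQ _ hsub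
      _ ≤ G * (Real.exp (-Y0 / 2) + ε) := mul_le_mul_of_nonneg_left (by linarith) hG.le
      _ ≤ 2 * G * (Real.exp (-Y0 / 2) + ε) := by nlinarith
  have hYb : ∀ τ, |P4a7640Y.YY φ a D τ| ≤ ∑ p ∈ D, 2 / (p:ℝ) := by
    intro τ
    unfold P4a7640Y.YY
    refine (Finset.abs_sum_le_sum_abs _ _).trans (Finset.sum_le_sum fun p _ => ?_)
    rw [abs_div, Nat.abs_cast]
    refine div_le_div_of_nonneg_right ?_ (Nat.cast_nonneg p)
    have e1 := abs_sub (1:ℝ) (P4a7640Y.FP (φ p) (a p) τ)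
    have e2 := P4a7640Y.abs_FP_le (hb p) (a p) τ
    rw [abs_one] at e1
    linarith
  have hYm := P4a7640Y.measurable_YY hφ a D
  have i1 : Integrable (fun τ => (P4a7640Y.YY φ a D τ - Y0) ^ 2) P4a7640Y.P3 := by
    refine P4a7640Y.int_bdd (f := fun τ => (P4a7640Y.YY φ a D τ - Y0) ^ 2)
      ((hYm.sub_const _).pow_const 2)
      (C := (∑ p ∈ D, 2 / (p:ℝ) + |Y0|) ^ 2) fun τ => ?_
    rw [abs_pow]
    refine pow_le_pow_left₀ (abs_nonneg _) ?_ 2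
    exact (abs_sub _ _).trans (add_le_add (hYb τ) le_rfl)
  have hpt : ∀ τ, V τ ^ (2 * k) ≤ (2 * G) ^ (2 * k) * ((Real.exp (-Y0 / 2) + ε) ^ (2 * k) +
      4 / Y0 ^ 2 * (P4a7640Y.YY φ a D τ - Y0) ^ 2) := by
    intro τ
    have hev : V τ ^ (2 * k) = |V τ| ^ (2 * k) := by
      rw [pow_mul, pow_mul, sq_abs]
    rw [hev]
    have h0 : 0 ≤ 4 / Y0 ^ 2 * (P4a7640Y.YY φ a D τ - Y0) ^ 2 := by positivity
    have hG2 : 0 ≤ (2 * G) ^ (2 * k) := by positivity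
    have h4 : 0 ≤ (Real.exp (-Y0 / 2) + ε) ^ (2 * k) := by positivity
    rcases le_or_gt (Y0 / 2) (P4a7640Y.YY φ a D τ) with h1 | h1
    · have h2 : |V τ| ^ (2 * k) ≤ (2 * G) ^ (2 * k) * (Real.exp (-Y0 / 2) + ε) ^ (2 * k) := by
        rw [← mul_pow]
        exact pow_le_pow_left₀ (abs_nonneg _) (hV2 τ h1) _
      refine h2.trans (mul_le_mul_of_nonneg_left (by linarith) hG2)
    · have h2 : |V τ| ^ (2 * k) ≤ (2 * G) ^ (2 * k) := pow_le_pow_left₀ (abs_nonneg _) (hV1 τ) _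
      have h3 : 1 ≤ 4 / Y0 ^ 2 * (P4a7640Y.YY φ a D τ - Y0) ^ 2 := by
        rw [div_mul_eq_mul_div, le_div_iff₀ (by positivity)]
        nlinarith
      calc |V τ| ^ (2 * k) ≤ (2 * G) ^ (2 * k) * 1 := by linarith
        _ ≤ _ := mul_le_mul_of_nonneg_left (by linarith) hG2
  have i2 : Integrable (fun τ => (2 * G) ^ (2 * k) * ((Real.exp (-Y0 / 2) + ε) ^ (2 * k) +
      4 / Y0 ^ 2 * (P4a7640Y.YY φ a D τ - Y0) ^ 2)) P4a7640Y.P3 :=
    ((integrable_const _).add (i1.const_mul _)).const_mul _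
  have i3 : Integrable (fun τ => V τ ^ (2 * k)) P4a7640Y.P3 :=
    P4a7640Y.int_bdd (f := fun τ => V τ ^ (2 * k)) (hVm.pow_const _) (C := (2 * G) ^ (2 * k))
      fun τ => by
        rw [abs_pow]
        exact pow_le_pow_left₀ (abs_nonneg _) (hV1 τ) _
  refine (integral_mono i3 i2 hpt).trans (le_of_eq ?_)
  rw [integral_const_mul, integral_add (integrable_const _) (i1.const_mul _), integral_const_mul,
    integral_const]
  simp
  left
  ring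

end Pool.Agent.Lib.P4a7640X
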