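import Mathlib
import Pool.Agent.Lib.P4a7640X.Par
import Pool.Agent.Lib.P4a7640X.MomIneq

/-!
# High moments
-/

open Filter MeasureTheory Finset Topology

namespace Pool.Agent.Lib.P4a7640X

open Pool.Agent.Lib.P4a7640 Pool.Agent.Lib.P4a7640D

theorem high_moment {φ : ℕ → UnitAddCircle → ℝ} {a : ℕ → ℕ} {H D : Finset ℕ}
    (hφ : ∀ p, Measurable (φ p)) (hb : ∀ p x, |φ p x| ≤ 1) (S : Finset ℕ) {v : ℕ → ℝ}
    (hv : ∀ n ∈ S, 0 ≤ v n) {u : ℕ → ℂ} (hu : ∀ n ∈ S, ‖u n‖ ≤ v n) (θ : ℕ → ℤ) (k : ℕ) :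
    (∫ x : UnitAddCircle, ‖∑ n ∈ S, u n * (fourier (θ n) x * (P4a7640Y.WW φ a H D n x : ℂ))‖ ^ (2 * k)) ^ 4
      ≤ (∑ n ∈ S, v n) ^ (6 * k) *
        ∫ τ, (∑ n ∈ S, v n * P4a7640Y.KK φ a H D n τ) ^ (2 * k) ∂P4a7640Y.P3 := by
  classical
  set W : ℕ → UnitAddCircle → ℝ := fun n => P4a7640Y.WW φ a H D n with hW
  have hWm : ∀ n, Measurable (W n) := fun n => P4a7640Y.measurable_WW hφ n
  have hWb : ∀ n x, |W n x| ≤ 1 := fun n x => P4a7640Y.abs_WW_le hb n x
  -- the normalised coefficients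
  set u' : ℕ → ℂ := fun n => if n ∈ S then u n / (v n : ℂ) else 0 with hu'
  have hu'1 : ∀ n, ‖u' n‖ ≤ 1 := by
    intro n
    rw [hu']
    show ‖if n ∈ S then u n / (v n : ℂ) else 0‖ ≤ 1
    split_ifs with h
    · rw [norm_div, Complex.norm_real, Real.norm_eq_abs, abs_of_nonneg (hv n h)]
      exact div_le_one_of_le₀ (hu n h) (hv n h)
    · rw [norm_zero]
      exact zero_le_one
  have huv : ∀ n ∈ S, (v n : ℂ) * u' n = u n := by
    intro n hn
    rw [hu']
    show (v n : ℂ) * (if n ∈ S then u n / (v n : ℂ) else 0) = u n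
    rw [if_pos hn]
    rcases eq_or_ne (v n) 0 with h | h
    · have h1 := hu n hn
      rw [h] at h1
      have h2 : u n = 0 := norm_le_zero_iff.mp h1
      rw [h2, h]
      simp
    · have h1 : (v n : ℂ) ≠ 0 := by exact_mod_cast h
      field_simp
  set T : UnitAddCircle → ℂ := fun x => ∑ n ∈ S, u n * (fourier (θ n) x * (W n x : ℂ)) with hT
  -- the factors
  set U : Fin (k + k) → ℕ → ℂ := Fin.append (fun _ => u') (fun _ => fun n => (starRingEnd ℂ) (u' n))
    with hU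
  set Θ : Fin (k + k) → ℕ → ℤ := Fin.append (fun _ => θ) (fun _ => fun n => -θ n) with hΘ
  have hU1 : ∀ i n, ‖U i n‖ ≤ 1 := by
    intro i n
    rw [hU]
    refine Fin.addCases (fun j => ?_) (fun j => ?_) i
    · rw [Fin.append_left]
      exact hu'1 n
    · rw [Fin.append_right]
      show ‖(starRingEnd ℂ) (u' n)‖ ≤ 1
      rw [RCLike.norm_conj]
      exact hu'1 n
  have h1 : ∀ x, TS S v u' θ W x = T x := by
    intro x
    unfold TS
    refine Finset.sum_congr rfl fun n hn => ?_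
    rw [← mul_assoc, huv n hn]
  have h2 : ∀ x, TS S v (fun n => (starRingEnd ℂ) (u' n)) (fun n => -θ n) W x =
      (starRingEnd ℂ) (T x) := by
    intro x
    rw [← h1]
    unfold TS
    rw [map_sum]
    refine Finset.sum_congr rfl fun n _ => ?_
    rw [map_mul, map_mul, map_mul, Complex.conj_ofReal, Complex.conj_ofReal, fourier_neg]
  have h3 : ∀ x, ∏ i, TS S v (U i) (Θ i) W x = ((‖T x‖ ^ (2 * k) : ℝ) : ℂ) := by
    intro x
    rw [Fin.prod_univ_add]
    have e1 : ∀ i : Fin k, TS S v (U (Fin.castAdd k i)) (Θ (Fin.castAdd k i)) W x = T x := by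
      intro i
      rw [hU, hΘ, Fin.append_left, Fin.append_left]
      exact h1 x
    have e2 : ∀ i : Fin k, TS S v (U (Fin.natAdd k i)) (Θ (Fin.natAdd k i)) W x =
        (starRingEnd ℂ) (T x) := by
      intro i
      rw [hU, hΘ, Fin.append_right, Fin.append_right]
      exact h2 x
    simp_rw [e1, e2]
    rw [Finset.prod_const, Finset.prod_const, Finset.card_univ, Fintype.card_fin, ← mul_pow,
      Complex.mul_conj, Complex.normSq_eq_norm_sq, pow_mul]
    push_cast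
    rfl
  have h4 := mom_ineq hv hWm hWb hU1 Θ
  simp_rw [h3] at h4
  have h5 : (∫ x, ((‖T x‖ ^ (2 * k) : ℝ) : ℂ)) = ((∫ x, ‖T x‖ ^ (2 * k) : ℝ) : ℂ) := integral_ofReal
  rw [h5, Complex.norm_real, Real.norm_eq_abs,
    abs_of_nonneg (integral_nonneg fun x => pow_nonneg (norm_nonneg _) _)] at h4
  refine h4.trans (le_of_eq ?_)
  have e1 : 3 * (k + k) = 6 * k := by ring
  have e2 : k + k = 2 * k := by ring
  rw [e1, e2]
  congr 1
  refine integral_congr_ae (Eventually.of_forall fun τ => ?_)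
  show (∑ n ∈ S, v n * KW (W n) τ) ^ (2 * k) = (∑ n ∈ S, v n * P4a7640Y.KK φ a H D n τ) ^ (2 * k)
  congr 1
  refine Finset.sum_congr rfl fun n _ => ?_
  rw [P4a7640Y.KK_eq]
  rfl

end Pool.Agent.Lib.P4a7640X
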