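import Mathlib

/-!
# The choice of the exponent `k`

`k = ⌊c₃ log N⌋₊ + 1` with `c₃ > 0` so small that `2 c₃ log (max q 1) ≤ c₁ / 8`.
-/

open Filter Topology

namespace Pool.Agent.Lib.P4a7640X

lemma rpow_quarter_pow {x : ℝ} (hx : 0 ≤ x) : (x ^ ((1:ℝ) / 4)) ^ 4 = x := by
  rw [← Real.rpow_natCast, ← Real.rpow_mul hx]
  norm_num

lemma add_rpow_quarter {x y : ℝ} (hx : 0 ≤ x) (hy : 0 ≤ y) :
    (x + y) ^ ((1:ℝ) / 4) ≤ x ^ ((1:ℝ) / 4) + y ^ ((1:ℝ) / 4) := by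
  have ha : 0 ≤ x ^ ((1:ℝ) / 4) := Real.rpow_nonneg hx _
  have hb : 0 ≤ y ^ ((1:ℝ) / 4) := Real.rpow_nonneg hy _
  refine le_of_pow_le_pow_left₀ (n := 4) (by norm_num) (by positivity) ?_
  rw [rpow_quarter_pow (by positivity)]
  have h1 := rpow_quarter_pow hx
  have h2 := rpow_quarter_pow hy
  have h3 : (x ^ ((1:ℝ) / 4)) ^ 4 + (y ^ ((1:ℝ) / 4)) ^ 4 ≤
      (x ^ ((1:ℝ) / 4) + y ^ ((1:ℝ) / 4)) ^ 4 := pow_add_pow_le ha hb (by norm_num)
  rw [h1, h2] at h3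
  exact h3

theorem numeric {q e₀ B c₁ : ℝ} (hq : 0 < q) (he : 0 ≤ e₀) (h : q ^ 4 * e₀ ≤ Real.exp (-4))
    (hB : 0 < B) (hc₁ : 0 < c₁) : ∃ c₂ : ℝ, 0 < c₂ ∧ ∃ B' : ℝ, 0 < B' ∧ ∀ᶠ N : ℕ in atTop,
    ∃ k : ℕ, 1 ≤ k ∧ ∀ V : ℝ, 0 ≤ V → V ≤ B * Real.exp (-(c₁ * Real.log N)) →
      q ^ (2 * k) * (e₀ ^ (2 * k) + V) ^ ((1:ℝ) / 4) ≤ B' * Real.exp (-(c₂ * Real.log N)) := by
  obtain ⟨Q, hQ⟩ : ∃ Q : ℝ, Q = max q 1 := ⟨_, rfl⟩
  have hQ1 : 1 ≤ Q := hQ ▸ le_max_right _ _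
  have hqQ : q ≤ Q := hQ ▸ le_max_left _ _
  have hL : 0 ≤ Real.log Q := Real.log_nonneg hQ1
  obtain ⟨c₃, hc₃d⟩ : ∃ c₃ : ℝ, c₃ = c₁ / (16 * (Real.log Q + 1)) := ⟨_, rfl⟩
  have hc₃ : 0 < c₃ := by rw [hc₃d]; positivity
  have h3 : 2 * c₃ * Real.log Q ≤ c₁ / 8 := by
    have h4 : c₃ * (16 * (Real.log Q + 1)) = c₁ := by
      rw [hc₃d]
      exact div_mul_cancel₀ _ (by positivity)
    nlinarith
  have hB4 : 0 ≤ B ^ ((1:ℝ) / 4) := Real.rpow_nonneg hB.le _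
  refine ⟨min (2 * c₃) (c₁ / 8), lt_min (by linarith) (by linarith), 1 + Q ^ 2 * B ^ ((1:ℝ) / 4),
    by positivity, ?_⟩
  filter_upwards [eventually_ge_atTop 1] with N hN
  have hl : 0 ≤ Real.log N := Real.log_nonneg (by exact_mod_cast hN)
  obtain ⟨k, hk⟩ : ∃ k : ℕ, k = ⌊c₃ * Real.log N⌋₊ + 1 := ⟨_, rfl⟩
  have hk1 : c₃ * Real.log N ≤ k := by
    rw [hk]
    push_cast
    exact (Nat.lt_floor_add_one _).le
  have hk2 : (k : ℝ) ≤ c₃ * Real.log N + 1 := by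
    rw [hk]
    push_cast
    have := Nat.floor_le (mul_nonneg hc₃.le hl)
    linarith
  refine ⟨k, by omega, fun V hV hVB => ?_⟩
  have hexp1 : Real.exp (-(2 * (c₃ * Real.log N))) ≤
      Real.exp (-(min (2 * c₃) (c₁ / 8) * Real.log N)) := by
    refine Real.exp_le_exp.2 ?_
    have := mul_le_mul_of_nonneg_right (min_le_left (2 * c₃) (c₁ / 8)) hl
    linarith
  have hexp2 : Real.exp (-(c₁ / 8 * Real.log N)) ≤
      Real.exp (-(min (2 * c₃) (c₁ / 8) * Real.log N)) := by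
    refine Real.exp_le_exp.2 ?_
    have := mul_le_mul_of_nonneg_right (min_le_right (2 * c₃) (c₁ / 8)) hl
    linarith
  -- the first term
  have hfirst : q ^ (2 * k) * (e₀ ^ (2 * k)) ^ ((1:ℝ) / 4) ≤
      Real.exp (-(2 * (c₃ * Real.log N))) := by
    have h5 : q ^ (2 * k) * (e₀ ^ (2 * k)) ^ ((1:ℝ) / 4) ≤ Real.exp (-(2 * (k : ℝ))) := by
      refine le_of_pow_le_pow_left₀ (n := 4) (by norm_num) (Real.exp_pos _).le ?_
      rw [mul_pow, rpow_quarter_pow (by positivity)]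
      have h6 : (q ^ (2 * k)) ^ 4 * e₀ ^ (2 * k) = (q ^ 4 * e₀) ^ (2 * k) := by
        rw [mul_pow, ← pow_mul, ← pow_mul, mul_comm (2 * k) 4]
      rw [h6]
      refine (pow_le_pow_left₀ (by positivity) h _).trans (le_of_eq ?_)
      rw [← Real.exp_nat_mul, ← Real.exp_nat_mul]
      congr 1
      push_cast
      ring
    refine h5.trans (Real.exp_le_exp.2 ?_)
    linarith
  -- the second term
  have hsecond : q ^ (2 * k) * V ^ ((1:ℝ) / 4) ≤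
      Q ^ 2 * B ^ ((1:ℝ) / 4) * Real.exp (-(c₁ / 8 * Real.log N)) := by
    have h5 : q ^ (2 * k) ≤ Q ^ 2 * Real.exp (c₁ / 8 * Real.log N) := by
      have h6 : Q ^ (2 * k) = Real.exp (2 * k * Real.log Q) := by
        have := Real.exp_nat_mul (Real.log Q) (2 * k)
        rw [Real.exp_log (by linarith)] at this
        rw [← this]
        push_cast
        ring_nf
      have h7 : Q ^ 2 = Real.exp (2 * Real.log Q) := by
        have := Real.exp_nat_mul (Real.log Q) 2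
        rw [Real.exp_log (by linarith)] at this
        rw [← this]
        push_cast
        ring_nf
      refine (pow_le_pow_left₀ hq.le hqQ _).trans ?_
      rw [h6, h7, ← Real.exp_add]
      refine Real.exp_le_exp.2 ?_
      nlinarith [mul_le_mul_of_nonneg_right hk2 hL, mul_le_mul_of_nonneg_right h3 hl]
    have h8 : V ^ ((1:ℝ) / 4) ≤ B ^ ((1:ℝ) / 4) * Real.exp (-(c₁ / 4 * Real.log N)) := by
      refine (Real.rpow_le_rpow hV hVB (by norm_num)).trans (le_of_eq ?_)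
      rw [Real.mul_rpow hB.le (Real.exp_pos _).le, ← Real.exp_mul]
      congr 2
      ring
    have h9 : Real.exp (c₁ / 8 * Real.log N) * Real.exp (-(c₁ / 4 * Real.log N)) =
        Real.exp (-(c₁ / 8 * Real.log N)) := by
      rw [← Real.exp_add]
      congr 1
      ring
    calc q ^ (2 * k) * V ^ ((1:ℝ) / 4) ≤ (Q ^ 2 * Real.exp (c₁ / 8 * Real.log N)) *
          (B ^ ((1:ℝ) / 4) * Real.exp (-(c₁ / 4 * Real.log N))) :=
        mul_le_mul h5 h8 (Real.rpow_nonneg hV _) (by positivity)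
      _ = Q ^ 2 * B ^ ((1:ℝ) / 4) * (Real.exp (c₁ / 8 * Real.log N) *
          Real.exp (-(c₁ / 4 * Real.log N))) := by ring
      _ = _ := by rw [h9]
  have hsum := add_rpow_quarter (x := e₀ ^ (2 * k)) (y := V) (by positivity) hV
  have h10 := mul_le_mul_of_nonneg_left hsum (by positivity : 0 ≤ q ^ (2 * k))
  have h11 : 0 ≤ Q ^ 2 * B ^ ((1:ℝ) / 4) := by positivity
  have h12 := mul_le_mul_of_nonneg_left hexp2 h11
  rw [mul_add] at h10
  rw [add_mul, one_mul]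
  linarith

end Pool.Agent.Lib.P4a7640X
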