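import Mathlib
import Pool.Agent.Lib.P4a7640X.Par

/-!
# The sum over the classes

Module P4a7640X.SumCls.

`∑ T_a = ∑ G_a (T_a / G_a)` and Jensen for the power `2 k`: `(∑ T_a)^(2k) ≤
(∑ G_a)^(2k-1) ∑ G_a (T_a / G_a)^(2k)`; from the hypothesis `∫ T_a ^ (2k) ≤ (2 G_a)^(2k) E`
(fourth roots), so `∫ (∑ T_a)^(2k) ≤ (∑ G_a)^(2k) 2^(2k) E ≤ (2 C)^(2k) E`. Markov.
-/

open Filter MeasureTheory Finset Topology

namespace Pool.Agent.Lib.P4a7640X

open Pool.Agent.Lib.P4a7640 Pool.Agent.Lib.P4a7640D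

private theorem sumCls_jensen {ι : Type*} (A : Finset ι) {G : ι → ℝ} (hG : ∀ a ∈ A, 0 < G a)
    (hA : A.Nonempty) {t : ι → ℝ} (ht : ∀ a, 0 ≤ t a) (n : ℕ) :
    (∑ a ∈ A, t a) ^ n ≤
      ∑ a ∈ A, (G a / ∑ b ∈ A, G b) * ((∑ b ∈ A, G b) / G a) ^ n * t a ^ n := by
  have hS : 0 < ∑ b ∈ A, G b := sum_pos hG hA
  have h1 := Real.pow_arith_mean_le_arith_mean_pow A (fun a => G a / ∑ b ∈ A, G b)
    (fun a => (∑ b ∈ A, G b) / G a * t a) (fun a ha => div_nonneg (hG a ha).le hS.le)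
    (by rw [← sum_div, div_self hS.ne'])
    (fun a ha => mul_nonneg (div_nonneg hS.le (hG a ha).le) (ht a)) n
  have h2 : ∑ a ∈ A, (G a / ∑ b ∈ A, G b) * ((∑ b ∈ A, G b) / G a * t a) = ∑ a ∈ A, t a := by
    refine sum_congr rfl fun a ha => ?_
    have h3 := (hG a ha).ne'
    have h4 := hS.ne'
    rw [← mul_assoc, div_mul_div_comm, mul_comm (G a), div_self (mul_ne_zero h4 h3), one_mul]
  rw [h2] at h1
  refine h1.trans (le_of_eq (sum_congr rfl fun a _ => ?_))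
  rw [mul_pow, mul_assoc]

theorem sum_classes {ι : Type*} (𝒜 : Finset ι) {G : ι → ℝ} (hG : ∀ a ∈ 𝒜, 0 < G a) {C : ℝ}
    (hC : ∑ a ∈ 𝒜, G a ≤ C) {T : ι → UnitAddCircle → ℝ} (hTm : ∀ a, Measurable (T a))
    (hT0 : ∀ a x, 0 ≤ T a x) {B : ℝ} (hTB : ∀ a x, T a x ≤ B) {k : ℕ} (hk : 1 ≤ k) {E : ℝ}
    (hE : 0 ≤ E) (hT : ∀ a ∈ 𝒜, (∫ x, T a x ^ (2 * k)) ^ 4 ≤ (2 * G a) ^ (8 * k) * E ^ 4) {lm : ℝ}
    (hl : 0 < lm) :
    (volume {x : UnitAddCircle | lm < ∑ a ∈ 𝒜, T a x}).toReal ≤ (2 * C / lm) ^ (2 * k) * E := by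
  classical
  rcases 𝒜.eq_empty_or_nonempty with rfl | hA
  · have h1 : {x : UnitAddCircle | lm < ∑ a ∈ (∅ : Finset ι), T a x} = ∅ := by
      refine Set.eq_empty_of_forall_notMem fun x hx => ?_
      simp only [sum_empty, Set.mem_ofPred_eq] at hx
      exact not_lt.2 hl.le hx
    rw [h1, measure_empty, ENNReal.toReal_zero]
    have h2 : 0 ≤ (2 * C / lm) ^ (2 * k) := by
      rw [pow_mul]
      positivity
    positivity
  set S : ℝ := ∑ a ∈ 𝒜, G a with hS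
  have hS0 : 0 < S := sum_pos hG hA
  have hint : ∀ (n : ℕ) (a : ι), Integrable (fun x => T a x ^ n) volume := by
    intro n a
    refine Integrable.of_bound ((hTm a).pow_const n).aestronglyMeasurable (B ^ n)
      (Eventually.of_forall fun x => ?_)
    rw [Real.norm_eq_abs, abs_of_nonneg (pow_nonneg (hT0 a x) n)]
    exact pow_le_pow_left₀ (hT0 a x) (hTB a x) n
  have hsum0 : ∀ x, 0 ≤ ∑ a ∈ 𝒜, T a x := fun x => sum_nonneg fun a _ => hT0 a x
  have hintS : Integrable (fun x => (∑ a ∈ 𝒜, T a x) ^ (2 * k)) volume := by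
    refine Integrable.of_bound
      ((Finset.measurable_sum 𝒜 fun a _ => hTm a).pow_const (2 * k)).aestronglyMeasurable
      ((𝒜.card * B) ^ (2 * k)) (Eventually.of_forall fun x => ?_)
    rw [Real.norm_eq_abs, abs_of_nonneg (pow_nonneg (hsum0 x) _)]
    refine pow_le_pow_left₀ (hsum0 x) ?_ _
    calc ∑ a ∈ 𝒜, T a x ≤ ∑ _a ∈ 𝒜, B := sum_le_sum fun a _ => hTB a x
      _ = 𝒜.card * B := by rw [sum_const, nsmul_eq_mul]
  -- the moments
  have hmom : ∀ a ∈ 𝒜, ∫ x, T a x ^ (2 * k) ≤ (2 * G a) ^ (2 * k) * E := by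
    intro a ha
    have h1 : 0 ≤ ∫ x, T a x ^ (2 * k) := integral_nonneg fun x => pow_nonneg (hT0 a x) _
    have h2 : 0 ≤ (2 * G a) ^ (2 * k) * E := by
      have := (hG a ha).le
      positivity
    refine (pow_le_pow_iff_left₀ h1 h2 (n := 4) (by norm_num)).1 ?_
    rw [mul_pow, ← pow_mul, show 2 * k * 4 = 8 * k by ring]
    exact hT a ha
  have hI : ∫ x, (∑ a ∈ 𝒜, T a x) ^ (2 * k) ≤ (2 * C) ^ (2 * k) * E := by
    calc ∫ x, (∑ a ∈ 𝒜, T a x) ^ (2 * k)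
        ≤ ∫ x, ∑ a ∈ 𝒜, (G a / S) * (S / G a) ^ (2 * k) * T a x ^ (2 * k) := by
          refine integral_mono hintS ?_ fun x => sumCls_jensen 𝒜 hG hA (fun a => hT0 a x) _
          exact integrable_finsetSum _ fun a _ => (hint _ a).const_mul _
      _ = ∑ a ∈ 𝒜, (G a / S) * (S / G a) ^ (2 * k) * ∫ x, T a x ^ (2 * k) := by
          rw [integral_finsetSum _ fun a _ => (hint _ a).const_mul _]
          exact sum_congr rfl fun a _ => integral_const_mul _ _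
      _ ≤ ∑ a ∈ 𝒜, (G a / S) * (S / G a) ^ (2 * k) * ((2 * G a) ^ (2 * k) * E) := by
          refine sum_le_sum fun a ha => mul_le_mul_of_nonneg_left (hmom a ha) ?_
          have := (hG a ha).le
          positivity
      _ = ∑ a ∈ 𝒜, (G a / S) * ((2 * S) ^ (2 * k) * E) := by
          refine sum_congr rfl fun a ha => ?_
          have h1 : (S / G a) ^ (2 * k) * (2 * G a) ^ (2 * k) = (2 * S) ^ (2 * k) := by
            rw [← mul_pow]
            congr 1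
            have := (hG a ha).ne'
            field_simp
          rw [mul_assoc, ← mul_assoc ((S / G a) ^ (2 * k)), h1]
      _ = (2 * S) ^ (2 * k) * E := by
          rw [← sum_mul, ← sum_div, div_self hS0.ne', one_mul]
      _ ≤ (2 * C) ^ (2 * k) * E := by
          gcongr
  -- Markov
  have hM := mul_meas_ge_le_integral_of_nonneg (μ := (volume : Measure UnitAddCircle))
    (f := fun x => (∑ a ∈ 𝒜, T a x) ^ (2 * k))
    (Eventually.of_forall fun x => pow_nonneg (hsum0 x) _) hintS (lm ^ (2 * k))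
  have hsub : (volume {x : UnitAddCircle | lm < ∑ a ∈ 𝒜, T a x}).toReal ≤
      (volume : Measure UnitAddCircle).real
        {x | lm ^ (2 * k) ≤ (∑ a ∈ 𝒜, T a x) ^ (2 * k)} := by
    refine ENNReal.toReal_mono (measure_ne_top _ _) (measure_mono fun x hx => ?_)
    exact pow_le_pow_left₀ hl.le (le_of_lt hx) _
  have hlk : 0 < lm ^ (2 * k) := pow_pos hl _
  have h3 : lm ^ (2 * k) * (volume {x : UnitAddCircle | lm < ∑ a ∈ 𝒜, T a x}).toReal ≤
      (2 * C) ^ (2 * k) * E :=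
    ((mul_le_mul_of_nonneg_left hsub hlk.le).trans hM).trans hI
  rw [div_pow, div_mul_eq_mul_div, le_div_iff₀ hlk, mul_comm]
  exact h3

end Pool.Agent.Lib.P4a7640X
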