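import Mathlib
import Pool.Agent.Lib.P4a7640X.Par
import Pool.Agent.Lib.P4a7640L.Cover
import Pool.Agent.Lib.P4a7640D.Level

/-!
# Small lemmas for the assembly at one scale
-/

open Filter MeasureTheory Finset Topology

namespace Pool.Agent.Lib.P4a7640X

open Pool.Agent.Lib.P4a7640 Pool.Agent.Lib.P4a7640D

namespace ScaleE

lemma pow_be_le {N : ℕ} (hN : 2 ≤ N) : 2 ^ 2 ^ be N ≤ N := by
  have h1 : Nat.log 2 N ≠ 0 := (Nat.log_pos (by norm_num) hN).ne'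
  have h2 : 2 ^ be N ≤ Nat.log 2 N := Nat.pow_log_le_self 2 h1
  exact (Nat.pow_le_pow_right (by norm_num) h2).trans (Nat.pow_log_le_self 2 (by omega))

lemma log_pp (m : ℕ) : Real.log ((2 ^ 2 ^ m : ℕ) : ℝ) = 2 ^ m * Real.log 2 := by
  rw [Nat.cast_pow, Real.log_pow]
  push_cast
  ring

lemma be_le_log {N : ℕ} (hN : 2 ≤ N) : (2:ℝ) ^ be N * Real.log 2 ≤ Real.log N := by
  rw [← log_pp]
  refine Real.log_le_log ?_ (by exact_mod_cast pow_be_le hN)
  exact_mod_cast Nat.pos_of_ne_zero (by positivity)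

lemma log_le_be {N : ℕ} (hN : 2 ≤ N) : Real.log N ≤ (2:ℝ) ^ (be N + 1) * Real.log 2 := by
  rw [← log_pp]
  refine Real.log_le_log (by exact_mod_cast (by omega : 0 < N)) ?_
  exact_mod_cast (P4a7640D.LevelAux.lt_be N).le

lemma tendsto_be : Tendsto (fun N : ℕ => be N) atTop atTop := by
  refine tendsto_atTop.2 fun j => ?_
  filter_upwards [eventually_ge_atTop (2 ^ 2 ^ j)] with N hN
  have h1 : 2 ^ j ≤ Nat.log 2 N := by
    calc 2 ^ j = Nat.log 2 (2 ^ 2 ^ j) := (Nat.log_pow (by norm_num) _).symm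
      _ ≤ Nat.log 2 N := Nat.log_mono_right hN
  calc j = Nat.log 2 (2 ^ j) := (Nat.log_pow (by norm_num) _).symm
    _ ≤ be N := Nat.log_mono_right h1

lemma tendsto_log : Tendsto (fun N : ℕ => Real.log N) atTop atTop :=
  Real.tendsto_log_atTop.comp tendsto_natCast_atTop_atTop

/-- the integers up to `2 ^ 2 ^ (be N - i₀)` have a small logarithmic density -/
lemma head {δ : ℝ} (hδ : 0 < δ) : ∃ i₀ : ℕ, ∀ᶠ N : ℕ in atTop,
    (∑ n ∈ Icc (1:ℕ) (2 ^ 2 ^ (be N - i₀) : ℕ), (1:ℝ) / n) / Real.log N ≤ δ := by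
  obtain ⟨i₀, hi₀⟩ := exists_pow_lt_of_lt_one (half_pos hδ) (by norm_num : (1/2:ℝ) < 1)
  refine ⟨i₀, ?_⟩
  filter_upwards [tendsto_be.eventually_ge_atTop i₀, eventually_ge_atTop 2,
    tendsto_log.eventually_ge_atTop (2 / δ)] with N h1 h2 h3
  have hl : 0 < Real.log N := lt_of_lt_of_le (by positivity) h3
  rw [div_le_iff₀ hl]
  have h4 := P4a7640L.CoverAux.sum_inv_Icc_le (2 ^ 2 ^ (be N - i₀))
  rw [log_pp] at h4
  have h5 : (2:ℝ) ^ (be N - i₀) = 2 ^ be N * (1/2) ^ i₀ := by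
    rw [one_div, inv_pow, pow_sub₀ _ (by norm_num) h1]
  have h6 := be_le_log h2
  have h7 : 1 ≤ δ / 2 * Real.log N := by
    have := (div_le_iff₀ hδ).1 h3
    linarith
  have h8 : (2:ℝ) ^ (be N - i₀) * Real.log 2 ≤ δ / 2 * Real.log N := by
    rw [h5]
    calc (2:ℝ) ^ be N * (1/2) ^ i₀ * Real.log 2 = (1/2) ^ i₀ * (2 ^ be N * Real.log 2) := by ring
      _ ≤ (δ / 2) * Real.log N := mul_le_mul hi₀.le h6
          (mul_nonneg (by positivity) (Real.log_nonneg (by norm_num))) (half_pos hδ).le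
  linarith

lemma exp_le_pp {N j : ℕ} (hN : 2 ≤ N) (hj : j ≤ be N) :
    Real.exp ((1/2) ^ (j + 1) * Real.log N) ≤ ((2 ^ 2 ^ (be N - j) : ℕ) : ℝ) := by
  have h0 : (0:ℝ) < ((2 ^ 2 ^ (be N - j) : ℕ) : ℝ) := by
    exact_mod_cast Nat.pos_of_ne_zero (by positivity)
  rw [← Real.le_log_iff_exp_le h0, log_pp]
  have h5 : (2:ℝ) ^ (be N - j) = (1/2) ^ (j + 1) * 2 ^ (be N + 1) := by
    rw [one_div, inv_pow, pow_sub₀ _ (by norm_num) hj]
    field_simp
    ring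
  rw [h5, mul_assoc]
  exact mul_le_mul_of_nonneg_left (log_le_be hN) (by positivity)

open Classical in
lemma bad_split {b c t K : ℕ} {H : Finset ℕ} {N : ℕ} :
    ∑ n ∈ (Icc 1 N).filter (fun n => ¬ Good b c t K H n), (1:ℝ) / n ≤
      ∑ n ∈ (Icc 1 N).filter (fun n => ∃ h ∈ H, ∃ p : ℕ, p.Prime ∧ b ≤ be p ∧ p ^ 2 ∣ n + h), (1:ℝ) / n +
      ∑ n ∈ (Icc 1 N).filter (fun n => t < (rest c H n).card), (1:ℝ) / n +
      ∑ n ∈ (Icc 1 N).filter (fun n => ∃ h ∈ H, K < sm b (n + h)), (1:ℝ) / n := by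
  have h0 : ∀ n ∈ Icc 1 N, (0:ℝ) ≤ 1 / n := fun n _ => by positivity
  simp only [Finset.sum_filter]
  rw [← Finset.sum_add_distrib, ← Finset.sum_add_distrib]
  refine Finset.sum_le_sum fun n hn => ?_
  have h1 := h0 n hn
  by_cases hg : Good b c t K H n
  · rw [if_neg (not_not.2 hg)]
    split_ifs <;> linarith
  · rw [if_pos hg]
    unfold Good at hg
    by_cases a1 : ∃ h ∈ H, ∃ p : ℕ, p.Prime ∧ b ≤ be p ∧ p ^ 2 ∣ n + h
    · rw [if_pos a1]
      split_ifs <;> linarith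
    · by_cases a2 : t < (rest c H n).card
      · rw [if_pos a2]
        split_ifs <;> linarith
      · have a3 : ∃ h ∈ H, K < sm b (n + h) := by
          by_contra a3
          push Not at a1 a2 a3
          exact hg ⟨a1, a2, a3⟩
        rw [if_pos a3]
        split_ifs <;> linarith

/-- a power of two with exponent `8 d` is below the first level -/
lemma pow_card {m i₀ d : ℕ} (hm : i₀ + 3 + d ≤ m) :
    (2 ^ 2 ^ (m - (i₀ + 3 + d))) ^ (8 * d) ≤ 2 ^ 2 ^ (m - i₀) := by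
  rw [← pow_mul]
  refine Nat.pow_le_pow_right (by norm_num) ?_
  have h1 : m - i₀ = (m - (i₀ + 3 + d)) + (3 + d) := by omega
  rw [h1, pow_add]
  refine Nat.mul_le_mul_left _ ?_
  rw [pow_add]
  exact Nat.mul_le_mul (by norm_num) Nat.lt_two_pow_self.le

lemma pow_clog {m i₀ R : ℕ} (hm : i₀ + 2 + Nat.clog 2 (R + 2) ≤ m) :
    2 ^ (2 ^ (m - (i₀ + 2 + Nat.clog 2 (R + 2)) + 2) * (R + 2)) ≤ 2 ^ 2 ^ (m - i₀) := by
  refine Nat.pow_le_pow_right (by norm_num) ?_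
  have h1 : m - i₀ = (m - (i₀ + 2 + Nat.clog 2 (R + 2)) + 2) + Nat.clog 2 (R + 2) := by omega
  rw [h1, pow_add _ _ (Nat.clog 2 (R + 2))]
  exact Nat.mul_le_mul_left _ (Nat.le_pow_clog (by norm_num) _)

end ScaleE

end Pool.Agent.Lib.P4a7640X
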