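import Mathlib

/-!
# The choice of the parameters

Module P4a7640X.Params (0.9 h).

With `i = i₀ + 2 + Nat.clog 2 (R + 2)` take `t = ⌈A (i + 1)⌉₊` and `J = ⌈(A (i + 1)) ^ 2⌉₊ + 1`. Everything is
polynomial in `i ≤ C + 2 log R`, so `log (((J ^ 2 + 1) ^ t) ^ 4) ≤ C' (log R)²` (or `≤ C' (1 + log R) ^ 3`), which
is at most `R - log A` for large `R`. The factorial condition: `C' ^ (R + 1) / (R + 1)! ≤ exp (2 C' ..)`: use
`Real.pow_div_factorial_le_exp (e ^ 2 * C')`: `C' ^ n / n ! ≤ exp (e² C') e^(-2 n)`, and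
`log (1 + x) ≥ x / 2` for `0 ≤ x ≤ 1` (`x = exp (-R) / 4`).
-/

open Filter Topology

namespace Pool.Agent.Lib.P4a7640X

namespace ParamsAux

/-- cubes of logarithms are small -/
lemma log_cube (K : ℝ) (hK : 0 ≤ K) : ∀ᶠ n : ℕ in atTop, K * Real.log ((n:ℝ) + 2) ^ 3 ≤ n := by
  have h1 := (Real.isLittleO_pow_log_id_atTop (n := 3))
  have h2 : ∀ᶠ x : ℝ in atTop, ‖Real.log x ^ 3‖ ≤ (1 / (2 * K + 1)) * ‖(id x : ℝ)‖ :=
    h1.def (by positivity)
  have h3 : Tendsto (fun n : ℕ => (n:ℝ) + 2) atTop atTop :=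
    tendsto_atTop_add_const_right _ _ tendsto_natCast_atTop_atTop
  filter_upwards [h3.eventually h2, eventually_ge_atTop 2] with n hn h2n
  have hn2 : (2:ℝ) ≤ n := by exact_mod_cast h2n
  have hx : (0:ℝ) ≤ (n:ℝ) + 2 := by positivity
  have hL : 0 ≤ Real.log ((n:ℝ) + 2) := Real.log_nonneg (by linarith)
  rw [Real.norm_of_nonneg (by positivity), id, Real.norm_of_nonneg hx] at hn
  have hK1 : 0 < 2 * K + 1 := by linarith
  calc K * Real.log ((n:ℝ) + 2) ^ 3 ≤ K * (1 / (2 * K + 1) * ((n:ℝ) + 2)) :=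
        mul_le_mul_of_nonneg_left hn hK
    _ = (K / (2 * K + 1)) * ((n:ℝ) + 2) := by ring
    _ ≤ (1 / 2) * ((n:ℝ) + 2) := by
        apply mul_le_mul_of_nonneg_right _ hx
        rw [div_le_div_iff₀ hK1 (by norm_num)]
        linarith
    _ ≤ n := by linarith

/-- the binary logarithm -/
lemma clog_le (n : ℕ) : (Nat.clog 2 (n + 2) : ℝ) ≤ 2 * Real.log ((n:ℝ) + 2) + 1 := by
  have h := Real.natCeil_logb_natCast 2 (n + 2)
  rw [← h]
  have hlog : 0 ≤ Real.log ((n:ℝ) + 2) := Real.log_nonneg (by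
    have : (0:ℝ) ≤ n := Nat.cast_nonneg n
    linarith)
  have h2 : 0 ≤ Real.logb ((2:ℕ):ℝ) ((n + 2 : ℕ) : ℝ) := by
    rw [Real.logb]
    push_cast
    apply div_nonneg hlog
    exact Real.log_nonneg (by norm_num)
  have h3 := (Nat.ceil_lt_add_one h2).le
  refine h3.trans ?_
  have h4 : Real.logb ((2:ℕ):ℝ) ((n + 2 : ℕ) : ℝ) ≤ 2 * Real.log ((n:ℝ) + 2) := by
    rw [Real.logb]
    push_cast
    rw [div_le_iff₀ (Real.log_pos (by norm_num))]
    have := Real.log_two_gt_d9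
    nlinarith
  linarith

lemma main {A : ℝ} (hA : 1 ≤ A) (i₀ : ℕ) : ∀ᶠ R : ℕ in atTop,
    8 * ((A * ((i₀ + 2 + Nat.clog 2 (R + 2) : ℕ) + 1 : ℝ)) ^ 2 + 3) *
      (A * ((i₀ + 2 + Nat.clog 2 (R + 2) : ℕ) + 1 : ℝ) + 1) + Real.log A ≤ R := by
  set D : ℝ := 2 * A + A * (i₀ + 4) + 3 + Real.log A with hD
  have hlA : 0 ≤ Real.log A := Real.log_nonneg hA
  have hi : (0:ℝ) ≤ i₀ := Nat.cast_nonneg _
  have hD0 : 0 ≤ D := by positivity
  filter_upwards [log_cube (9 * D ^ 3) (by positivity), eventually_ge_atTop 1] with R hR hR1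
  have hL : 1 ≤ Real.log ((R:ℝ) + 2) := by
    have h3 : (3:ℝ) ≤ (R:ℝ) + 2 := by
      have : (1:ℝ) ≤ R := by exact_mod_cast hR1
      linarith
    calc (1:ℝ) = Real.log (Real.exp 1) := (Real.log_exp 1).symm
      _ ≤ Real.log 3 := Real.log_le_log (Real.exp_pos 1) (by linarith [Real.exp_one_lt_d9])
      _ ≤ _ := Real.log_le_log (by norm_num) h3
  set L := Real.log ((R:ℝ) + 2) with hLd
  set y : ℝ := A * ((i₀ + 2 + Nat.clog 2 (R + 2) : ℕ) + 1 : ℝ) with hy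
  have hy0 : 0 ≤ y := by positivity
  have hyL : y + 3 + Real.log A ≤ D * L := by
    have h1 : y ≤ A * (2 * L + (i₀ + 4)) := by
      rw [hy]
      apply mul_le_mul_of_nonneg_left _ (by linarith)
      have := clog_le R
      push_cast
      linarith
    have h2 : A * (2 * L + (i₀ + 4)) ≤ (2 * A + A * (i₀ + 4)) * L := by
      have h5 : 0 ≤ A * (i₀ + 4) := by positivity
      nlinarith
    have h3 : 3 + Real.log A ≤ (3 + Real.log A) * L := by nlinarith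
    calc y + 3 + Real.log A ≤ (2 * A + A * (i₀ + 4)) * L + (3 + Real.log A) * L := by linarith
      _ = D * L := by rw [hD]; ring
  have h6 : 8 * (y ^ 2 + 3) * (y + 1) + Real.log A ≤ 9 * (y + 3 + Real.log A) ^ 3 := by
    have h7 : y + 3 ≤ y + 3 + Real.log A := by linarith
    have h8 : 8 * (y ^ 2 + 3) * (y + 1) ≤ 8 * (y + 3 + Real.log A) ^ 3 := by
      have h9 : (y ^ 2 + 3) * (y + 1) ≤ (y + 3) ^ 3 := by nlinarith
      have h10 : (y + 3) ^ 3 ≤ (y + 3 + Real.log A) ^ 3 := pow_le_pow_left₀ (by linarith) h7 3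
      nlinarith
    have h11 : Real.log A ≤ (y + 3 + Real.log A) ^ 3 := by
      have h12 : 1 ≤ y + 3 + Real.log A := by linarith
      calc Real.log A ≤ y + 3 + Real.log A := by linarith
        _ = (y + 3 + Real.log A) ^ 1 := (pow_one _).symm
        _ ≤ (y + 3 + Real.log A) ^ 3 := pow_le_pow_right₀ h12 (by norm_num)
    linarith
  calc 8 * (y ^ 2 + 3) * (y + 1) + Real.log A ≤ 9 * (y + 3 + Real.log A) ^ 3 := h6
    _ ≤ 9 * (D * L) ^ 3 := by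
        apply mul_le_mul_of_nonneg_left _ (by norm_num)
        exact pow_le_pow_left₀ (by linarith) hyL 3
    _ = 9 * D ^ 3 * L ^ 3 := by ring
    _ ≤ R := hR

lemma fact {C' : ℝ} (hC' : 0 ≤ C') : ∀ᶠ R : ℕ in atTop,
    C' ^ (R + 1) / ((R + 1).factorial : ℝ) < Real.log (1 + Real.exp (-(R:ℝ)) / 4) / 4 := by
  have h0 : Tendsto (fun n : ℕ => Real.exp (n:ℝ)) atTop atTop :=
    Real.tendsto_exp_atTop.comp tendsto_natCast_atTop_atTop
  filter_upwards [h0.eventually_gt_atTop (32 * Real.exp (Real.exp 2 * C'))] with R hR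
  have h1 : C' ^ (R + 1) / ((R + 1).factorial : ℝ) ≤
      Real.exp (Real.exp 2 * C') * Real.exp (-(2 * ((R:ℝ) + 1))) := by
    have h2 := Real.pow_div_factorial_le_exp (Real.exp 2 * C')
      (by positivity) (R + 1)
    have h3 : (Real.exp 2 * C') ^ (R + 1) = Real.exp (2 * ((R:ℝ) + 1)) * C' ^ (R + 1) := by
      rw [mul_pow, ← Real.exp_nat_mul]
      push_cast
      ring_nf
    rw [h3] at h2
    have h4 : C' ^ (R + 1) / ((R + 1).factorial : ℝ) =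
        (Real.exp (2 * ((R:ℝ) + 1)) * C' ^ (R + 1) / ((R + 1).factorial : ℝ)) *
          Real.exp (-(2 * ((R:ℝ) + 1))) := by
      rw [Real.exp_neg]
      field_simp
    rw [h4]
    exact mul_le_mul_of_nonneg_right h2 (Real.exp_pos _).le
  have hx0 : 0 < Real.exp (-(R:ℝ)) / 4 := by positivity
  have hx1 : Real.exp (-(R:ℝ)) / 4 ≤ 1 := by
    have : Real.exp (-(R:ℝ)) ≤ 1 := Real.exp_le_one_iff.mpr (by simp)
    linarith
  have h5 : Real.exp (-(R:ℝ)) / 8 ≤ Real.log (1 + Real.exp (-(R:ℝ)) / 4) := by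
    have h6 := Real.one_sub_inv_le_log_of_pos (show 0 < 1 + Real.exp (-(R:ℝ)) / 4 by positivity)
    refine le_trans ?_ h6
    set x := Real.exp (-(R:ℝ)) / 4 with hx
    have h7 : 1 - (1 + x)⁻¹ = x / (1 + x) := by field_simp; ring
    rw [h7, le_div_iff₀ (by linarith)]
    have h8 : Real.exp (-(R:ℝ)) / 8 = x / 2 := by rw [hx]; ring
    rw [h8]
    nlinarith
  refine lt_of_le_of_lt h1 (lt_of_lt_of_le ?_ (div_le_div_of_nonneg_right h5 (by norm_num)))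
  have h9 : Real.exp (-(2 * ((R:ℝ) + 1))) ≤ Real.exp (-(R:ℝ)) * Real.exp (-(R:ℝ)) := by
    rw [← Real.exp_add]
    exact Real.exp_le_exp.mpr (by linarith)
  have h10 : Real.exp (Real.exp 2 * C') * Real.exp (-(R:ℝ)) < 1 / 32 := by
    rw [Real.exp_neg]
    rw [← div_eq_mul_inv, div_lt_iff₀ (Real.exp_pos _)]
    linarith
  calc Real.exp (Real.exp 2 * C') * Real.exp (-(2 * ((R:ℝ) + 1)))
      ≤ Real.exp (Real.exp 2 * C') * (Real.exp (-(R:ℝ)) * Real.exp (-(R:ℝ))) :=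
        mul_le_mul_of_nonneg_left h9 (Real.exp_pos _).le
    _ = (Real.exp (Real.exp 2 * C') * Real.exp (-(R:ℝ))) * Real.exp (-(R:ℝ)) := by ring
    _ < 1 / 32 * Real.exp (-(R:ℝ)) := mul_lt_mul_of_pos_right h10 (Real.exp_pos _)
    _ = Real.exp (-(R:ℝ)) / 8 / 4 := by ring

end ParamsAux

theorem params {A C' : ℝ} (hA : 1 ≤ A) (hC' : 0 ≤ C') (i₀ : ℕ) : ∃ R t J : ℕ, 0 < J ∧
    2 * C' ≤ R + 1 ∧
    C' ^ (R + 1) / ((R + 1).factorial : ℝ) < Real.log (1 + Real.exp (-(R:ℝ)) / 4) / 4 ∧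
    A * ((i₀ + 2 + Nat.clog 2 (R + 2) : ℕ) + 1 : ℝ) ≤ t + 1 ∧
    A * ((i₀ + 2 + Nat.clog 2 (R + 2) : ℕ) + 1 : ℝ) ≤ Real.sqrt J ∧
    A * ((((J:ℝ) ^ 2 + 1) ^ t) ^ 4) * Real.exp (-(R:ℝ)) ≤ 1 := by
  have e1 : ∀ᶠ R : ℕ in atTop, 2 * C' ≤ (R:ℝ) :=
    tendsto_natCast_atTop_atTop.eventually_ge_atTop _
  obtain ⟨R, h1, h2, h3⟩ := (e1.and ((ParamsAux.fact hC').and (ParamsAux.main hA i₀))).exists
  set y : ℝ := A * ((i₀ + 2 + Nat.clog 2 (R + 2) : ℕ) + 1 : ℝ) with hy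
  have hy0 : 0 ≤ y := by positivity
  refine ⟨R, ⌈y⌉₊, ⌈y ^ 2⌉₊ + 1, Nat.succ_pos _, by linarith, h2, ?_, ?_, ?_⟩
  · have := Nat.le_ceil y
    linarith
  · apply Real.le_sqrt_of_sq_le
    change y ^ 2 ≤ ((⌈y ^ 2⌉₊ + 1 : ℕ) : ℝ)
    have := Nat.le_ceil (y ^ 2)
    rw [Nat.cast_add, Nat.cast_one]
    linarith
  · set J : ℝ := ((⌈y ^ 2⌉₊ + 1 : ℕ) : ℝ) with hJ
    have hJ0 : 0 ≤ J := Nat.cast_nonneg _
    have hJ1 : J ≤ y ^ 2 + 3 := by
      rw [hJ]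
      push_cast
      have := (Nat.ceil_lt_add_one (show 0 ≤ y ^ 2 by positivity)).le
      linarith
    have ht : ((⌈y⌉₊ : ℕ) : ℝ) ≤ y + 1 := (Nat.ceil_lt_add_one hy0).le
    have h4 : J ^ 2 + 1 ≤ Real.exp (2 * J) := by
      have h5 : J + 1 ≤ Real.exp J := Real.add_one_le_exp J
      calc J ^ 2 + 1 ≤ (J + 1) ^ 2 := by nlinarith
        _ ≤ Real.exp J ^ 2 := pow_le_pow_left₀ (by linarith) h5 2
        _ = Real.exp (2 * J) := by rw [← Real.exp_nat_mul]; norm_num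
    have h6 : ((J ^ 2 + 1) ^ ⌈y⌉₊) ^ 4 ≤ Real.exp (8 * (y ^ 2 + 3) * (y + 1)) := by
      rw [← pow_mul]
      calc (J ^ 2 + 1) ^ (⌈y⌉₊ * 4) ≤ Real.exp (2 * J) ^ (⌈y⌉₊ * 4) :=
            pow_le_pow_left₀ (by positivity) h4 _
        _ = Real.exp ((⌈y⌉₊ * 4 : ℕ) * (2 * J)) := (Real.exp_nat_mul _ _).symm
        _ ≤ Real.exp (8 * (y ^ 2 + 3) * (y + 1)) := by
            apply Real.exp_le_exp.mpr
            push_cast
            have h7 : ((⌈y⌉₊ : ℕ) : ℝ) * J ≤ (y + 1) * (y ^ 2 + 3) :=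
              mul_le_mul ht hJ1 hJ0 (by linarith)
            nlinarith
    have hA0 : 0 < A := by linarith
    calc A * ((J ^ 2 + 1) ^ ⌈y⌉₊) ^ 4 * Real.exp (-(R:ℝ))
        ≤ A * Real.exp (8 * (y ^ 2 + 3) * (y + 1)) * Real.exp (-(R:ℝ)) := by
          apply mul_le_mul_of_nonneg_right _ (Real.exp_pos _).le
          exact mul_le_mul_of_nonneg_left h6 hA0.le
      _ = Real.exp (8 * (y ^ 2 + 3) * (y + 1) + Real.log A - R) := by
          rw [Real.exp_sub, Real.exp_add, Real.exp_log hA0, Real.exp_neg]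
          ring
      _ ≤ 1 := by
          apply Real.exp_le_one_iff.mpr
          linarith

end Pool.Agent.Lib.P4a7640X
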