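import Mathlib
import Pool.Agent.Lib.P4a7640Y.Triple
import Pool.Agent.Lib.P4a7640K.Par
import Pool.Agent.Lib.P4a7640X.ScaleE
import Pool.Agent.Lib.P4a7640Y.SqId

/-!
# Small lemmas for the assembly at one scale, second part
-/

open Filter MeasureTheory Finset Topology

namespace Pool.Agent.Lib.P4a7640X

open Pool.Agent.Lib.P4a7640 Pool.Agent.Lib.P4a7640D

namespace ScaleG

lemma win_mem {b c p : ℕ} (hp : p ∈ win b c) : p.Prime ∧ b ≤ be p ∧ be p < c := by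
  unfold win at hp
  exact (Finset.mem_filter.1 hp).2

lemma win_sub {b c N p : ℕ} (hN : 2 ≤ N) (hc : c ≤ be N) (hp : p ∈ win b c) :
    p ∈ (Icc 1 (2 * N)).filter (fun p => p.Prime ∧ b ≤ be p) := by
  obtain ⟨q1, q2, q3⟩ := win_mem hp
  rw [Finset.mem_filter, Finset.mem_Icc]
  refine ⟨⟨q1.one_lt.le, ?_⟩, q1, q2⟩
  have h3 : p < 2 ^ 2 ^ (be p + 1) := P4a7640D.LevelAux.lt_be p
  have h4 : 2 ^ 2 ^ (be p + 1) ≤ 2 ^ 2 ^ be N :=
    Nat.pow_le_pow_right (by norm_num) (Nat.pow_le_pow_right (by norm_num) (by omega))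
  have h5 := ScaleE.pow_be_le hN
  exact (h3.le.trans h4).trans (h5.trans (by omega))

/-- the variance on the window -/
lemma var_win {K₀ κ C CV : ℝ} (hκ : 0 < κ) (hC : 0 < C) (hCV : 0 < CV)
    (hvar : ∀ a : ℕ → ℕ, P4a7640K.CntN K₀ κ a → ∀ y : ℝ, 1 ≤ y → ∀ D : Finset ℕ,
      (∀ p ∈ D, p.Prime ∧ y ≤ p ∧ a p ≠ 0) → ∀ (φ : ℕ → UnitAddCircle → ℝ) (L : ℝ),
      (∀ p, Measurable (φ p)) → (∀ p x, |φ p x| ≤ 1) → (∀ p, P4a7640Y.LL1 L (φ p)) →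
      ∫ τ, (P4a7640Y.YY φ a D τ - P4a7640Y.YM φ D) ^ 2 ∂P4a7640Y.P3 ≤
        CV * L * (1 + ∑ p ∈ D, (1:ℝ) / p) ^ 2 / y ^ (κ / 3))
    {j N : ℕ} (hN : 2 ≤ N) (hj : j ≤ be N) {c : ℕ} (hc : c ≤ be N) {CM : ℝ}
    (hM : ∑ p ∈ (Icc 1 (2 * N)).filter (fun p => p.Prime ∧ be N - j ≤ be p), (1:ℝ) / p ≤ CM)
    {φ : ℕ → UnitAddCircle → ℝ} {a : ℕ → ℕ} (hφ : ∀ p, Measurable (φ p)) (hs : ∀ p x, |φ p x| = 1)
    (hL : ∀ p, P4a7640Y.LL1 C (φ p)) (ha : ∀ p, a p ≠ 0) (hcnt : P4a7640K.CntN K₀ κ a) :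
    ∫ τ, (P4a7640Y.YY φ a (win (be N - j) c) τ - P4a7640Y.YM φ (win (be N - j) c)) ^ 2
      ∂P4a7640Y.P3 ≤ CV * C * (1 + CM) ^ 2 *
        Real.exp (-((κ / 3 * (1/2) ^ (j + 1)) * Real.log N)) := by
  have h0 := ScaleE.exp_le_pp hN hj
  have hpp : ∀ p : ℕ, p.Prime → be N - j ≤ be p → 2 ^ 2 ^ (be N - j) ≤ p := by
    intro p hp hb
    have h2 := ScaleE.pow_be_le hp.two_le
    exact (Nat.pow_le_pow_right (by norm_num) (Nat.pow_le_pow_right (by norm_num) hb)).trans h2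
  obtain ⟨y, hy⟩ : ∃ y : ℕ, y = 2 ^ 2 ^ (be N - j) := ⟨_, rfl⟩
  have y1 : 1 ≤ y := by rw [hy]; exact Nat.one_le_two_pow
  rw [← hy] at h0 hpp
  obtain ⟨b, hb⟩ : ∃ b : ℕ, b = be N - j := ⟨_, rfl⟩
  rw [← hb] at hpp hM ⊢
  have h1 := hvar a hcnt (y:ℝ) (by exact_mod_cast y1) (win b c) (fun p hp => by
      obtain ⟨q1, q2, q3⟩ := win_mem hp
      exact ⟨q1, by exact_mod_cast hpp p q1 q2, ha p⟩) φ C hφ (fun p x => (hs p x).le) hL
  have h2 : ∑ p ∈ win b c, (1:ℝ) / p ≤ CM :=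
    le_trans (Finset.sum_le_sum_of_subset_of_nonneg (fun p hp => win_sub hN hc hp)
      fun _ _ _ => by positivity) hM
  have h3 : (0:ℝ) ≤ ∑ p ∈ win b c, (1:ℝ) / p := Finset.sum_nonneg fun _ _ => by positivity
  have h4 : Real.exp ((κ / 3 * (1/2) ^ (j + 1)) * Real.log N) ≤ (y:ℝ) ^ (κ / 3) := by
    calc Real.exp ((κ / 3 * (1/2) ^ (j + 1)) * Real.log N) =
          Real.exp ((1/2) ^ (j + 1) * Real.log N) ^ (κ / 3) := by
          rw [← Real.exp_mul]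
          congr 1
          ring
      _ ≤ _ := Real.rpow_le_rpow (Real.exp_pos _).le h0 (by positivity)
  have h5 : (0:ℝ) < (y:ℝ) ^ (κ / 3) := (Real.exp_pos _).trans_le h4
  refine h1.trans ?_
  rw [Real.exp_neg, ← div_eq_mul_inv]
  have h6 : (1 + ∑ p ∈ win b c, (1:ℝ) / p) ^ 2 ≤ (1 + CM) ^ 2 := by
    apply pow_le_pow_left₀ (by linarith)
    linarith
  calc CV * C * (1 + ∑ p ∈ win b c, (1:ℝ) / p) ^ 2 / (y:ℝ) ^ (κ / 3)
      ≤ CV * C * (1 + CM) ^ 2 / (y:ℝ) ^ (κ / 3) := by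
        apply div_le_div_of_nonneg_right _ h5.le
        exact mul_le_mul_of_nonneg_left h6 (by positivity)
    _ ≤ CV * C * (1 + CM) ^ 2 / Real.exp ((κ / 3 * (1/2) ^ (j + 1)) * Real.log N) :=
        div_le_div_of_nonneg_left (by positivity) (Real.exp_pos _) h4

lemma measure_fin {B₁ c'₁ W B' c₂ : ℝ} (hB₁ : 0 < B₁) (hc'₁ : 0 < c'₁) (hW : 0 < W) (hB' : 0 < B')
    (hc₂ : 0 < c₂) : ∀ᶠ N : ℕ in atTop, B₁ * Real.exp (-(c'₁ * Real.log N)) +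
      W * (B' * Real.exp (-(c₂ * Real.log N))) ≤ Real.exp (-(min c'₁ c₂ / 2 * Real.log N)) := by
  have hmin : 0 < min c'₁ c₂ := lt_min hc'₁ hc₂
  obtain ⟨c', hc'⟩ : ∃ c' : ℝ, c' = min c'₁ c₂ / 2 := ⟨_, rfl⟩
  rw [← hc']
  have hc'0 : 0 < c' := by rw [hc']; positivity
  filter_upwards [ScaleE.tendsto_log.eventually_ge_atTop (Real.log (B₁ + W * B') / c'),
    ScaleE.tendsto_log.eventually_ge_atTop 0] with N h1 h2
  have hBB : 0 < B₁ + W * B' := by positivity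
  have h3 : B₁ + W * B' ≤ Real.exp (c' * Real.log N) := by
    rw [← Real.log_le_iff_le_exp hBB]
    rw [div_le_iff₀ hc'0] at h1
    linarith
  have h4 : Real.exp (-(c'₁ * Real.log N)) ≤ Real.exp (-(2 * c' * Real.log N)) := by
    apply Real.exp_le_exp.2
    have h5 : 2 * c' ≤ c'₁ := by rw [hc']; linarith [min_le_left c'₁ c₂]
    have := mul_le_mul_of_nonneg_right h5 h2
    linarith
  have h5 : Real.exp (-(c₂ * Real.log N)) ≤ Real.exp (-(2 * c' * Real.log N)) := by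
    apply Real.exp_le_exp.2
    have h5 : 2 * c' ≤ c₂ := by rw [hc']; linarith [min_le_right c'₁ c₂]
    have := mul_le_mul_of_nonneg_right h5 h2
    linarith
  calc B₁ * Real.exp (-(c'₁ * Real.log N)) + W * (B' * Real.exp (-(c₂ * Real.log N)))
      ≤ B₁ * Real.exp (-(2 * c' * Real.log N)) + W * (B' * Real.exp (-(2 * c' * Real.log N))) := by
        gcongr
    _ = (B₁ + W * B') * Real.exp (-(2 * c' * Real.log N)) := by ring
    _ ≤ Real.exp (c' * Real.log N) * Real.exp (-(2 * c' * Real.log N)) :=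
        mul_le_mul_of_nonneg_right h3 (Real.exp_pos _).le
    _ = Real.exp (-(c' * Real.log N)) := by
        rw [← Real.exp_add]
        ring_nf

lemma num_cond {A C₂ CS η W E : ℝ} (hη : 0 < η) (hW : 0 < W) (hE : 0 < E)
    (hA : 2 * Real.exp 4 * (16 * C₂ * CS / η) ^ 4 ≤ A) (h : A * W ^ 4 * E ≤ 1) :
    (2 * (C₂ * CS) / (η / (8 * W))) ^ 4 * (2 * E) ≤ Real.exp (-4) := by
  have e1 : 2 * (C₂ * CS) / (η / (8 * W)) = 16 * C₂ * CS / η * W := by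
    field_simp
    ring
  have e3 : 2 * Real.exp 4 * (16 * C₂ * CS / η) ^ 4 * (W ^ 4 * E) ≤ 1 := by
    calc 2 * Real.exp 4 * (16 * C₂ * CS / η) ^ 4 * (W ^ 4 * E)
        ≤ A * (W ^ 4 * E) := mul_le_mul_of_nonneg_right hA (by positivity)
      _ = A * W ^ 4 * E := by ring
      _ ≤ 1 := h
  have e4 : Real.exp 4 * Real.exp (-4) = 1 := by
    rw [← Real.exp_add]
    norm_num
  calc (2 * (C₂ * CS) / (η / (8 * W))) ^ 4 * (2 * E)
      = (2 * Real.exp 4 * (16 * C₂ * CS / η) ^ 4 * (W ^ 4 * E)) * Real.exp (-4) := by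
        rw [e1]
        calc (16 * C₂ * CS / η * W) ^ 4 * (2 * E)
            = 2 * (16 * C₂ * CS / η) ^ 4 * (W ^ 4 * E) * 1 := by ring
          _ = _ := by rw [← e4]; ring
    _ ≤ 1 * Real.exp (-4) := mul_le_mul_of_nonneg_right e3 (Real.exp_pos _).le
    _ = Real.exp (-4) := one_mul _

open Classical in
lemma bad_all {b c t K N : ℕ} {H : Finset ℕ} {l s₁ s₂ s₃ : ℝ} (hl : 0 < l)
    (h1 : (∑ n ∈ (Icc 1 N).filter (fun n => ∃ h ∈ H, ∃ p : ℕ, p.Prime ∧ b ≤ be p ∧ p ^ 2 ∣ n + h),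
      (1:ℝ) / n) / l ≤ s₁)
    (h2 : (∑ n ∈ (Icc 1 N).filter (fun n => t < (rest c H n).card), (1:ℝ) / n) / l ≤ s₂)
    (h3 : (∑ n ∈ (Icc 1 N).filter (fun n => ∃ h ∈ H, K < sm b (n + h)), (1:ℝ) / n) / l ≤ s₃) :
    (∑ n ∈ (Icc 1 N).filter (fun n => ¬ Good b c t K H n), (1:ℝ) / n) / l ≤ s₁ + s₂ + s₃ := by
  refine (div_le_div_of_nonneg_right ScaleE.bad_split hl.le).trans ?_
  rw [add_div, add_div]
  exact add_le_add (add_le_add h1 h2) h3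

end ScaleG

end Pool.Agent.Lib.P4a7640X
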