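import Mathlib
import Pool.Agent.Lib.P4a7640X.Par
import Pool.Agent.Lib.P4a7640N.Slow
import Pool.Agent.Lib.P4a7640Y.KapK
import Pool.Agent.Lib.P4a7640K.Rot

/-!
# The mass of the window, and changes of signs at few large primes

Module P4a7640X.WinM (1.0 h).

`win_mass`: `∑_{p ∈ win b c} 1 / p ≥ log 2 * (c - b) - C / ..` by Mertens (`mertens_nat` in
P4a7640L/MertensB.lean with `n = 2 ^ 2 ^ b`, `m = 2 ^ 2 ^ c`): for fixed `i`, given `V`, for all large `j`
(so that `(j - i) log 2 ≥ V + 2`), eventually in `N` the mass is at least `V`.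
`FF_change`: `y` and `y'` agree at the primes with `be p < b`; as `compare` in P4a7640N/Compare.lean
(`LA_compare` with a weight): the difference is at most
`∑ h ∈ H, ∑ p ∈ E, 2 UU N h p / log N`, `E` the primes `p ≤ N + H.sup id`, `b ≤ be p`, with `y p ≠ y' p`;
`UU_le` for `2 h ≤ p`; the primes in `(N, N + H.sup id]` contribute at most `H.sup id / N`.
-/

open Filter MeasureTheory Finset Topology

namespace Pool.Agent.Lib.P4a7640X

open Pool.Agent.Lib.P4a7640 Pool.Agent.Lib.P4a7640D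

private lemma winm_be_lt_iff {p c : ℕ} (hp : 2 ≤ p) : be p < c ↔ p < 2 ^ 2 ^ c := by
  have h1 : Nat.log 2 p ≠ 0 := by
    have := Nat.log_pos (b := 2) (by norm_num) hp
    omega
  unfold be
  rw [Nat.log_lt_iff_lt_pow (by norm_num) h1, Nat.log_lt_iff_lt_pow (by norm_num) (by omega)]

private lemma winm_le_be_iff {p c : ℕ} (hp : 2 ≤ p) : c ≤ be p ↔ 2 ^ 2 ^ c ≤ p := by
  have := winm_be_lt_iff (c := c) hp
  omega

private lemma winm_tendsto_be : Tendsto (fun N : ℕ => be N) atTop atTop := by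
  rw [tendsto_atTop]
  intro b
  filter_upwards [eventually_ge_atTop (2 ^ 2 ^ b), eventually_ge_atTop 2] with N h1 h2
  exact (winm_le_be_iff h2).mpr h1

private lemma winm_log_tower (b : ℕ) : Real.log ((2 ^ 2 ^ b : ℕ) : ℝ) = 2 ^ b * Real.log 2 := by
  push_cast
  rw [Real.log_pow]
  push_cast
  rfl

private lemma winm_ll_tower (b : ℕ) :
    P4a7640L.ll ((2 ^ 2 ^ b : ℕ) : ℝ) = b * Real.log 2 + Real.log (Real.log 2) := by
  unfold P4a7640L.ll
  have h2 : 0 < Real.log 2 := Real.log_pos (by norm_num)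
  rw [winm_log_tower, Real.log_mul (by positivity) h2.ne', Real.log_pow]

private lemma winm_two_le_tower (b : ℕ) : 2 ≤ 2 ^ 2 ^ b := by
  calc 2 = 2 ^ 1 := rfl
    _ ≤ 2 ^ 2 ^ b := Nat.pow_le_pow_right (by norm_num) Nat.one_le_two_pow

private lemma winm_log_two_le (b : ℕ) : Real.log 2 ≤ Real.log ((2 ^ 2 ^ b : ℕ) : ℝ) := by
  apply Real.log_le_log (by norm_num)
  exact_mod_cast winm_two_le_tower b

private lemma winm_T_sub {n m : ℕ} (hnm : n ≤ m) :
    P4a7640L.MertensBAux.T m - P4a7640L.MertensBAux.T n =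
      ∑ p ∈ (Ioc n m).filter (fun p => p.Prime), (1:ℝ) / p := by
  unfold P4a7640L.MertensBAux.T
  have h1 : Nat.primesLE m = Nat.primesLE n ∪ (Ioc n m).filter (fun p => p.Prime) := by
    ext p
    rw [mem_union, mem_filter, mem_Ioc, Nat.mem_primesLE, Nat.mem_primesLE]
    constructor
    · rintro ⟨h1, h2⟩
      by_cases h3 : p ≤ n
      · exact Or.inl ⟨h3, h2⟩
      · exact Or.inr ⟨⟨by omega, h1⟩, h2⟩
    · rintro (⟨h1, h2⟩ | ⟨⟨h1, h2⟩, h3⟩)
      · exact ⟨by omega, h2⟩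
      · exact ⟨h2, h3⟩
  have h2 : Disjoint (Nat.primesLE n) ((Ioc n m).filter (fun p => p.Prime)) := by
    rw [disjoint_left]
    intro p hp hp'
    rw [Nat.mem_primesLE] at hp
    rw [mem_filter, mem_Ioc] at hp'
    omega
  rw [h1, sum_union h2]
  ring

private lemma winm_not_prime_tower {c : ℕ} (hc : 1 ≤ c) : ¬ (2 ^ 2 ^ c).Prime := by
  apply Nat.Prime.not_prime_pow
  calc 2 = 2 ^ 1 := rfl
    _ ≤ 2 ^ c := Nat.pow_le_pow_right (by norm_num) hc

theorem win_mass (i : ℕ) (V : ℝ) : ∃ j₁ : ℕ, ∀ j ≥ j₁, ∀ᶠ N : ℕ in atTop,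
    V ≤ ∑ p ∈ win (be N - j) (be N - i), (1:ℝ) / p := by
  obtain ⟨C, hC0, hC⟩ := P4a7640L.MertensBAux.mertens_nat
  have h2 : 0 < Real.log 2 := Real.log_pos (by norm_num)
  obtain ⟨J, hJ⟩ := exists_nat_ge ((V + C / Real.log 2) / Real.log 2)
  have hJ' : V + C / Real.log 2 ≤ J * Real.log 2 := (div_le_iff₀ h2).mp hJ
  refine ⟨i + J, fun j hj => ?_⟩
  filter_upwards [winm_tendsto_be.eventually_ge_atTop (j + 1)] with N hN
  set b := be N - j with hb
  set c := be N - i with hc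
  have hbc : b ≤ c := by omega
  have hc1 : 1 ≤ c := by omega
  have hcb : (c:ℝ) - b = j - i := by
    have h3 : (b:ℝ) = be N - j := by rw [hb, Nat.cast_sub (by omega)]
    have h4 : (c:ℝ) = be N - i := by rw [hc, Nat.cast_sub (by omega)]
    rw [h3, h4]
    ring
  have hnm : 2 ^ 2 ^ b ≤ 2 ^ 2 ^ c :=
    Nat.pow_le_pow_right (by norm_num) (Nat.pow_le_pow_right (by norm_num) hbc)
  have h3 := hC (2 ^ 2 ^ b) (2 ^ 2 ^ c) (winm_two_le_tower b) hnm
  have h4 : C / Real.log ((2 ^ 2 ^ b : ℕ) : ℝ) ≤ C / Real.log 2 :=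
    div_le_div_of_nonneg_left hC0.le h2 (winm_log_two_le b)
  have h5 : P4a7640L.MertensBAux.T (2 ^ 2 ^ c) - P4a7640L.MertensBAux.T (2 ^ 2 ^ b) ≤
      ∑ p ∈ win b c, (1:ℝ) / p := by
    rw [winm_T_sub hnm]
    apply sum_le_sum_of_subset_of_nonneg
    · intro p hp
      rw [mem_filter, mem_Ioc] at hp
      unfold win
      rw [mem_filter, mem_Icc]
      obtain ⟨⟨h6, h7⟩, h8⟩ := hp
      refine ⟨⟨h8.one_lt.le, h7⟩, h8, (winm_le_be_iff h8.two_le).mpr h6.le,
        (winm_be_lt_iff h8.two_le).mpr ?_⟩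
      refine lt_of_le_of_ne h7 fun he => ?_
      rw [he] at h8
      exact winm_not_prime_tower hc1 h8
    · intro p _ _
      positivity
  rw [winm_ll_tower, winm_ll_tower, abs_le] at h3
  have h6 : (j:ℝ) - i ≥ J := by
    have : ((i + J : ℕ) : ℝ) ≤ j := by exact_mod_cast hj
    push_cast at this
    linarith
  have h7 : (J:ℝ) * Real.log 2 ≤ ((c:ℝ) - b) * Real.log 2 := by
    rw [hcb]
    exact mul_le_mul_of_nonneg_right h6 h2.le
  linarith [h3.1]

/-- the mass of the primes of the blocks from `be N - j` on, up to `N`, is bounded -/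
theorem top_mass_le (j : ℕ) : ∃ C : ℝ, 0 < C ∧ ∀ᶠ N : ℕ in atTop,
    ∑ p ∈ (Icc 1 (2 * N)).filter (fun p => p.Prime ∧ be N - j ≤ be p), (1:ℝ) / p ≤ C := by
  obtain ⟨C, hC0, hC⟩ := P4a7640L.MertensBAux.mertens_nat
  have h2 : 0 < Real.log 2 := Real.log_pos (by norm_num)
  refine ⟨1 + (j + 2) * Real.log 2 + C / Real.log 2, by positivity, ?_⟩
  filter_upwards [winm_tendsto_be.eventually_ge_atTop (j + 1), eventually_ge_atTop 2] with N hN hN2
  set b := be N - j with hb
  have hbN : 2 ^ 2 ^ b ≤ N := (winm_le_be_iff hN2).mp (by omega)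
  have hNlt : N < 2 ^ 2 ^ (be N + 1) := (winm_be_lt_iff hN2).mp (Nat.lt_succ_self _)
  have hnm : 2 ^ 2 ^ b ≤ 2 * N := by omega
  have h3 := hC (2 ^ 2 ^ b) (2 * N) (winm_two_le_tower b) hnm
  have h4 : C / Real.log ((2 ^ 2 ^ b : ℕ) : ℝ) ≤ C / Real.log 2 :=
    div_le_div_of_nonneg_left hC0.le h2 (winm_log_two_le b)
  rw [winm_T_sub hnm, winm_ll_tower, abs_le] at h3
  have h5 : P4a7640L.ll ((2 * N : ℕ) : ℝ) ≤ ((be N + 2 : ℕ) : ℝ) * Real.log 2 + Real.log (Real.log 2) := by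
    rw [← winm_ll_tower]
    unfold P4a7640L.ll
    apply Real.log_le_log
    · apply Real.log_pos
      exact_mod_cast (by omega : 1 < 2 * N)
    · apply Real.log_le_log
      · exact_mod_cast (by omega : 0 < 2 * N)
      · have h6 : 2 ^ 2 ^ (be N + 1) * 2 ^ 2 ^ (be N + 1) = 2 ^ 2 ^ (be N + 2) := by
          rw [← pow_add]
          congr 1
          rw [pow_succ 2 (be N + 1)]
          ring
        have h7 : 2 ≤ 2 ^ 2 ^ (be N + 1) := winm_two_le_tower _
        have h8 : 2 * N ≤ 2 ^ 2 ^ (be N + 2) := by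
          rw [← h6]
          exact Nat.mul_le_mul h7 hNlt.le
        exact_mod_cast h8
  have hsub : (Icc 1 (2 * N)).filter (fun p => p.Prime ∧ b ≤ be p) ⊆
      {2 ^ 2 ^ b} ∪ (Ioc (2 ^ 2 ^ b) (2 * N)).filter (fun p => p.Prime) := by
    intro p hp
    rw [mem_filter, mem_Icc] at hp
    obtain ⟨⟨_, h7⟩, h8, h9⟩ := hp
    have h10 := (winm_le_be_iff h8.two_le).mp h9
    rw [mem_union, mem_singleton, mem_filter, mem_Ioc]
    rcases Nat.lt_or_ge (2 ^ 2 ^ b) p with h11 | h11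
    · exact Or.inr ⟨⟨h11, h7⟩, h8⟩
    · exact Or.inl (le_antisymm h11 h10)
  have h6 : ∑ p ∈ (Icc 1 (2 * N)).filter (fun p => p.Prime ∧ b ≤ be p), (1:ℝ) / p ≤
      1 + ∑ p ∈ (Ioc (2 ^ 2 ^ b) (2 * N)).filter (fun p => p.Prime), (1:ℝ) / p := by
    refine (sum_le_sum_of_subset_of_nonneg hsub fun _ _ _ => by positivity).trans ?_
    rw [← add_zero (∑ p ∈ {2 ^ 2 ^ b} ∪ (Ioc (2 ^ 2 ^ b) (2 * N)).filter (fun p => p.Prime),
      (1:ℝ) / p)]
    have h7 : (0:ℝ) ≤ ∑ p ∈ {2 ^ 2 ^ b} ∩ (Ioc (2 ^ 2 ^ b) (2 * N)).filter (fun p => p.Prime),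
      (1:ℝ) / p := sum_nonneg fun _ _ => by positivity
    refine (add_le_add le_rfl h7).trans ?_
    rw [sum_union_inter, sum_singleton]
    apply add_le_add _ le_rfl
    rw [div_le_one (by positivity)]
    exact_mod_cast Nat.one_le_two_pow
  have h7 : (b:ℝ) = be N - j := by rw [hb, Nat.cast_sub (by omega)]
  have h8 := h3.2
  rw [h7] at h8
  have h9 : ((be N + 2 : ℕ) : ℝ) = be N + 2 := by push_cast; ring
  rw [h9] at h5
  linarith [h5, h6, h8, h4]

private lemma winm_FF_compare {w : ℕ → ℝ} (hw : ∀ n, |w n| ≤ 1) {f g : SS} {H E : Finset ℕ} {N : ℕ}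
    (hN : 2 ≤ N)
    (h : ∀ n ∈ Finset.Icc 1 N, ∀ j ∈ H, rnd f (n + j) ≠ rnd g (n + j) → ∃ p ∈ E, p ∣ n + j) :
    |FF w H N f - FF w H N g| ≤ (∑ j ∈ H, ∑ p ∈ E, 2 * UU N j p) / Real.log N := by
  have hl : 0 < Real.log N := Real.log_pos (by exact_mod_cast hN)
  have hpt : ∀ n ∈ Finset.Icc 1 N, |prodSeq (rnd f) H n - prodSeq (rnd g) H n| ≤
      ∑ j ∈ H, ∑ p ∈ E, (if p ∣ n + j then (2:ℝ) else 0) := by
    intro n hn
    have hnn : ∀ j ∈ H, 0 ≤ ∑ p ∈ E, (if p ∣ n + j then (2:ℝ) else 0) := fun j _ =>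
      Finset.sum_nonneg fun p _ => by split_ifs <;> norm_num
    by_cases hall : ∀ j ∈ H, rnd f (n + j) = rnd g (n + j)
    · have h1 : prodSeq (rnd f) H n = prodSeq (rnd g) H n := by
        unfold prodSeq
        exact Finset.prod_congr rfl fun j hj => by rw [hall j hj]
      rw [h1, sub_self, abs_zero]
      exact Finset.sum_nonneg hnn
    · push Not at hall
      obtain ⟨j, hj, hne⟩ := hall
      obtain ⟨p, hp, hpd⟩ := h n hn j hj hne
      have h2 : (2:ℝ) ≤ ∑ p ∈ E, (if p ∣ n + j then (2:ℝ) else 0) := by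
        have := Finset.single_le_sum (f := fun p => if p ∣ n + j then (2:ℝ) else 0)
          (fun q _ => by split_ifs <;> norm_num) hp
        simpa [hpd] using this
      calc |prodSeq (rnd f) H n - prodSeq (rnd g) H n| ≤
            |prodSeq (rnd f) H n| + |prodSeq (rnd g) H n| := abs_sub _ _
        _ = 2 := by rw [abs_prodSeq, abs_prodSeq]; norm_num
        _ ≤ ∑ p ∈ E, (if p ∣ n + j then (2:ℝ) else 0) := h2
        _ ≤ _ := Finset.single_le_sum (f := fun j => ∑ p ∈ E, (if p ∣ n + j then (2:ℝ) else 0))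
            hnn hj
  have e1 : FF w H N f - FF w H N g =
      (∑ n ∈ Finset.Icc 1 N, w n / n * (prodSeq (rnd f) H n - prodSeq (rnd g) H n)) / Real.log N := by
    unfold FF
    rw [← sub_div, ← Finset.sum_sub_distrib]
    congr 1
    exact Finset.sum_congr rfl fun n _ => by unfold prodSeq; ring
  rw [e1, abs_div, abs_of_pos hl]
  apply div_le_div_of_nonneg_right _ hl.le
  calc |∑ n ∈ Finset.Icc 1 N, w n / n * (prodSeq (rnd f) H n - prodSeq (rnd g) H n)|
      ≤ ∑ n ∈ Finset.Icc 1 N, |w n / n * (prodSeq (rnd f) H n - prodSeq (rnd g) H n)| :=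
        Finset.abs_sum_le_sum_abs _ _
    _ ≤ ∑ n ∈ Finset.Icc 1 N, (∑ j ∈ H, ∑ p ∈ E, (if p ∣ n + j then (2:ℝ) else 0)) / n := by
        refine Finset.sum_le_sum fun n hn => ?_
        rw [abs_mul, abs_div, abs_of_nonneg (Nat.cast_nonneg (α := ℝ) n), div_mul_eq_mul_div]
        apply div_le_div_of_nonneg_right _ (Nat.cast_nonneg n)
        calc |w n| * |prodSeq (rnd f) H n - prodSeq (rnd g) H n|
            ≤ 1 * |prodSeq (rnd f) H n - prodSeq (rnd g) H n| :=
              mul_le_mul_of_nonneg_right (hw n) (abs_nonneg _)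
          _ = |prodSeq (rnd f) H n - prodSeq (rnd g) H n| := one_mul _
          _ ≤ _ := hpt n hn
    _ = ∑ j ∈ H, ∑ p ∈ E, ∑ n ∈ Finset.Icc 1 N, (if p ∣ n + j then (2:ℝ) else 0) / n := by
        simp_rw [Finset.sum_div]
        rw [Finset.sum_comm]
        refine Finset.sum_congr rfl fun j _ => ?_
        rw [Finset.sum_comm]
    _ = ∑ j ∈ H, ∑ p ∈ E, 2 * UU N j p := by
        refine Finset.sum_congr rfl fun j _ => Finset.sum_congr rfl fun p _ => ?_
        unfold UU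
        rw [Finset.sum_filter, Finset.mul_sum]
        refine Finset.sum_congr rfl fun n _ => ?_
        by_cases hpd : p ∣ n + j
        · rw [if_pos hpd, if_pos hpd]
          ring
        · rw [if_neg hpd, if_neg hpd]
          ring

theorem FF_change (H : Finset ℕ) (j : ℕ) : ∀ᶠ N : ℕ in atTop, ∀ w : ℕ → ℝ, (∀ n, |w n| ≤ 1) →
    ∀ y y' : SS, (∀ p : ℕ, p.Prime → be p < be N - j → y p = y' p) →
    |FF w H N y - FF w H N y'| ≤ 4 * H.card *
      (∑ p ∈ (Icc 1 N).filter (fun p => p.Prime ∧ be N - j ≤ be p ∧ y p ≠ y' p), (1:ℝ) / p +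
        (H.sup id : ℕ) / N) := by
  set hm := H.sup id with hhm
  have htop : Tendsto (fun N : ℕ => 2 ^ 2 ^ (be N - j)) atTop atTop := by
    have h1 : Tendsto (fun N : ℕ => be N - j) atTop atTop :=
      (tendsto_sub_atTop_nat j).comp winm_tendsto_be
    have h2 : Tendsto (fun n : ℕ => 2 ^ n) atTop atTop :=
      tendsto_atTop_mono (fun n => (Nat.lt_two_pow_self).le) tendsto_id
    exact h2.comp (h2.comp h1)
  filter_upwards [htop.eventually_ge_atTop (2 * hm), eventually_ge_atTop 2,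
    tendsto_logN.eventually_ge_atTop (CH hm)] with N hT hN hCH
  intro w hw y y' hyy
  have hl : 0 < Real.log N := Real.log_pos (by exact_mod_cast hN)
  have hN0 : (0:ℝ) < N := by exact_mod_cast (by omega : 0 < N)
  have hH : ∀ h ∈ H, h ≤ hm := fun h hh => Finset.le_sup (f := id) hh
  set b := be N - j with hb
  set E := (Finset.Icc 1 (N + hm)).filter (fun p => p.Prime ∧ b ≤ be p ∧ y p ≠ y' p) with hE
  have hcmp := winm_FF_compare hw (f := y) (g := y') (H := H) (E := E) (N := N) hN (by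
      intro n hn h hh hne
      rw [Finset.mem_Icc] at hn
      by_contra hcon
      push Not at hcon
      apply hne
      unfold rnd Finsupp.prod
      refine Finset.prod_congr rfl fun p hp => ?_
      rw [Nat.support_factorization, Nat.mem_primeFactors] at hp
      suffices hs : y p = y' p by
        show y p ^ _ = y' p ^ _
        rw [hs]
      by_contra hcon2
      rcases Nat.lt_or_ge (be p) b with h1 | h1
      · exact hcon2 (hyy p hp.1 h1)
      · have hple : p ≤ N + hm := by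
          have h2 := Nat.le_of_dvd (by omega) hp.2.1
          have h3 := hH h hh
          omega
        exact hcon p (by
          rw [hE, Finset.mem_filter, Finset.mem_Icc]
          exact ⟨⟨hp.1.one_lt.le, hple⟩, hp.1, h1, hcon2⟩) hp.2.1)
  refine hcmp.trans ?_
  have hEmass : ∑ p ∈ E, (1:ℝ) / p ≤
      ∑ p ∈ (Icc 1 N).filter (fun p => p.Prime ∧ b ≤ be p ∧ y p ≠ y' p), (1:ℝ) / p + hm / N := by
    have hsub : E ⊆ (Icc 1 N).filter (fun p => p.Prime ∧ b ≤ be p ∧ y p ≠ y' p) ∪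
        Finset.Ioc N (N + hm) := by
      intro p hp
      rw [hE, Finset.mem_filter, Finset.mem_Icc] at hp
      rw [Finset.mem_union, Finset.mem_filter, Finset.mem_Icc, Finset.mem_Ioc]
      rcases Nat.lt_or_ge N p with h1 | h1
      · exact Or.inr ⟨h1, hp.1.2⟩
      · exact Or.inl ⟨⟨hp.1.1, h1⟩, hp.2⟩
    calc ∑ p ∈ E, (1:ℝ) / p ≤ ∑ p ∈ (Icc 1 N).filter
          (fun p => p.Prime ∧ b ≤ be p ∧ y p ≠ y' p) ∪ Finset.Ioc N (N + hm), (1:ℝ) / p :=
          Finset.sum_le_sum_of_subset_of_nonneg hsub fun _ _ _ => by positivity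
      _ ≤ ∑ p ∈ (Icc 1 N).filter (fun p => p.Prime ∧ b ≤ be p ∧ y p ≠ y' p), (1:ℝ) / p +
          ∑ p ∈ Finset.Ioc N (N + hm), (1:ℝ) / p := by
          rw [← Finset.sum_union_inter]
          have : 0 ≤ ∑ p ∈ (Icc 1 N).filter (fun p => p.Prime ∧ b ≤ be p ∧ y p ≠ y' p) ∩
            Finset.Ioc N (N + hm), (1:ℝ) / p := Finset.sum_nonneg fun _ _ => by positivity
          linarith
      _ ≤ _ := by
          apply add_le_add le_rfl
          calc ∑ p ∈ Finset.Ioc N (N + hm), (1:ℝ) / p ≤ ∑ p ∈ Finset.Ioc N (N + hm), (1:ℝ) / N := by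
                refine Finset.sum_le_sum fun p hp => ?_
                rw [Finset.mem_Ioc] at hp
                apply one_div_le_one_div_of_le hN0
                exact_mod_cast hp.1.le
            _ = hm / N := by
                rw [Finset.sum_const, Nat.card_Ioc, nsmul_eq_mul]
                simp only [Nat.add_sub_cancel_left]
                ring
  calc (∑ h ∈ H, ∑ p ∈ E, 2 * UU N h p) / Real.log N
      ≤ (∑ h ∈ H, ∑ p ∈ E, 2 * (1 / p * (2 * Real.log N))) / Real.log N := by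
        apply div_le_div_of_nonneg_right _ hl.le
        refine Finset.sum_le_sum fun h hh => Finset.sum_le_sum fun p hp => ?_
        rw [hE, Finset.mem_filter, Finset.mem_Icc] at hp
        apply mul_le_mul_of_nonneg_left _ (by norm_num)
        have hjm := hH h hh
        have hpb := (winm_le_be_iff hp.2.1.two_le).mp hp.2.2.1
        refine (UU_le (by omega) hp.2.1.one_lt.le (by omega)).trans ?_
        apply mul_le_mul_of_nonneg_left _ (by positivity)
        have := CH_mono hjm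
        linarith
    _ = 4 * H.card * ∑ p ∈ E, (1:ℝ) / p := by
        rw [Finset.sum_const, nsmul_eq_mul, ← Finset.mul_sum, ← Finset.sum_mul]
        field_simp
        ring
    _ ≤ _ := by
        apply mul_le_mul_of_nonneg_left hEmass
        positivity

/-- the class of `P4a7640N`: `y` and `x` differ on few primes of the blocks from `be N - j` on -/
theorem slow_change {y x : SS} (hyx : Tendsto (fun N : ℕ => ∑ p ∈ (Finset.Icc 1 N).filter
      (fun p : ℕ => p.Prime ∧ N < p ^ 2 ∧ y p ≠ x p), (1:ℝ) / p) atTop (𝓝 0)) (j : ℕ) :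
    Tendsto (fun N : ℕ => ∑ p ∈ (Finset.Icc 1 N).filter
      (fun p : ℕ => p.Prime ∧ be N - j ≤ be p ∧ y p ≠ x p), (1:ℝ) / p) atTop (𝓝 0) := by
  rw [Metric.tendsto_atTop]
  intro δ hδ
  have hδ' : 0 < δ / ((j + 1 : ℕ) + 1) := by positivity
  have h2 : ∀ᶠ M : ℕ in atTop, P4a7640N.ES y x (P4a7640N.rt 1 M) M ≤ δ / ((j + 1 : ℕ) + 1) := by
    filter_upwards [hyx.eventually (eventually_le_nhds hδ')] with M hM
    rw [P4a7640N.ES_window]
    exact hM
  obtain ⟨N₂, hN₂⟩ := eventually_atTop.mp h2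
  have h3 : ∀ᶠ N : ℕ in atTop, ∑ p ∈ (Finset.Icc 1 N).filter
      (fun p : ℕ => p.Prime ∧ be N - j ≤ be p ∧ y p ≠ x p), (1:ℝ) / p < δ := by
    filter_upwards [(P4a7640N.tendsto_rt (j + 1)).eventually_ge_atTop N₂,
      winm_tendsto_be.eventually_ge_atTop j, eventually_ge_atTop 2] with N h4 h5 h6
    have h7 := P4a7640N.ES_many hN₂ N (j + 1) h4
    have h8 : ∑ p ∈ (Finset.Icc 1 N).filter
        (fun p : ℕ => p.Prime ∧ be N - j ≤ be p ∧ y p ≠ x p), (1:ℝ) / p ≤
        P4a7640N.ES y x (P4a7640N.rt (j + 1) N) N := by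
      unfold P4a7640N.ES
      apply sum_le_sum_of_subset_of_nonneg
      · intro p hp
        rw [mem_filter, mem_Icc] at hp
        obtain ⟨⟨_, h10⟩, h11, h12, h13⟩ := hp
        rw [mem_filter, mem_Ioc]
        refine ⟨⟨?_, h10⟩, h11, h13⟩
        rw [P4a7640N.rt_lt_iff]
        have h14 := (winm_le_be_iff h11.two_le).mp h12
        have h15 : N < 2 ^ 2 ^ (be N + 1) := (winm_be_lt_iff h6).mp (Nat.lt_succ_self _)
        calc N < 2 ^ 2 ^ (be N + 1) := h15
          _ = (2 ^ 2 ^ (be N - j)) ^ (2 ^ (j + 1)) := by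
              rw [← pow_mul, ← pow_add]
              congr 2
              omega
          _ ≤ p ^ (2 ^ (j + 1)) := Nat.pow_le_pow_left h14 _
      · intro p _ _
        positivity
    have h9 : ((j + 1 : ℕ) : ℝ) * (δ / ((j + 1 : ℕ) + 1)) < δ := by
      rw [← mul_div_assoc, div_lt_iff₀ (by positivity)]
      nlinarith
    linarith
  obtain ⟨N₃, hN₃⟩ := eventually_atTop.mp h3
  refine ⟨N₃, fun N hN => ?_⟩
  rw [Real.dist_eq, sub_zero, abs_of_nonneg (sum_nonneg fun _ _ => by positivity)]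
  exact hN₃ N hN

end Pool.Agent.Lib.P4a7640X
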