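import Mathlib
import Pool.Agent.Lib.P4a7640X.Par
import Pool.Agent.Lib.P4a7640K.SqfA
import Pool.Agent.Lib.P4a7640D.BlockMass

/-!
# Few integers have many large prime factors or a large square

Module P4a7640X.BadR.

`bad_rest`: Markov. `(rest c H n).card ≤ ∑ h ∈ H, #{p prime, c ≤ be p, p ∣ n + h}`; sum over `n` with
`UU_le'`, and the number of blocks from `be N - i` to `be (N + h) ≤ be N + 1` is at most `i + 2`, so
`∑ 1 / p ≤ C (i + 2)` (`block_mass`).
`bad_sq`: `UU_le' (d = p ^ 2)` and `∑_{p > y} 1 / p ^ 2 ≤ 2 / y`, `y = be N - j → ∞`.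
-/

open Filter MeasureTheory Finset Topology

namespace Pool.Agent.Lib.P4a7640X

open Pool.Agent.Lib.P4a7640 Pool.Agent.Lib.P4a7640D

private theorem be_mono {m n : ℕ} (h : m ≤ n) : be m ≤ be n :=
  Nat.log_mono_right (Nat.log_mono_right h)

private theorem be_add_le {N h : ℕ} (hN : 2 ≤ N) (hh : h ≤ N) : be (N + h) ≤ be N + 1 := by
  have h1 : N + h ≤ N * 2 := by omega
  have h2 : 1 ≤ Nat.log 2 N := Nat.log_pos (by norm_num) hN
  have h3 : Nat.log 2 (N * 2) = Nat.log 2 N + 1 := Nat.log_mul_base (by norm_num) (by omega)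
  have h4 : Nat.log 2 (Nat.log 2 N * 2) = Nat.log 2 (Nat.log 2 N) + 1 :=
    Nat.log_mul_base (by norm_num) (by omega)
  calc be (N + h) ≤ be (N * 2) := be_mono h1
    _ = Nat.log 2 (Nat.log 2 N + 1) := by unfold be; rw [h3]
    _ ≤ Nat.log 2 (Nat.log 2 N * 2) := Nat.log_mono_right (by omega)
    _ = be N + 1 := by rw [h4]; rfl

/-- the blocks from `a` to `b` -/
private theorem blocks_mass {C0 : ℝ}
    (hblock : ∀ (j : ℕ) (D : Finset ℕ), (∀ p ∈ D, p.Prime ∧ be p = j) → ∑ p ∈ D, (1:ℝ) / p ≤ C0)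
    (a b : ℕ) (D : Finset ℕ) (hD : ∀ p ∈ D, p.Prime ∧ a ≤ be p ∧ be p ≤ b) :
    ∑ p ∈ D, (1:ℝ) / p ≤ ((b + 1 - a : ℕ) : ℝ) * C0 := by
  classical
  have h1 : ∑ j ∈ Icc a b, ∑ p ∈ D.filter (fun p => be p = j), (1:ℝ) / p = ∑ p ∈ D, (1:ℝ) / p :=
    Finset.sum_fiberwise_of_maps_to (fun p hp => by
      have := hD p hp
      exact mem_Icc.2 this.2) _
  rw [← h1]
  calc ∑ j ∈ Icc a b, ∑ p ∈ D.filter (fun p => be p = j), (1:ℝ) / p
      ≤ ∑ j ∈ Icc a b, C0 := by
        refine Finset.sum_le_sum fun j _ => hblock j _ fun p hp => ?_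
        rw [mem_filter] at hp
        exact ⟨(hD p hp.1).1, hp.2⟩
    _ = ((b + 1 - a : ℕ) : ℝ) * C0 := by
        rw [Finset.sum_const, Nat.card_Icc, nsmul_eq_mul]

theorem bad_rest (H : Finset ℕ) : ∃ C : ℝ, 0 < C ∧ ∀ i t : ℕ, ∀ᶠ N : ℕ in atTop,
    (∑ n ∈ (Icc 1 N).filter (fun n => t < (rest (be N - i) H n).card), (1:ℝ) / n) / Real.log N ≤
      C * (i + 1) / (t + 1) := by
  classical
  obtain ⟨C0, hC0, hblock⟩ := block_mass
  have hlog : Tendsto (fun N : ℕ => Real.log N) atTop atTop :=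
    Real.tendsto_log_atTop.comp tendsto_natCast_atTop_atTop
  have hS0 : 0 ≤ ∑ h ∈ H, 4 * (2 * (h:ℝ) + 1) * C0 := Finset.sum_nonneg fun h _ => by positivity
  refine ⟨∑ h ∈ H, 4 * (2 * (h:ℝ) + 1) * C0 + 1, by linarith, ?_⟩
  intro i t
  have hev : ∀ᶠ N : ℕ in atTop, ∀ h ∈ H, CH h ≤ Real.log N ∧ h ≤ N :=
    (Finset.eventually_all H).2 fun h _ =>
      (hlog.eventually_ge_atTop (CH h)).and (eventually_ge_atTop h)
  filter_upwards [hev, eventually_ge_atTop 2] with N hN hN2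
  have hN1 : (1:ℝ) < N := by exact_mod_cast (by omega : 1 < N)
  have hL : 0 < Real.log N := Real.log_pos hN1
  have ht0 : (0:ℝ) < (t:ℝ) + 1 := by positivity
  set P : ℕ → Finset ℕ := fun h => (Finset.range (N + h + 1)).filter
    (fun p => p.Prime ∧ be N - i ≤ be p) with hP
  have hmass : ∀ h ∈ H, ∑ p ∈ P h, (1:ℝ) / p ≤ (i + 2) * C0 := by
    intro h hh
    refine (blocks_mass hblock (be N - i) (be N + 1) (P h) ?_).trans ?_
    · intro p hp
      rw [hP, mem_filter, mem_range] at hp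
      exact ⟨hp.2.1, hp.2.2, (be_mono (by omega)).trans (be_add_le hN2 (hN h hh).2)⟩
    · refine mul_le_mul_of_nonneg_right ?_ hC0.le
      have : be N + 1 + 1 - (be N - i) ≤ i + 2 := by omega
      exact_mod_cast this
  -- the number of primes
  have hcard : ∀ n ∈ Icc 1 N, ((rest (be N - i) H n).card : ℝ) ≤
      ∑ h ∈ H, ∑ p ∈ P h, if p ∣ n + h then (1:ℝ) else 0 := by
    intro n hn
    rw [mem_Icc] at hn
    have hsub : rest (be N - i) H n ⊆ H.biUnion fun h => (P h).filter fun p => p ∣ n + h := by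
      intro p hp
      unfold rest at hp
      rw [mem_filter, Nat.mem_primeFactors] at hp
      obtain ⟨⟨hpp, hpd, _⟩, hbe⟩ := hp
      unfold MM at hpd
      obtain ⟨h, hh, hd⟩ := (Prime.dvd_finsetProd_iff hpp.prime _).1 hpd
      rw [mem_biUnion]
      refine ⟨h, hh, mem_filter.2 ⟨mem_filter.2 ⟨mem_range.2 ?_, hpp, hbe⟩, hd⟩⟩
      have := Nat.le_of_dvd (by omega) hd
      omega
    have h1 : ((rest (be N - i) H n).card : ℝ) ≤
        ∑ h ∈ H, (((P h).filter fun p => p ∣ n + h).card : ℝ) := by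
      exact_mod_cast (card_le_card hsub).trans card_biUnion_le
    refine h1.trans (le_of_eq ?_)
    refine Finset.sum_congr rfl fun h _ => ?_
    rw [Finset.sum_boole]
  -- Markov
  have hmain : ∑ n ∈ (Icc 1 N).filter (fun n => t < (rest (be N - i) H n).card), (1:ℝ) / n ≤
      (∑ h ∈ H, ∑ p ∈ P h, UU N h p) / (t + 1) := by
    rw [le_div_iff₀ ht0, Finset.sum_mul]
    calc ∑ n ∈ (Icc 1 N).filter (fun n => t < (rest (be N - i) H n).card),
          (1:ℝ) / n * (t + 1)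
        ≤ ∑ n ∈ (Icc 1 N).filter (fun n => t < (rest (be N - i) H n).card),
          (1:ℝ) / n * ∑ h ∈ H, ∑ p ∈ P h, (if p ∣ n + h then (1:ℝ) else 0) := by
          refine Finset.sum_le_sum fun n hn => ?_
          rw [mem_filter] at hn
          refine mul_le_mul_of_nonneg_left ((?_ : ((t:ℝ) + 1) ≤ _).trans (hcard n hn.1))
            (by positivity)
          exact_mod_cast hn.2
      _ ≤ ∑ n ∈ Icc 1 N,
          (1:ℝ) / n * ∑ h ∈ H, ∑ p ∈ P h, (if p ∣ n + h then (1:ℝ) else 0) := by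
          refine Finset.sum_le_sum_of_subset_of_nonneg (filter_subset _ _) fun n _ _ => ?_
          refine mul_nonneg (by positivity) (Finset.sum_nonneg fun h _ =>
            Finset.sum_nonneg fun p _ => ?_)
          split_ifs <;> norm_num
      _ = ∑ h ∈ H, ∑ p ∈ P h, UU N h p := by
          simp only [Finset.mul_sum]
          rw [Finset.sum_comm]
          refine Finset.sum_congr rfl fun h _ => ?_
          rw [Finset.sum_comm]
          refine Finset.sum_congr rfl fun p _ => ?_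
          unfold UU
          rw [Finset.sum_filter]
          refine Finset.sum_congr rfl fun n _ => ?_
          split_ifs <;> simp
  have hUU : ∑ h ∈ H, ∑ p ∈ P h, UU N h p ≤
      (∑ h ∈ H, 4 * (2 * (h:ℝ) + 1) * C0) * (i + 1) * Real.log N := by
    rw [Finset.sum_mul, Finset.sum_mul]
    refine Finset.sum_le_sum fun h hh => ?_
    have h1 : ∀ p ∈ P h, UU N h p ≤ (1:ℝ) / p * ((2 * h + 1) * (2 * Real.log N)) := by
      intro p hp
      rw [hP, mem_filter] at hp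
      have hp1 : 1 ≤ p := hp.2.1.one_lt.le
      refine (P4a7640K.UU_le' (by omega) hp1).trans ?_
      have h2 : Real.log N + CH h ≤ 2 * Real.log N := by linarith [(hN h hh).1]
      calc (2 * (h:ℝ) + 1) / p * (Real.log N + CH h)
          ≤ (2 * (h:ℝ) + 1) / p * (2 * Real.log N) := mul_le_mul_of_nonneg_left h2 (by positivity)
        _ = _ := by ring
    refine (Finset.sum_le_sum h1).trans ?_
    rw [← Finset.sum_mul]
    calc (∑ p ∈ P h, (1:ℝ) / p) * ((2 * h + 1) * (2 * Real.log N))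
        ≤ ((i + 2) * C0) * ((2 * h + 1) * (2 * Real.log N)) :=
          mul_le_mul_of_nonneg_right (hmass h hh) (by positivity)
      _ ≤ (2 * (i + 1) * C0) * ((2 * h + 1) * (2 * Real.log N)) := by
          refine mul_le_mul_of_nonneg_right (mul_le_mul_of_nonneg_right ?_ hC0.le) (by positivity)
          have : (0:ℝ) ≤ i := Nat.cast_nonneg i
          linarith
      _ = 4 * (2 * (h:ℝ) + 1) * C0 * (i + 1) * Real.log N := by ring
  rw [div_le_iff₀ hL]
  refine hmain.trans ?_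
  rw [div_le_iff₀ ht0]
  refine hUU.trans ?_
  generalize ∑ h ∈ H, 4 * (2 * (h:ℝ) + 1) * C0 = S
  have e : (S + 1) * (i + 1) / (t + 1) * Real.log N * (t + 1) =
      (S + 1) * (i + 1) * Real.log N := by
    field_simp
  rw [e]
  refine mul_le_mul_of_nonneg_right (mul_le_mul_of_nonneg_right (by linarith) (by positivity)) hL.le

private theorem be_lt_self {p : ℕ} (hp : 1 ≤ p) : be p < p := by
  unfold be
  calc Nat.log 2 (Nat.log 2 p) ≤ Nat.log 2 p := Nat.log_le_self 2 _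
    _ < p := Nat.log_lt_self 2 (by omega)

private theorem tendsto_be : Tendsto (fun N : ℕ => be N) atTop atTop := by
  have h : Tendsto (fun N : ℕ => Nat.log 2 N) atTop atTop :=
    tendsto_atTop_atTop.2 fun b => ⟨2 ^ b, fun a ha => Nat.le_log_of_pow_le (by norm_num) ha⟩
  exact h.comp h

open Classical in
theorem bad_sq (H : Finset ℕ) (j : ℕ) {ε : ℝ} (hε : 0 < ε) : ∀ᶠ N : ℕ in atTop,
    (∑ n ∈ (Icc 1 N).filter (fun n => ∃ h ∈ H, ∃ p : ℕ, p.Prime ∧ be N - j ≤ be p ∧ p ^ 2 ∣ n + h),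
      (1:ℝ) / n) / Real.log N ≤ ε := by
  have hlog : Tendsto (fun N : ℕ => Real.log N) atTop atTop :=
    Real.tendsto_log_atTop.comp tendsto_natCast_atTop_atTop
  have hev : ∀ᶠ N : ℕ in atTop, ∀ h ∈ H, CH h ≤ Real.log N :=
    (Finset.eventually_all H).2 fun h _ => hlog.eventually_ge_atTop (CH h)
  have hS0 : 0 ≤ ∑ h ∈ H, 4 * (2 * (h:ℝ) + 1) := Finset.sum_nonneg fun h _ => by positivity
  obtain ⟨D0, hD0⟩ := exists_nat_gt ((∑ h ∈ H, 4 * (2 * (h:ℝ) + 1)) / ε)
  filter_upwards [hev, eventually_ge_atTop 2, tendsto_be.eventually_ge_atTop (D0 + 1 + j)]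
    with N hN hN2 hbe
  have hN1 : (1:ℝ) < N := by exact_mod_cast (by omega : 1 < N)
  have hL : 0 < Real.log N := Real.log_pos hN1
  obtain ⟨D, hD⟩ : ∃ D, D = D0 + 1 := ⟨_, rfl⟩
  have hDr : (0:ℝ) < D := by exact_mod_cast (by omega : 0 < D)
  rw [div_le_iff₀ hL]
  have hsub : (Icc 1 N).filter (fun n => ∃ h ∈ H, ∃ p : ℕ, p.Prime ∧ be N - j ≤ be p ∧
      p ^ 2 ∣ n + h) ⊆
      H.biUnion fun h => (Finset.Ioo D (N + h + 1)).biUnion fun d =>
        (Finset.Icc 1 N).filter fun n => d ^ 2 ∣ n + h := by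
    intro n hn
    rw [mem_filter, mem_Icc] at hn
    obtain ⟨⟨hn1, hnN⟩, h, hh, p, hp, hbp, hd⟩ := hn
    rw [mem_biUnion]
    refine ⟨h, hh, ?_⟩
    rw [mem_biUnion]
    refine ⟨p, ?_, mem_filter.2 ⟨mem_Icc.2 ⟨hn1, hnN⟩, hd⟩⟩
    rw [mem_Ioo]
    have h1 := be_lt_self hp.one_lt.le
    have h2 : p ^ 2 ≤ n + h := Nat.le_of_dvd (by omega) hd
    have h3 : p ≤ p ^ 2 := Nat.le_self_pow (by norm_num) p
    omega
  have hsq : ∀ h : ℕ, ∑ d ∈ Finset.Ioo D (N + h + 1), (1:ℝ) / (d:ℝ) ^ 2 ≤ 1 / D * 2 := by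
    intro h
    have h1 := sum_Ioo_inv_sq_le (α := ℝ) D (N + h + 1)
    have h2 : (2:ℝ) / (D + 1) ≤ 1 / D * 2 := by
      rw [one_div, inv_mul_eq_div]
      exact div_le_div_of_nonneg_left (by norm_num) hDr (by linarith)
    refine le_trans (le_of_eq ?_) (h1.trans h2)
    exact Finset.sum_congr rfl fun d _ => one_div _
  calc ∑ n ∈ (Icc 1 N).filter (fun n => ∃ h ∈ H, ∃ p : ℕ, p.Prime ∧ be N - j ≤ be p ∧
        p ^ 2 ∣ n + h), (1:ℝ) / n
      ≤ ∑ n ∈ H.biUnion fun h => (Finset.Ioo D (N + h + 1)).biUnion fun d =>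
          (Finset.Icc 1 N).filter fun n => d ^ 2 ∣ n + h, (1:ℝ) / n :=
        Finset.sum_le_sum_of_subset_of_nonneg hsub fun n _ _ => by positivity
    _ ≤ ∑ h ∈ H, ∑ n ∈ (Finset.Ioo D (N + h + 1)).biUnion fun d =>
          (Finset.Icc 1 N).filter fun n => d ^ 2 ∣ n + h, (1:ℝ) / n :=
        P4a7640K.sum_biUnion_le_real _ _ fun n => by positivity
    _ ≤ ∑ h ∈ H, ∑ d ∈ Finset.Ioo D (N + h + 1), UU N h (d ^ 2) :=
        Finset.sum_le_sum fun h _ => P4a7640K.sum_biUnion_le_real _ _ fun n => by positivity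
    _ ≤ ∑ h ∈ H, ∑ d ∈ Finset.Ioo D (N + h + 1),
          (1:ℝ) / (d:ℝ) ^ 2 * ((2 * h + 1) * (2 * Real.log N)) := by
        refine Finset.sum_le_sum fun h hh => Finset.sum_le_sum fun d hd => ?_
        rw [mem_Ioo] at hd
        have hd1 : 1 ≤ d ^ 2 := Nat.one_le_pow _ _ (by omega)
        refine (P4a7640K.UU_le' (by omega) hd1).trans ?_
        have h2 : Real.log N + CH h ≤ 2 * Real.log N := by linarith [hN h hh]
        push_cast
        calc (2 * (h:ℝ) + 1) / (d:ℝ) ^ 2 * (Real.log N + CH h)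
            ≤ (2 * (h:ℝ) + 1) / (d:ℝ) ^ 2 * (2 * Real.log N) :=
              mul_le_mul_of_nonneg_left h2 (by positivity)
          _ = _ := by ring
    _ ≤ ∑ h ∈ H, (1 / (D:ℝ) * 2) * ((2 * h + 1) * (2 * Real.log N)) := by
        refine Finset.sum_le_sum fun h _ => ?_
        rw [← Finset.sum_mul]
        exact mul_le_mul_of_nonneg_right (hsq h) (by positivity)
    _ = (∑ h ∈ H, 4 * (2 * (h:ℝ) + 1)) / D * Real.log N := by
        rw [Finset.sum_div, Finset.sum_mul]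
        exact Finset.sum_congr rfl fun h _ => by ring
    _ ≤ ε * Real.log N := by
        refine mul_le_mul_of_nonneg_right ?_ hL.le
        rw [div_le_iff₀ hDr]
        rw [div_lt_iff₀ hε] at hD0
        have h3 : (D0:ℝ) ≤ D := by exact_mod_cast (by omega : D0 ≤ D)
        nlinarith

end Pool.Agent.Lib.P4a7640X
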