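import Mathlib
import Pool.Agent.Lib.P4a7640X.SieveX
import Pool.Agent.Lib.P4a7640X.LcmH

/-!
# The logarithmic averages over a class

Abel summation, the residue class of a tuple of divisors, and the comparison of the sieve product
with the model density of the class.
-/

open Filter MeasureTheory Finset

namespace Pool.Agent.Lib.P4a7640X

open Pool.Agent.Lib.P4a7640 Pool.Agent.Lib.P4a7640D

/-- Abel summation -/
private lemma abelX (u : ℕ → ℝ) {B : ℝ} (hB : 0 ≤ B) {M N : ℕ} (hM : 1 ≤ M) (hMN : M ≤ N)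
    (h : ∀ x, M ≤ x → x ≤ N → |∑ n ∈ Icc 1 x, u n| ≤ B * x) :
    |∑ n ∈ Ioc M N, u n / n| ≤ B * (3 + Real.log N) := by
  have hstep : ∀ x : ℕ, ∑ n ∈ Icc 1 (x + 1), u n = ∑ n ∈ Icc 1 x, u n + u (x + 1) := by
    intro x
    rw [Finset.sum_Icc_succ_top (by omega)]
  have hid : ∀ K : ℕ, M ≤ K → ∑ n ∈ Ioc M K, u n / n = (∑ n ∈ Icc 1 K, u n) / K -
      (∑ n ∈ Icc 1 M, u n) / M +
      ∑ n ∈ Ico M K, (∑ k ∈ Icc 1 n, u k) * (1 / (n:ℝ) - 1 / ((n + 1 : ℕ) : ℝ)) := by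
    intro K hK
    induction K, hK using Nat.le_induction with
    | base => simp
    | succ K hK ih =>
      have hK0 : (0:ℝ) < K := by
        have : 1 ≤ K := le_trans hM hK
        exact_mod_cast this
      rw [Finset.sum_Ioc_succ_top (by omega), Finset.sum_Ico_succ_top (by omega), ih, hstep K]
      push_cast
      field_simp
      ring
  have hlogsum : ∀ K : ℕ, M ≤ K →
      ∑ n ∈ Ico M K, (1:ℝ) / ((n + 1 : ℕ) : ℝ) ≤ Real.log K - Real.log M := by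
    intro K hK
    induction K, hK using Nat.le_induction with
    | base => simp
    | succ K hK ih =>
      have hK0 : (0:ℝ) < K := by
        have : 1 ≤ K := le_trans hM hK
        exact_mod_cast this
      rw [Finset.sum_Ico_succ_top (by omega)]
      have h1 : (1:ℝ) / ((K + 1 : ℕ) : ℝ) ≤ Real.log ((K + 1 : ℕ) : ℝ) - Real.log K := by
        have h2 := Real.one_sub_inv_le_log_of_pos (x := ((K + 1 : ℕ) : ℝ) / K) (by positivity)
        rw [Real.log_div (by positivity) hK0.ne'] at h2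
        refine le_trans (le_of_eq ?_) h2
        push_cast
        field_simp
        ring
      linarith
  have hM0 : (0:ℝ) < M := by exact_mod_cast hM
  have hN0 : (0:ℝ) < N := by
    have : 1 ≤ N := le_trans hM hMN
    exact_mod_cast this
  have hlogM : 0 ≤ Real.log M := Real.log_nonneg (by exact_mod_cast hM)
  rw [hid N hMN]
  have h1 : |(∑ n ∈ Icc 1 N, u n) / N| ≤ B := by
    rw [abs_div, abs_of_pos hN0, div_le_iff₀ hN0]
    exact h N hMN le_rfl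
  have h2 : |(∑ n ∈ Icc 1 M, u n) / M| ≤ B := by
    rw [abs_div, abs_of_pos hM0, div_le_iff₀ hM0]
    exact h M le_rfl hMN
  have h3 : |∑ n ∈ Ico M N, (∑ k ∈ Icc 1 n, u k) * (1 / (n:ℝ) - 1 / ((n + 1 : ℕ) : ℝ))| ≤
      B * ∑ n ∈ Ico M N, (1:ℝ) / ((n + 1 : ℕ) : ℝ) := by
    rw [mul_sum]
    refine (abs_sum_le_sum_abs _ _).trans (sum_le_sum fun n hn => ?_)
    rw [mem_Ico] at hn
    have hn0 : (0:ℝ) < n := by
      have : 1 ≤ n := le_trans hM hn.1
      exact_mod_cast this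
    have h4 : (1:ℝ) / n - 1 / ((n + 1 : ℕ) : ℝ) = 1 / ((n + 1 : ℕ) : ℝ) / n := by
      push_cast
      field_simp
      ring
    rw [abs_mul, h4, abs_of_nonneg (show (0:ℝ) ≤ 1 / ((n + 1 : ℕ) : ℝ) / n by positivity)]
    calc |∑ k ∈ Icc 1 n, u k| * (1 / ((n + 1 : ℕ) : ℝ) / n)
        ≤ (B * n) * (1 / ((n + 1 : ℕ) : ℝ) / n) :=
          mul_le_mul_of_nonneg_right (h n hn.1 hn.2.le) (by positivity)
      _ = B * (1 / ((n + 1 : ℕ) : ℝ)) := by
          field_simp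
  have h5 := hlogsum N hMN
  have h6 : B * ∑ n ∈ Ico M N, (1:ℝ) / ((n + 1 : ℕ) : ℝ) ≤ B * Real.log N :=
    mul_le_mul_of_nonneg_left (by linarith) hB
  have h7 := abs_add_le ((∑ n ∈ Icc 1 N, u n) / N - (∑ n ∈ Icc 1 M, u n) / M)
    (∑ n ∈ Ico M N, (∑ k ∈ Icc 1 n, u k) * (1 / (n:ℝ) - 1 / ((n + 1 : ℕ) : ℝ)))
  have h8 := abs_sub ((∑ n ∈ Icc 1 N, u n) / N) ((∑ n ∈ Icc 1 M, u n) / M)
  nlinarith

/-- a sieved prime is larger than `2 m` -/
private lemma card_lt_of_w0 {H : Finset ℕ} {p : ℕ} (hp : w0 H ≤ p) : 2 * H.card < p := by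
  unfold w0 at hp
  nlinarith [Nat.zero_le (H.sup id)]

private lemma factor_mem {H : Finset ℕ} {p : ℕ} (hp : w0 H ≤ p) :
    0 < 1 - (H.card:ℝ) / p ∧ 1 - (H.card:ℝ) / p ≤ 1 := by
  have h1 := card_lt_of_w0 hp
  have hp0 : (0:ℝ) < p := by
    have : 0 < p := by omega
    exact_mod_cast this
  have h2 : (H.card:ℝ) < p := by
    have : H.card < p := by omega
    exact_mod_cast this
  constructor
  · rw [sub_pos, div_lt_one hp0]
    exact h2
  · have : 0 ≤ (H.card:ℝ) / p := by positivity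
    linarith

private lemma VD_pos' (b : ℕ) (H : Finset ℕ) : 0 < VD b H := by
  unfold VD
  refine prod_pos fun p hp => ?_
  rw [mem_filter] at hp
  exact (factor_mem hp.2.2.2).1

private lemma bt_ge_one (H : Finset ℕ) (s : ℕ) : 1 ≤ bt H s := by
  unfold bt
  refine Finset.one_le_prod fun p hp => ?_
  rw [mem_filter] at hp
  have h := factor_mem hp.2
  exact (one_le_inv₀ h.1).2 h.2

private lemma qt_nonneg' (b : ℕ) (H : Finset ℕ) (a : ℕ → ℕ) : 0 ≤ qt b H a := by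
  unfold qt
  refine mul_nonneg (VD_pos' b H).le (prod_nonneg fun h _ => ?_)
  have := bt_ge_one H (a h)
  positivity

private lemma prod_biUnion_le (H : Finset ℕ) (S : ℕ → Finset ℕ) (f : ℕ → ℝ)
    (hf : ∀ h ∈ H, ∀ p ∈ S h, 1 ≤ f p) :
    ∏ p ∈ H.biUnion S, f p ≤ ∏ h ∈ H, ∏ p ∈ S h, f p := by
  classical
  induction H using Finset.induction_on with
  | empty => simp
  | insert h H hh ih =>
    rw [biUnion_insert, prod_insert hh]
    have hf' : ∀ k ∈ H, ∀ p ∈ S k, 1 ≤ f p := fun k hk => hf k (mem_insert_of_mem hk)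
    have h1 := Finset.prod_union_inter (s₁ := S h) (s₂ := H.biUnion S) (f := f)
    have hS : 1 ≤ ∏ p ∈ S h, f p := Finset.one_le_prod (hf h (mem_insert_self _ _))
    have h2 : 1 ≤ ∏ p ∈ S h ∩ H.biUnion S, f p :=
      Finset.one_le_prod fun p hp => hf h (mem_insert_self _ _) p (mem_inter.1 hp).1
    have h3 : 0 ≤ ∏ p ∈ S h ∪ H.biUnion S, f p := by
      refine prod_nonneg fun p hp => ?_
      rw [mem_union, mem_biUnion] at hp
      rcases hp with hp | ⟨k, hk, hp⟩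
      · exact zero_le_one.trans (hf h (mem_insert_self _ _) p hp)
      · exact zero_le_one.trans (hf' k hk p hp)
    calc ∏ p ∈ S h ∪ H.biUnion S, f p
        ≤ (∏ p ∈ S h ∪ H.biUnion S, f p) * ∏ p ∈ S h ∩ H.biUnion S, f p :=
          le_mul_of_one_le_right h3 h2
      _ = (∏ p ∈ S h, f p) * ∏ p ∈ H.biUnion S, f p := h1
      _ ≤ (∏ p ∈ S h, f p) * ∏ k ∈ H, ∏ p ∈ S k, f p :=
          mul_le_mul_of_nonneg_left (ih hf') (zero_le_one.trans hS)

/-- the comparison of the sieve product with the model -/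
private lemma sieve_le_qt {b K : ℕ} {H : Finset ℕ} {a : ℕ → ℕ} (ha : Adm b K H a) :
    ∏ p ∈ Da b H a, (1 - (H.card:ℝ) / p) ≤ VD b H * ∏ h ∈ H, bt H (a h) := by
  classical
  set T : Finset ℕ := (Finset.Icc 1 (2 ^ 2 ^ b)).filter (fun p => p.Prime ∧ be p < b ∧ w0 H ≤ p)
    with hT
  set U : Finset ℕ := T.filter fun p => ∃ h ∈ H, p ∣ a h with hU
  have hDa : Da b H a = T.filter fun p => ¬ ∃ h ∈ H, p ∣ a h := by
    ext p
    simp only [Da, hT, mem_filter, not_exists, not_and]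
    tauto
  have hpos : ∀ p ∈ T, 0 < 1 - (H.card:ℝ) / p ∧ 1 - (H.card:ℝ) / p ≤ 1 := by
    intro p hp
    rw [hT, mem_filter] at hp
    exact factor_mem hp.2.2.2
  have hVD : VD b H = (∏ p ∈ U, (1 - (H.card:ℝ) / p)) * ∏ p ∈ Da b H a, (1 - (H.card:ℝ) / p) := by
    rw [hDa, hU]
    unfold VD
    rw [← hT, Finset.prod_filter_mul_prod_filter_not]
  have hUpos : 0 < ∏ p ∈ U, (1 - (H.card:ℝ) / p) :=
    prod_pos fun p hp => (hpos p (mem_filter.1 hp).1).1
  -- the inverse of the product over `U` is at most the product of the factors `bt`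
  have hbt : ∏ p ∈ U, (1 - (H.card:ℝ) / p)⁻¹ ≤ ∏ h ∈ H, bt H (a h) := by
    have hsub : U ⊆ H.biUnion fun h => (a h).primeFactors.filter (fun p => w0 H ≤ p) := by
      intro p hp
      rw [hU, mem_filter] at hp
      obtain ⟨hpT, h, hh, hdvd⟩ := hp
      rw [hT, mem_filter] at hpT
      rw [mem_biUnion]
      refine ⟨h, hh, ?_⟩
      rw [mem_filter]
      exact ⟨Nat.mem_primeFactors.2 ⟨hpT.2.1, hdvd, by have := (ha.1 h hh).1; omega⟩, hpT.2.2.2⟩
    have hge1 : ∀ p : ℕ, w0 H ≤ p → 1 ≤ (1 - (H.card:ℝ) / p)⁻¹ := fun p hp =>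
      (one_le_inv₀ (factor_mem hp).1).2 (factor_mem hp).2
    refine (Finset.prod_le_prod_of_subset_of_one_le hsub (fun p hp => ?_) (fun p hp _ => ?_)).trans
      ?_
    · have := (hpos p (mem_filter.1 hp).1).1
      positivity
    · rw [mem_biUnion] at hp
      obtain ⟨h, _, hp⟩ := hp
      exact hge1 p (mem_filter.1 hp).2
    · exact prod_biUnion_le H _ _ fun h _ p hp => hge1 p (mem_filter.1 hp).2
  calc ∏ p ∈ Da b H a, (1 - (H.card:ℝ) / p)
      = VD b H * ∏ p ∈ U, (1 - (H.card:ℝ) / p)⁻¹ := by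
        rw [hVD, prod_inv_distrib]
        field_simp
    _ ≤ VD b H * ∏ h ∈ H, bt H (a h) := mul_le_mul_of_nonneg_left hbt (VD_pos' b H).le

theorem class_bound : ∃ C₁ : ℝ, 0 < C₁ ∧ ∀ H : Finset ℕ, ∃ C₂ : ℝ, 0 < C₂ ∧
    ∀ (η : ℝ) (R : ℕ), 0 < η → 2 * (2 * (H.card + 1 : ℕ) * C₁) ≤ R + 1 →
    (2 * (H.card + 1 : ℕ) * C₁) ^ (R + 1) / ((R + 1).factorial : ℝ) < Real.log (1 + η / 4) / 4 →
    ∃ x₀ : ℕ, ∀ (b c K M N : ℕ) (a : ℕ → ℕ) (Q : Finset ℕ), b ≤ c → Adm b K H a →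
      (∀ p ∈ Q, p.Prime ∧ w0 H ≤ p ∧ b ≤ be p ∧ be p < c) →
      2 ^ (2 ^ (c + 2) * (R + 2)) ≤ M → x₀ ≤ M → K ^ (8 * H.card) ≤ M → M ≤ N → 3 ≤ N →
      |∑ n ∈ Ioc M N, (1:ℝ) / n / Real.log N * (VA R b H a n * uu H Q n)| ≤
        C₂ * qt b H a * (Real.exp (-(2 * H.card * ∑ p ∈ Q, (1:ℝ) / p)) + η) := by
  classical
  obtain ⟨C₁, hC₁, hsieve⟩ := sieveX
  refine ⟨C₁, hC₁, fun H => ?_⟩
  obtain ⟨C₂, hC₂, hsieve⟩ := hsieve H
  obtain ⟨C, hC, hlcm⟩ := lcm_class H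
  refine ⟨4 * C₂ * C, by positivity, fun η R hη hR1 hR2 => ?_⟩
  obtain ⟨x₀, hx₀⟩ := hsieve η R hη hR1 hR2
  refine ⟨x₀, fun b c K M N a Q hbc ha hQ hM1 hM2 hM3 hMN hN3 => ?_⟩
  have hE : 0 ≤ Real.exp (-(2 * H.card * ∑ p ∈ Q, (1:ℝ) / p)) + η := by positivity
  have hqt := qt_nonneg' b H a
  by_cases hne : ∃ n₀ : ℕ, ∀ h ∈ H, a h ∣ n₀ + h
  swap
  · have hzero : ∑ n ∈ Ioc M N, (1:ℝ) / n / Real.log N * (VA R b H a n * uu H Q n) = 0 := by
      refine sum_eq_zero fun n _ => ?_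
      have h1 : ¬ ∀ h ∈ H, a h ∣ n + h := fun hn => hne ⟨n, hn⟩
      unfold VA
      rw [if_neg h1]
      ring
    rw [hzero, abs_zero]
    positivity
  obtain ⟨q, r, hq, hqd, hqC, hclass⟩ := hlcm a (fun h hh => (ha.1 h hh).1) hne
  have hq0 : (0:ℝ) < q := by exact_mod_cast hq
  have hprod0 : 0 < ∏ h ∈ H, a h := prod_pos fun h hh => by have := (ha.1 h hh).1; omega
  have hqle : q ≤ K ^ H.card := by
    refine (Nat.le_of_dvd hprod0 hqd).trans ?_
    calc ∏ h ∈ H, a h ≤ ∏ _h ∈ H, K := prod_le_prod' fun h hh => (ha.1 h hh).2.1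
      _ = K ^ H.card := by rw [prod_const]
  have hq8 : q ^ 8 ≤ M := by
    calc q ^ 8 ≤ (K ^ H.card) ^ 8 := Nat.pow_le_pow_left hqle 8
      _ = K ^ (8 * H.card) := by rw [← pow_mul, mul_comm]
      _ ≤ M := hM3
  have hM : 1 ≤ M := le_trans (Nat.one_le_two_pow) hM1
  -- coprimality
  have hcopD : ∀ p ∈ Da b H a, p.Prime ∧ w0 H ≤ p ∧ be p < b ∧ Nat.Coprime q p := by
    intro p hp
    unfold Da at hp
    rw [mem_filter] at hp
    obtain ⟨_, hp1, hp2, hp3, hp4⟩ := hp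
    refine ⟨hp1, hp3, hp2, ?_⟩
    rw [Nat.coprime_comm, Nat.Prime.coprime_iff_not_dvd hp1]
    intro hpq
    obtain ⟨h, hh, hd⟩ := (Prime.dvd_finsetProd_iff hp1.prime _).1 (hpq.trans hqd)
    exact hp4 h hh hd
  have hcopQ : ∀ p ∈ Q, p.Prime ∧ w0 H ≤ p ∧ b ≤ be p ∧ be p < c ∧ Nat.Coprime q p := by
    intro p hp
    obtain ⟨hp1, hp2, hp3, hp4⟩ := hQ p hp
    refine ⟨hp1, hp2, hp3, hp4, ?_⟩
    rw [Nat.coprime_comm, Nat.Prime.coprime_iff_not_dvd hp1]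
    intro hpq
    obtain ⟨h, hh, hd⟩ := (Prime.dvd_finsetProd_iff hp1.prime _).1 (hpq.trans hqd)
    have h1 := (ha.1 h hh).2.2 p
      (Nat.mem_primeFactors.2 ⟨hp1, hd, by have := (ha.1 h hh).1; omega⟩)
    omega
  set E : ℝ := Real.exp (-(2 * H.card * ∑ p ∈ Q, (1:ℝ) / p)) + η with hEdef
  set P : ℝ := ∏ p ∈ Da b H a, (1 - (H.card:ℝ) / p) with hP
  have hP0 : 0 ≤ P := by
    rw [hP]
    exact prod_nonneg fun p hp => (factor_mem (hcopD p hp).2.1).1.le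
  set B : ℝ := C₂ / q * P * E with hB
  have hB0 : 0 ≤ B := by positivity
  have hVA : ∀ n, VA R b H a n = (if n ≡ r [MOD q] then (1:ℝ) else 0) * LV R b H (Da b H a) n := by
    intro n
    unfold VA
    by_cases h : ∀ h ∈ H, a h ∣ n + h
    · rw [if_pos h, if_pos ((hclass n).1 h)]
    · rw [if_neg h, if_neg fun h' => h ((hclass n).2 h')]
  have hsum : ∀ x, M ≤ x → x ≤ N → |∑ n ∈ Icc 1 x, VA R b H a n * uu H Q n| ≤ B * x := by
    intro x hx1 _
    have h1 := hx₀ b c q r x (Da b H a) Q hbc hq hcopD hcopQ (hM1.trans hx1) (hM2.trans hx1)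
      (hq8.trans hx1)
    have h2 : ∑ n ∈ Icc 1 x, VA R b H a n * uu H Q n = ∑ n ∈ Icc 1 x,
        (if n ≡ r [MOD q] then (1:ℝ) else 0) * (LV R b H (Da b H a) n * uu H Q n) := by
      refine sum_congr rfl fun n _ => ?_
      rw [hVA n, mul_assoc]
    rw [h2]
    refine h1.trans (le_of_eq ?_)
    rw [hB]
    ring
  have hab := abelX (fun n => VA R b H a n * uu H Q n) hB0 hM hMN hsum
  have hlog1 : 1 ≤ Real.log N := by
    have h1 : Real.exp 1 ≤ (N:ℝ) := by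
      have h2 := Real.exp_one_lt_d9
      have h3 : (3:ℝ) ≤ N := by exact_mod_cast hN3
      linarith
    calc (1:ℝ) = Real.log (Real.exp 1) := (Real.log_exp 1).symm
      _ ≤ Real.log N := Real.log_le_log (Real.exp_pos 1) h1
  have hlog0 : 0 < Real.log N := by linarith
  have hrew : ∑ n ∈ Ioc M N, (1:ℝ) / n / Real.log N * (VA R b H a n * uu H Q n) =
      (∑ n ∈ Ioc M N, (VA R b H a n * uu H Q n) / n) / Real.log N := by
    rw [sum_div]
    refine sum_congr rfl fun n _ => ?_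
    ring
  rw [hrew, abs_div, abs_of_pos hlog0, div_le_iff₀ hlog0]
  refine hab.trans ?_
  -- the constants
  have h4 : B * (3 + Real.log N) ≤ B * (4 * Real.log N) :=
    mul_le_mul_of_nonneg_left (by linarith) hB0
  refine h4.trans ?_
  have hqinv : (1:ℝ) / q ≤ C / ∏ h ∈ H, (a h : ℝ) := by
    have h5 : (0:ℝ) < ∏ h ∈ H, (a h : ℝ) := by exact_mod_cast hprod0
    rw [div_le_div_iff₀ hq0 h5]
    linarith
  have hBle : B ≤ C₂ * C * qt b H a * E := by
    have h6 := sieve_le_qt ha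
    have h7 : qt b H a = (VD b H * ∏ h ∈ H, bt H (a h)) / ∏ h ∈ H, (a h : ℝ) := by
      unfold qt
      rw [prod_div_distrib]
      ring
    have h8 : 0 ≤ C / ∏ h ∈ H, (a h : ℝ) := by positivity
    rw [hB, h7]
    calc C₂ / q * P * E = C₂ * ((1 / q) * P) * E := by ring
      _ ≤ C₂ * ((C / ∏ h ∈ H, (a h : ℝ)) * (VD b H * ∏ h ∈ H, bt H (a h))) * E := by
          refine mul_le_mul_of_nonneg_right (mul_le_mul_of_nonneg_left ?_ hC₂.le) hE
          exact mul_le_mul hqinv h6 hP0 h8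
      _ = C₂ * C * ((VD b H * ∏ h ∈ H, bt H (a h)) / ∏ h ∈ H, (a h : ℝ)) * E := by ring
  calc B * (4 * Real.log N) ≤ (C₂ * C * qt b H a * E) * (4 * Real.log N) :=
        mul_le_mul_of_nonneg_right hBle (by positivity)
    _ = 4 * C₂ * C * qt b H a * E * Real.log N := by ring

end Pool.Agent.Lib.P4a7640X
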