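import Mathlib
import Pool.Agent.Lib.P4a7640X.Trig
import Pool.Agent.Lib.P4a7640X.VarX
import Pool.Agent.Lib.P4a7640X.WinM
import Pool.Agent.Lib.P4a7640K.SqfA
import Pool.Agent.Lib.P4a7640D.BlockMass

/-!
# The error of the replacement of the rest signs

Module P4a7640X.ScaleC (1.0 h).

`∑ n ∈ Ioc M N (good), 1 / n / log N * ∑ p ∈ rest, e_p ≤ ∑ p ∈ P, e_p * ∑ h ∈ H, UU N h p / log N ≤
4 H.card ∑ p ∈ P, (1 / p) e_p`, `P = (Icc 1 (2 N)).filter (p.Prime ∧ be N - i ≤ be p)` (`UU_le`, `2 h ≤ p`, `N` large so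
that `H.sup id ≤ N`, `CH h ≤ log N`). `∑ p ∈ P, 1 / p ≤ C (i + 1)`: `block_mass`, the blocks from `be N - i` to
`be (2 N) ≤ be N + 1`. So the mean `∑ (1 / p) ∫ e_p ≤ C (i + 1) C / √J`. `var_sum` with
`y = 2 ^ 2 ^ (be N - i) ≥ exp (c log N)` (`N < 2 ^ 2 ^ (be N + 1)`, so `log y ≥ 2 ^ (-i - 1) log N`) and
Chebyshev: `E = {x | s / (4 H.card) < ∑ p ∈ P, 1 / p * (e p (a p • x) - ∫ e_p)}`.
-/

open Filter MeasureTheory Finset Topology

namespace Pool.Agent.Lib.P4a7640X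

open Pool.Agent.Lib.P4a7640 Pool.Agent.Lib.P4a7640D

private theorem be_le_of_le {p N : ℕ} (hN : 2 ≤ N) (hp : p ≤ 2 * N) : be p ≤ be N + 1 := by
  have h1 : 1 ≤ Nat.log 2 N := Nat.log_pos (by norm_num) hN
  have h2 : Nat.log 2 p ≤ Nat.log 2 (N * 2) := Nat.log_mono_right (by omega)
  have h3 : Nat.log 2 (N * 2) = Nat.log 2 N + 1 := Nat.log_mul_base (by norm_num) (by omega)
  have h4 : Nat.log 2 (Nat.log 2 p) ≤ Nat.log 2 (Nat.log 2 N * 2) := Nat.log_mono_right (by omega)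
  have h5 : Nat.log 2 (Nat.log 2 N * 2) = Nat.log 2 (Nat.log 2 N) + 1 :=
    Nat.log_mul_base (by norm_num) (by omega)
  unfold be
  omega

private theorem pow_be_le {p : ℕ} (hp : 2 ≤ p) : 2 ^ 2 ^ be p ≤ p := by
  have h1 : 1 ≤ Nat.log 2 p := Nat.log_pos (by norm_num) hp
  have h2 : 2 ^ be p ≤ Nat.log 2 p := Nat.pow_log_le_self 2 (by omega)
  calc 2 ^ 2 ^ be p ≤ 2 ^ Nat.log 2 p := Nat.pow_le_pow_right (by norm_num) h2
    _ ≤ p := Nat.pow_log_le_self 2 (by omega)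

private theorem lt_pow_be {N : ℕ} : N < 2 ^ 2 ^ (be N + 1) := by
  have h1 : Nat.log 2 N < 2 ^ (be N + 1) := Nat.lt_pow_succ_log_self (by norm_num) _
  calc N < 2 ^ (Nat.log 2 N + 1) := Nat.lt_pow_succ_log_self (by norm_num) _
    _ ≤ 2 ^ 2 ^ (be N + 1) := Nat.pow_le_pow_right (by norm_num) h1

private theorem ev_be (k : ℕ) : ∀ᶠ N : ℕ in atTop, k ≤ be N := by
  filter_upwards [eventually_ge_atTop (2 ^ 2 ^ k)] with N hN
  have h1 : 2 ^ k ≤ Nat.log 2 N := by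
    have := Nat.log_mono_right (b := 2) hN
    rwa [Nat.log_pow (by norm_num)] at this
  have h2 := Nat.log_mono_right (b := 2) h1
  rwa [Nat.log_pow (by norm_num)] at h2

/-- the primes of the blocks from `be N - i` on, up to `2 N` -/
private def PP (N i : ℕ) : Finset ℕ :=
  (Icc 1 (2 * N)).filter (fun p => p.Prime ∧ be N - i ≤ be p)

/-- the mass of the rest primes -/
theorem rest_mass : ∃ C : ℝ, 0 < C ∧ ∀ i : ℕ, ∀ᶠ N : ℕ in atTop,
    ∑ p ∈ (Icc 1 (2 * N)).filter (fun p => p.Prime ∧ be N - i ≤ be p), (1:ℝ) / p ≤ C * (i + 1) := by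
  obtain ⟨C, hC, hblock⟩ := block_mass
  refine ⟨2 * C, by positivity, fun i => ?_⟩
  filter_upwards [eventually_ge_atTop 2] with N hN
  have hmaps : ∀ p ∈ (Icc 1 (2 * N)).filter (fun p => p.Prime ∧ be N - i ≤ be p),
      be p ∈ Icc (be N - i) (be N + 1) := by
    intro p hp
    obtain ⟨h1, h2, h3⟩ := mem_filter.1 hp
    rw [mem_Icc] at h1 ⊢
    exact ⟨h3, be_le_of_le hN h1.2⟩
  rw [← Finset.sum_fiberwise_of_maps_to hmaps]
  have h1 : ∀ j ∈ Icc (be N - i) (be N + 1),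
      ∑ p ∈ ((Icc 1 (2 * N)).filter (fun p => p.Prime ∧ be N - i ≤ be p)).filter
        (fun p => be p = j), (1 : ℝ) / p ≤ C := by
    intro j _
    exact hblock j _ fun p hp =>
      ⟨(mem_filter.1 (mem_filter.1 hp).1).2.1, (mem_filter.1 hp).2⟩
  refine (Finset.sum_le_card_nsmul _ _ C h1).trans ?_
  rw [nsmul_eq_mul]
  have h2 : (Icc (be N - i) (be N + 1)).card ≤ i + 2 := by
    rw [Nat.card_Icc]
    omega
  have h3 : ((Icc (be N - i) (be N + 1)).card : ℝ) ≤ i + 2 := by exact_mod_cast h2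
  have h4 : (0:ℝ) ≤ i := Nat.cast_nonneg i
  nlinarith

private theorem det_bound (H : Finset ℕ) (i : ℕ) : ∀ᶠ N : ℕ in atTop,
    ∀ g : ℕ → ℝ, (∀ p, 0 ≤ g p) → ∀ A : Finset ℕ, A ⊆ Icc 1 N →
      ∑ n ∈ A, (1:ℝ) / n / Real.log N * ∑ p ∈ rest (be N - i) H n, g p ≤
        2 * H.card * ∑ p ∈ PP N i, (1:ℝ) / p * g p := by
  obtain ⟨k, hk⟩ : ∃ k : ℕ, 2 * H.sup id ≤ k := ⟨_, le_rfl⟩
  have hlog : ∀ᶠ N : ℕ in atTop, ∀ h ∈ H, CH h ≤ Real.log N := by
    rw [Filter.eventually_all_finset]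
    intro h _
    exact (Real.tendsto_log_atTop.comp tendsto_natCast_atTop_atTop).eventually_ge_atTop (CH h)
  filter_upwards [ev_be (k + i), hlog, eventually_ge_atTop 2, eventually_ge_atTop (H.sup id)]
    with N hbe hCH hN2 hNs g hg A hA
  have hlogN : 0 < Real.log N := Real.log_pos (by exact_mod_cast (by omega : 1 < N))
  have hsup : ∀ h ∈ H, h ≤ H.sup id := fun h hh => Finset.le_sup (f := id) hh
  have hPbig : ∀ p ∈ PP N i, p.Prime ∧ ∀ h ∈ H, 2 * h ≤ p := by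
    intro p hp
    obtain ⟨h1, h2, h3⟩ := mem_filter.1 hp
    refine ⟨h2, fun h hh => ?_⟩
    have h4 : k ≤ be p := by omega
    have h5 : be p < 2 ^ be p := Nat.lt_two_pow_self
    have h6 : 2 ^ be p < 2 ^ 2 ^ be p := Nat.lt_two_pow_self
    have h7 := pow_be_le h2.two_le
    have h8 := hsup h hh
    omega
  have hpt : ∀ n ∈ A, ∑ p ∈ rest (be N - i) H n, g p ≤
      ∑ p ∈ PP N i, ∑ h ∈ H, if p ∣ n + h then g p else 0 := by
    intro n hn
    obtain ⟨hn1, hn2⟩ := mem_Icc.1 (hA hn)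
    have hmem : ∀ p ∈ rest (be N - i) H n, p ∈ PP N i ∧ ∃ h ∈ H, p ∣ n + h := by
      intro p hp
      obtain ⟨h1, h2⟩ := mem_filter.1 hp
      have hpp := Nat.prime_of_mem_primeFactors h1
      have hdvd : p ∣ ∏ h ∈ H, (n + h) := Nat.dvd_of_mem_primeFactors h1
      obtain ⟨h, hh, h3⟩ := (hpp.prime.dvd_finsetProd_iff _).1 hdvd
      refine ⟨mem_filter.2 ⟨mem_Icc.2 ⟨hpp.one_lt.le, ?_⟩, hpp, h2⟩, h, hh, h3⟩
      have h4 := Nat.le_of_dvd (by omega) h3
      have h5 := hsup h hh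
      omega
    calc ∑ p ∈ rest (be N - i) H n, g p
        ≤ ∑ p ∈ rest (be N - i) H n, ∑ h ∈ H, if p ∣ n + h then g p else 0 := by
          refine Finset.sum_le_sum fun p hp => ?_
          obtain ⟨-, h, hh, h3⟩ := hmem p hp
          have h4 : (if p ∣ n + h then g p else 0) ≤ ∑ h ∈ H, if p ∣ n + h then g p else 0 :=
            Finset.single_le_sum (f := fun h => if p ∣ n + h then g p else 0)
              (fun h _ => by
                split_ifs
                · exact hg p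
                · exact le_rfl) hh
          rwa [if_pos h3] at h4
      _ ≤ _ := by
          refine Finset.sum_le_sum_of_subset_of_nonneg (fun p hp => (hmem p hp).1) fun p _ _ => ?_
          refine Finset.sum_nonneg fun h _ => ?_
          split_ifs
          · exact hg p
          · exact le_rfl
  have hterm : ∀ n, 0 ≤ ∑ p ∈ PP N i, ∑ h ∈ H, if p ∣ n + h then g p else 0 := fun n =>
    Finset.sum_nonneg fun p _ => Finset.sum_nonneg fun h _ => by
      split_ifs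
      · exact hg p
      · exact le_rfl
  calc ∑ n ∈ A, (1:ℝ) / n / Real.log N * ∑ p ∈ rest (be N - i) H n, g p
      ≤ ∑ n ∈ A, (1:ℝ) / n / Real.log N *
          ∑ p ∈ PP N i, ∑ h ∈ H, if p ∣ n + h then g p else 0 := by
        refine Finset.sum_le_sum fun n hn => ?_
        exact mul_le_mul_of_nonneg_left (hpt n hn) (by positivity)
    _ ≤ ∑ n ∈ Icc 1 N, (1:ℝ) / n / Real.log N *
          ∑ p ∈ PP N i, ∑ h ∈ H, if p ∣ n + h then g p else 0 :=
        Finset.sum_le_sum_of_subset_of_nonneg hA fun n _ _ =>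
          mul_nonneg (by positivity) (hterm n)
    _ = ∑ p ∈ PP N i, ∑ h ∈ H, g p * (UU N h p / Real.log N) := by
        simp only [Finset.mul_sum]
        rw [Finset.sum_comm]
        refine Finset.sum_congr rfl fun p _ => ?_
        rw [Finset.sum_comm]
        refine Finset.sum_congr rfl fun h _ => ?_
        rw [UU, Finset.sum_div, Finset.mul_sum, Finset.sum_filter]
        refine Finset.sum_congr rfl fun n _ => ?_
        split_ifs
        · ring
        · ring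
    _ ≤ ∑ p ∈ PP N i, ∑ h ∈ H, g p * (2 / p) := by
        refine Finset.sum_le_sum fun p hp => Finset.sum_le_sum fun h hh => ?_
        refine mul_le_mul_of_nonneg_left ?_ (hg p)
        obtain ⟨hpp, hp2⟩ := hPbig p hp
        have h1 := UU_le (N := N) (by omega) hpp.one_lt.le (hp2 h hh)
        have h2 := hCH h hh
        have hp0 : (0:ℝ) < p := by exact_mod_cast hpp.pos
        rw [div_le_iff₀ hlogN]
        refine h1.trans ?_
        rw [div_mul_eq_mul_div, div_mul_eq_mul_div]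
        refine div_le_div_of_nonneg_right ?_ hp0.le
        linarith
    _ = 2 * H.card * ∑ p ∈ PP N i, (1:ℝ) / p * g p := by
        rw [Finset.mul_sum]
        refine Finset.sum_congr rfl fun p _ => ?_
        rw [Finset.sum_const, nsmul_eq_mul]
        ring

private theorem y_lower {κ : ℝ} (hκ : 0 < κ) (i : ℕ) : ∀ᶠ N : ℕ in atTop,
    Real.exp (κ / 3 / 2 ^ (i + 1) * Real.log N) ≤ ((2:ℝ) ^ 2 ^ (be N - i)) ^ (κ / 3) := by
  filter_upwards [ev_be i, eventually_ge_atTop 1] with N hbe hN1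
  have hl2 : 0 < Real.log 2 := Real.log_pos (by norm_num)
  rw [Real.rpow_def_of_pos (by positivity)]
  apply Real.exp_le_exp.2
  rw [Real.log_pow]
  have h1 : Real.log N ≤ (2:ℝ) ^ (be N + 1) * Real.log 2 := by
    have h2 : (N:ℝ) ≤ (2:ℝ) ^ 2 ^ (be N + 1) := by exact_mod_cast (lt_pow_be (N := N)).le
    have h3 := Real.log_le_log (by exact_mod_cast hN1) h2
    rw [Real.log_pow] at h3
    push_cast at h3
    exact h3
  have h2 : (2:ℝ) ^ (be N + 1) = 2 ^ (be N - i) * 2 ^ (i + 1) := by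
    rw [← pow_add]
    congr 1
    omega
  rw [h2] at h1
  have h3 : 0 < (2:ℝ) ^ (i + 1) := by positivity
  have h4 : Real.log N / 2 ^ (i + 1) ≤ (2:ℝ) ^ (be N - i) * Real.log 2 := by
    rw [div_le_iff₀ h3]
    linarith
  have h5 : κ / 3 / 2 ^ (i + 1) * Real.log N = Real.log N / 2 ^ (i + 1) * (κ / 3) := by ring
  rw [h5]
  push_cast
  exact mul_le_mul_of_nonneg_right h4 (by positivity)

open Classical in
theorem err_bound {K₀ κ C : ℝ} (hK₀ : 0 < K₀) (hκ : 0 < κ) (hκ1 : κ ≤ 1) (hC : 0 < C)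
    (H : Finset ℕ) : ∃ C₀ : ℝ, 0 < C₀ ∧ ∀ i J : ℕ, 0 < J → ∀ s : ℝ, 0 < s →
    ∃ c' : ℝ, 0 < c' ∧ ∃ B : ℝ, 0 < B ∧ ∀ᶠ N : ℕ in atTop,
      ∀ (φ : ℕ → UnitAddCircle → ℝ) (a : ℕ → ℕ) (cc : ℕ → Fin J × Fin J → ℂ),
      (∀ p, Measurable (φ p)) → (∀ p x, |φ p x| = 1) → (∀ p, a p ≠ 0) → P4a7640K.CntN K₀ κ a →
      (∀ p x, ‖tp (cc p) x‖ ≤ 1) → (∀ p, ∫ x, ‖(φ p x : ℂ) - tp (cc p) x‖ ≤ C / Real.sqrt J) →
      (∀ p, P4a7640Y.LL1 (2 * C) (fun x => ‖(φ p x : ℂ) - tp (cc p) x‖)) →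
      ∃ E : Set UnitAddCircle, MeasurableSet E ∧
        (volume E).toReal ≤ B * Real.exp (-(c' * Real.log N)) ∧
        ∀ x ∉ E, ∀ b t K M : ℕ, 1 ≤ M →
          ∑ n ∈ (Ioc M N).filter (Good b (be N - i) t K H), (1:ℝ) / n / Real.log N *
            ∑ p ∈ rest (be N - i) H n, ‖((φ p (a p • x) : ℝ) : ℂ) - tp (cc p) (a p • x)‖ ≤
          C₀ * (i + 1) / Real.sqrt J + s := by
  obtain ⟨C₁, hC₁, hmass⟩ := rest_mass
  obtain ⟨C₂, hC₂, hvar⟩ := var_sum hK₀ hκ hκ1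
  have hm0 : (0:ℝ) ≤ H.card := Nat.cast_nonneg _
  refine ⟨2 * H.card * C₁ * C + 1, by positivity, fun i J hJ s hs => ?_⟩
  obtain ⟨δ, hδ⟩ : ∃ δ : ℝ, δ = s / (2 * H.card + 1) := ⟨_, rfl⟩
  have hδ0 : 0 < δ := by rw [hδ]; positivity
  refine ⟨κ / 3 / 2 ^ (i + 1), by positivity,
    C₂ * (2 * C) * (1 + C₁ * (i + 1)) ^ 2 / δ ^ 2, by positivity, ?_⟩
  filter_upwards [hmass i, det_bound H i, y_lower hκ i, eventually_ge_atTop 2]
    with N hNmass hNdet hNy hN2 φ a cc hφ hφ1 ha hcnt htp hmean hLL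
  let e : ℕ → UnitAddCircle → ℝ := fun p x => ‖(φ p x : ℂ) - tp (cc p) x‖
  have he : ∀ p, Measurable (e p) := fun p =>
    ((Complex.measurable_ofReal.comp (hφ p)).sub (continuous_tp (cc p)).measurable).norm
  have he0 : ∀ p x, 0 ≤ e p x := fun p x => norm_nonneg _
  have he2 : ∀ p x, |e p x| ≤ 2 := by
    intro p x
    rw [abs_of_nonneg (he0 p x)]
    refine (norm_sub_le _ _).trans ?_
    rw [Complex.norm_real, Real.norm_eq_abs, hφ1]
    linarith [htp p x]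
  let P : Finset ℕ := PP N i
  let F : UnitAddCircle → ℝ := fun x => ∑ p ∈ P, (1:ℝ) / p * (e p (a p • x) - ∫ z, e p z)
  have hF : Measurable F := Finset.measurable_sum _ fun p _ =>
    (((he p).comp (P4a7640Y.measurable_dil (a p))).sub_const _).const_mul _
  have hFb : ∀ x, |F x| ≤ ∑ p ∈ P, (1:ℝ) / p * 4 := by
    intro x
    refine (Finset.abs_sum_le_sum_abs _ _).trans (Finset.sum_le_sum fun p _ => ?_)
    rw [abs_mul, abs_of_nonneg (by positivity : (0:ℝ) ≤ 1 / p)]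
    refine mul_le_mul_of_nonneg_left ?_ (by positivity)
    have h1 := he2 p (a p • x)
    have h2 := P4a7640Y.abs_int_le (μ := (volume : Measure UnitAddCircle)) (he2 p)
    refine (abs_sub _ _).trans ?_
    linarith
  have hS : ∑ p ∈ P, (1:ℝ) / p ≤ C₁ * (i + 1) := hNmass
  have hS0 : 0 ≤ ∑ p ∈ P, (1:ℝ) / p := Finset.sum_nonneg fun p _ => by positivity
  refine ⟨{x | δ < F x}, measurableSet_lt measurable_const hF, ?_, ?_⟩
  · have hint : Integrable (fun x => F x ^ 2) (volume : Measure UnitAddCircle) := by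
      refine P4a7640Y.int_bdd (hF.pow_const 2) (C := (∑ p ∈ P, (1:ℝ) / p * 4) ^ 2) fun x => ?_
      rw [abs_pow]
      exact pow_le_pow_left₀ (abs_nonneg _) (hFb x) 2
    have hcheb := mul_meas_ge_le_integral_of_nonneg (μ := (volume : Measure UnitAddCircle))
      (Eventually.of_forall fun x => sq_nonneg (F x)) hint (δ ^ 2)
    have hsub : {x | δ < F x} ⊆ {x | δ ^ 2 ≤ F x ^ 2} := fun x hx =>
      pow_le_pow_left₀ hδ0.le (le_of_lt hx) 2
    have hmono : (volume {x | δ < F x}).toReal ≤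
        (volume : Measure UnitAddCircle).real {x | δ ^ 2 ≤ F x ^ 2} :=
      measureReal_mono hsub
    have hy1 : (1:ℝ) ≤ (2:ℝ) ^ 2 ^ (be N - i) := one_le_pow₀ (by norm_num)
    have hv := hvar a hcnt _ hy1 P (fun p hp => by
      obtain ⟨h1, h2, h3⟩ := mem_filter.1 hp
      refine ⟨h2, ?_, ha p⟩
      have h4 := pow_be_le h2.two_le
      have h5 : 2 ^ 2 ^ (be N - i) ≤ 2 ^ 2 ^ be p :=
        Nat.pow_le_pow_right (by norm_num) (Nat.pow_le_pow_right (by norm_num) h3)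
      exact_mod_cast h5.trans h4) e (2 * C) he he2 hLL
    have hδ2 : 0 < δ ^ 2 := by positivity
    have h1 : (volume {x | δ < F x}).toReal * δ ^ 2 ≤
        C₂ * (2 * C) * (1 + C₁ * (i + 1)) ^ 2 * Real.exp (-(κ / 3 / 2 ^ (i + 1) * Real.log N)) := by
      calc (volume {x | δ < F x}).toReal * δ ^ 2
          ≤ (volume : Measure UnitAddCircle).real {x | δ ^ 2 ≤ F x ^ 2} * δ ^ 2 :=
            mul_le_mul_of_nonneg_right hmono hδ2.le
        _ = δ ^ 2 * (volume : Measure UnitAddCircle).real {x | δ ^ 2 ≤ F x ^ 2} := mul_comm _ _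
        _ ≤ ∫ x, F x ^ 2 := hcheb
        _ ≤ C₂ * (2 * C) * (1 + ∑ p ∈ P, (1:ℝ) / p) ^ 2 /
              ((2:ℝ) ^ 2 ^ (be N - i)) ^ (κ / 3) := hv
        _ ≤ C₂ * (2 * C) * (1 + C₁ * (i + 1)) ^ 2 /
              Real.exp (κ / 3 / 2 ^ (i + 1) * Real.log N) := by
            refine div_le_div₀ (by positivity) ?_ (Real.exp_pos _) hNy
            refine mul_le_mul_of_nonneg_left ?_ (by positivity)
            exact pow_le_pow_left₀ (by linarith) (by linarith) 2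
        _ = _ := by rw [Real.exp_neg, div_eq_mul_inv]
    rw [div_mul_eq_mul_div, le_div_iff₀ hδ2]
    exact h1
  · intro x hx b t K M hM
    have hx' : F x ≤ δ := not_lt.1 hx
    have h1 := hNdet (fun p => e p (a p • x)) (fun p => he0 p _)
      ((Ioc M N).filter (Good b (be N - i) t K H)) (fun n hn => by
        have := mem_Ioc.1 (mem_filter.1 hn).1
        exact mem_Icc.2 ⟨by omega, this.2⟩)
    refine h1.trans ?_
    have h2 : ∑ p ∈ P, (1:ℝ) / p * e p (a p • x) = F x + ∑ p ∈ P, (1:ℝ) / p * ∫ z, e p z := by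
      rw [← Finset.sum_add_distrib]
      exact Finset.sum_congr rfl fun p _ => by ring
    have hJ0 : 0 < Real.sqrt J := Real.sqrt_pos.2 (by exact_mod_cast hJ)
    have h3 : ∑ p ∈ P, (1:ℝ) / p * ∫ z, e p z ≤ C₁ * (i + 1) * (C / Real.sqrt J) := by
      calc ∑ p ∈ P, (1:ℝ) / p * ∫ z, e p z ≤ ∑ p ∈ P, (1:ℝ) / p * (C / Real.sqrt J) :=
            Finset.sum_le_sum fun p _ => mul_le_mul_of_nonneg_left (hmean p) (by positivity)
        _ = (∑ p ∈ P, (1:ℝ) / p) * (C / Real.sqrt J) := by rw [Finset.sum_mul]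
        _ ≤ _ := mul_le_mul_of_nonneg_right hS (by positivity)
    have h4 : 2 * (H.card:ℝ) * ∑ p ∈ P, (1:ℝ) / p * e p (a p • x) ≤
        2 * H.card * (δ + C₁ * (i + 1) * (C / Real.sqrt J)) := by
      refine mul_le_mul_of_nonneg_left ?_ (by positivity)
      rw [h2]
      linarith
    refine h4.trans ?_
    have h5 : 2 * (H.card:ℝ) * δ ≤ s := by
      rw [hδ, mul_div_assoc', div_le_iff₀ (by positivity)]
      nlinarith
    have h6 : (2 * (H.card:ℝ) * C₁ * C + 1) * (i + 1) / Real.sqrt J =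
        2 * H.card * (C₁ * (i + 1) * (C / Real.sqrt J)) + (i + 1) / Real.sqrt J := by
      field_simp
    have h7 : 0 ≤ ((i:ℝ) + 1) / Real.sqrt J := by positivity
    rw [h6]
    linarith

end Pool.Agent.Lib.P4a7640X
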