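import Mathlib
import Pool.Agent.Lib.P4a7640X.SmA
import Pool.Agent.Lib.P4a7640X.SieveU
import Pool.Agent.Lib.P4a7640X.ClsSum
import Pool.Agent.Lib.P4a7640X.HMom
import Pool.Agent.Lib.P4a7640X.CubeX
import Pool.Agent.Lib.P4a7640X.SumCls

/-!
# The measure of the set where the sum over the classes is large
-/

open Filter MeasureTheory Finset Topology

namespace Pool.Agent.Lib.P4a7640X

open Pool.Agent.Lib.P4a7640 Pool.Agent.Lib.P4a7640D

lemma uu_empty (H : Finset ℕ) (n : ℕ) : uu H ∅ n = 1 := by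
  unfold uu P4a7640D.KK
  simp

open Classical in
theorem class_meas {φ : ℕ → UnitAddCircle → ℝ} {a : ℕ → ℕ} {H : Finset ℕ}
    (hφ : ∀ p, Measurable (φ p)) (hs : ∀ p x, |φ p x| = 1) (hne : H.Nonempty)
    {b c t K M N R k : ℕ} {C₂ CS ε lm : ℝ} (hD : ∀ p ∈ win b c, p.Prime ∧ H.sup id < p)
    (hcb : ∀ a' : ℕ → ℕ, Adm b K H a' → ∀ Q ⊆ win b c,
      |∑ n ∈ Ioc M N, (1:ℝ) / n / Real.log N * (VA R b H a' n * uu H Q n)| ≤
        C₂ * qt b H a' * (Real.exp (-(2 * H.card * ∑ p ∈ Q, (1:ℝ) / p)) + ε))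
    (hcs : ∀ 𝒜 : Finset (ℕ → ℕ), (∀ a' ∈ 𝒜, Adm b K H a') → ∑ a' ∈ 𝒜, qt b H a' ≤ CS)
    (hC₂ : 0 < C₂) (hε0 : 0 ≤ ε) (hε1 : ε ≤ 1) (hN : 3 ≤ N)
    (hY : 0 < P4a7640Y.YM φ (win b c)) (hk : 1 ≤ k) (hl : 0 < lm)
    {w : ℕ → ℝ} (hw : ∀ n, |w n| ≤ 1) {Cn : ℕ → ℂ} (hCn : ∀ n, ‖Cn n‖ ≤ 1) (θ : ℕ → ℤ) :
    (volume {x : UnitAddCircle | lm <
      ∑ a' ∈ ((Ioc M N).filter (Good b c t K H)).image (cls b H),
        ‖∑ n ∈ Ioc M N, (if Good b c t K H n ∧ cls b H n = a' then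
            ((w n / n / Real.log N : ℝ) : ℂ) * Cn n else 0) *
          (fourier (θ n) x * (P4a7640Y.WW φ a H (win b c) n x : ℂ))‖}).toReal ≤
      (2 * (C₂ * CS) / lm) ^ (2 * k) *
        ((Real.exp (-P4a7640Y.YM φ (win b c) / 2) + ε) ^ (2 * k) +
          4 * (∫ τ, (P4a7640Y.YY φ a (win b c) τ - P4a7640Y.YM φ (win b c)) ^ 2 ∂P4a7640Y.P3) /
            P4a7640Y.YM φ (win b c) ^ 2) ^ ((1:ℝ) / 4) := by
  have hlog : 1 ≤ Real.log N := P4a7640L.Brun.log_ge_one hN
  have hl0 : 0 < Real.log N := by linarith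
  have hb : ∀ p x, |φ p x| ≤ 1 := fun p x => (hs p x).le
  set 𝒜 := ((Ioc M N).filter (Good b c t K H)).image (cls b H) with h𝒜
  set X : ℝ := (Real.exp (-P4a7640Y.YM φ (win b c) / 2) + ε) ^ (2 * k) +
          4 * (∫ τ, (P4a7640Y.YY φ a (win b c) τ - P4a7640Y.YM φ (win b c)) ^ 2 ∂P4a7640Y.P3) /
            P4a7640Y.YM φ (win b c) ^ 2 with hX
  have hV0 : 0 ≤ ∫ τ, (P4a7640Y.YY φ a (win b c) τ - P4a7640Y.YM φ (win b c)) ^ 2 ∂P4a7640Y.P3 :=
    integral_nonneg fun τ => sq_nonneg _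
  have hX0 : 0 ≤ X := by
    rw [hX]
    have : 0 ≤ Real.exp (-P4a7640Y.YM φ (win b c) / 2) + ε := add_nonneg (Real.exp_pos _).le hε0
    positivity
  have hE4 : (X ^ ((1:ℝ) / 4)) ^ 4 = X := by
    rw [← Real.rpow_natCast, ← Real.rpow_mul hX0]
    norm_num
  have hadm : ∀ a' ∈ 𝒜, Adm b K H a' := by
    intro a' ha'
    rw [h𝒜, Finset.mem_image] at ha'
    obtain ⟨n, hn, rfl⟩ := ha'
    rw [Finset.mem_filter, Finset.mem_Ioc] at hn
    exact cls_adm (by omega) hn.2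
  have hv0 : ∀ a' n, 0 ≤ (1:ℝ) / n / Real.log N * VA R b H a' n := fun a' n =>
    mul_nonneg (by positivity) (VA_nonneg R b H a' n)
  refine sum_classes 𝒜 (G := fun a' => C₂ * qt b H a')
    (fun a' ha' => mul_pos hC₂ (qt_pos (hadm a' ha'))) (C := C₂ * CS) ?_
    (T := fun a' x => ‖∑ n ∈ Ioc M N, (if Good b c t K H n ∧ cls b H n = a' then
            ((w n / n / Real.log N : ℝ) : ℂ) * Cn n else 0) *
          (fourier (θ n) x * (P4a7640Y.WW φ a H (win b c) n x : ℂ))‖) ?_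
    (fun a' x => norm_nonneg _) (B := ∑ n ∈ Ioc M N, (1:ℝ) / n / Real.log N) ?_ hk
    (Real.rpow_nonneg hX0 _) ?_ hl
  · rw [← Finset.mul_sum]
    exact mul_le_mul_of_nonneg_left (hcs 𝒜 hadm) hC₂.le
  · intro a'
    refine Measurable.norm (Finset.measurable_fun_sum _ fun n _ => ?_)
    refine Measurable.const_mul ?_ _
    exact ((map_continuous (fourier (θ n))).measurable).mul
      (Complex.measurable_ofReal.comp (P4a7640Y.measurable_WW hφ n))
  · intro a' x
    refine (norm_sum_le _ _).trans (Finset.sum_le_sum fun n _ => ?_)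
    rw [norm_mul, norm_mul]
    have e1 : ‖(fourier (θ n) x : ℂ)‖ = 1 := by
      rw [fourier_apply]
      exact Circle.norm_coe _
    have e2 : ‖(P4a7640Y.WW φ a H (win b c) n x : ℂ)‖ ≤ 1 := by
      rw [Complex.norm_real, Real.norm_eq_abs]
      exact P4a7640Y.abs_WW_le hb n x
    have e3 : ‖(if Good b c t K H n ∧ cls b H n = a' then
            ((w n / n / Real.log N : ℝ) : ℂ) * Cn n else 0)‖ ≤ 1 / n / Real.log N := by
      split_ifs
      · rw [norm_mul, Complex.norm_real, Real.norm_eq_abs, abs_div, abs_div, abs_of_pos hl0,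
          abs_of_nonneg (Nat.cast_nonneg (α := ℝ) n)]
        calc |w n| / n / Real.log N * ‖Cn n‖ ≤ 1 / n / Real.log N * 1 := by
              apply mul_le_mul _ (hCn n) (norm_nonneg _) (by positivity)
              exact div_le_div_of_nonneg_right
                (div_le_div_of_nonneg_right (hw n) (Nat.cast_nonneg n)) hl0.le
          _ = _ := mul_one _
      · rw [norm_zero]
        positivity
    rw [e1, one_mul]
    calc _ ≤ 1 / (n:ℝ) / Real.log N * 1 := mul_le_mul e3 e2 (norm_nonneg _) (by positivity)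
      _ = _ := mul_one _
  · intro a' ha'
    have hA := hadm a' ha'
    have hG : 0 < C₂ * qt b H a' := mul_pos hC₂ (qt_pos hA)
    have hQ : ∀ Q ⊆ win b c, |∑ n ∈ Ioc M N, (1:ℝ) / n / Real.log N * VA R b H a' n * uu H Q n| ≤
        C₂ * qt b H a' * (Real.exp (-(2 * H.card * ∑ p ∈ Q, (1:ℝ) / p)) + ε) := by
      intro Q hQ
      refine le_trans (le_of_eq ?_) (hcb a' hA Q hQ)
      congr 1
      exact Finset.sum_congr rfl fun n _ => by ring
    have hsum : ∑ n ∈ Ioc M N, (1:ℝ) / n / Real.log N * VA R b H a' n ≤ 2 * (C₂ * qt b H a') := by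
      have h1 := (le_abs_self _).trans (hQ ∅ (Finset.empty_subset _))
      rw [Finset.sum_empty, mul_zero, neg_zero, Real.exp_zero] at h1
      have h2 : ∑ n ∈ Ioc M N, (1:ℝ) / n / Real.log N * VA R b H a' n * uu H ∅ n =
          ∑ n ∈ Ioc M N, (1:ℝ) / n / Real.log N * VA R b H a' n :=
        Finset.sum_congr rfl fun n _ => by rw [uu_empty, mul_one]
      rw [h2] at h1
      refine h1.trans ?_
      nlinarith
    have hsum0 : 0 ≤ ∑ n ∈ Ioc M N, (1:ℝ) / n / Real.log N * VA R b H a' n :=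
      Finset.sum_nonneg fun n _ => hv0 a' n
    have hu : ∀ n ∈ Ioc M N, ‖(if Good b c t K H n ∧ cls b H n = a' then
            ((w n / n / Real.log N : ℝ) : ℂ) * Cn n else 0)‖ ≤
          (1:ℝ) / n / Real.log N * VA R b H a' n := by
      intro n hn
      rw [Finset.mem_Ioc] at hn
      split_ifs with hg
      · rw [← hg.2, VA_cls R b H (by omega), mul_one, norm_mul, Complex.norm_real,
          Real.norm_eq_abs, abs_div, abs_div, abs_of_pos hl0,
          abs_of_nonneg (Nat.cast_nonneg (α := ℝ) n)]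
        calc |w n| / n / Real.log N * ‖Cn n‖ ≤ 1 / n / Real.log N * 1 := by
              apply mul_le_mul _ (hCn n) (norm_nonneg _) (by positivity)
              exact div_le_div_of_nonneg_right
                (div_le_div_of_nonneg_right (hw n) (Nat.cast_nonneg n)) hl0.le
          _ = _ := mul_one _
      · rw [norm_zero]
        exact hv0 a' n
    have h1 := high_moment (φ := φ) (a := a) (H := H) (D := win b c) hφ hb (Ioc M N)
      (v := fun n => (1:ℝ) / n / Real.log N * VA R b H a' n) (fun n _ => hv0 a' n) hu θ k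
    have h2 := cube_bound (φ := φ) (a := a) (H := H) (D := win b c) hφ hs hne hD (Ioc M N)
      (v := fun n => (1:ℝ) / n / Real.log N * VA R b H a' n) (fun n _ => hv0 a' n) hG hε0 hsum hQ hY k
    rw [hE4]
    have h3 : (∑ n ∈ Ioc M N, (1:ℝ) / n / Real.log N * VA R b H a' n) ^ (6 * k) ≤
        (2 * (C₂ * qt b H a')) ^ (6 * k) := pow_le_pow_left₀ hsum0 hsum _
    have h4 : 0 ≤ (2 * (C₂ * qt b H a')) ^ (2 * k) * X := mul_nonneg (by positivity) hX0
    have h5 : 0 ≤ ∫ τ, (∑ n ∈ Ioc M N, (1:ℝ) / n / Real.log N * VA R b H a' n *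
        P4a7640Y.KK φ a H (win b c) n τ) ^ (2 * k) ∂P4a7640Y.P3 :=
      integral_nonneg fun τ => by
        rw [pow_mul]
        positivity
    calc _ ≤ _ := h1
      _ ≤ (2 * (C₂ * qt b H a')) ^ (6 * k) * ((2 * (C₂ * qt b H a')) ^ (2 * k) * X) :=
          mul_le_mul h3 h2 h5 (by positivity)
      _ = (2 * (C₂ * qt b H a')) ^ (8 * k) * X := by
          rw [← mul_assoc, ← pow_add]
          congr 2
          ring

end Pool.Agent.Lib.P4a7640X
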