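import Mathlib
import Pool.Agent.Lib.P4a7640X.ExpX
import Pool.Agent.Lib.P4a7640X.ScaleA
import Pool.Agent.Lib.P4a7640X.ScaleB
import Pool.Agent.Lib.P4a7640X.ScaleE

/-!
# One scale: the exceptional set
-/

open Filter MeasureTheory Finset Topology

namespace Pool.Agent.Lib.P4a7640X

open Pool.Agent.Lib.P4a7640 Pool.Agent.Lib.P4a7640D

open Classical in
theorem one_scale {H : Finset ℕ} (hH : H.Nonempty) {b c t K M N J R k : ℕ} (hM1 : 1 ≤ M)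
    (hMN : M ≤ N) (hN : 3 ≤ N) (hbc : b ≤ c) {C₂ CS ε lm : ℝ}
    (hw0 : ∀ p : ℕ, p.Prime → b ≤ be p → H.sup id < p)
    (hcb : ∀ a' : ℕ → ℕ, Adm b K H a' → ∀ Q ⊆ win b c,
      |∑ n ∈ Ioc M N, (1:ℝ) / n / Real.log N * (VA R b H a' n * uu H Q n)| ≤
        C₂ * qt b H a' * (Real.exp (-(2 * H.card * ∑ p ∈ Q, (1:ℝ) / p)) + ε))
    (hcs : ∀ 𝒜 : Finset (ℕ → ℕ), (∀ a' ∈ 𝒜, Adm b K H a') → ∑ a' ∈ 𝒜, qt b H a' ≤ CS)
    (hC₂ : 0 < C₂) (hε0 : 0 ≤ ε) (hε1 : ε ≤ 1)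
    {φ : ℕ → UnitAddCircle → ℝ} {a : ℕ → ℕ} {w : ℕ → ℝ}
    (hφ : ∀ p, Measurable (φ p)) (hs : ∀ p x, |φ p x| = 1) (hw : ∀ n, |w n| ≤ 1)
    (hY : 0 < P4a7640Y.YM φ (win b c)) (hk : 1 ≤ k) (hlm0 : 0 < lm)
    {cc : ℕ → Fin J × Fin J → ℂ} (hcc1 : ∀ p ι, ‖cc p ι‖ ≤ 1) (hcc2 : ∀ p x, ‖tp (cc p) x‖ ≤ 1)
    {E₁ : Set UnitAddCircle} {v₁ δ₁ δ₂ δ₃ X : ℝ} (hE₁v : (volume E₁).toReal ≤ v₁)
    (hE₁ : ∀ x ∉ E₁, ∑ n ∈ (Ioc M N).filter (Good b c t K H), (1:ℝ) / n / Real.log N *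
      ∑ p ∈ rest c H n, ‖((φ p (a p • x) : ℝ) : ℂ) - tp (cc p) (a p • x)‖ ≤ δ₃)
    (hh : (∑ n ∈ Icc 1 M, (1:ℝ) / n) / Real.log N ≤ δ₁)
    (hb : (∑ n ∈ (Icc 1 N).filter (fun n => ¬ Good b c t K H n), (1:ℝ) / n) / Real.log N ≤ δ₂)
    (hX : (2 * (C₂ * CS) / lm) ^ (2 * k) *
        ((Real.exp (-P4a7640Y.YM φ (win b c) / 2) + ε) ^ (2 * k) +
          4 * (∫ τ, (P4a7640Y.YY φ a (win b c) τ - P4a7640Y.YM φ (win b c)) ^ 2 ∂P4a7640Y.P3) /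
            P4a7640Y.YM φ (win b c) ^ 2) ^ ((1:ℝ) / 4) ≤ X) :
    ∃ E : Set UnitAddCircle, MeasurableSet E ∧
      (volume E).toReal ≤ v₁ + (Fintype.card (Fin t → Option (Fin J × Fin J)) : ℝ) * X ∧
      ∀ x ∉ E, ∀ y : SS, (∀ p : ℕ, p.Prime → b ≤ be p → sg (y p) = φ p (a p • x)) →
        |FF w H N y| ≤ δ₁ + δ₂ + δ₃ + (Fintype.card (Fin t → Option (Fin J × Fin J)) : ℝ) * lm := by
  -- the expansion
  have hexp' : ∀ n, ∃ (Cn : (Fin t → Option (Fin J × Fin J)) → ℂ)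
      (θ : (Fin t → Option (Fin J × Fin J)) → ℤ),
      (∀ ω, ‖Cn ω‖ ≤ 1) ∧ (Good b c t K H n → ∀ x : UnitAddCircle,
        ∏ p ∈ rest c H n, tp (cc p) (a p • x) = ∑ ω, Cn ω * fourier (θ ω) x) := by
    intro n
    by_cases hn : Good b c t K H n
    · obtain ⟨Cn, θ, h1, h2⟩ := expand _ hn.2.1 cc hcc1 a
      exact ⟨Cn, θ, h1, fun _ => h2⟩
    · exact ⟨fun _ => 0, fun _ => 0, fun _ => by simp, fun h => absurd h hn⟩
  choose Cn θn hCn hCθ using hexp'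
  have hDmem : ∀ p ∈ win b c, p.Prime ∧ b ≤ be p ∧ be p < c := by
    intro p hp
    unfold win at hp
    exact (Finset.mem_filter.1 hp).2
  obtain ⟨F, hF⟩ : ∃ F : (Fin t → Option (Fin J × Fin J)) → Set UnitAddCircle, F = fun ω =>
      {x : UnitAddCircle | lm <
        ∑ a' ∈ ((Ioc M N).filter (Good b c t K H)).image (cls b H),
          ‖∑ n ∈ Ioc M N, (if Good b c t K H n ∧ cls b H n = a' then
              ((w n / n / Real.log N : ℝ) : ℂ) * Cn n ω else 0) *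
            (fourier (θn n ω) x * (P4a7640Y.WW φ a H (win b c) n x : ℂ))‖} := ⟨_, rfl⟩
  have hmeas : ∀ ω : Fin t → Option (Fin J × Fin J), (volume (F ω)).toReal ≤ X := by
    intro ω
    rw [hF]
    exact (class_meas hφ hs hH (R := R) (k := k) (C₂ := C₂) (CS := CS) (ε := ε)
      (fun p hp => ⟨(hDmem p hp).1, hw0 p (hDmem p hp).1 (hDmem p hp).2.1⟩) hcb hcs hC₂ hε0 hε1 hN
      hY hk hlm0 hw (fun n => hCn n ω) (fun n => θn n ω)).trans hX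
  refine ⟨toMeasurable volume (E₁ ∪ ⋃ ω, F ω), measurableSet_toMeasurable _ _, ?_, ?_⟩
  · rw [measure_toMeasurable]
    have h1 : (volume (E₁ ∪ ⋃ ω, F ω)).toReal ≤ (volume E₁).toReal + ∑ ω, (volume (F ω)).toReal := by
      have a1 : volume (E₁ ∪ ⋃ ω, F ω) ≤ volume E₁ + ∑ ω, volume (F ω) := by
        refine (measure_union_le _ _).trans ?_
        gcongr
        exact measure_iUnion_fintype_le _ _
      have a2 : ∑ ω, volume (F ω) ≠ ⊤ := by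
        refine (ENNReal.sum_lt_top.2 fun ω _ => measure_lt_top _ _).ne
      rw [← ENNReal.toReal_sum (fun ω _ => measure_ne_top _ _),
        ← ENNReal.toReal_add (measure_ne_top _ _) a2]
      exact ENNReal.toReal_mono (ENNReal.add_ne_top.2 ⟨measure_ne_top _ _, a2⟩) a1
    refine h1.trans (add_le_add hE₁v ?_)
    calc ∑ ω, (volume (F ω)).toReal
        ≤ ∑ _ω : Fin t → Option (Fin J × Fin J), X := Finset.sum_le_sum fun ω _ => hmeas ω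
      _ = (Fintype.card (Fin t → Option (Fin J × Fin J)) : ℝ) * X := by
          rw [Finset.sum_const, Finset.card_univ, nsmul_eq_mul]
  · intro x hx y hy
    have hx' : x ∉ E₁ ∪ ⋃ ω, F ω := fun h => hx (subset_toMeasurable _ _ h)
    have hx1 : x ∉ E₁ := fun h => hx' (Or.inl h)
    have hx2 : ∀ ω, x ∉ F ω := fun ω h => hx' (Or.inr (Set.mem_iUnion.2 ⟨ω, h⟩))
    have hle := FF_le (H := H) (b := b) (c := c) (t := t) (K := K) (M := M) (N := N) (J := J) hM1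
      hMN hN hbc hw0 hs (w := w) hw (cc := cc) hcc2 (Cn := Cn) (θn := θn)
      (fun n _ hg x => hCθ n hg x) (x := x) (y := y) hy
    refine hle.trans (add_le_add (add_le_add (add_le_add hh hb) (hE₁ x hx1)) ?_)
    have b5 : (Fintype.card (Fin t → Option (Fin J × Fin J)) : ℝ) * lm =
        ∑ _ω : Fin t → Option (Fin J × Fin J), lm := by
      rw [Finset.sum_const, Finset.card_univ, nsmul_eq_mul]
    rw [b5]
    refine Finset.sum_le_sum fun ω _ => ?_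
    have h3 := hx2 ω
    rw [hF] at h3
    exact not_lt.1 h3

end Pool.Agent.Lib.P4a7640X
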