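import Mathlib
import Pool.Agent.Lib.P4a7640X.ClsB
import Pool.Agent.Lib.P4a7640X.ClsSum
import Pool.Agent.Lib.P4a7640X.BadR
import Pool.Agent.Lib.P4a7640X.BadS
import Pool.Agent.Lib.P4a7640X.Trig
import Pool.Agent.Lib.P4a7640X.VarX
import Pool.Agent.Lib.P4a7640X.Params
import Pool.Agent.Lib.P4a7640X.WinM
import Pool.Agent.Lib.P4a7640X.ScaleC
import Pool.Agent.Lib.P4a7640X.ScaleD
import Pool.Agent.Lib.P4a7640X.ScaleF
import Pool.Agent.Lib.P4a7640X.ScaleG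

/-!
# The bound at one scale, on the circle
-/

open Filter MeasureTheory Finset Topology

namespace Pool.Agent.Lib.P4a7640X

open Pool.Agent.Lib.P4a7640 Pool.Agent.Lib.P4a7640D

/-- for a sign function `φ p` and frequencies `a p`, outside a small set: all `y` that agree with the
signs at the primes of the blocks from `be N - j` on have a small correlation -/
theorem circle_bound {K₀ κ C : ℝ} (hK₀ : 0 < K₀) (hκ : 0 < κ) (hκ1 : κ ≤ 1) (hC : 0 < C)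
    {H : Finset ℕ} (hH : H.Nonempty) {η : ℝ} (hη : 0 < η) : ∃ (V₀ : ℝ) (i j₀ : ℕ), ∀ j ≥ j₀,
    ∃ c' : ℝ, 0 < c' ∧ ∀ᶠ N : ℕ in atTop, ∀ (φ : ℕ → UnitAddCircle → ℝ) (a : ℕ → ℕ) (w : ℕ → ℝ),
      (∀ p, Measurable (φ p)) → (∀ p x, |φ p x| = 1) → (∀ p, P4a7640Y.LL1 C (φ p)) →
      (∀ p, a p ≠ 0) → P4a7640K.CntN K₀ κ a → (∀ n, |w n| ≤ 1) →
      V₀ ≤ P4a7640Y.YM φ (win (be N - j) (be N - i)) →
      ∃ E : Set UnitAddCircle, MeasurableSet E ∧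
        (volume E).toReal ≤ Real.exp (-(c' * Real.log N)) ∧
        ∀ x ∉ E, ∀ y : SS, (∀ p : ℕ, p.Prime → be N - j ≤ be p → sg (y p) = φ p (a p • x)) →
          |FF w H N y| ≤ η := by
  classical
  obtain ⟨C₁, hC₁, hcb⟩ := class_bound
  obtain ⟨C₂, hC₂, hcb⟩ := hcb H
  obtain ⟨CS, hCS, hcs⟩ := class_sum H
  obtain ⟨CR, hCR, hrest⟩ := bad_rest H
  obtain ⟨CB, hCB, hsm⟩ := bad_sm H
  obtain ⟨C₀, hC₀, herr⟩ := err_bound hK₀ hκ hκ1 hC H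
  obtain ⟨CV, hCV, hvar⟩ := var_YY hK₀ hκ hκ1
  obtain ⟨i₀, hhead⟩ := ScaleE.head (δ := η / 8) (by positivity)
  obtain ⟨A, hAdef⟩ : ∃ A : ℝ, A = 1 + 8 * CR / η + 16 * C₀ / η +
    2 * Real.exp 4 * (16 * C₂ * CS / η) ^ 4 := ⟨_, rfl⟩
  have t1 : 0 ≤ 8 * CR / η := by positivity
  have t2 : 0 ≤ 16 * C₀ / η := by positivity
  have t3 : 0 ≤ 2 * Real.exp 4 * (16 * C₂ * CS / η) ^ 4 := by positivity
  have hA1 : 1 ≤ A := by linarith
  obtain ⟨R, t, J, hJ, hR1, hR2, ht, hJ2, hR3⟩ :=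
    params (A := A) (C' := 2 * (H.card + 1 : ℕ) * C₁) hA1 (by positivity) i₀
  obtain ⟨i, hi⟩ : ∃ i : ℕ, i = i₀ + 2 + Nat.clog 2 (R + 2) := ⟨_, rfl⟩
  rw [← hi] at ht hJ2
  obtain ⟨x₀, hx₀⟩ := hcb (Real.exp (-(R:ℝ))) R (Real.exp_pos _) hR1 hR2
  obtain ⟨m₀, hm₀⟩ : ∃ m₀ : ℕ, CB * 2 ^ (i₀ + 3 + H.card) / 2 ^ m₀ ≤ η / 16 := by
    obtain ⟨m₀, hm₀⟩ := exists_pow_lt_of_lt_one (y := (1/2:ℝ))
      (show (0:ℝ) < η / 16 / (CB * 2 ^ (i₀ + 3 + H.card)) by positivity) (by norm_num)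
    refine ⟨m₀, ?_⟩
    rw [lt_div_iff₀ (by positivity)] at hm₀
    rw [div_eq_mul_inv, ← inv_pow, ← one_div, mul_comm]
    exact hm₀.le
  refine ⟨2 * R + 1, i, max i m₀, fun j hj => ?_⟩
  have hij : i ≤ j := (le_max_left _ _).trans hj
  have hmj : m₀ ≤ j := (le_max_right _ _).trans hj
  -- the number of the exponentials
  obtain ⟨W, hW⟩ : ∃ W : ℝ, W = (Fintype.card (Fin t → Option (Fin J × Fin J)) : ℝ) := ⟨_, rfl⟩
  have hWr : W = ((J:ℝ) ^ 2 + 1) ^ t := by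
    rw [hW]
    simp only [Fintype.card_pi, Finset.prod_const, Finset.card_univ, Fintype.card_fin,
      Fintype.card_option, Fintype.card_prod]
    push_cast
    ring
  have hW0 : 0 < W := by rw [hWr]; positivity
  obtain ⟨lm, hlm⟩ : ∃ lm : ℝ, lm = η / (8 * W) := ⟨_, rfl⟩
  have hlm0 : 0 < lm := by rw [hlm]; positivity
  obtain ⟨c'₁, hc'₁, B₁, hB₁, herr⟩ := herr i J hJ (η / 16) (by positivity)
  obtain ⟨CM, hCM, htop⟩ := top_mass_le j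
  -- the choice of the exponent
  have hc₁0 : 0 < κ / 3 * (1/2) ^ (j + 1) := by positivity
  have hB₂0 : 0 < 4 * (CV * C * (1 + CM) ^ 2) := by positivity
  have hq : 0 < 2 * (C₂ * CS) / lm := by positivity
  have hnum : (2 * (C₂ * CS) / lm) ^ 4 * (2 * Real.exp (-(R:ℝ))) ≤ Real.exp (-4) := by
    rw [hlm]
    exact ScaleG.num_cond (A := A) hη hW0 (Real.exp_pos _) (by linarith) (by rw [hWr]; exact hR3)
  obtain ⟨c₂, hc₂, B', hB', hkk⟩ := numeric hq (by positivity) hnum hB₂0 hc₁0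
  -- the exponent of the measure
  have hmin : 0 < min c'₁ c₂ := lt_min hc'₁ hc₂
  refine ⟨min c'₁ c₂ / 2, by positivity, ?_⟩
  filter_upwards [hhead, bad_sq H j (ε := η / 16) (by positivity), hrest i t,
    hsm (i₀ + 3 + H.card) j, herr, htop, hkk, ScaleG.measure_fin hB₁ hc'₁ hW0 hB' hc₂,
    eventually_ge_atTop 3,
    ScaleE.tendsto_be.eventually_ge_atTop (j + w0 H + x₀ + i₀ + (i₀ + 3 + H.card) + i)]
    with N n1 n2 n3 n4 n5 n6 n7 n8 n9 n10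
  intro φ a w hφ hs hL ha hcnt hw hYM
  have hN2 : 2 ≤ N := by omega
  have hlog : 0 < Real.log N := Real.log_pos (by exact_mod_cast (by omega : 1 < N))
  have hR0 : (0:ℝ) ≤ R := Nat.cast_nonneg _
  have hYM0 : 1 ≤ P4a7640Y.YM φ (win (be N - j) (be N - i)) := by linarith
  -- the large primes
  have hw0 : ∀ p : ℕ, p.Prime → be N - j ≤ be p → w0 H ≤ p := by
    intro p hp hb
    have h1 := ScaleE.pow_be_le hp.two_le
    have h2 : be p < 2 ^ 2 ^ be p := Nat.lt_two_pow_self.trans Nat.lt_two_pow_self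
    omega
  have hsup : ∀ p : ℕ, p.Prime → be N - j ≤ be p → H.sup id < p := by
    intro p hp hb
    have h1 := hw0 p hp hb
    unfold w0 at h1
    omega
  -- the trigonometric approximations
  have htrig : ∀ p, ∃ c : Fin J × Fin J → ℂ, (∀ ι, ‖c ι‖ ≤ 1) ∧ (∀ x, ‖tp c x‖ ≤ 1) ∧
      ∫ x, ‖(φ p x : ℂ) - tp c x‖ ≤ C / Real.sqrt J ∧
      P4a7640Y.LL1 (2 * C) (fun x => ‖(φ p x : ℂ) - tp c x‖) :=
    fun p => trig (hφ p) (fun x => (hs p x).le) (hL p) hJ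
  choose cc hcc1 hcc2 hcc3 hcc4 using htrig
  obtain ⟨E₁, hE₁m, hE₁v, hE₁⟩ := n5 φ a cc hφ hs ha hcnt hcc2 hcc3 hcc4
  obtain ⟨k, hk, hkV⟩ := n7
  have hIVb := ScaleG.var_win hκ hC hCV hvar hN2 (show j ≤ be N by omega)
    (show be N - i ≤ be N by omega) n6 hφ hs hL ha hcnt
  -- the levels
  have hM1 : 1 ≤ 2 ^ 2 ^ (be N - i₀) := Nat.one_le_two_pow
  have hMN : 2 ^ 2 ^ (be N - i₀) ≤ N :=
    (Nat.pow_le_pow_right (by norm_num) (Nat.pow_le_pow_right (by norm_num) (by omega))).trans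
      (ScaleE.pow_be_le hN2)
  have hMR : 2 ^ (2 ^ (be N - i + 2) * (R + 2)) ≤ 2 ^ 2 ^ (be N - i₀) := by
    rw [hi]
    exact ScaleE.pow_clog (by omega)
  have hMx : x₀ ≤ 2 ^ 2 ^ (be N - i₀) := by
    have h1 : be N - i₀ < 2 ^ 2 ^ (be N - i₀) := Nat.lt_two_pow_self.trans Nat.lt_two_pow_self
    omega
  have hMK : (2 ^ 2 ^ (be N - (i₀ + 3 + H.card))) ^ (8 * H.card) ≤ 2 ^ 2 ^ (be N - i₀) :=
    ScaleE.pow_card (by omega)
  have hbc : be N - j ≤ be N - i := by omega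
  obtain ⟨M, hM⟩ : ∃ M : ℕ, M = 2 ^ 2 ^ (be N - i₀) := ⟨_, rfl⟩
  obtain ⟨K, hK⟩ : ∃ K : ℕ, K = 2 ^ 2 ^ (be N - (i₀ + 3 + H.card)) := ⟨_, rfl⟩
  obtain ⟨b, hb⟩ : ∃ b : ℕ, b = be N - j := ⟨_, rfl⟩
  obtain ⟨c, hc⟩ : ∃ c : ℕ, c = be N - i := ⟨_, rfl⟩
  rw [← hK] at hMK n4
  rw [← hM] at hM1 hMN hMR hMx hMK n1
  rw [← hb] at hYM hYM0 hw0 hsup hIVb hbc n2 n4 ⊢
  rw [← hc] at hYM hYM0 hE₁ hIVb hMR hbc n3
  clear hM hK hb hc
  have hV0 : 0 ≤ 4 * (∫ τ, (P4a7640Y.YY φ a (win b c) τ - P4a7640Y.YM φ (win b c)) ^ 2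
      ∂P4a7640Y.P3) / P4a7640Y.YM φ (win b c) ^ 2 := by
    have h1 : 0 ≤ ∫ τ, (P4a7640Y.YY φ a (win b c) τ - P4a7640Y.YM φ (win b c)) ^ 2 ∂P4a7640Y.P3 :=
      integral_nonneg fun τ => sq_nonneg _
    positivity
  have hVb : 4 * (∫ τ, (P4a7640Y.YY φ a (win b c) τ - P4a7640Y.YM φ (win b c)) ^ 2
      ∂P4a7640Y.P3) / P4a7640Y.YM φ (win b c) ^ 2 ≤
      4 * (CV * C * (1 + CM) ^ 2) * Real.exp (-((κ / 3 * (1/2) ^ (j + 1)) * Real.log N)) := by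
    have h0 : 0 ≤ ∫ τ, (P4a7640Y.YY φ a (win b c) τ - P4a7640Y.YM φ (win b c)) ^ 2 ∂P4a7640Y.P3 :=
      integral_nonneg fun τ => sq_nonneg _
    refine (div_le_self (by positivity) (one_le_pow₀ hYM0)).trans ?_
    rw [mul_assoc (4:ℝ)]
    exact mul_le_mul_of_nonneg_left hIVb (by norm_num)
  have hexpR : Real.exp (-P4a7640Y.YM φ (win b c) / 2) + Real.exp (-(R:ℝ)) ≤
      2 * Real.exp (-(R:ℝ)) := by
    have : Real.exp (-P4a7640Y.YM φ (win b c) / 2) ≤ Real.exp (-(R:ℝ)) := by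
      apply Real.exp_le_exp.2
      linarith
    linarith
  have hXb : (2 * (C₂ * CS) / lm) ^ (2 * k) *
        ((Real.exp (-P4a7640Y.YM φ (win b c) / 2) + Real.exp (-(R:ℝ))) ^ (2 * k) +
          4 * (∫ τ, (P4a7640Y.YY φ a (win b c) τ - P4a7640Y.YM φ (win b c)) ^ 2 ∂P4a7640Y.P3) /
            P4a7640Y.YM φ (win b c) ^ 2) ^ ((1:ℝ) / 4) ≤ B' * Real.exp (-(c₂ * Real.log N)) := by
    refine le_trans ?_ (hkV _ hV0 hVb)
    refine mul_le_mul_of_nonneg_left ?_ (by positivity)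
    refine Real.rpow_le_rpow (add_nonneg (by positivity) hV0) ?_ (by norm_num)
    exact add_le_add (pow_le_pow_left₀ (by positivity) hexpR _) le_rfl
  have r1 : CR * ((i:ℝ) + 1) / (t + 1) ≤ η / 8 := by
    rw [div_le_iff₀ (by positivity)]
    have r2 : 8 * CR / η * ((i:ℝ) + 1) ≤ t + 1 :=
      le_trans (mul_le_mul_of_nonneg_right (by linarith) (by positivity)) ht
    have r3 : CR * ((i:ℝ) + 1) = η / 8 * (8 * CR / η * ((i:ℝ) + 1)) := by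
      field_simp
    rw [r3]
    exact mul_le_mul_of_nonneg_left r2 (by positivity)
  have r2 : CB * 2 ^ (i₀ + 3 + H.card) / 2 ^ j ≤ η / 16 := by
    refine le_trans ?_ hm₀
    exact div_le_div_of_nonneg_left (by positivity) (by positivity)
      (pow_le_pow_right₀ (by norm_num) hmj)
  have b4 : C₀ * ((i:ℝ) + 1) / Real.sqrt J ≤ η / 16 := by
    have hJ0 : 0 < Real.sqrt J := Real.sqrt_pos.2 (by exact_mod_cast hJ)
    rw [div_le_iff₀ hJ0]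
    have r2 : 16 * C₀ / η * ((i:ℝ) + 1) ≤ Real.sqrt J :=
      le_trans (mul_le_mul_of_nonneg_right (by linarith) (by positivity)) hJ2
    have r3 : C₀ * ((i:ℝ) + 1) = η / 16 * (16 * C₀ / η * ((i:ℝ) + 1)) := by
      field_simp
    rw [r3]
    exact mul_le_mul_of_nonneg_left r2 (by positivity)
  have n2' : (∑ n ∈ (Icc 1 N).filter (fun n => ∃ h ∈ H, ∃ p : ℕ, p.Prime ∧ b ≤ be p ∧
      p ^ 2 ∣ n + h), (1:ℝ) / n) / Real.log N ≤ η / 16 := by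
    convert n2 using 3
  have n3' : (∑ n ∈ (Icc 1 N).filter (fun n => t < (rest c H n).card), (1:ℝ) / n) / Real.log N ≤
      η / 8 := by
    refine le_trans ?_ r1
    convert n3 using 3
  have n4' : (∑ n ∈ (Icc 1 N).filter (fun n => ∃ h ∈ H, K < sm b (n + h)), (1:ℝ) / n) /
      Real.log N ≤ η / 16 := by
    refine le_trans ?_ r2
    convert n4 using 3
  obtain ⟨E, hEm, hEv, hE⟩ := one_scale hH (b := b) (c := c) (t := t) (K := K) (M := M) (N := N)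
    (J := J) (R := R) (k := k) hM1 hMN n9 hbc (C₂ := C₂) (CS := CS) (ε := Real.exp (-(R:ℝ)))
    (lm := lm) hsup
    (fun a' ha' Q hQ => hx₀ b c K M N a' Q hbc ha'
      (fun p hp => ⟨(ScaleG.win_mem (hQ hp)).1,
        hw0 p (ScaleG.win_mem (hQ hp)).1 (ScaleG.win_mem (hQ hp)).2.1,
        (ScaleG.win_mem (hQ hp)).2.1, (ScaleG.win_mem (hQ hp)).2.2⟩) hMR hMx hMK hMN n9)
    (fun 𝒜 h𝒜 => hcs _ _ 𝒜 h𝒜) hC₂ (Real.exp_pos _).le (Real.exp_le_one_iff.2 (by linarith))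
    (φ := φ) (a := a) (w := w) hφ hs hw (by linarith) hk hlm0 (cc := cc) hcc1 hcc2 (E₁ := E₁)
    hE₁v (δ₃ := η / 16 + η / 16)
    (fun x hx => (hE₁ x hx b t K M hM1).trans (add_le_add b4 le_rfl)) n1
    (ScaleG.bad_all hlog n2' n3' n4') hXb
  refine ⟨E, hEm, hEv.trans ?_, fun x hx y hy => (hE x hx y hy).trans ?_⟩
  · rw [← hW]
    exact n8
  · rw [← hW, hlm]
    have : W * (η / (8 * W)) = η / 8 := by
      field_simp
    rw [this]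
    linarith

end Pool.Agent.Lib.P4a7640X
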