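import Mathlib
import Pool.Agent.Lib.P4a7640X.RealX
import Pool.Agent.Lib.P4a7640V.Par
import Pool.Agent.Lib.P4a7640V.Grid
import Pool.Agent.Lib.P4a7640V.CmpS
import Pool.Agent.Lib.P4a7640V.Neg

/-!
# All sets at once

`G = ⌈exp (c₁ log N)⌉₊`, `L = ⌈exp (2 c₁ log N)⌉₊` with `c₁` small against `c' / (6 k)` and `2^(-j)`.
Outside a set of measure `exp (-c log N)`: (1) the bound `real_bound` with `η / 2`, `δ / 2`, holds for
all the `(G + 1) ^ (6 k)` grid sets `GS G (3 k) i` with `δ / 2 ≤ dl` (union bound); (2) all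
`TC H N (2 ^ 2 ^ (be N - j) / 2) G i (fun p => α * a p)`, `i < G`, are at most `η / (8 k + 8)` (`tc_neg` and
Markov). Given `A`, take the grid set of `grid` with `P = ∅`; `dl_grid`. Let `y'` be `y` for
`be p < be N - j` and `g p * xr (grid set)` otherwise; `y` and `y'` differ only at primes with
`be N - j ≤ be p` whose `α a_p` lies in the cells of `E`; as in `cmp_sets`,
`|FF y - FF y'| ≤ 2 ∑ i ∈ E, TC`.
-/

open Filter MeasureTheory Finset Topology

namespace Pool.Agent.Lib.P4a7640X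

open Pool.Agent.Lib.P4a7640 Pool.Agent.Lib.P4a7640D

namespace AllAAux

open Pool.Agent.Lib.P4a7640M Pool.Agent.Lib.P4a7640V

/-- two sign functions that differ only at large primes in the cells of `E` -/
lemma cmp_gen {H : Finset ℕ} {N : ℕ} (hN : 3 ≤ N) {w : ℕ → ℝ} (hw : ∀ n, |w n| ≤ 1) {x x' : SS}
    {t : ℕ → ℝ} {y : ℝ} {G : ℕ} {E : Finset ℕ}
    (h : ∀ p : ℕ, p.Prime → x p ≠ x' p → y < (p:ℝ) ∧ cell G (t p) ∈ E) :
    |FF w H N x - FF w H N x'| ≤ 2 * ∑ i ∈ E, TC H N y G i t := by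
  classical
  have hlog0 : 0 < Real.log N := Real.log_pos (by exact_mod_cast (by omega : 1 < N))
  have hcI : ∀ i x, 0 ≤ cI G i x := by
    intro i x
    unfold cI
    split_ifs <;> norm_num
  have hone : ∀ p : ℕ, p.Prime → |sg (x p) - sg (x' p)| ≤
      if y < (p:ℝ) then 2 * ∑ i ∈ E, cI G i (t p) else 0 := by
    intro p hp
    have hS : 0 ≤ 2 * ∑ i ∈ E, cI G i (t p) :=
      mul_nonneg (by norm_num) (Finset.sum_nonneg fun i _ => hcI i _)
    have hR : 0 ≤ if y < (p:ℝ) then 2 * ∑ i ∈ E, cI G i (t p) else 0 := by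
      split_ifs
      · exact hS
      · exact le_rfl
    by_cases he : x p = x' p
    · rw [he, sub_self, abs_zero]
      exact hR
    · obtain ⟨hy, hc⟩ := h p hp he
      rw [if_pos hy]
      have e1 : (1:ℝ) ≤ ∑ i ∈ E, cI G i (t p) := by
        have e2 := Finset.single_le_sum (f := fun i => cI G i (t p)) (fun i _ => hcI i _) hc
        have e3 : cI G (cell G (t p)) (t p) = 1 := by
          unfold cI
          rw [if_pos rfl]
        calc (1:ℝ) = cI G (cell G (t p)) (t p) := e3.symm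
          _ ≤ _ := e2
      calc |sg (x p) - sg (x' p)| ≤ |sg (x p)| + |sg (x' p)| := abs_sub _ _
        _ = 2 := by rw [abs_sg, abs_sg]; norm_num
        _ ≤ _ := by linarith
  have hpt : |FF w H N x - FF w H N x'| ≤
      ∑ n ∈ Finset.Icc 1 N, 1 / n / Real.log N * ∑ p ∈ oddT (MM H n),
        if y < (p:ℝ) then 2 * ∑ i ∈ E, cI G i (t p) else 0 := by
    rw [FF_eq, FF_eq, ← Finset.sum_sub_distrib]
    refine (Finset.abs_sum_le_sum_abs _ _).trans ?_
    refine Finset.sum_le_sum fun n hn => ?_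
    rw [← mul_sub, abs_mul]
    have hwn : |w n / n / Real.log N| ≤ 1 / n / Real.log N := by
      rw [abs_div, abs_div, abs_of_pos hlog0, abs_of_nonneg (Nat.cast_nonneg (α := ℝ) n)]
      exact div_le_div_of_nonneg_right (div_le_div_of_nonneg_right (hw n) (Nat.cast_nonneg n)) hlog0.le
    refine mul_le_mul hwn ?_ (abs_nonneg _) (by positivity)
    unfold chiT
    refine (P4a7640Y.abs_prod_sub_le _ (fun p _ => (abs_sg _).le) (fun p _ => (abs_sg _).le)).trans ?_
    exact Finset.sum_le_sum fun p hp => hone p (prime_of_mem_oddT hp)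
  refine hpt.trans (le_of_eq ?_)
  unfold TC
  rw [← Finset.sum_div, Finset.sum_comm, ← mul_div_assoc, Finset.mul_sum, Finset.sum_div]
  refine Finset.sum_congr rfl fun n _ => ?_
  rw [← Finset.sum_filter, ← Finset.mul_sum, Finset.sum_comm, ← Finset.mul_sum]
  ring

/-- the lower end of the blocks -/
lemma le_of_be {p m : ℕ} (hp : p.Prime) (h : m ≤ be p) : 2 ^ 2 ^ m ≤ p := by
  have h1 : Nat.log 2 p ≠ 0 := by
    have := Nat.log_pos (b := 2) (by norm_num) hp.two_le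
    omega
  have h2 : 2 ^ m ≤ Nat.log 2 p := by
    refine (Nat.pow_le_pow_right (by norm_num) h).trans ?_
    exact Nat.pow_log_le_self 2 h1
  exact (Nat.pow_le_pow_right (by norm_num) h2).trans (Nat.pow_log_le_self 2 hp.ne_zero)

/-- `2 ^ 2 ^ (be N - j)` is a power of `N` -/
lemma scale_ge (j : ℕ) {N : ℕ} (hN : 1 ≤ N) :
    Real.exp (Real.log N / 2 ^ (j + 1)) ≤ (2:ℝ) ^ (2 ^ (be N - j) : ℕ) := by
  have h1 : N < 2 ^ 2 ^ (be N + 1) := by
    have h2 : Nat.log 2 N < 2 ^ (be N + 1) := Nat.lt_pow_succ_log_self (by norm_num) _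
    have h3 : N < 2 ^ (Nat.log 2 N + 1) := Nat.lt_pow_succ_log_self (by norm_num) _
    exact h3.trans_le (Nat.pow_le_pow_right (by norm_num) h2)
  have hN0 : (0:ℝ) < N := by exact_mod_cast hN
  have h2 : Real.log N ≤ 2 ^ (be N + 1) * Real.log 2 := by
    have h3 : (N:ℝ) ≤ (2:ℝ) ^ (2 ^ (be N + 1) : ℕ) := by exact_mod_cast h1.le
    have h4 := Real.log_le_log hN0 h3
    rw [Real.log_pow] at h4
    push_cast at h4
    exact h4
  have h3 : (2:ℝ) ^ (be N) ≤ 2 ^ (be N - j) * 2 ^ j := by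
    rw [← pow_add]
    exact pow_le_pow_right₀ (by norm_num) (by omega)
  have h4 : Real.log N / 2 ^ (j + 1) ≤ 2 ^ (be N - j) * Real.log 2 := by
    rw [div_le_iff₀ (by positivity)]
    refine h2.trans ?_
    have h5 : (0:ℝ) ≤ Real.log 2 := Real.log_nonneg (by norm_num)
    calc (2:ℝ) ^ (be N + 1) * Real.log 2 = 2 ^ (be N) * (2 * Real.log 2) := by ring
      _ ≤ (2 ^ (be N - j) * 2 ^ j) * (2 * Real.log 2) :=
          mul_le_mul_of_nonneg_right h3 (by positivity)
      _ = _ := by ring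
  calc Real.exp (Real.log N / 2 ^ (j + 1)) ≤ Real.exp (2 ^ (be N - j) * Real.log 2) :=
        Real.exp_le_exp.2 h4
    _ = (2:ℝ) ^ (2 ^ (be N - j) : ℕ) := by
        have h5 : (2:ℝ) ^ (be N - j) * Real.log 2 = ((2 ^ (be N - j) : ℕ) : ℝ) * Real.log 2 := by
          push_cast
          rfl
        rw [h5, Real.exp_nat_mul, Real.exp_log (by norm_num)]

lemma tendsto_logN : Tendsto (fun N : ℕ => Real.log N) atTop atTop :=
  Real.tendsto_log_atTop.comp tendsto_natCast_atTop_atTop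

/-- `K (log log N)^2` is smaller than a power of `N` -/
lemma ev_lam (K : ℝ) {c : ℝ} (hc : 0 < c) :
    ∀ᶠ N : ℕ in atTop, K * lam N ^ 2 ≤ Real.exp (c * Real.log N) := by
  have h1 : Tendsto (fun x : ℝ => x ^ 2 * Real.exp (-x)) atTop (𝓝 0) :=
    Real.tendsto_pow_mul_exp_neg_atTop_nhds_zero 2
  have h2 : Tendsto (fun N : ℕ => c * Real.log N) atTop atTop := tendsto_logN.const_mul_atTop hc
  have h3 := (h1.comp h2).eventually (gt_mem_nhds (show (0:ℝ) < c ^ 2 / (|K| + 1) by positivity))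
  filter_upwards [h3, tendsto_logN.eventually_ge_atTop 1] with N hN hlog
  have hK : 0 < |K| + 1 := by positivity
  have hl0 : 0 ≤ lam N := Real.log_nonneg hlog
  have hl1 : lam N ≤ Real.log N := by
    have := Real.log_le_sub_one_of_pos (show (0:ℝ) < Real.log N by linarith)
    unfold lam
    linarith
  have h4 : (c * Real.log N) ^ 2 * Real.exp (-(c * Real.log N)) < c ^ 2 / (|K| + 1) := hN
  have h5 : lam N ^ 2 ≤ Real.log N ^ 2 := pow_le_pow_left₀ hl0 hl1 2
  have h6 : (|K| + 1) * Real.log N ^ 2 ≤ Real.exp (c * Real.log N) := by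
    rw [lt_div_iff₀ hK, Real.exp_neg] at h4
    have h7 : (c * Real.log N) ^ 2 * (Real.exp (c * Real.log N))⁻¹ * (|K| + 1) =
        c ^ 2 * ((|K| + 1) * Real.log N ^ 2 / Real.exp (c * Real.log N)) := by
      field_simp
    rw [h7] at h4
    have h8 : (|K| + 1) * Real.log N ^ 2 / Real.exp (c * Real.log N) < 1 := by
      have hc2 : 0 < c ^ 2 := by positivity
      by_contra hcon
      rw [not_lt] at hcon
      have := mul_le_mul_of_nonneg_left hcon hc2.le
      linarith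
    rw [div_lt_one (Real.exp_pos _)] at h8
    exact h8.le
  calc K * lam N ^ 2 ≤ (|K| + 1) * lam N ^ 2 :=
        mul_le_mul_of_nonneg_right (by linarith [le_abs_self K]) (by positivity)
    _ ≤ (|K| + 1) * Real.log N ^ 2 := mul_le_mul_of_nonneg_left h5 hK.le
    _ ≤ _ := h6

/-- a constant is smaller than a power of `N` -/
lemma ev_const (K : ℝ) {c : ℝ} (hc : 0 < c) :
    ∀ᶠ N : ℕ in atTop, K ≤ Real.exp (c * Real.log N) :=
  (Real.tendsto_exp_atTop.comp (tendsto_logN.const_mul_atTop hc)).eventually_ge_atTop K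

/-- Markov's inequality on the interval -/
lemma markov {S : ℝ → ℝ} (hm : Measurable S) (h0 : ∀ α, 0 ≤ S α) {M : ℝ} (hM : ∀ α, S α ≤ M) {u e I : ℝ}
    (he : 0 < e) (hI : ∫ α in u..(u + 1), S α ≤ I) :
    (volume ({α | e ≤ S α} ∩ Set.Ico u (u + 1))).toReal ≤ I / e := by
  have hle : u ≤ u + 1 := by linarith
  have hint : Integrable S (volume.restrict (Set.Ico u (u + 1))) := by
    refine Integrable.of_bound hm.aestronglyMeasurable M (Eventually.of_forall fun α => ?_)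
    rw [Real.norm_eq_abs, abs_of_nonneg (h0 α)]
    exact hM α
  have h1 := mul_meas_ge_le_integral_of_nonneg (μ := volume.restrict (Set.Ico u (u + 1)))
    (Eventually.of_forall h0) hint e
  have h2 : (volume.restrict (Set.Ico u (u + 1))).real {α | e ≤ S α} =
      (volume ({α | e ≤ S α} ∩ Set.Ico u (u + 1))).toReal := by
    rw [measureReal_def, Measure.restrict_apply (measurableSet_le measurable_const hm)]
  have h3 : ∫ α, S α ∂(volume.restrict (Set.Ico u (u + 1))) = ∫ α in u..(u + 1), S α := by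
    rw [intervalIntegral.integral_of_le hle, integral_Ico_eq_integral_Ioo,
      integral_Ioc_eq_integral_Ioo]
  rw [h2, h3] at h1
  rw [le_div_iff₀ he, mul_comm]
  exact h1.trans hI

/-- one point: from the grid sets to all sets -/
lemma bound_of {k : ℕ} {a : ℕ → ℝ} {δ : ℝ} {H : Finset ℕ} {N m : ℕ} (hN : 3 ≤ N) {w : ℕ → ℝ}
    (hw : ∀ n, |w n| ≤ 1) {η : ℝ} (hη : 0 < η) {α : ℝ} {g : ℕ → ℤˣ} {G : ℕ} (hG : 0 < G)
    (hGδ : (2 * k : ℝ) / G ≤ δ / 2) {y₀ : ℝ} (hy₀ : y₀ < (2:ℝ) ^ (2 ^ m : ℕ))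
    (h1 : ∀ i : Fin (3 * k) → Fin (G + 1) × Fin (G + 1), δ / 2 ≤ P4a7640Y.dl (GS G (3 * k) i) →
      ∀ y : SS, (∀ p : ℕ, p.Prime → m ≤ be p →
        y p = g p * P4a7640K.xr (AN a (GS G (3 * k) i)) (fun p => |a p|) α p) → |FF w H N y| ≤ η / 2)
    (h2 : ∀ c < G, TC H N y₀ G c (fun p => α * a p) ≤ η / (8 * k + 8))
    {A : Set ℝ} (hA : P4a7640Y.KInt k A) (hδA : δ ≤ P4a7640Y.dl A) {y : SS}
    (hy : ∀ p : ℕ, p.Prime → m ≤ be p → y p = g p * P4a7640K.xr (fun _ => A) a α p) :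
    |FF w H N y| ≤ η := by
  classical
  obtain ⟨i, -, E₀, hcard, hE⟩ := grid hA hG ∅ (fun p => α * a p) (by simp)
  have hG0 : (0:ℝ) < G := by exact_mod_cast hG
  have hcard' : (E₀.card : ℝ) ≤ 2 * k := by exact_mod_cast hcard
  have hdl : δ / 2 ≤ P4a7640Y.dl (GS G (3 * k) i) := by
    have h3 := dl_grid hA.meas (kint_GS G (3 * k) i).meas hG hE
    have h4 : (E₀.card : ℝ) / G ≤ 2 * k / G := div_le_div_of_nonneg_right hcard' hG0.le
    linarith
  set y' : SS := fun p => if m ≤ be p then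
    g p * P4a7640K.xr (AN a (GS G (3 * k) i)) (fun p => |a p|) α p else y p with hy'
  have h3 := h1 i hdl y' (fun p _ hm => by simp only [hy', if_pos hm])
  have h4 : |FF w H N y - FF w H N y'| ≤ 2 * ∑ c ∈ E₀, TC H N y₀ G c (fun p => α * a p) := by
    refine cmp_gen hN hw fun p hp hne => ?_
    by_cases hm : m ≤ be p
    · constructor
      · have h5 : ((2 ^ 2 ^ m : ℕ) : ℝ) ≤ p := by exact_mod_cast le_of_be hp hm
        push_cast at h5
        exact hy₀.trans_le h5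
      · by_contra hc
        apply hne
        simp only [hy', if_pos hm]
        rw [hy p hp hm, xr_AN]
        have h6 := hE (α * a p) hc
        have h7 : P4a7640K.xr (fun _ => A) a α p = P4a7640K.xr (fun _ => GS G (3 * k) i) a α p := by
          unfold P4a7640K.xr
          by_cases h8 : Int.fract (α * a p) ∈ A
          · rw [if_pos h8, if_pos (h6.1 h8)]
          · rw [if_neg h8, if_neg fun h9 => h8 (h6.2 h9)]
        rw [h7]
    · exact absurd (by simp only [hy', if_neg hm]) hne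
  have h5 : ∑ c ∈ E₀, TC H N y₀ G c (fun p => α * a p) ≤ 2 * k * (η / (8 * k + 8)) := by
    have hη' : 0 ≤ η / (8 * k + 8) := by positivity
    calc ∑ c ∈ E₀, TC H N y₀ G c (fun p => α * a p) ≤ ∑ _c ∈ E₀, η / (8 * k + 8) := by
          refine Finset.sum_le_sum fun c _ => ?_
          by_cases hc : c < G
          · exact h2 c hc
          · rw [TC_zero hG (not_lt.mp hc)]
            exact hη'
      _ = E₀.card * (η / (8 * k + 8)) := by rw [Finset.sum_const, nsmul_eq_mul]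
      _ ≤ _ := mul_le_mul_of_nonneg_right hcard' hη'
  have h6 : 2 * (2 * k * (η / (8 * k + 8))) ≤ η / 2 := by
    have h7 : (0:ℝ) < 8 * k + 8 := by positivity
    rw [show 2 * (2 * k * (η / (8 * k + 8))) = 4 * k * η / (8 * k + 8) by ring, div_le_div_iff₀ h7 two_pos]
    nlinarith
  calc |FF w H N y| = |FF w H N y' + (FF w H N y - FF w H N y')| := by
        congr 1
        ring
    _ ≤ |FF w H N y'| + |FF w H N y - FF w H N y'| := abs_add_le _ _
    _ ≤ η / 2 + 2 * (2 * k * (η / (8 * k + 8))) := by linarith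
    _ ≤ η := by linarith

/-- the three error terms -/
lemma three_terms {X : ℝ} (hX : 1 ≤ X) {G L : ℕ} (hG : G = ⌈X⌉₊) (hL : L = ⌈X ^ 2⌉₊) {y₀ : ℝ}
    (hy₀ : X ^ 12 / 2 ≤ y₀) : (1:ℝ) / G + G * L / y₀ ^ ((1:ℝ) / 3) + G / L ≤ 11 / X := by
  have hX0 : 0 < X := by linarith
  have hG1 : X ≤ G := hG ▸ Nat.le_ceil X
  have hG2 : (G:ℝ) ≤ 2 * X := by
    have := (Nat.ceil_lt_add_one hX0.le).le
    rw [← hG] at this
    linarith
  have hX2 : 1 ≤ X ^ 2 := one_le_pow₀ hX
  have hL1 : X ^ 2 ≤ L := hL ▸ Nat.le_ceil (X ^ 2)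
  have hL2 : (L:ℝ) ≤ 2 * X ^ 2 := by
    have := (Nat.ceil_lt_add_one (show 0 ≤ X ^ 2 by positivity)).le
    rw [← hL] at this
    linarith
  have hG0 : (0:ℝ) < G := hX0.trans_le hG1
  have hL0 : (0:ℝ) < L := (by positivity : (0:ℝ) < X ^ 2).trans_le hL1
  have hy : X ^ 4 / 2 ≤ y₀ ^ ((1:ℝ) / 3) := by
    have h1 : (X ^ 4 / 2) ^ (3:ℕ) ≤ y₀ := by
      refine le_trans ?_ hy₀
      have h2 : 0 < X ^ 12 := by positivity
      calc (X ^ 4 / 2) ^ (3:ℕ) = X ^ 12 / 8 := by ring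
        _ ≤ X ^ 12 / 2 := by linarith
    have h3 : X ^ 4 / 2 = ((X ^ 4 / 2) ^ (3:ℕ)) ^ ((1:ℝ) / 3) := by
      have h4 := Real.pow_rpow_inv_natCast (show 0 ≤ X ^ 4 / 2 by positivity)
        (show (3:ℕ) ≠ 0 by norm_num)
      rw [one_div]
      exact_mod_cast h4.symm
    rw [h3]
    exact Real.rpow_le_rpow (by positivity) h1 (by norm_num)
  have t1 : (1:ℝ) / G ≤ 1 / X := one_div_le_one_div_of_le hX0 hG1
  have t2 : G * L / y₀ ^ ((1:ℝ) / 3) ≤ 8 / X := by
    have h1 : (G:ℝ) * L ≤ 2 * X * (2 * X ^ 2) := mul_le_mul hG2 hL2 hL0.le (by positivity)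
    calc G * L / y₀ ^ ((1:ℝ) / 3) ≤ 2 * X * (2 * X ^ 2) / (X ^ 4 / 2) :=
          div_le_div₀ (by positivity) h1 (by positivity) hy
      _ = 8 / X := by
          field_simp
          ring
  have t3 : (G:ℝ) / L ≤ 2 / X := by
    calc (G:ℝ) / L ≤ 2 * X / X ^ 2 := div_le_div₀ (by positivity) hG2 (by positivity) hL1
      _ = 2 / X := by
          field_simp
  calc (1:ℝ) / G + G * L / y₀ ^ ((1:ℝ) / 3) + G / L ≤ 1 / X + 8 / X + 2 / X := by linarith
    _ = 11 / X := by ring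

/-- the measure of a finite union -/
lemma union_bound {ι : Type*} [Fintype ι] {E : ι → Set ℝ} {e : ℝ} (h : ∀ i, (volume (E i)).toReal ≤ e) :
    (volume (⋃ i, E i)).toReal ≤ Fintype.card ι * e := by
  have h1 := measureReal_iUnion_fintype_le (μ := volume) E
  simp only [measureReal_def] at h1
  refine h1.trans ?_
  calc ∑ i, (volume (E i)).toReal ≤ ∑ _i : ι, e := Finset.sum_le_sum fun i _ => h i
    _ = _ := by rw [Finset.sum_const, nsmul_eq_mul, Finset.card_univ]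

/-- the number of grid sets -/
lemma card_grid (G k : ℕ) :
    Fintype.card (Fin (3 * k) → Fin (G + 1) × Fin (G + 1)) = (G + 1) ^ (6 * k) := by
  rw [Fintype.card_fun, Fintype.card_prod, Fintype.card_fin, Fintype.card_fin, ← pow_two, ← pow_mul]
  congr 1
  ring

end AllAAux

open AllAAux Pool.Agent.Lib.P4a7640M Pool.Agent.Lib.P4a7640V in
theorem all_bound (k : ℕ) {a : ℕ → ℝ} (hsep : ∀ p q : ℕ, p.Prime → q.Prime → p ≠ q → 1 ≤ |a p - a q|)
    {δ : ℝ} (hδ : 0 < δ) {H : Finset ℕ} (hH : H.Nonempty) {η : ℝ} (hη : 0 < η) :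
    ∃ j : ℕ, ∃ c' : ℝ, 0 < c' ∧ ∀ᶠ N : ℕ in atTop, ∀ (g : ℕ → ℤˣ) (w : ℕ → ℝ) (u : ℝ),
      (∀ n, |w n| ≤ 1) →
      ∃ E : Set ℝ, MeasurableSet E ∧ E ⊆ Set.Ico u (u + 1) ∧
        (volume E).toReal ≤ Real.exp (-(c' * Real.log N)) ∧
        ∀ α ∈ Set.Ico u (u + 1), α ∉ E → ∀ A : Set ℝ, P4a7640Y.KInt k A → δ ≤ P4a7640Y.dl A →
          ∀ y : SS, (∀ p : ℕ, p.Prime → be N - j ≤ be p →
            y p = g p * P4a7640K.xr (fun _ => A) a α p) → |FF w H N y| ≤ η := by
  classical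
  obtain ⟨j, hj⟩ := real_bound (3 * k + 1) (K := 4) (κ := 1) (by norm_num) one_pos le_rfl
    (a := fun p => |a p|) (fun p => abs_nonneg _) (cnt_sep_abs hsep) (half_pos hδ) hH (half_pos hη)
  obtain ⟨c₂, hc₂, hev⟩ := hj j le_rfl
  obtain ⟨C, hC, hT⟩ := tc_neg (K := 4) (κ := 1) (by norm_num) one_pos le_rfl (cnt_sep_abs hsep) H
  set c₁ : ℝ := min (c₂ / (12 * k + 12)) (1 / (12 * 2 ^ (j + 1))) with hc₁
  have hc₁0 : 0 < c₁ := lt_min (by positivity) (by positivity)
  have hc₁a : 6 * k * c₁ ≤ c₂ / 2 := by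
    have h1 : c₁ ≤ c₂ / (12 * k + 12) := min_le_left _ _
    have h2 : (0:ℝ) < 12 * k + 12 := by positivity
    rw [le_div_iff₀ h2] at h1
    nlinarith
  have hc₁b : 12 * c₁ ≤ 1 / 2 ^ (j + 1) := by
    have h1 : c₁ ≤ 1 / (12 * 2 ^ (j + 1)) := min_le_right _ _
    have h2 : (1:ℝ) / (12 * 2 ^ (j + 1)) = 1 / 2 ^ (j + 1) / 12 := by
      field_simp
    rw [h2] at h1
    linarith
  set e₁ : ℝ := η / (8 * k + 8) with he₁
  have he₁0 : 0 < e₁ := by positivity
  set K₁ : ℝ := 22 * C / e₁ ^ 2 with hK₁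
  refine ⟨j, min (c₁ / 2) (c₂ / 4), lt_min (by positivity) (by positivity), ?_⟩
  filter_upwards [hev, hT, eventually_ge_atTop 3, ev_lam K₁ (half_pos hc₁0),
    ev_const (2 * 3 ^ (6 * k)) (show 0 < c₂ / 4 by positivity),
    ev_const (4 * k / δ + 4 * (H.sup id + 1 : ℕ)) hc₁0] with N hN hTN hN3 hN4 hN5 hN6
  intro g w u hw
  have hlog0 : 0 ≤ Real.log N := Real.log_natCast_nonneg N
  set X : ℝ := Real.exp (c₁ * Real.log N) with hX
  have hX1 : 1 ≤ X := Real.one_le_exp (by positivity)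
  have hX0 : 0 < X := by linarith
  set G : ℕ := ⌈X⌉₊ with hG
  set L : ℕ := ⌈X ^ 2⌉₊ with hL
  have hG1 : X ≤ G := Nat.le_ceil X
  have hG0 : (0:ℝ) < G := hX0.trans_le hG1
  have hGn : 0 < G := by exact_mod_cast hG0
  have hLn : 0 < L := Nat.ceil_pos.2 (by positivity)
  have hG2 : (G:ℝ) + 1 ≤ 3 * X := by
    have := (Nat.ceil_lt_add_one hX0.le).le
    rw [← hG] at this
    linarith
  set y₀ : ℝ := (2:ℝ) ^ (2 ^ (be N - j) : ℕ) / 2 with hy₀
  have hsc : X ^ 12 ≤ (2:ℝ) ^ (2 ^ (be N - j) : ℕ) := by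
    refine le_trans ?_ (scale_ge j (by omega : 1 ≤ N))
    rw [hX, ← Real.exp_nat_mul]
    refine Real.exp_le_exp.2 ?_
    push_cast
    calc 12 * (c₁ * Real.log N) = 12 * c₁ * Real.log N := by ring
      _ ≤ 1 / 2 ^ (j + 1) * Real.log N := mul_le_mul_of_nonneg_right hc₁b hlog0
      _ = _ := by ring
  have hy1 : X ^ 12 / 2 ≤ y₀ := by
    rw [hy₀]
    linarith
  have hyX : X / 2 ≤ y₀ := by
    refine le_trans ?_ hy1
    have : X ≤ X ^ 12 := le_self_pow₀ hX1 (by norm_num)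
    linarith
  have hkδ : 0 ≤ 4 * (k:ℝ) / δ := by positivity
  have hH0 : (0:ℝ) ≤ (H.sup id : ℕ) := Nat.cast_nonneg _
  have hN6' : 4 * (k:ℝ) / δ + 4 * (((H.sup id : ℕ) : ℝ) + 1) ≤ X := by
    push_cast at hN6
    exact hN6
  have hy2 : 1 ≤ y₀ := by linarith
  have hy3 : ∀ h ∈ H, 2 * (h:ℝ) ≤ y₀ := by
    intro h hh
    have h1 : h ≤ H.sup id := Finset.le_sup (f := id) hh
    have h2 : (h:ℝ) ≤ (H.sup id : ℕ) := by exact_mod_cast h1
    linarith
  have hGδ : (2 * k : ℝ) / G ≤ δ / 2 := by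
    have h1 : 4 * (k:ℝ) / δ ≤ G := by linarith
    rw [div_le_iff₀ hδ] at h1
    rw [div_le_div_iff₀ hG0 two_pos]
    linarith
  have hy4 : y₀ < (2:ℝ) ^ (2 ^ (be N - j) : ℕ) := by
    rw [hy₀]
    have : (0:ℝ) < 2 ^ (2 ^ (be N - j) : ℕ) := by positivity
    linarith
  -- the exceptional set of the cells
  set S : ℝ → ℝ := fun α => ∑ i ∈ Finset.range G, TC H N y₀ G i (fun p => α * a p) ^ 2 with hS
  have hSm : Measurable S := Finset.measurable_sum _ fun i _ =>
    (measurable_TC H N y₀ G i a).pow_const 2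
  have hS0 : ∀ α, 0 ≤ S α := fun α => Finset.sum_nonneg fun i _ => sq_nonneg _
  obtain ⟨CT, hCT⟩ := TC_le H N
  have hSb : ∀ α, S α ≤ ∑ _i ∈ Finset.range G, CT ^ 2 := fun α => Finset.sum_le_sum fun i _ =>
    pow_le_pow_left₀ (TC_nonneg _ _ _ _ _ _) (hCT _ _ _ _) 2
  have hI : ∫ α in u..(u + 1), S α ≤ C * lam N ^ 2 * (11 / X) := by
    refine (hTN y₀ hy2 hy3 G L hGn hLn u).trans ?_
    exact mul_le_mul_of_nonneg_left (three_terms hX1 hG hL hy1) (by positivity)
  have hmk := markov hSm hS0 hSb (u := u) (show 0 < e₁ ^ 2 by positivity) hI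
  set ET : Set ℝ := {α | e₁ ^ 2 ≤ S α} ∩ Set.Ico u (u + 1) with hET
  have hETm : MeasurableSet ET := (measurableSet_le measurable_const hSm).inter measurableSet_Ico
  have hETv : (volume ET).toReal ≤ Real.exp (-(min (c₁ / 2) (c₂ / 4) * Real.log N)) / 2 := by
    refine hmk.trans ?_
    have h1 : C * lam N ^ 2 * (11 / X) / e₁ ^ 2 = K₁ * lam N ^ 2 / X / 2 := by
      rw [hK₁]
      field_simp
      ring
    rw [h1]
    refine div_le_div_of_nonneg_right ?_ two_pos.le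
    calc K₁ * lam N ^ 2 / X ≤ Real.exp (c₁ / 2 * Real.log N) / X :=
          div_le_div_of_nonneg_right hN4 hX0.le
      _ = Real.exp (-(c₁ / 2 * Real.log N)) := by
          rw [hX, ← Real.exp_sub]
          congr 1
          ring
      _ ≤ _ := by
          refine Real.exp_le_exp.2 (neg_le_neg ?_)
          exact mul_le_mul_of_nonneg_right (min_le_left _ _) hlog0
  -- the exceptional sets of the grid sets
  have hGi : ∀ i : Fin (3 * k) → Fin (G + 1) × Fin (G + 1), ∃ E : Set ℝ, MeasurableSet E ∧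
      E ⊆ Set.Ico u (u + 1) ∧ (volume E).toReal ≤ Real.exp (-(c₂ * Real.log N)) ∧
      (δ / 2 ≤ P4a7640Y.dl (GS G (3 * k) i) → ∀ α ∈ Set.Ico u (u + 1), α ∉ E → ∀ y : SS,
        (∀ p : ℕ, p.Prime → be N - j ≤ be p →
          y p = g p * P4a7640K.xr (AN a (GS G (3 * k) i)) (fun p => |a p|) α p) →
        |FF w H N y| ≤ η / 2) := by
    intro i
    by_cases h : δ / 2 ≤ P4a7640Y.dl (GS G (3 * k) i)
    · obtain ⟨E, h1, h2, h3, h4⟩ := hN (AN a (GS G (3 * k) i)) g w u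
        (fun p => kint_AN a (kint_GS G (3 * k) i) p)
        (fun p => by rw [dl_AN a (kint_GS G (3 * k) i)]; exact h) hw
      exact ⟨E, h1, h2, h3, fun _ => h4⟩
    · refine ⟨∅, MeasurableSet.empty, Set.empty_subset _, ?_, fun h' => absurd h' h⟩
      rw [measure_empty]
      exact (Real.exp_pos _).le
  choose E hEm hEs hEv hE using hGi
  have hUv : (volume (⋃ i, E i)).toReal ≤
      Real.exp (-(min (c₁ / 2) (c₂ / 4) * Real.log N)) / 2 := by
    refine (union_bound hEv).trans ?_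
    rw [card_grid]
    push_cast
    have h1 : ((G:ℝ) + 1) ^ (6 * k) ≤ (3 * X) ^ (6 * k) := pow_le_pow_left₀ (by positivity) hG2 _
    have h2 : (3 * X) ^ (6 * k) * Real.exp (-(c₂ * Real.log N)) ≤
        3 ^ (6 * k) * Real.exp (-(c₂ / 2 * Real.log N)) := by
      rw [mul_pow, mul_assoc]
      refine mul_le_mul_of_nonneg_left ?_ (by positivity)
      rw [hX, ← Real.exp_nat_mul, ← Real.exp_add]
      refine Real.exp_le_exp.2 ?_
      push_cast
      have h3 : 6 * k * c₁ * Real.log N ≤ c₂ / 2 * Real.log N := mul_le_mul_of_nonneg_right hc₁a hlog0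
      linarith
    have h3 : (3:ℝ) ^ (6 * k) * Real.exp (-(c₂ / 2 * Real.log N)) ≤
        Real.exp (-(c₂ / 4 * Real.log N)) / 2 := by
      have h4 : (3:ℝ) ^ (6 * k) ≤ Real.exp (c₂ / 4 * Real.log N) / 2 := by linarith
      calc (3:ℝ) ^ (6 * k) * Real.exp (-(c₂ / 2 * Real.log N)) ≤
            Real.exp (c₂ / 4 * Real.log N) / 2 * Real.exp (-(c₂ / 2 * Real.log N)) :=
            mul_le_mul_of_nonneg_right h4 (Real.exp_pos _).le
        _ = Real.exp (c₂ / 4 * Real.log N) * Real.exp (-(c₂ / 2 * Real.log N)) / 2 := by ring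
        _ = _ := by
            rw [← Real.exp_add]
            congr 2
            ring
    have h4 : Real.exp (-(c₂ / 4 * Real.log N)) ≤
        Real.exp (-(min (c₁ / 2) (c₂ / 4) * Real.log N)) := by
      refine Real.exp_le_exp.2 (neg_le_neg ?_)
      exact mul_le_mul_of_nonneg_right (min_le_right _ _) hlog0
    have h5 : ((G:ℝ) + 1) ^ (6 * k) * Real.exp (-(c₂ * Real.log N)) ≤
        (3 * X) ^ (6 * k) * Real.exp (-(c₂ * Real.log N)) :=
      mul_le_mul_of_nonneg_right h1 (Real.exp_pos _).le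
    linarith
  refine ⟨ET ∪ ⋃ i, E i, hETm.union (MeasurableSet.iUnion hEm), ?_, ?_, ?_⟩
  · refine Set.union_subset Set.inter_subset_right (Set.iUnion_subset hEs)
  · have h1 := measureReal_union_le (μ := volume) ET (⋃ i, E i)
    simp only [measureReal_def] at h1
    linarith
  · intro α hα hαE A hA hδA y hy
    rw [Set.mem_union, not_or, Set.mem_iUnion, not_exists] at hαE
    have hSα : S α < e₁ ^ 2 := by
      by_contra h
      exact hαE.1 ⟨not_lt.1 h, hα⟩
    refine bound_of (m := be N - j) hN3 hw hη hGn hGδ hy4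
      (fun i hi => hE i hi α hα (hαE.2 i)) ?_ hA hδA hy
    intro c hc
    have h1 : TC H N y₀ G c (fun p => α * a p) ^ 2 ≤ S α :=
      Finset.single_le_sum (f := fun i => TC H N y₀ G i (fun p => α * a p) ^ 2)
        (fun i _ => sq_nonneg _) (Finset.mem_range.2 hc)
    exact (lt_of_pow_lt_pow_left₀ 2 he₁0.le (h1.trans_lt hSα)).le

end Pool.Agent.Lib.P4a7640X
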