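import Mathlib
import Pool.Agent.Lib.P4a7640X.AllA
import Pool.Agent.Lib.P4a7640X.WinM
import Pool.Agent.Lib.P4a7640Y.WAE
import Pool.Agent.Lib.P4a7640N.Final

/-!
# Almost every point

`vanish_sets`: for a fixed `k`, `δ = 1 / m`, `η = 1 / m'`, `H` and a unit interval `[u, u + 1)`, `u ∈ ℤ`: the
measures of the sets `E` at the scales `N = NK l` (`P4a7640.NK`) are summable, so by Borel-Cantelli
(`ae_eventually_notMem`) almost every `α` is outside for all large `l`. For such `α`, `A`, and `y` in the slow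
class let `y'` be `y` for `be p < be N - j` and `g x` otherwise: `FF_change` and `slow_change` give
`|FF w H (NK l) y| ≤ 2 η` for all large `l`. All `η`: the limit along `NK` is `0`; `FF w H N y =
LA (fun n => w n * prodSeq (rnd y) H n) N` (`LA_weight_rnd` in P4a7640Y/WAE.lean), then `interp`. Countable unions
over `k, m, m', H, u` (`ae_all_iff`). The same for a sequence of sets (`real_bound`).
-/

open Filter MeasureTheory Finset Topology

namespace Pool.Agent.Lib.P4a7640X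

open Pool.Agent.Lib.P4a7640 Pool.Agent.Lib.P4a7640D

/-- the slow class: `y` and `x` differ on few primes between `√N` and `N` -/
def SlowC (y x : SS) : Prop := Tendsto (fun N : ℕ => ∑ p ∈ (Finset.Icc 1 N).filter
  (fun p : ℕ => p.Prime ∧ N < p ^ 2 ∧ y p ≠ x p), (1:ℝ) / p) atTop (𝓝 0)

private theorem exp_log_NK_le {c : ℝ} (hc : 0 < c) {l : ℕ} (hl : 1 ≤ l) :
    Real.exp (-(c * Real.log (NK l))) ≤ 24 / c * (1 / (l:ℝ) ^ 2) := by
  have hl0 : (0:ℝ) < l := by exact_mod_cast hl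
  have h1 := exp_le_log_NK l
  have h2 := Real.pow_div_factorial_le_exp (x := Real.sqrt l) (Real.sqrt_nonneg _) 4
  have h3 : Real.sqrt l ^ 4 = (l:ℝ) ^ 2 := by
    rw [show (4:ℕ) = 2 * 2 by norm_num, pow_mul, Real.sq_sqrt hl0.le]
  have h4 : ((Nat.factorial 4 : ℕ) : ℝ) = 24 := by norm_num [Nat.factorial]
  rw [h3, h4] at h2
  have h5 : (l:ℝ) ^ 2 / 24 ≤ Real.log (NK l) := h2.trans h1
  have h6 : c * ((l:ℝ) ^ 2 / 24) ≤ c * Real.log (NK l) := mul_le_mul_of_nonneg_left h5 hc.le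
  have h7 := Real.add_one_le_exp (c * Real.log (NK l))
  have h8 : c * ((l:ℝ) ^ 2 / 24) ≤ Real.exp (c * Real.log (NK l)) := by linarith
  have h9 : 0 < c * ((l:ℝ) ^ 2 / 24) := by positivity
  rw [Real.exp_neg]
  refine (inv_anti₀ h9 h8).trans (le_of_eq ?_)
  field_simp

private theorem summable_exp_NK {c : ℝ} (hc : 0 < c) :
    Summable fun l : ℕ => Real.exp (-(c * Real.log (NK l))) := by
  refine Summable.of_norm_bounded_eventually_nat
    ((Real.summable_one_div_nat_pow.mpr (by norm_num : 1 < 2)).mul_left (24 / c)) ?_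
  filter_upwards [eventually_ge_atTop 1] with l hl
  rw [Real.norm_of_nonneg (Real.exp_pos _).le]
  exact exp_log_NK_le hc hl

/-- Borel-Cantelli along the scales -/
private theorem ae_scales {P : ℕ → ℝ → Prop} {c : ℝ} (hc : 0 < c)
    (h : ∀ᶠ N : ℕ in atTop, ∀ u : ℝ, ∃ E : Set ℝ, MeasurableSet E ∧ E ⊆ Set.Ico u (u + 1) ∧
      (volume E).toReal ≤ Real.exp (-(c * Real.log N)) ∧
        ∀ α ∈ Set.Ico u (u + 1), α ∉ E → P N α) :
    ∀ᵐ α : ℝ, ∀ᶠ l : ℕ in atTop, P (NK l) α := by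
  obtain ⟨l₀, hl₀⟩ := eventually_atTop.mp (tendsto_NK.eventually h)
  have h1 : ∀ u : ℤ, ∀ᵐ α : ℝ, α ∈ Set.Ico (u:ℝ) (u + 1) → ∀ᶠ l : ℕ in atTop, P (NK l) α := by
    intro u
    have h2 : ∀ l : ℕ, ∃ E : Set ℝ, MeasurableSet E ∧ E ⊆ Set.Ico (u:ℝ) (u + 1) ∧
        (volume E).toReal ≤ Real.exp (-(c * Real.log (NK (l + l₀)))) ∧
          ∀ α ∈ Set.Ico (u:ℝ) (u + 1), α ∉ E → P (NK (l + l₀)) α := fun l =>
      hl₀ (l + l₀) (Nat.le_add_left _ _) u
    choose E hE1 hE2 hE3 hE4 using h2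
    have hfin : ∀ l, volume (E l) ≠ ⊤ := by
      intro l
      refine ne_top_of_le_ne_top ?_ (measure_mono (hE2 l))
      rw [Real.volume_Ico]
      exact ENNReal.ofReal_ne_top
    have hsum : Summable fun l => (volume (E l)).toReal :=
      Summable.of_nonneg_of_le (fun _ => ENNReal.toReal_nonneg) hE3
        ((summable_nat_add_iff l₀).2 (summable_exp_NK hc))
    have hne : ∑' l, volume (E l) ≠ ⊤ := by
      have h3 := hsum.tsum_ofReal_ne_top
      have h4 : (fun l => ENNReal.ofReal ((volume (E l)).toReal)) = fun l => volume (E l) := by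
        funext l
        exact ENNReal.ofReal_toReal (hfin l)
      rwa [h4] at h3
    filter_upwards [ae_eventually_notMem hne] with α hα hmem
    obtain ⟨L, hL⟩ := eventually_atTop.mp hα
    rw [eventually_atTop]
    refine ⟨L + l₀, fun l hl => ?_⟩
    have h5 := hE4 (l - l₀) α hmem (hL (l - l₀) (by omega))
    rwa [Nat.sub_add_cancel (by omega : l₀ ≤ l)] at h5
  filter_upwards [ae_all_iff.2 h1] with α hα
  exact hα ⌊α⌋ ⟨Int.floor_le α, Int.lt_floor_add_one α⟩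

/-- the signs of the slow class -/
private theorem slow_small {w : ℕ → ℝ} (hw : ∀ n, |w n| ≤ 1) (H : Finset ℕ) {x y : SS}
    (hyx : SlowC y x) {j : ℕ} {η : ℝ} (hη : 0 < η)
    (h : ∀ᶠ l : ℕ in atTop, ∀ y' : SS, (∀ p : ℕ, p.Prime → be (NK l) - j ≤ be p → y' p = x p) →
      |FF w H (NK l) y'| ≤ η) :
    ∀ᶠ l : ℕ in atTop, |FF w H (NK l) y| ≤ 2 * η := by
  have hε : 0 < η / (8 * ((H.card:ℝ) + 1)) := by positivity
  have h1 := tendsto_NK.eventually (FF_change H j)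
  have h2 := tendsto_NK.eventually ((slow_change hyx j).eventually (eventually_le_nhds hε))
  have h3 : Tendsto (fun N : ℕ => ((H.sup id : ℕ):ℝ) / N) atTop (𝓝 0) :=
    tendsto_natCast_atTop_atTop.const_div_atTop _
  have h4 := tendsto_NK.eventually (h3.eventually (eventually_le_nhds hε))
  filter_upwards [h, h1, h2, h4] with l a1 a2 a3 a4
  obtain ⟨y', hlt, hge⟩ : ∃ y' : SS, (∀ p, be p < be (NK l) - j → y' p = y p) ∧
      ∀ p, be (NK l) - j ≤ be p → y' p = x p :=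
    ⟨fun p => if be p < be (NK l) - j then y p else x p, fun p hp => if_pos hp,
      fun p hp => if_neg (not_lt.2 hp)⟩
  have b1 : |FF w H (NK l) y'| ≤ η := a1 y' fun p _ hp => hge p hp
  have b2 := a2 w hw y y' fun p _ hp => (hlt p hp).symm
  have b3 : (Icc 1 (NK l)).filter (fun p => p.Prime ∧ be (NK l) - j ≤ be p ∧ y p ≠ y' p) =
      (Icc 1 (NK l)).filter (fun p => p.Prime ∧ be (NK l) - j ≤ be p ∧ y p ≠ x p) := by
    refine Finset.filter_congr fun p _ => ?_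
    constructor
    · rintro ⟨c1, c2, c3⟩
      refine ⟨c1, c2, ?_⟩
      rwa [hge p c2] at c3
    · rintro ⟨c1, c2, c3⟩
      refine ⟨c1, c2, ?_⟩
      rwa [hge p c2]
  rw [b3] at b2
  have b4 : 4 * (H.card:ℝ) * (η / (8 * ((H.card:ℝ) + 1)) + η / (8 * ((H.card:ℝ) + 1))) ≤ η := by
    have hc : (0:ℝ) ≤ H.card := Nat.cast_nonneg _
    have e1 : 4 * (H.card:ℝ) * (η / (8 * ((H.card:ℝ) + 1)) + η / (8 * ((H.card:ℝ) + 1))) =
        η * ((H.card:ℝ) / ((H.card:ℝ) + 1)) := by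
      field_simp
      ring
    rw [e1]
    have e2 : (H.card:ℝ) / ((H.card:ℝ) + 1) ≤ 1 := by
      rw [div_le_one (by positivity)]
      linarith
    nlinarith
  have b5 : |FF w H (NK l) y - FF w H (NK l) y'| ≤ η := by
    refine b2.trans (le_trans ?_ b4)
    refine mul_le_mul_of_nonneg_left ?_ (by positivity)
    exact add_le_add a3 a4
  have b6 := abs_sub_abs_le_abs_sub (FF w H (NK l) y) (FF w H (NK l) y')
  linarith

/-- The argument for an abstract family of signs. -/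
private theorem vanish_core {X : Type} (x : X → ℝ → SS) {w : ℕ → ℝ} (hw : ∀ n, |w n| ≤ 1)
    (hb : ∀ H : Finset ℕ, H.Nonempty → ∀ η : ℝ, 0 < η → ∃ j : ℕ, ∃ c : ℝ, 0 < c ∧
      ∀ᶠ N : ℕ in atTop, ∀ (w : ℕ → ℝ) (u : ℝ), (∀ n, |w n| ≤ 1) →
        ∃ E : Set ℝ, MeasurableSet E ∧ E ⊆ Set.Ico u (u + 1) ∧
          (volume E).toReal ≤ Real.exp (-(c * Real.log N)) ∧
          ∀ α ∈ Set.Ico u (u + 1), α ∉ E → ∀ (i : X) (y : SS),
            (∀ p : ℕ, p.Prime → be N - j ≤ be p → y p = x i α p) → |FF w H N y| ≤ η) :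
    ∀ᵐ α : ℝ, ∀ (i : X) (y : SS), SlowC y (x i α) → P4a7640Y.VanishW w (rnd y) := by
  have h1 : ∀ᵐ α : ℝ, ∀ (H : Finset ℕ) (K R b m : ℕ), H.Nonempty → ∃ j : ℕ,
      ∀ᶠ l : ℕ in atTop, ∀ (i : X) (y : SS),
        (∀ p : ℕ, p.Prime → be (NK l) - j ≤ be p → y p = x i α p) →
        |FF (fun n => w (n + K) * (if n % R = b then 1 else 0)) H (NK l) y| ≤ 1 / ((m:ℝ) + 1) := by
    rw [ae_all_iff]
    intro H
    rw [ae_all_iff]
    intro K
    rw [ae_all_iff]
    intro R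
    rw [ae_all_iff]
    intro b
    rw [ae_all_iff]
    intro m
    by_cases hne : H.Nonempty
    · obtain ⟨j, c, hc, hN⟩ := hb H hne (1 / ((m:ℝ) + 1)) (by positivity)
      have hw' : ∀ n, |w (n + K) * (if n % R = b then 1 else 0)| ≤ 1 := by
        intro n
        rw [abs_mul]
        split_ifs
        · rw [abs_one, mul_one]; exact hw _
        · rw [abs_zero, mul_zero]; exact zero_le_one
      have h2 : ∀ᵐ α : ℝ, ∀ᶠ l : ℕ in atTop, ∀ (i : X) (y : SS),
          (∀ p : ℕ, p.Prime → be (NK l) - j ≤ be p → y p = x i α p) →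
          |FF (fun n => w (n + K) * (if n % R = b then 1 else 0)) H (NK l) y| ≤
            1 / ((m:ℝ) + 1) := by
        refine ae_scales (P := fun N α => ∀ (i : X) (y : SS),
          (∀ p : ℕ, p.Prime → be N - j ≤ be p → y p = x i α p) →
          |FF (fun n => w (n + K) * (if n % R = b then 1 else 0)) H N y| ≤
            1 / ((m:ℝ) + 1)) hc ?_
        filter_upwards [hN] with N hN' u
        exact hN' _ u hw'
      filter_upwards [h2] with α hα _
      exact ⟨j, hα⟩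
    · exact Eventually.of_forall fun α h => absurd h hne
  filter_upwards [h1] with α hα i y hy H hne K R b
  have hw' : ∀ n, |w (n + K) * (if n % R = b then 1 else 0)| ≤ 1 := by
    intro n
    rw [abs_mul]
    split_ifs
    · rw [abs_one, mul_one]; exact hw _
    · rw [abs_zero, mul_zero]; exact zero_le_one
  apply interp
  · intro n
    rw [abs_mul, abs_prodSeq, mul_one]
    exact hw' n
  rw [Metric.tendsto_atTop]
  intro ε hε
  obtain ⟨m, hm⟩ := exists_nat_one_div_lt (show 0 < ε / 2 by positivity)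
  obtain ⟨j, hj⟩ := hα H K R b m hne
  have h2 := slow_small hw' H hy (j := j) (η := 1 / ((m:ℝ) + 1)) (by positivity)
    (hj.mono fun l hl y' hy' => hl i y' hy')
  obtain ⟨k0, hk0⟩ := eventually_atTop.mp h2
  refine ⟨k0, fun k hk => ?_⟩
  rw [dist_zero_right, Real.norm_eq_abs, P4a7640Y.LA_weight_rnd]
  have h3 := hk0 k hk
  linarith

theorem vanish_sets {a : ℕ → ℝ}
    (hsep : ∀ p q : ℕ, p.Prime → q.Prime → p ≠ q → 1 ≤ |a p - a q|) (g : ℕ → ℤˣ) {w : ℕ → ℝ}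
    (hw : ∀ n, |w n| ≤ 1) :
    ∀ᵐ α : ℝ, ∀ (k : ℕ) (A : Set ℝ), P4a7640Y.KInt k A → 0 < P4a7640Y.dl A → ∀ y : SS,
      SlowC y (fun p => g p * P4a7640K.xr (fun _ => A) a α p) → P4a7640Y.VanishW w (rnd y) := by
  have h1 : ∀ᵐ α : ℝ, ∀ (k m : ℕ), ∀ (i : {A : Set ℝ // P4a7640Y.KInt k A ∧
      1 / ((m:ℝ) + 1) ≤ P4a7640Y.dl A}) (y : SS),
      SlowC y (fun p => g p * P4a7640K.xr (fun _ => (i : Set ℝ)) a α p) →
        P4a7640Y.VanishW w (rnd y) := by
    rw [ae_all_iff]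
    intro k
    rw [ae_all_iff]
    intro m
    refine vanish_core (X := {A : Set ℝ // P4a7640Y.KInt k A ∧ 1 / ((m:ℝ) + 1) ≤ P4a7640Y.dl A})
      (fun i α p => g p * P4a7640K.xr (fun _ => (i : Set ℝ)) a α p) hw ?_
    intro H hH η hη
    obtain ⟨j, c, hc, hN⟩ := all_bound k hsep (δ := 1 / ((m:ℝ) + 1)) (by positivity) hH hη
    refine ⟨j, c, hc, ?_⟩
    filter_upwards [hN] with N hN' w' u hw'
    obtain ⟨E, e1, e2, e3, e4⟩ := hN' g w' u hw'
    exact ⟨E, e1, e2, e3, fun α hα hαE i y hy => e4 α hα hαE i i.2.1 i.2.2 y hy⟩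
  filter_upwards [h1] with α hα k A hA hd y hy
  obtain ⟨m, hm⟩ := exists_nat_one_div_lt hd
  exact hα k m ⟨A, hA, hm.le⟩ y hy

theorem vanish_seq (k : ℕ) {K κ : ℝ} (hK : 0 < K) (hκ : 0 < κ) (hκ1 : κ ≤ 1) {a : ℕ → ℝ}
    (ha0 : ∀ p, 0 ≤ a p) (ha : P4a7640K.Cnt K κ a) {δ : ℝ} (hδ : 0 < δ) {A : ℕ → Set ℝ}
    (hA : ∀ p, P4a7640Y.KInt k (A p)) (hAδ : ∀ p, δ ≤ P4a7640Y.dl (A p)) (g : ℕ → ℤˣ) {w : ℕ → ℝ}
    (hw : ∀ n, |w n| ≤ 1) :
    ∀ᵐ α : ℝ, ∀ y : SS, SlowC y (fun p => g p * P4a7640K.xr A a α p) →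
      P4a7640Y.VanishW w (rnd y) := by
  have h1 : ∀ᵐ α : ℝ, ∀ (_ : Unit) (y : SS), SlowC y (fun p => g p * P4a7640K.xr A a α p) →
      P4a7640Y.VanishW w (rnd y) := by
    refine vanish_core (X := Unit) (fun _ α p => g p * P4a7640K.xr A a α p) hw ?_
    intro H hH η hη
    obtain ⟨j₀, hj₀⟩ := real_bound k hK hκ hκ1 ha0 ha hδ hH hη
    obtain ⟨c, hc, hN⟩ := hj₀ j₀ le_rfl
    refine ⟨j₀, c, hc, ?_⟩
    filter_upwards [hN] with N hN' w' u hw'
    obtain ⟨E, e1, e2, e3, e4⟩ := hN' A g w' u hA hAδ hw'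
    exact ⟨E, e1, e2, e3, fun α hα hαE _ y hy => e4 α hα hαE y hy⟩
  filter_upwards [h1] with α hα y hy
  exact hα () y hy

end Pool.Agent.Lib.P4a7640X
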