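import Mathlib
import Pool.Agent.Lib.P4a7640X.AeX
import Pool.Agent.Lib.P4a7640K.WK
import Pool.Agent.Lib.P4a7640Y.Gen

/-!
# The conclusion for multiplicative functions

`fair_of_vanish`: the proof of `main_of_moment_x` in P4a7640K/WK.lean (`concl_of_vanish`), from
`VanishW` for the weight `1` and for `w / (|C| + 1)`, with the trivial factor and the trivial
character. `slow_main`, `slow_seq`: `vanish_sets`, `vanish_seq` for both weights.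
-/

open Filter MeasureTheory Finset Topology

namespace Pool.Agent.Lib.P4a7640X

open Pool.Agent.Lib.P4a7640 Pool.Agent.Lib.P4a7640D

theorem fair_of_vanish {f : ℕ → ℤˣ} (hf : MultS f) {y : SS} (hy : ∀ p : ℕ, p.Prime → f p = y p)
    {w : ℕ → ℝ} {C : ℝ} (hw : ∀ n, |w n| ≤ C)
    (h1 : P4a7640Y.VanishW (fun _ => (1:ℝ)) (rnd y))
    (h2 : P4a7640Y.VanishW (fun n => w n / (|C| + 1)) (rnd y)) :
    Aperiodic f ∧ FairSystem f ∧
      ∀ F : (ℤ → SignType) → ℝ, Continuous F → Tendsto (fun N => P4a7640Y.dW w f N F) atTop (𝓝 0) := by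
  have hg : MultS (fun _ : ℕ => (1 : ℤˣ)) := fun _ _ _ _ _ => by rw [one_mul]
  have he : (fun n => (fun _ : ℕ => (1 : ℤˣ)) n * rnd y n) = rnd y := by
    funext n
    rw [one_mul]
  refine P4a7640K.concl_of_vanish (x := y) hg hw (by rw [he]; exact h1) (by rw [he]; exact h2) hf
    ⟨1, one_pos, 1, P4a7640Y.not_tendsto_DD_one fun p hp => ?_⟩
  rw [hy p hp, one_mul, Int.units_mul_self]

lemma abs_div_le_one {w : ℕ → ℝ} {C : ℝ} (hw : ∀ n, |w n| ≤ C) (n : ℕ) :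
    |w n / (|C| + 1)| ≤ 1 := by
  have hC'0 : 0 < |C| + 1 := by positivity
  rw [abs_div, abs_of_pos hC'0, div_le_one hC'0]
  have := hw n
  linarith [le_abs_self C]

/-- all sets at once, real frequencies -/
theorem slow_main {a : ℕ → ℝ}
    (hsep : ∀ p q : ℕ, p.Prime → q.Prime → p ≠ q → 1 ≤ |a p - a q|) (g : ℕ → ℤˣ) {w : ℕ → ℝ} {C : ℝ}
    (hw : ∀ n, |w n| ≤ C) :
    ∀ᵐ α : ℝ, ∀ (k : ℕ) (A : Set ℝ), P4a7640Y.KInt k A → 0 < P4a7640Y.dl A →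
      ∀ f : ℕ → ℤˣ, MultS f → SlowC f (fun p => g p * P4a7640K.xr (fun _ => A) a α p) →
      Aperiodic f ∧ FairSystem f ∧
        ∀ F : (ℤ → SignType) → ℝ, Continuous F → Tendsto (fun N => P4a7640Y.dW w f N F) atTop (𝓝 0) := by
  have h1w : ∀ n : ℕ, |(fun _ : ℕ => (1:ℝ)) n| ≤ 1 := fun n => by simp
  filter_upwards [vanish_sets hsep g h1w, vanish_sets hsep g (abs_div_le_one hw)]
    with α h1 h2 k A hA hd f hf hfs
  exact fair_of_vanish hf (fun _ _ => rfl) hw (h1 k A hA hd f hfs) (h2 k A hA hd f hfs)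

/-- a sequence of sets -/
theorem slow_seq (k : ℕ) {K κ : ℝ} (hK : 0 < K) (hκ : 0 < κ) (hκ1 : κ ≤ 1) {a : ℕ → ℝ}
    (ha0 : ∀ p, 0 ≤ a p) (ha : P4a7640K.Cnt K κ a) {δ : ℝ} (hδ : 0 < δ) {A : ℕ → Set ℝ}
    (hA : ∀ p, P4a7640Y.KInt k (A p)) (hAδ : ∀ p, δ ≤ P4a7640Y.dl (A p)) (g : ℕ → ℤˣ)
    {w : ℕ → ℝ} {C : ℝ} (hw : ∀ n, |w n| ≤ C) :
    ∀ᵐ α : ℝ, ∀ f : ℕ → ℤˣ, MultS f → SlowC f (fun p => g p * P4a7640K.xr A a α p) →
      Aperiodic f ∧ FairSystem f ∧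
        ∀ F : (ℤ → SignType) → ℝ, Continuous F → Tendsto (fun N => P4a7640Y.dW w f N F) atTop (𝓝 0) := by
  have h1w : ∀ n : ℕ, |(fun _ : ℕ => (1:ℝ)) n| ≤ 1 := fun n => by simp
  filter_upwards [vanish_seq k hK hκ hκ1 ha0 ha hδ hA hAδ g h1w,
    vanish_seq k hK hκ hκ1 ha0 ha hδ hA hAδ g (abs_div_le_one hw)] with α h1 h2 f hf hfs
  exact fair_of_vanish hf (fun _ _ => rfl) hw (h1 f hfs) (h2 f hfs)

end Pool.Agent.Lib.P4a7640X
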