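import Mathlib
import Pool.Agent.Lib.P4a7640.Defs

/-!
# The classes of functions and the conclusions of the metric theorems
-/

open Filter Topology

namespace Pool.Agent.Lib.P4a7640X

open Pool.Agent.Lib.P4a7640

open Classical in
/-- `f` is slowly close to `h χ` for some Dirichlet character `χ`: the sum of `1/p` over the primes
`√N < p ≤ N` with `f(p) ≠ h(p) χ(p)` tends to zero. -/
def SlowD (h f : ℕ → ℤˣ) : Prop :=
  ∃ q : ℕ, 0 < q ∧ ∃ χ : DirichletCharacter ℂ q, Tendsto (fun N : ℕ =>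
    ∑ p ∈ (Finset.Icc 1 N).filter (fun p : ℕ => p.Prime ∧ N < p ^ 2 ∧
      ((f p : ℤ) : ℂ) ≠ ((h p : ℤ) : ℂ) * χ (p : ZMod q)), (1:ℝ) / p) atTop (𝓝 0)

/-- `f` is at finite distance from `h χ` for some Dirichlet character `χ`. -/
def FinD (h f : ℕ → ℤˣ) : Prop :=
  ∃ q : ℕ, 0 < q ∧ ∃ χ : DirichletCharacter ℂ q,
    ¬ Tendsto (fun N => DD (fun p => f p * h p) χ 0 N) atTop atTop

/-- `f` is aperiodic, has the `(1/2, 1/2)` Bernoulli shift as unique Furstenberg system, and is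
independent of `w`: for every continuous `F` the logarithmic average of `w(n) F(T^n x_f)` minus the
product of the integral of `F` and the logarithmic average of `w` tends to zero. -/
def Fair (w : ℕ → ℝ) (f : ℕ → ℤˣ) : Prop :=
  Aperiodic f ∧ FairSystem f ∧
    ∀ F : (ℤ → SignType) → ℝ, Continuous F → Tendsto (fun N : ℕ =>
      (∑ n ∈ Finset.Icc 1 N, w n * F (fun i => xf f (i + n)) / n) / Real.log N -
        (∑ n ∈ Finset.Icc 1 N, w n / n) / Real.log N * EE F) atTop (𝓝 0)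

/-- The original form of Chowla's conjecture, with a weight: the averages over `n ≤ N` of
`w(n) ∏_{h ∈ H} f(n+h)` tend to zero, for every nonempty finite `H`. -/
def Chowla (w : ℕ → ℝ) (f : ℕ → ℤˣ) : Prop :=
  ∀ H : Finset ℕ, H.Nonempty → Tendsto (fun N : ℕ =>
    (∑ n ∈ Finset.Icc 1 N, w n * ∏ h ∈ H, ((f (n + h) : ℤ) : ℝ)) / N) atTop (𝓝 0)

/-- If `f` is multiplicative and `f(p) = h(p)` for all primes `p`, then for every nonempty finite `H`
the logarithmic average of `w(n) ∏_{h ∈ H} f(n+h)` is at most `exp (-c(H) √(R(N)))` for large `N`. -/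
def Rate (w R : ℕ → ℝ) (c : Finset ℕ → ℝ) (h : ℕ → ℤˣ) : Prop :=
  ∀ H : Finset ℕ, H.Nonempty → ∀ᶠ N : ℕ in atTop, ∀ f : ℕ → ℤˣ, MultS f →
    (∀ p : ℕ, p.Prime → f p = h p) →
    |(∑ n ∈ Finset.Icc 1 N, w n * (∏ h ∈ H, ((f (n + h) : ℤ) : ℝ)) / n) / Real.log N| ≤
      Real.exp (-(c H * Real.sqrt (R N)))

end Pool.Agent.Lib.P4a7640X
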