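import Mathlib
import Pool.Agent.Lib.P4a7640Ces.FinC
import Pool.Agent.Lib.P4a7640X.ConX
import Pool.Agent.Lib.P4a7640V.FinV

/-!
# The slow class: the final form
-/

open Filter MeasureTheory Topology

namespace Pool.Agent.Lib.P4a7640X

open Pool.Agent.Lib.P4a7640 Pool.Agent.Lib.P4a7640Y Pool.Agent.Lib.P4a7640K
open Pool.Agent.Lib.P4a7640V Pool.Agent.Lib.P4a7640Ces

open Classical in
/-- the base `g`, twisted by the sign of a Dirichlet character -/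
noncomputable def tw (g : ℕ → ℤˣ) {q : ℕ} (χ : DirichletCharacter ℂ q) (p : ℕ) : ℤˣ :=
  g p * (if χ (p : ZMod q) = -1 then -1 else 1)

lemma cast_units_cases (u : ℤˣ) : ((u : ℤ) : ℂ) = 1 ∧ u = 1 ∨ ((u : ℤ) : ℂ) = -1 ∧ u = -1 := by
  rcases Int.units_eq_one_or u with rfl | rfl
  · left; simp
  · right; simp

/-- where `f ≠ g' x` also `f ≠ g x χ` -/
lemma ne_of_ne_tw {g x f : ℕ → ℤˣ} {q : ℕ} (χ : DirichletCharacter ℂ q) {p : ℕ}
    (h : f p ≠ tw g χ p * x p) :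
    ((f p : ℤ) : ℂ) ≠ (((g p * x p : ℤˣ) : ℤ) : ℂ) * χ (p : ZMod q) := by
  intro h1
  apply h
  unfold tw
  rcases cast_units_cases (f p) with ⟨e1, e2⟩ | ⟨e1, e2⟩ <;>
  rcases cast_units_cases (g p * x p) with ⟨e3, e4⟩ | ⟨e3, e4⟩
  · rw [e1, e3, one_mul] at h1
    rw [if_neg (by rw [← h1]; norm_num), mul_one, e4, e2]
  · rw [e1, e3] at h1
    have h2 : χ (p : ZMod q) = -1 := by linear_combination h1
    rw [if_pos h2, mul_assoc, mul_comm (-1 : ℤˣ) (x p), ← mul_assoc, e4, e2]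
    rfl
  · rw [e1, e3, one_mul] at h1
    rw [if_pos h1.symm, mul_assoc, mul_comm (-1 : ℤˣ) (x p), ← mul_assoc, e4, e2]
    rfl
  · rw [e1, e3] at h1
    have h2 : χ (p : ZMod q) = 1 := by linear_combination h1
    rw [if_neg (by rw [h2]; norm_num), mul_one, e4, e2]

/-- the slow class of `g x χ` is contained in the slow class of `g' x` -/
lemma slowC_of_slow {g x f : ℕ → ℤˣ} {q : ℕ} (χ : DirichletCharacter ℂ q) {y : ℕ → ℤˣ}
    (hy : ∀ p : ℕ, p.Prime → x p = y p)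
    (h : Tendsto (fun N : ℕ =>
    ∑ p ∈ (Finset.Icc 1 N).filter (fun p : ℕ => p.Prime ∧ N < p ^ 2 ∧
      ((f p : ℤ) : ℂ) ≠ (((g p * x p : ℤˣ) : ℤ) : ℂ) * χ (p : ZMod q)), (1:ℝ) / p) atTop (𝓝 0)) :
    SlowC f (fun p => tw g χ p * y p) := by
  classical
  unfold SlowC
  refine squeeze_zero (fun N => Finset.sum_nonneg fun p _ => by positivity) (fun N => ?_) h
  refine Finset.sum_le_sum_of_subset_of_nonneg (fun p hp => ?_) fun p _ _ => by positivity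
  rw [Finset.mem_filter] at hp ⊢
  obtain ⟨h1, h2, h3, h4⟩ := hp
  refine ⟨h1, h2, h3, ?_⟩
  beta_reduce at h4
  rw [← hy p h2] at h4
  exact ne_of_ne_tw χ h4

/-- **All finite unions of intervals and all Dirichlet characters simultaneously.** -/
theorem slow_arcs (g : ℕ → ℤˣ) {a : ℕ → ℝ} {d : ℝ} (hd : 0 < d)
    (hsep : ∀ p q : ℕ, p.Prime → q.Prime → p ≠ q → d ≤ |a p - a q|) {w : ℕ → ℝ} {C : ℝ}
    (hw : ∀ n, |w n| ≤ C) :
    ∀ᵐ α : ℝ, ∀ A : Set ℝ,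
      (∃ s : Finset (Set ℝ), (∀ J ∈ s, J.OrdConnected) ∧ A = ⋃ J ∈ s, J) → 0 < dl A →
      ∀ x : ℕ → ℤˣ, (∀ p : ℕ, p.Prime → (x p = -1 ↔ Int.fract (α * a p) ∈ A)) →
        ∀ f : ℕ → ℤˣ, MultS f → SlowD (fun p => g p * x p) f → Fair w f ∧ Chowla w f := by
  classical
  have hsep' : ∀ p q : ℕ, p.Prime → q.Prime → p ≠ q → 1 ≤ |a p / d - a q / d| := by
    intro p q hp hq hne
    rw [← sub_div, abs_div, abs_of_pos hd, le_div_iff₀ hd, one_mul]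
    exact hsep p q hp hq hne
  have h1 : ∀ (q : ℕ) (χ : DirichletCharacter ℂ (q + 1)), ∀ᵐ α : ℝ, ∀ (k : ℕ) (A : Set ℝ),
      KInt k A → 0 < dl A →
      ∀ f : ℕ → ℤˣ, MultS f → SlowC f (fun p => tw g χ p * xr (fun _ => A) (fun p => a p / d) α p) →
      Fair w f ∧ Chowla w f := by
    intro q χ
    filter_upwards [slow_main hsep' (tw g χ) hw, ces_main hsep' (tw g χ) hw] with α h2 h3 k A hk hA f
      hf hs
    obtain ⟨h4, h5, h6⟩ := h2 k A hk hA f hf hs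
    exact ⟨⟨h4, h5, h6⟩, fun H hH => h3 k A hk hA f hf hs H hH⟩
  have h2 : ∀ᵐ α : ℝ, ∀ (q : ℕ) (χ : DirichletCharacter ℂ (q + 1)), ∀ (k : ℕ) (A : Set ℝ),
      KInt k A → 0 < dl A →
      ∀ f : ℕ → ℤˣ, MultS f → SlowC f (fun p => tw g χ p * xr (fun _ => A) (fun p => a p / d) α p) →
      Fair w f ∧ Chowla w f := by
    rw [ae_all_iff]
    intro q
    rw [ae_all_iff]
    exact fun χ => h1 q χ
  filter_upwards [ae_scale hd.ne' h2] with α hα A hA hdl x hx f hf hs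
  obtain ⟨s, hs1, hs2⟩ := hA
  obtain ⟨q, hq, χ, hlim⟩ := hs
  obtain ⟨q, rfl⟩ : ∃ q' : ℕ, q = q' + 1 := ⟨q - 1, by omega⟩
  refine hα q χ s.card A ⟨s, le_rfl, hs1, hs2⟩ hdl f hf (slowC_of_slow χ (fun p hp => ?_) hlim)
  unfold xr
  have h3 : d * α * (a p / d) = α * a p := by
    field_simp
  rw [h3]
  by_cases h4 : Int.fract (α * a p) ∈ A
  · rw [if_pos h4]
    exact (hx p hp).mpr h4
  · rw [if_neg h4]
    rcases Int.units_eq_one_or (x p) with h5 | h5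
    · exact h5
    · exact absurd ((hx p hp).mp h5) h4

/-- the sets after reflection, and a fixed set at the integers that are not prime -/
noncomputable def AR2 (a : ℕ → ℝ) (A : ℕ → Set ℝ) (p : ℕ) : Set ℝ :=
  open Classical in if p.Prime then (if a p < 0 then reflS (A p) else A p) else Set.Ico (1 / 2 : ℝ) 1

lemma kint_AR2 {k : ℕ} {a : ℕ → ℝ} {A : ℕ → Set ℝ} (hA : ∀ p : ℕ, p.Prime → KInt k (A p)) (p : ℕ) :
    KInt (k + 1) (AR2 a A p) := by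
  unfold AR2
  split_ifs with h1 h2
  · exact kint_refl (hA p h1)
  · obtain ⟨s, hs1, hs2, hs3⟩ := hA p h1
    exact ⟨s, by omega, hs2, hs3⟩
  · obtain ⟨s, hs1, hs2, hs3⟩ := kint_half
    exact ⟨s, by omega, hs2, hs3⟩

lemma dl_le_half (A : Set ℝ) : dl A ≤ 1 / 2 := by
  unfold dl
  rcases le_total (volume (A ∩ Set.Ico (0:ℝ) 1)).toReal (1 / 2) with h | h
  · exact (min_le_left _ _).trans h
  · exact (min_le_right _ _).trans (by linarith)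

lemma dl_AR2 {k : ℕ} {a : ℕ → ℝ} {A : ℕ → Set ℝ} (hA : ∀ p : ℕ, p.Prime → KInt k (A p)) {δ : ℝ}
    (hδ : ∀ p : ℕ, p.Prime → δ ≤ dl (A p)) (p : ℕ) : δ ≤ dl (AR2 a A p) := by
  unfold AR2
  split_ifs with h1 h2
  · rw [dl_refl (hA p h1).meas]
    exact hδ p h1
  · exact hδ p h1
  · rw [dl_half]
    exact (hδ 2 Nat.prime_two).trans (dl_le_half _)

open Classical in
lemma xr_AR2 (a : ℕ → ℝ) (A : ℕ → Set ℝ) (α : ℝ) {p : ℕ} (hp : p.Prime) :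
    xr (AR2 a A) (fun p => |a p|) α p = if Int.fract (α * a p) ∈ A p then -1 else 1 := by
  unfold xr AR2
  rw [if_pos hp]
  beta_reduce
  by_cases h : a p < 0
  · rw [if_pos h, abs_of_neg h, mul_neg]
    have h1 := mem_reflS (A p) (α * a p)
    by_cases h2 : Int.fract (α * a p) ∈ A p
    · rw [if_pos h2, if_pos (h1.mpr h2)]
    · rw [if_neg h2, if_neg fun h3 => h2 (h1.mp h3)]
  · rw [if_neg h, abs_of_nonneg (not_lt.mp h)]

/-- **A sequence of sets, all Dirichlet characters simultaneously.** -/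
theorem slow_seq_r (g : ℕ → ℤˣ) (k : ℕ) (K κ : ℝ) (a : ℕ → ℝ) (A : ℕ → Set ℝ) (hκ : 0 < κ)
    (hK : ∀ (x : ℝ) (N : ℕ),
      ({p : ℕ | p.Prime ∧ p ≤ N ∧ x ≤ a p ∧ a p < x + 1}.ncard : ℝ) ≤ K * (N : ℝ) ^ (1 - κ))
    (hA : ∀ p : ℕ, p.Prime → KInt k (A p)) {δ : ℝ} (hδ : 0 < δ)
    (hAδ : ∀ p : ℕ, p.Prime → δ ≤ dl (A p)) {w : ℕ → ℝ} {C : ℝ} (hw : ∀ n, |w n| ≤ C) :
    ∀ᵐ α : ℝ, ∀ x : ℕ → ℤˣ, (∀ p : ℕ, p.Prime → (x p = -1 ↔ Int.fract (α * a p) ∈ A p)) →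
      ∀ f : ℕ → ℤˣ, MultS f → SlowD (fun p => g p * x p) f → Fair w f ∧ Chowla w f := by
  classical
  obtain ⟨hK0, hcnt⟩ := cnt_abs hK
  have h1 : ∀ (q : ℕ) (χ : DirichletCharacter ℂ (q + 1)), ∀ᵐ α : ℝ, ∀ f : ℕ → ℤˣ, MultS f →
      SlowC f (fun p => tw g χ p * xr (AR2 a A) (fun p => |a p|) α p) →
      Fair w f ∧ Chowla w f := by
    intro q χ
    filter_upwards [slow_seq (k + 1) (K := 3 * K + 1) (by linarith) (lt_min hκ one_pos)
      (min_le_right κ 1) (fun p => abs_nonneg (a p)) hcnt hδ (kint_AR2 hA) (dl_AR2 hA hAδ) (tw g χ) hw,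
      cesaro_seq (k + 1) (K := 3 * K + 1) (by linarith) (lt_min hκ one_pos)
      (min_le_right κ 1) (fun p => abs_nonneg (a p)) hcnt hδ (kint_AR2 hA) (dl_AR2 hA hAδ) (tw g χ) hw]
      with α h2 h3 f hf hs
    obtain ⟨h4, h5, h6⟩ := h2 f hf hs
    exact ⟨⟨h4, h5, h6⟩, fun H hH => h3 f hf hs H hH⟩
  have h2 : ∀ᵐ α : ℝ, ∀ (q : ℕ) (χ : DirichletCharacter ℂ (q + 1)), ∀ f : ℕ → ℤˣ, MultS f →
      SlowC f (fun p => tw g χ p * xr (AR2 a A) (fun p => |a p|) α p) →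
      Fair w f ∧ Chowla w f := by
    rw [ae_all_iff]
    intro q
    rw [ae_all_iff]
    exact fun χ => h1 q χ
  filter_upwards [h2] with α hα x hx f hf hs
  obtain ⟨q, hq, χ, hlim⟩ := hs
  obtain ⟨q, rfl⟩ : ∃ q' : ℕ, q = q' + 1 := ⟨q - 1, by omega⟩
  refine hα q χ f hf (slowC_of_slow χ (fun p hp => ?_) hlim)
  rw [xr_AR2 a A α hp]
  by_cases h4 : Int.fract (α * a p) ∈ A p
  · rw [if_pos h4]
    exact (hx p hp).mpr h4
  · rw [if_neg h4]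
    rcases Int.units_eq_one_or (x p) with h5 | h5
    · exact h5
    · exact absurd ((hx p hp).mp h5) h4

/-- the slow class with the trivial character -/
lemma slowD_one {h f : ℕ → ℤˣ} (hs : Tendsto (fun N : ℕ =>
    ∑ p ∈ (Finset.Icc 1 N).filter (fun p : ℕ => p.Prime ∧ N < p ^ 2 ∧ f p ≠ h p), (1:ℝ) / p)
      atTop (𝓝 0)) : SlowD h f := by
  classical
  refine ⟨1, one_pos, 1, hs.congr fun N => ?_⟩
  congr 1
  apply Finset.filter_congr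
  intro p _
  have h2 : (1 : DirichletCharacter ℂ 1) ((p : ℕ) : ZMod 1) = 1 := by
    apply MulChar.one_apply
    rw [Subsingleton.elim ((p : ℕ) : ZMod 1) 1]
    exact isUnit_one
  rw [h2, mul_one]
  have h3 : ((f p : ℤ) : ℂ) = ((h p : ℤ) : ℂ) ↔ f p = h p := by
    constructor
    · intro h4
      have h5 : (f p : ℤ) = (h p : ℤ) := by exact_mod_cast h4
      exact Units.ext h5
    · intro h4
      rw [h4]
  rw [ne_eq, ne_eq, h3]

/-- **The signs `(-1)^⌊α a_p + β⌋`, for all `β` simultaneously: the slow class.** -/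
theorem slow_beta (g : ℕ → ℤˣ) (a : ℕ → ℝ) (d : ℝ) (hd : 0 < d)
    (hsep : ∀ p q : ℕ, p.Prime → q.Prime → p ≠ q → d ≤ |a p - a q|) :
    ∀ᵐ α : ℝ, ∀ (β : ℝ) (f : ℕ → ℤˣ), MultS f →
      Tendsto (fun N : ℕ => ∑ p ∈ (Finset.Icc 1 N).filter (fun p : ℕ => p.Prime ∧ N < p ^ 2 ∧
        f p ≠ g p * (-1) ^ ⌊α * a p + β⌋), (1:ℝ) / p) atTop (𝓝 0) →
      Aperiodic f ∧ FairSystem f ∧ Chowla (fun _ => 1) f := by
  have h := slow_arcs g hd hsep (w := fun _ => 1) (C := 1) (fun n => by simp)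
  have hq : ∀ᵐ α : ℝ, ∀ A : Set ℝ,
      (∃ s : Finset (Set ℝ), (∀ J ∈ s, J.OrdConnected) ∧ A = ⋃ J ∈ s, J) → 0 < dl A →
      ∀ x : ℕ → ℤˣ, (∀ p : ℕ, p.Prime → (x p = -1 ↔ Int.fract (1 / 2 * α * a p) ∈ A)) →
        ∀ f : ℕ → ℤˣ, MultS f → SlowD (fun p => g p * x p) f →
          Fair (fun _ => 1) f ∧ Chowla (fun _ => 1) f := ae_scale (c := 1 / 2) (by norm_num) h
  filter_upwards [hq] with α hα β f hf hfp
  obtain ⟨s, _, hs1, hs2⟩ := kint_rot (β / 2) kint_half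
  obtain ⟨h1, h2⟩ := hα (rotS (β / 2) (Set.Ico (1 / 2 : ℝ) 1)) ⟨s, hs1, hs2⟩
    (by rw [dl_rot _ measurableSet_Ico, dl_half]; norm_num) (fun p => (-1) ^ ⌊α * a p + β⌋)
    (fun p _ => by
      rw [mem_rotS, neg_one_floor_r]
      have h3 : 1 / 2 * α * a p + β / 2 = (α * a p + β) / 2 := by ring
      rw [h3]) f hf (slowD_one hfp)
  exact ⟨h1.1, h1.2.1, h2⟩

end Pool.Agent.Lib.P4a7640X
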