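import Mathlib
import Pool.Agent.Lib.P4a7640X.Fin4

/-!
# The three parts of the final statement
-/

open Filter MeasureTheory Topology

namespace Pool.Agent.Lib.P4a7640X

open Pool.Agent.Lib.P4a7640 Pool.Agent.Lib.P4a7640Y Pool.Agent.Lib.P4a7640K
open Pool.Agent.Lib.P4a7640V

lemma multS_rnd (g : ℕ → ℤˣ) : MultS (rnd g) := fun _ _ hm hn _ => rnd_mul _ hm.ne' hn.ne'

lemma rnd_p (g : ℕ → ℤˣ) {p : ℕ} (hp : p.Prime) : rnd g p = g p := by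
  unfold rnd
  rw [hp.factorization, Finsupp.prod_single_index (by simp), pow_one]

lemma DD_rnd (f g x : ℕ → ℤˣ) {q : ℕ} (χ : DirichletCharacter ℂ q) (N : ℕ) :
    DD (fun p => f p * (rnd g p * x p)) χ 0 N = DD (fun p => f p * (g p * x p)) χ 0 N := by
  unfold DD
  refine Finset.sum_congr rfl fun p hp => ?_
  simp only [rnd_p g (Finset.mem_filter.mp hp).2]

lemma rate_of_con {g x : ℕ → ℤˣ} {w R : ℕ → ℝ} {c : Finset ℕ → ℝ} (h : Con (rnd g) x w R c) :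
    Rate w R c (fun p => g p * x p) := by
  intro H hH
  filter_upwards [h.2 H hH] with N hN f hf hfp
  exact hN f hf fun p hp => by rw [rnd_p g hp]; exact hfp p hp

open Classical in
theorem part_one (g : ℕ → ℤˣ) (a : ℕ → ℝ) {d : ℝ} (hd : 0 < d)
    (hsep : ∀ p q : ℕ, p.Prime → q.Prime → p ≠ q → d ≤ |a p - a q|) :
    ∃ c : Finset ℕ → ℝ, (∀ H, 0 < c H) ∧ ∀ᵐ α : ℝ, ∀ (β : ℝ) (f : ℕ → ℤˣ), MultS f →
        (Tendsto (fun N : ℕ => ∑ p ∈ (Finset.Icc 1 N).filter (fun p : ℕ => p.Prime ∧ N < p ^ 2 ∧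
            f p ≠ g p * (-1) ^ ⌊α * a p + β⌋), (1:ℝ) / p) atTop (𝓝 0) →
          Aperiodic f ∧ FairSystem f ∧ ∀ H : Finset ℕ, H.Nonempty → Tendsto (fun N : ℕ =>
            (∑ n ∈ Finset.Icc 1 N, ∏ h ∈ H, ((f (n + h) : ℤ) : ℝ)) / N) atTop (𝓝 0)) ∧
        ((∀ p : ℕ, p.Prime → f p = g p * (-1) ^ ⌊α * a p + β⌋) →
          ∀ H : Finset ℕ, H.Nonempty → ∀ᶠ N : ℕ in atTop,
            |(∑ n ∈ Finset.Icc 1 N, (∏ h ∈ H, ((f (n + h) : ℤ) : ℝ)) / n) / Real.log N| ≤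
              Real.exp (-(c H * Real.sqrt (Real.log (Real.log N))))) := by
  obtain ⟨c, hc, h⟩ := all_beta (rnd g) (multS_rnd g) a d hd hsep
  refine ⟨c, hc, ?_⟩
  filter_upwards [h, slow_beta g a d hd hsep] with α h1 h2 β f hf
  constructor
  · intro hs
    obtain ⟨h3, h4, h5⟩ := h2 β f hf (by convert hs)
    refine ⟨h3, h4, fun H hH => (h5 H hH).congr fun N => ?_⟩
    simp only [one_mul]
  · intro hfp
    exact (h1 β f hf fun p hp => by rw [rnd_p g hp]; exact hfp p hp).2.2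

theorem part_two (g : ℕ → ℤˣ) (a : ℕ → ℝ) {d : ℝ} (hd : 0 < d)
    (hsep : ∀ p q : ℕ, p.Prime → q.Prime → p ≠ q → d ≤ |a p - a q|) {w : ℕ → ℝ} {C : ℝ}
    (hw : ∀ n, |w n| ≤ C) :
    ∃ c : Set ℝ → Finset ℕ → ℝ, (∀ A H, 0 < c A H) ∧ ∀ᵐ α : ℝ, ∀ A : Set ℝ,
        (∃ s : Finset (Set ℝ), (∀ J ∈ s, J.OrdConnected) ∧ A = ⋃ J ∈ s, J) →
        0 < volume (A ∩ Set.Ico (0:ℝ) 1) → volume (A ∩ Set.Ico (0:ℝ) 1) < 1 →
        ∀ x : ℕ → ℤˣ, (∀ p : ℕ, p.Prime → (x p = -1 ↔ Int.fract (α * a p) ∈ A)) →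
          (∀ f : ℕ → ℤˣ, MultS f → SlowD (fun p => g p * x p) f → Fair w f ∧ Chowla w f) ∧
          Rate w (fun N => Real.log (Real.log N)) (c A) (fun p => g p * x p) := by
  obtain ⟨c, hc, h⟩ := all_arcs (rnd g) (multS_rnd g) hd hsep hw
  refine ⟨c, hc, ?_⟩
  filter_upwards [h, slow_arcs g hd hsep hw] with α h1 h2 A hA h0 h3 x hx
  exact ⟨h2 A hA (dl_pos_of h0 h3) x hx, rate_of_con (h1 A hA (dl_pos_of h0 h3) x hx)⟩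

theorem part_three (g : ℕ → ℤˣ) (k : ℕ) (K κ : ℝ) (a : ℕ → ℝ) (A : ℕ → Set ℝ)
    (hκ : 0 < κ)
    (hK : ∀ (x : ℝ) (N : ℕ),
      ({p : ℕ | p.Prime ∧ p ≤ N ∧ x ≤ a p ∧ a p < x + 1}.ncard : ℝ) ≤ K * (N : ℝ) ^ (1 - κ))
    (hA : ∀ p : ℕ, p.Prime → ∃ s : Finset (Set ℝ), s.card ≤ k ∧ (∀ J ∈ s, J.OrdConnected) ∧
        A p = ⋃ J ∈ s, J) (M : ℕ → ℝ)
    (hMdef : ∀ N, M N = ∑ p ∈ (Finset.Icc 1 N).filter Nat.Prime,
        min (volume (A p ∩ Set.Ico (0:ℝ) 1)).toReal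
          (1 - (volume (A p ∩ Set.Ico (0:ℝ) 1)).toReal) / p)
    (hM : Tendsto (fun N : ℕ => M N / Real.log (Real.log (Real.log N)) ^ 2) atTop atTop)
    {w : ℕ → ℝ} {C : ℝ} (hw : ∀ n, |w n| ≤ C) :
    ∃ c : Finset ℕ → ℝ, (∀ H, 0 < c H) ∧ ∀ᵐ α : ℝ, ∀ x : ℕ → ℤˣ,
        (∀ p : ℕ, p.Prime → (x p = -1 ↔ Int.fract (α * a p) ∈ A p)) →
          (∀ f : ℕ → ℤˣ, MultS f → FinD (fun p => g p * x p) f → Fair w f) ∧
          Rate w M c (fun p => g p * x p) ∧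
          ((∃ δ : ℝ, 0 < δ ∧ ∀ p : ℕ, p.Prime → δ ≤ (volume (A p ∩ Set.Ico (0:ℝ) 1)).toReal ∧
              (volume (A p ∩ Set.Ico (0:ℝ) 1)).toReal ≤ 1 - δ) →
            ∀ f : ℕ → ℤˣ, MultS f → SlowD (fun p => g p * x p) f → Fair w f ∧ Chowla w f) := by
  obtain ⟨c, hc, h⟩ := general_r (rnd g) (multS_rnd g) k K κ a A hκ hK hA M hMdef hM hw
  refine ⟨c, hc, ?_⟩
  have h2 : ∀ᵐ α : ℝ, ((∃ δ : ℝ, 0 < δ ∧ ∀ p : ℕ, p.Prime →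
      δ ≤ (volume (A p ∩ Set.Ico (0:ℝ) 1)).toReal ∧
        (volume (A p ∩ Set.Ico (0:ℝ) 1)).toReal ≤ 1 - δ) →
      ∀ x : ℕ → ℤˣ, (∀ p : ℕ, p.Prime → (x p = -1 ↔ Int.fract (α * a p) ∈ A p)) →
      ∀ f : ℕ → ℤˣ, MultS f → SlowD (fun p => g p * x p) f → Fair w f ∧ Chowla w f) := by
    by_cases hδ : ∃ δ : ℝ, 0 < δ ∧ ∀ p : ℕ, p.Prime → δ ≤ (volume (A p ∩ Set.Ico (0:ℝ) 1)).toReal ∧
        (volume (A p ∩ Set.Ico (0:ℝ) 1)).toReal ≤ 1 - δ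
    · obtain ⟨δ, hδ0, hδ1⟩ := hδ
      filter_upwards [slow_seq_r g k K κ a A hκ hK hA hδ0
        (fun p hp => le_min (hδ1 p hp).1 (by linarith [(hδ1 p hp).2])) hw] with α hα _
      exact hα
    · exact Eventually.of_forall fun α h' => absurd h' hδ
  filter_upwards [h, h2] with α hα hα2 x hx
  have h1 : Con (rnd g) x w M c := hα x hx
  refine ⟨fun f hf hd => ?_, rate_of_con h1, fun hδ f hf hs => hα2 hδ x hx f hf hs⟩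
  obtain ⟨q, hq, χ, hnot⟩ := hd
  exact h1.1 f hf ⟨q, hq, χ, fun hcon => hnot (hcon.congr fun N => DD_rnd f g x χ N)⟩

end Pool.Agent.Lib.P4a7640X
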